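import Pool.Agent.Helper49.Tot.ADefs

/-!
# Lifting a cocycle of units
-/

open CategoryTheory AlgebraicGeometry TopologicalSpace Opposite

universe u

namespace Totaro

variable {p : ℕ} {X : Scheme.{u}}

theorem LiftSys.pm_mul_pm {A : Sys X} (S : LiftSys p A) {V : X.Opens} (x y : A.R V) :
    S.pm V x * S.pm V y = 0 := by
  rw [S.mul_pm, S.π_pm, zero_mul, map_zero]

theorem lift_cocycle {A : Sys X} (S : LiftSys p A) {ι : Type} (U : ι → X.Opens)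
    (hU : ∀ a b, IsAffineOpen (U a ⊓ U b)) (H : CechH2 A U) (g : ∀ a b, A.R (U a ⊓ U b))
    (hg : IsCoc A U g) :
    ∃ G : ∀ a b, S.B.R (U a ⊓ U b), IsCoc S.B U G ∧ ∀ a b, S.π _ (G a b) = g a b := by
  -- units
  have hunit : ∀ a b (V : X.Opens) (hab : V ≤ U a ⊓ U b) (hba : V ≤ U b ⊓ U a),
      A.r hab (g a b) * A.r hba (g b a) = 1 := by
    intro a b V hab hba
    have haa : V ≤ U a ⊓ U a := fun z hz => ⟨(hab hz).1, (hab hz).1⟩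
    rw [hg.rel a b a hab hba haa, hg.one, map_one]
  choose G0 hG0 using fun a b => S.π_surj _ (hU a b) (g a b)
  have hw : ∀ a b c, ∃ w : A.R (U a ⊓ U b ⊓ U c),
      S.B.r (show U a ⊓ U b ⊓ U c ≤ U a ⊓ U b from fun _ h => h.1) (G0 a b) *
        S.B.r (show U a ⊓ U b ⊓ U c ≤ U b ⊓ U c from fun _ h => ⟨h.1.2, h.2⟩) (G0 b c) -
        S.B.r (show U a ⊓ U b ⊓ U c ≤ U a ⊓ U c from fun _ h => ⟨h.1.1, h.2⟩) (G0 a c) =
        S.pm _ w := by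
    intro a b c
    apply S.exact
    rw [map_sub, map_mul, S.π_r, S.π_r, S.π_r, hG0, hG0, hG0, hg.mul, sub_self]
  choose w hw using hw
  set ω : ∀ a b c, A.R (U a ⊓ U b ⊓ U c) := fun a b c =>
    A.r (show U a ⊓ U b ⊓ U c ≤ U c ⊓ U a from fun _ h => ⟨h.2, h.1.1⟩) (g c a) * w a b c with hω
  have hrel0 : ∀ a b c,
      S.B.r (show U a ⊓ U b ⊓ U c ≤ U a ⊓ U b from fun _ h => h.1) (G0 a b) *
        S.B.r (show U a ⊓ U b ⊓ U c ≤ U b ⊓ U c from fun _ h => ⟨h.1.2, h.2⟩) (G0 b c) =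
      S.B.r (show U a ⊓ U b ⊓ U c ≤ U a ⊓ U c from fun _ h => ⟨h.1.1, h.2⟩) (G0 a c) *
        (1 + S.pm _ (ω a b c)) := by
    intro a b c
    rw [mul_add, mul_one, S.mul_pm, S.π_r, hG0, hω]
    simp only
    rw [← mul_assoc, hunit a c, one_mul, ← hw]
    ring
  have hrel : ∀ a b c (V : X.Opens) (hab : V ≤ U a ⊓ U b) (hbc : V ≤ U b ⊓ U c)
      (hac : V ≤ U a ⊓ U c) (hT : V ≤ U a ⊓ U b ⊓ U c),
      S.B.r hab (G0 a b) * S.B.r hbc (G0 b c) =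
        S.B.r hac (G0 a c) * (1 + S.pm _ (A.r hT (ω a b c))) := by
    intro a b c V hab hbc hac hT
    have h := congrArg (S.B.r hT) (hrel0 a b c)
    rw [map_mul, map_mul, map_add, map_one, ← S.pm_r, S.B.r_r, S.B.r_r, S.B.r_r] at h
    exact h
  obtain ⟨η, hη⟩ := H ω (by
    intro a b c d
    have eab : U a ⊓ U b ⊓ U c ⊓ U d ≤ U a ⊓ U b := fun _ h => h.1.1
    have ebc : U a ⊓ U b ⊓ U c ⊓ U d ≤ U b ⊓ U c := fun _ h => ⟨h.1.1.2, h.1.2⟩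
    have ecd : U a ⊓ U b ⊓ U c ⊓ U d ≤ U c ⊓ U d := fun _ h => ⟨h.1.2, h.2⟩
    have eac : U a ⊓ U b ⊓ U c ⊓ U d ≤ U a ⊓ U c := fun _ h => ⟨h.1.1.1, h.1.2⟩
    have ebd : U a ⊓ U b ⊓ U c ⊓ U d ≤ U b ⊓ U d := fun _ h => ⟨h.1.1.2, h.2⟩
    have ead : U a ⊓ U b ⊓ U c ⊓ U d ≤ U a ⊓ U d := fun _ h => ⟨h.1.1.1, h.2⟩
    have eda : U a ⊓ U b ⊓ U c ⊓ U d ≤ U d ⊓ U a := fun _ h => ⟨h.2, h.1.1.1⟩
    have tabc : U a ⊓ U b ⊓ U c ⊓ U d ≤ U a ⊓ U b ⊓ U c := fun _ h => h.1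
    have tabd : U a ⊓ U b ⊓ U c ⊓ U d ≤ U a ⊓ U b ⊓ U d := fun _ h => ⟨h.1.1, h.2⟩
    have tacd : U a ⊓ U b ⊓ U c ⊓ U d ≤ U a ⊓ U c ⊓ U d := fun _ h => ⟨⟨h.1.1.1, h.1.2⟩, h.2⟩
    have tbcd : U a ⊓ U b ⊓ U c ⊓ U d ≤ U b ⊓ U c ⊓ U d := fun _ h => ⟨⟨h.1.1.2, h.1.2⟩, h.2⟩
    have r1 := hrel a b c _ eab ebc eac tabc
    have r2 := hrel a c d _ eac ecd ead tacd
    have r3 := hrel b c d _ ebc ecd ebd tbcd
    have r4 := hrel a b d _ eab ebd ead tabd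
    have m1 := S.pm_mul_pm (A.r tacd (ω a c d)) (A.r tabc (ω a b c))
    have m2 := S.pm_mul_pm (A.r tabd (ω a b d)) (A.r tbcd (ω b c d))
    have key : S.B.r ead (G0 a d) * S.pm _ (A.r tbcd (ω b c d) - A.r tacd (ω a c d) +
        A.r tabd (ω a b d) - A.r tabc (ω a b c)) = 0 := by
      rw [map_sub, map_add, map_sub]
      linear_combination (S.B.r ecd (G0 c d)) * r1 + (1 + S.pm _ (A.r tabc (ω a b c))) * r2 -
        (S.B.r eab (G0 a b)) * r3 - (1 + S.pm _ (A.r tbcd (ω b c d))) * r4 -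
        S.B.r ead (G0 a d) * m2 + S.B.r ead (G0 a d) * m1
    rw [S.mul_pm, S.π_r, hG0] at key
    have h0 : A.r ead (g a d) * (A.r tbcd (ω b c d) - A.r tacd (ω a c d) +
        A.r tabd (ω a b d) - A.r tabc (ω a b c)) = 0 := by
      apply S.pm_inj
      rw [key, map_zero]
    have h1 := congrArg (fun t => A.r eda (g d a) * t) h0
    simp only [mul_zero] at h1
    rw [← mul_assoc, hunit d a _ eda ead, one_mul] at h1
    exact h1)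
  have hco : ∀ a b c,
      S.B.r (show U a ⊓ U b ⊓ U c ≤ U a ⊓ U b from fun _ h => h.1)
        (G0 a b * (1 - S.pm _ (η a b))) *
      S.B.r (show U a ⊓ U b ⊓ U c ≤ U b ⊓ U c from fun _ h => ⟨h.1.2, h.2⟩)
        (G0 b c * (1 - S.pm _ (η b c))) =
      S.B.r (show U a ⊓ U b ⊓ U c ≤ U a ⊓ U c from fun _ h => ⟨h.1.1, h.2⟩)
        (G0 a c * (1 - S.pm _ (η a c))) := by
    intro a b c
    simp only [map_mul, map_sub, map_one, ← S.pm_r]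
    have r1 := hrel0 a b c
    have r2 : S.pm _ (ω a b c) =
        S.pm _ (A.r (show U a ⊓ U b ⊓ U c ≤ U b ⊓ U c from fun _ h => ⟨h.1.2, h.2⟩) (η b c)) -
        S.pm _ (A.r (show U a ⊓ U b ⊓ U c ≤ U a ⊓ U c from fun _ h => ⟨h.1.1, h.2⟩) (η a c)) +
        S.pm _ (A.r (show U a ⊓ U b ⊓ U c ≤ U a ⊓ U b from fun _ h => h.1) (η a b)) := by
      rw [hη a b c, map_add, map_sub]
    have m1 := S.pm_mul_pm
      (A.r (show U a ⊓ U b ⊓ U c ≤ U a ⊓ U b from fun _ h => h.1) (η a b))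
      (A.r (show U a ⊓ U b ⊓ U c ≤ U b ⊓ U c from fun _ h => ⟨h.1.2, h.2⟩) (η b c))
    have m2 := S.pm_mul_pm (ω a b c)
      (A.r (show U a ⊓ U b ⊓ U c ≤ U a ⊓ U b from fun _ h => h.1) (η a b))
    have m3 := S.pm_mul_pm (ω a b c)
      (A.r (show U a ⊓ U b ⊓ U c ≤ U b ⊓ U c from fun _ h => ⟨h.1.2, h.2⟩) (η b c))
    generalize S.B.r (show U a ⊓ U b ⊓ U c ≤ U a ⊓ U b from fun _ h => h.1) (G0 a b) = gab at *
    generalize S.B.r (show U a ⊓ U b ⊓ U c ≤ U b ⊓ U c from fun _ h => ⟨h.1.2, h.2⟩)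
      (G0 b c) = gbc at *
    generalize S.B.r (show U a ⊓ U b ⊓ U c ≤ U a ⊓ U c from fun _ h => ⟨h.1.1, h.2⟩)
      (G0 a c) = gac at *
    generalize S.pm _ (ω a b c) = o at *
    generalize S.pm _ (A.r (show U a ⊓ U b ⊓ U c ≤ U a ⊓ U b from fun _ h => h.1)
      (η a b)) = x at *
    generalize S.pm _ (A.r (show U a ⊓ U b ⊓ U c ≤ U b ⊓ U c from fun _ h => ⟨h.1.2, h.2⟩)
      (η b c)) = y at *
    generalize S.pm _ (A.r (show U a ⊓ U b ⊓ U c ≤ U a ⊓ U c from fun _ h => ⟨h.1.1, h.2⟩)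
      (η a c)) = z at *
    linear_combination (1 - x) * (1 - y) * r1 + gac * r2 + gac * (1 + o) * m1 - gac * m2 -
      gac * m3
  refine ⟨fun a b => G0 a b * (1 - S.pm _ (η a b)), ⟨?_, hco⟩, ?_⟩
  · intro a
    have e1 : U a ⊓ U a ≤ U a ⊓ U a ⊓ U a := fun z hz => ⟨hz, hz.1⟩
    have h1 := congrArg (S.B.r e1) (hco a a a)
    rw [map_mul, S.B.r_r, S.B.r_self] at h1
    obtain ⟨x, hx⟩ := S.exact _ (G0 a a * (1 - S.pm _ (η a a)) - 1) (by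
      rw [map_sub, map_mul, map_sub, map_one, S.π_pm, hG0, hg.one, sub_zero, one_mul, sub_self])
    have h2 : G0 a a * (1 - S.pm _ (η a a)) = 1 + S.pm _ x := by
      rw [← hx]
      ring
    have h3 := S.pm_mul_pm x x
    rw [h2] at h1 ⊢
    linear_combination h1 - h3
  · intro a b
    rw [map_mul, map_sub, map_one, S.π_pm, hG0, sub_zero, mul_one]

end Totaro
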