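import Pool.Agent.Helper49.Tot.ADefs

/-!
# The lift of sheaves given by a lift of schemes
-/

open CategoryTheory AlgebraicGeometry TopologicalSpace Opposite

universe u

namespace Totaro

namespace A2

section Lift

variable {p : ℕ} {k Λ : Type u} [CommRing k] [CommRing Λ] {q : Λ →+* k}
variable {Y Z : Scheme.{u}} {g : Y ⟶ Spec (.of k)} {f : Z ⟶ Spec (.of Λ)} {i : Y ⟶ Z}

theorem pre_le {W W' : Z.Opens} {U : Y.Opens} (hWU : i ⁻¹ᵁ W = U) (h : W' ≤ W) :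
    i ⁻¹ᵁ W' ≤ U := by
  rw [← hWU]
  exact fun _ hx => h hx

theorem app_res' {W W' : Z.Opens} {U : Y.Opens} (hWU : i ⁻¹ᵁ W = U) (h : W' ≤ W)
    (b : Γ(Z, W)) : i.app W' (res h b) = res (pre_le hWU h) (piY i hWU b) := by
  subst hWU
  show _ = res _ (res _ (i.app W b))
  rw [app_res, res_res]

/-- sections of `Y` are determined on the preimages of affine opens of `Z` -/
theorem eq_of_pre {W : Z.Opens} {U : Y.Opens} (hWU : i ⁻¹ᵁ W = U) (s t : Γ(Y, U))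
    (hst : ∀ (W' : Z.Opens) (_ : IsAffineOpen W') (hW : W' ≤ W),
      res (pre_le hWU hW) s = res (pre_le hWU hW) t) : s = t := by
  subst hWU
  let ι := {W' : Z.Opens // IsAffineOpen W' ∧ W' ≤ W}
  refine Y.sheaf.eq_of_locally_eq' (fun w : ι => i ⁻¹ᵁ w.1) (i ⁻¹ᵁ W)
    (fun w => homOfLE (show i ⁻¹ᵁ w.1 ≤ i ⁻¹ᵁ W from fun _ hx => w.2.2 hx)) ?_ s t ?_
  · intro z hz
    obtain ⟨_, ⟨V, hV, rfl⟩, hzW, hWV⟩ := Z.isBasis_affineOpens.exists_subset_of_mem_open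
      (show i z ∈ (W : Set Z) from hz) W.2
    exact Opens.mem_iSup.2 ⟨⟨V, hV, hWV⟩, hzW⟩
  · intro w
    exact hst w.1 w.2.1 w.2.2

/-- gluing of sections of `Y` given on the preimages of affine opens of `Z` -/
theorem glue_pre {W : Z.Opens} {U : Y.Opens} (hWU : i ⁻¹ᵁ W = U)
    (t : ∀ (W' : Z.Opens) (_ : IsAffineOpen W') (_ : W' ≤ W), Γ(Y, i ⁻¹ᵁ W'))
    (ht : ∀ (W' W'' : Z.Opens) (h : IsAffineOpen W') (h' : IsAffineOpen W'') (hW : W' ≤ W)
      (hW' : W'' ≤ W) (hWW : W'' ≤ W'), res (show i ⁻¹ᵁ W'' ≤ i ⁻¹ᵁ W' from fun _ hx => hWW hx)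
        (t W' h hW) = t W'' h' hW') :
    ∃ x : Γ(Y, U), ∀ (W' : Z.Opens) (h : IsAffineOpen W') (hW : W' ≤ W),
      res (pre_le hWU hW) x = t W' h hW := by
  subst hWU
  let ι := {W' : Z.Opens // IsAffineOpen W' ∧ W' ≤ W}
  have hcov : i ⁻¹ᵁ W ≤ iSup (fun w : ι => i ⁻¹ᵁ w.1) := by
    intro z hz
    obtain ⟨_, ⟨V, hV, rfl⟩, hzW, hWV⟩ := Z.isBasis_affineOpens.exists_subset_of_mem_open
      (show i z ∈ (W : Set Z) from hz) W.2
    exact Opens.mem_iSup.2 ⟨⟨V, hV, hWV⟩, hzW⟩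
  obtain ⟨x, hx, -⟩ := Y.sheaf.existsUnique_gluing' (fun w : ι => i ⁻¹ᵁ w.1) (i ⁻¹ᵁ W)
    (fun w => homOfLE (show i ⁻¹ᵁ w.1 ≤ i ⁻¹ᵁ W from fun _ hx => w.2.2 hx))
    hcov (fun w => t w.1 w.2.1 w.2.2) (by
      intro w w'
      refine eq_of_pre (i := i) (W := w.1 ⊓ w'.1) (U := i ⁻¹ᵁ w.1 ⊓ i ⁻¹ᵁ w'.1) rfl _ _ ?_
      intro V hV hVW
      have h1 : V ≤ w.1 := hVW.trans inf_le_left
      have h2 : V ≤ w'.1 := hVW.trans inf_le_right
      have e1 : res (pre_le (i := i) (U := i ⁻¹ᵁ w.1 ⊓ i ⁻¹ᵁ w'.1) rfl hVW)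
          (res inf_le_left (t w.1 w.2.1 w.2.2)) = t V hV (h1.trans w.2.2) := by
        rw [res_res]
        exact ht _ _ _ _ _ _ h1
      have e2 : res (pre_le (i := i) (U := i ⁻¹ᵁ w.1 ⊓ i ⁻¹ᵁ w'.1) rfl hVW)
          (res inf_le_right (t w'.1 w'.2.1 w'.2.2)) = t V hV (h2.trans w'.2.2) := by
        rw [res_res]
        exact ht _ _ _ _ _ _ h2
      exact e1.trans e2.symm)
  exact ⟨x, fun W' h hW => hx ⟨W', h, hW⟩⟩

theorem loc_surj (hq : IsLen2 p q)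
    (h : IsPullback i g f (Spec.map (CommRingCat.ofHom q))) {W' : Z.Opens}
    (hW' : IsAffineOpen W') (y : Γ(Y, i ⁻¹ᵁ W')) : ∃ x : Γ(Z, W'), i.app W' x = y := by
  have hcl := isClosedImmersion_i hq h
  exact Scheme.Hom.app_surjective i W' hW' y

theorem p_mul_eq (hq : IsLen2 p q)
    (h : IsPullback i g f (Spec.map (CommRingCat.ofHom q))) {V : Z.Opens} (hV : IsAffineOpen V)
    (x y : Γ(Z, V)) (hxy : i.app V x = i.app V y) : (p : Γ(Z, V)) * x = p * y := by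
  obtain ⟨z, hz⟩ := affine_ker hq h hV (x - y) (by rw [map_sub, hxy, sub_self])
  have h1 : (p : Γ(Z, V)) * (x - y) = 0 := by
    rw [hz, ← mul_assoc, ← sq, p_sq hq f V, zero_mul]
  rw [mul_sub] at h1
  exact sub_eq_zero.1 h1

/-- `b` is `p` times `y` -/
def IsPm (p : ℕ) {W : Z.Opens} {U : Y.Opens} (hWU : i ⁻¹ᵁ W = U) (y : Γ(Y, U)) (b : Γ(Z, W)) :
    Prop :=
  ∀ (W' : Z.Opens) (_ : IsAffineOpen W') (h : W' ≤ W) (x : Γ(Z, W')),
    i.app W' x = res (pre_le hWU h) y → res h b = p * x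

/-- `b` is the `p`-th power of the lifts of `y` -/
def IsTau (p : ℕ) {W : Z.Opens} {U : Y.Opens} (hWU : i ⁻¹ᵁ W = U) (y : Γ(Y, U)) (b : Γ(Z, W)) :
    Prop :=
  ∀ (W' : Z.Opens) (_ : IsAffineOpen W') (h : W' ≤ W) (x : Γ(Z, W')),
    i.app W' x = res (pre_le hWU h) y → res h b = x ^ p

theorem exists_pm (hq : IsLen2 p q)
    (h : IsPullback i g f (Spec.map (CommRingCat.ofHom q))) {W : Z.Opens} {U : Y.Opens}
    (hWU : i ⁻¹ᵁ W = U) (y : Γ(Y, U)) : ∃ b, IsPm p hWU y b := by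
  choose x hx using fun (W' : Z.Opens) (hW' : IsAffineOpen W') (hW : W' ≤ W) =>
    loc_surj hq h hW' (res (pre_le hWU hW) y)
  obtain ⟨b, hb⟩ := glue_affine W (fun W' hW' hW => (p : Γ(Z, W')) * x W' hW' hW) (by
    intro W1 W2 h1 h2 hW1 hW2 hWW
    rw [map_mul, map_natCast]
    apply p_mul_eq hq h h2
    rw [app_res, hx, hx, res_res])
  refine ⟨b, fun W' hW' hW z hz => ?_⟩
  rw [hb W' hW' hW]
  apply p_mul_eq hq h hW'
  rw [hx, hz]

theorem exists_tau (hq : IsLen2 p q)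
    (h : IsPullback i g f (Spec.map (CommRingCat.ofHom q))) {W : Z.Opens} {U : Y.Opens}
    (hWU : i ⁻¹ᵁ W = U) (y : Γ(Y, U)) : ∃ b, IsTau p hWU y b := by
  choose x hx using fun (W' : Z.Opens) (hW' : IsAffineOpen W') (hW : W' ≤ W) =>
    loc_surj hq h hW' (res (pre_le hWU hW) y)
  obtain ⟨b, hb⟩ := glue_affine W (fun W' hW' hW => x W' hW' hW ^ p) (by
    intro W1 W2 h1 h2 hW1 hW2 hWW
    rw [map_pow]
    apply affine_pow hq h h2
    rw [app_res, hx, hx, res_res])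
  refine ⟨b, fun W' hW' hW z hz => ?_⟩
  rw [hb W' hW' hW]
  apply affine_pow hq h hW'
  rw [hx, hz]

theorem IsPm.unique (hq : IsLen2 p q)
    (h : IsPullback i g f (Spec.map (CommRingCat.ofHom q))) {W : Z.Opens} {U : Y.Opens}
    {hWU : i ⁻¹ᵁ W = U} {y : Γ(Y, U)} {b b' : Γ(Z, W)} (hb : IsPm p hWU y b)
    (hb' : IsPm p hWU y b') : b = b' := by
  apply eq_of_affine
  intro W' hW' hW
  obtain ⟨x, hx⟩ := loc_surj hq h hW' (res (pre_le hWU hW) y)
  rw [hb W' hW' hW x hx, hb' W' hW' hW x hx]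

theorem IsTau.unique (hq : IsLen2 p q)
    (h : IsPullback i g f (Spec.map (CommRingCat.ofHom q))) {W : Z.Opens} {U : Y.Opens}
    {hWU : i ⁻¹ᵁ W = U} {y : Γ(Y, U)} {b b' : Γ(Z, W)} (hb : IsTau p hWU y b)
    (hb' : IsTau p hWU y b') : b = b' := by
  apply eq_of_affine
  intro W' hW' hW
  obtain ⟨x, hx⟩ := loc_surj hq h hW' (res (pre_le hWU hW) y)
  rw [hb W' hW' hW x hx, hb' W' hW' hW x hx]

theorem IsPm.add (hq : IsLen2 p q)
    (h : IsPullback i g f (Spec.map (CommRingCat.ofHom q))) {W : Z.Opens} {U : Y.Opens}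
    {hWU : i ⁻¹ᵁ W = U} {y y' : Γ(Y, U)} {b b' : Γ(Z, W)} (hb : IsPm p hWU y b)
    (hb' : IsPm p hWU y' b') : IsPm p hWU (y + y') (b + b') := by
  intro W' hW' hW z hz
  obtain ⟨x, hx⟩ := loc_surj hq h hW' (res (pre_le hWU hW) y)
  obtain ⟨x', hx'⟩ := loc_surj hq h hW' (res (pre_le hWU hW) y')
  rw [map_add, hb W' hW' hW x hx, hb' W' hW' hW x' hx', ← mul_add]
  apply p_mul_eq hq h hW'
  rw [map_add, hx, hx', hz, map_add]

theorem IsPm.restrict {W W2 : Z.Opens} {U U2 : Y.Opens} {hWU : i ⁻¹ᵁ W = U}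
    (hWU2 : i ⁻¹ᵁ W2 = U2) (hW2 : W2 ≤ W) (hU2 : U2 ≤ U) {y : Γ(Y, U)} {b : Γ(Z, W)}
    (hb : IsPm p hWU y b) : IsPm p hWU2 (res hU2 y) (res hW2 b) := by
  intro W' hW' hW z hz
  rw [res_res]
  apply hb W' hW'
  rw [hz, res_res]

theorem IsTau.restrict {W W2 : Z.Opens} {U U2 : Y.Opens} {hWU : i ⁻¹ᵁ W = U}
    (hWU2 : i ⁻¹ᵁ W2 = U2) (hW2 : W2 ≤ W) (hU2 : U2 ≤ U) {y : Γ(Y, U)} {b : Γ(Z, W)}
    (hb : IsTau p hWU y b) : IsTau p hWU2 (res hU2 y) (res hW2 b) := by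
  intro W' hW' hW z hz
  rw [res_res]
  apply hb W' hW'
  rw [hz, res_res]

theorem IsPm.mul (hq : IsLen2 p q)
    (h : IsPullback i g f (Spec.map (CommRingCat.ofHom q))) {W : Z.Opens} {U : Y.Opens}
    {hWU : i ⁻¹ᵁ W = U} {y : Γ(Y, U)} {b : Γ(Z, W)} (hb : IsPm p hWU y b) (c : Γ(Z, W)) :
    IsPm p hWU (piY i hWU c * y) (c * b) := by
  intro W' hW' hW z hz
  obtain ⟨x, hx⟩ := loc_surj hq h hW' (res (pre_le hWU hW) y)
  rw [map_mul, hb W' hW' hW x hx]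
  have h1 : res hW c * (↑p * x) = p * (res hW c * x) := by ring
  rw [h1]
  apply p_mul_eq hq h hW'
  rw [map_mul, hx, hz, map_mul, app_res' hWU hW]

theorem IsPm.pi_zero (hq : IsLen2 p q)
    (h : IsPullback i g f (Spec.map (CommRingCat.ofHom q))) {W : Z.Opens} {U : Y.Opens}
    {hWU : i ⁻¹ᵁ W = U} {y : Γ(Y, U)} {b : Γ(Z, W)} (hb : IsPm p hWU y b) :
    piY i hWU b = 0 := by
  apply eq_of_pre hWU
  intro W' hW' hW
  obtain ⟨x, hx⟩ := loc_surj hq h hW' (res (pre_le hWU hW) y)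
  rw [← app_res' hWU hW, hb W' hW' hW x hx, map_mul, map_natCast, p_zero hq g, zero_mul, map_zero]

theorem IsPm.eq_zero (hq : IsLen2 p q) (hf : Flat f)
    (h : IsPullback i g f (Spec.map (CommRingCat.ofHom q))) {W : Z.Opens} {U : Y.Opens}
    {hWU : i ⁻¹ᵁ W = U} {y : Γ(Y, U)} (hb : IsPm p hWU y 0) : y = 0 := by
  apply eq_of_pre hWU
  intro W' hW' hW
  obtain ⟨x, hx⟩ := loc_surj hq h hW' (res (pre_le hWU hW) y)
  have h1 := hb W' hW' hW x hx
  rw [map_zero] at h1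
  obtain ⟨z, hz⟩ := affine_ann hq hf hW' x h1.symm
  rw [← hx, hz, map_mul, map_natCast, p_zero hq g, zero_mul, map_zero]

theorem exists_of_pi_zero (hq : IsLen2 p q) (hf : Flat f)
    (h : IsPullback i g f (Spec.map (CommRingCat.ofHom q))) {W : Z.Opens} {U : Y.Opens}
    (hWU : i ⁻¹ᵁ W = U) (b : Γ(Z, W)) (hb : piY i hWU b = 0) : ∃ y, IsPm p hWU y b := by
  have h1 : ∀ (W' : Z.Opens) (_ : IsAffineOpen W') (hW : W' ≤ W), ∃ x : Γ(Z, W'),
      res hW b = p * x := by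
    intro W' hW' hW
    apply affine_ker hq h hW'
    rw [app_res' hWU hW, hb, map_zero]
  choose x hx using h1
  have h2 : ∀ (W' : Z.Opens) (_ : IsAffineOpen W') (a c : Γ(Z, W')), (p : Γ(Z, W')) * a = p * c →
      i.app W' a = i.app W' c := by
    intro W' hW' a c hac
    obtain ⟨z, hz⟩ := affine_ann hq hf hW' (a - c) (by rw [mul_sub, hac, sub_self])
    have h3 : i.app W' (a - c) = 0 := by
      rw [hz, map_mul, map_natCast, p_zero hq g, zero_mul]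
    rw [map_sub] at h3
    exact sub_eq_zero.1 h3
  obtain ⟨y, hy⟩ := glue_pre hWU (fun W' hW' hW => i.app W' (x W' hW' hW)) (by
    intro W1 W2 h1 h2' hW1 hW2 hWW
    rw [← app_res i hWW]
    apply h2 W2 h2'
    rw [← hx W2 h2' hW2, ← res_res hWW hW1, hx W1 h1 hW1, map_mul, map_natCast])
  refine ⟨y, fun W' hW' hW z hz => ?_⟩
  rw [hx W' hW' hW]
  apply p_mul_eq hq h hW'
  rw [hz, hy W' hW' hW]

theorem IsTau.pi (hq : IsLen2 p q)
    (h : IsPullback i g f (Spec.map (CommRingCat.ofHom q))) {W : Z.Opens} {U : Y.Opens}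
    {hWU : i ⁻¹ᵁ W = U} {y : Γ(Y, U)} {b : Γ(Z, W)} (hb : IsTau p hWU y b) :
    piY i hWU b = y ^ p := by
  apply eq_of_pre hWU
  intro W' hW' hW
  obtain ⟨x, hx⟩ := loc_surj hq h hW' (res (pre_le hWU hW) y)
  rw [← app_res' hWU hW, hb W' hW' hW x hx, map_pow, map_pow, hx]

theorem IsTau.mul (hq : IsLen2 p q)
    (h : IsPullback i g f (Spec.map (CommRingCat.ofHom q))) {W : Z.Opens} {U : Y.Opens}
    {hWU : i ⁻¹ᵁ W = U} {y y' : Γ(Y, U)} {b b' : Γ(Z, W)} (hb : IsTau p hWU y b)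
    (hb' : IsTau p hWU y' b') : IsTau p hWU (y * y') (b * b') := by
  intro W' hW' hW z hz
  obtain ⟨x, hx⟩ := loc_surj hq h hW' (res (pre_le hWU hW) y)
  obtain ⟨x', hx'⟩ := loc_surj hq h hW' (res (pre_le hWU hW) y')
  rw [map_mul, hb W' hW' hW x hx, hb' W' hW' hW x' hx', ← mul_pow]
  apply affine_pow hq h hW'
  rw [map_mul, hx, hx', hz, map_mul]

theorem IsTau.add [Fact p.Prime] (hq : IsLen2 p q)
    (h : IsPullback i g f (Spec.map (CommRingCat.ofHom q))) {W : Z.Opens} {U : Y.Opens}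
    {hWU : i ⁻¹ᵁ W = U} {y y' : Γ(Y, U)} {b b' c : Γ(Z, W)} (hb : IsTau p hWU y b)
    (hb' : IsTau p hWU y' b') (hc : IsPm p hWU (bet p y y') c) :
    IsTau p hWU (y + y') (b + b' + c) := by
  intro W' hW' hW z hz
  obtain ⟨x, hx⟩ := loc_surj hq h hW' (res (pre_le hWU hW) y)
  obtain ⟨x', hx'⟩ := loc_surj hq h hW' (res (pre_le hWU hW) y')
  have h1 : res hW c = p * bet p x x' := by
    apply hc W' hW' hW
    have h2 := bet_map (p := p) (i.app W').hom x x'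
    have h3 := bet_map (p := p) (res (pre_le hWU hW)) y y'
    refine h2.trans ?_
    rw [h3, ← hx, ← hx']
  rw [map_add, map_add, hb W' hW' hW x hx, hb' W' hW' hW x' hx', h1, ← bet_spec]
  apply affine_pow hq h hW'
  rw [map_add, hx, hx', hz, map_add]

end Lift

end A2

open A2

theorem exists_liftSys {p : ℕ} {X : Scheme.{u}} [Fact p.Prime] {k Λ : Type u} [CommRing k]
    [CommRing Λ] {q : Λ →+* k}
    (hq : IsLen2 p q) {Y : Scheme.{u}} (f : Y ⟶ X) [IsAffineHom f] (g : Y ⟶ Spec (.of k))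
    (h : LiftsTo Λ q Y g) : Nonempty (LiftSys p (pushSys f)) := by
  obtain ⟨Z, fZ, i, hflat, hpb⟩ := h
  choose zo hzo using fun V : X.Opens => exists_preimage hq hpb (f ⁻¹ᵁ V)
  have fmono : ∀ {W V : X.Opens}, W ≤ V → f ⁻¹ᵁ W ≤ f ⁻¹ᵁ V := fun h _ hx => h hx
  have zmono : ∀ {W V : X.Opens}, W ≤ V → zo W ≤ zo V := by
    intro W V hWV
    apply preimage_le hq hpb
    rw [hzo, hzo]
    exact fmono hWV
  have zsup : ∀ {V V1 V2 : X.Opens}, V ≤ V1 ⊔ V2 → zo V ≤ zo V1 ⊔ zo V2 := by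
    intro V V1 V2 hV
    apply preimage_le hq hpb
    have h1 : i ⁻¹ᵁ (zo V1 ⊔ zo V2) = i ⁻¹ᵁ (zo V1) ⊔ i ⁻¹ᵁ (zo V2) := rfl
    rw [h1, hzo, hzo, hzo]
    exact fun _ hx => hV hx
  have zinf : ∀ {V1 V2 : X.Opens}, zo V1 ⊓ zo V2 ≤ zo (V1 ⊓ V2) := by
    intro V1 V2
    apply preimage_le hq hpb
    have h1 : i ⁻¹ᵁ (zo V1 ⊓ zo V2) = i ⁻¹ᵁ (zo V1) ⊓ i ⁻¹ᵁ (zo V2) := rfl
    rw [h1, hzo, hzo, hzo]
    exact fun _ hx => hx
  choose pm hpm using fun (V : X.Opens) (y : Γ(Y, f ⁻¹ᵁ V)) => exists_pm hq hpb (hzo V) y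
  choose ta hta using fun (V : X.Opens) (y : Γ(Y, f ⁻¹ᵁ V)) => exists_tau hq hpb (hzo V) y
  let B : Sys X :=
    { R := fun V => Γ(Z, zo V)
      ring := fun V => inferInstance
      r := fun {W V} h => res (zmono h)
      r_r := fun h h' x => res_res _ _ x
      r_self := fun h x => res_self _ x
      sep := by
        intro V V1 V2 h1 h2 hV x y hx hy
        exact res_sep _ _ (zsup hV) x y hx hy
      glue := by
        intro V V1 V2 h1 h2 hV x1 x2 hx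
        refine res_glue _ _ (zsup hV) x1 x2 ?_
        have h3 := congrArg (res (zinf (V1 := V1) (V2 := V2))) hx
        rw [res_res, res_res] at h3
        exact h3 }
  have padd : ∀ (V : X.Opens) (x y : Γ(Y, f ⁻¹ᵁ V)), pm V (x + y) = pm V x + pm V y :=
    fun V x y => (hpm V (x + y)).unique hq hpb ((hpm V x).add hq hpb (hpm V y))
  let pmh : ∀ V : X.Opens, Γ(Y, f ⁻¹ᵁ V) →+ Γ(Z, zo V) := fun V => AddMonoidHom.mk' (pm V) (padd V)
  exact ⟨
    { B := B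
      π := fun V => piY i (hzo V)
      pm := fun V => pmh V
      τ := fun V => ta V
      π_r := fun h x => piY_res (hzo _) (hzo _) (zmono h) (fmono h) x
      pm_r := fun {W V} h x => (hpm W _).unique hq hpb
        ((hpm V x).restrict (hzo W) (zmono h) (fmono h))
      τ_r := fun {W V} h x => (hta W _).unique hq hpb
        ((hta V x).restrict (hzo W) (zmono h) (fmono h))
      π_surj := by
        intro V hV y
        refine piY_surj hq hpb (hzo V) ?_ y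
        apply affine_thick hq hpb
        rw [hzo]
        exact hV.preimage f
      pm_inj := by
        intro V
        refine (injective_iff_map_eq_zero (pmh V)).2 fun y hy => ?_
        have h1 := hpm V y
        have h2 : pm V y = 0 := hy
        rw [h2] at h1
        exact h1.eq_zero hq hflat hpb
      π_pm := fun V x => (hpm V x).pi_zero hq hpb
      exact := by
        intro V x hx
        obtain ⟨y, hy⟩ := exists_of_pi_zero hq hflat hpb (hzo V) x hx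
        exact ⟨y, hy.unique hq hpb (hpm V y)⟩
      mul_pm := fun V b a => ((hpm V a).mul hq hpb b).unique hq hpb (hpm V _)
      π_τ := fun V x => (hta V x).pi hq hpb
      τ_mul := fun V x y => (hta V _).unique hq hpb ((hta V x).mul hq hpb (hta V y))
      τ_add := fun V x y => (hta V _).unique hq hpb ((hta V x).add hq hpb (hta V y) (hpm V _)) }⟩

end Totaro
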