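import Pool.Agent.Helper49.Tot.ADefs

/-!
# The main computation with sections
-/

open CategoryTheory AlgebraicGeometry TopologicalSpace Opposite

universe u

namespace Totaro

variable {p : ℕ} {X : Scheme.{u}}

section secs

variable {A : Sys X} {ι : Type} {U : ι → X.Opens} {g : ∀ a b, A.R (U a ⊓ U b)} {W : X.Opens}

theorem IsSec.restrict {W' : X.Opens} (h : W' ≤ W) {x : ∀ a, A.R (W ⊓ U a)}
    (hx : IsSec A U g W x) : IsSec A U g W' (fun a => A.r (inf_le_inf_right _ h) (x a)) := by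
  intro a b
  have e : W' ⊓ (U a ⊓ U b) ≤ W ⊓ (U a ⊓ U b) := inf_le_inf_right _ h
  have h1 := congrArg (A.r e) (hx a b)
  rw [map_mul, A.r_r, A.r_r, A.r_r] at h1
  simp only [A.r_r]
  exact h1

theorem IsSec.minus {x y : ∀ a, A.R (W ⊓ U a)} (hx : IsSec A U g W x) (hy : IsSec A U g W y) :
    IsSec A U g W (fun a => x a - y a) := by
  intro a b
  simp only [map_sub, mul_sub]
  rw [hx a b, hy a b]

theorem IsSec.times (t : A.R W) {x : ∀ a, A.R (W ⊓ U a)} (hx : IsSec A U g W x) :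
    IsSec A U g W (fun a => A.r inf_le_left t * x a) := by
  intro a b
  simp only [map_mul, A.r_r]
  rw [hx a b]
  ring

theorem IsSec.of_pm {S : LiftSys p A} {G : ∀ a b, S.B.R (U a ⊓ U b)}
    (hG : ∀ a b, S.π _ (G a b) = g a b) {F : ∀ a, S.B.R (W ⊓ U a)} (hF : IsSec S.B U G W F)
    {D : ∀ a, A.R (W ⊓ U a)} (hD : ∀ a, F a = S.pm _ (D a)) : IsSec A U g W D := by
  intro a b
  apply S.pm_inj
  rw [← hG, ← S.π_r, ← S.mul_pm, S.pm_r, S.pm_r, ← hD, ← hD]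
  exact hF a b

/-- the difference of a lift and a combination of lifts is a multiple of `p` -/
theorem exists_pm {S : LiftSys p A} {G : ∀ a b, S.B.R (U a ⊓ U b)}
    (hG : ∀ a b, S.π _ (G a b) = g a b) {W1 W3 : X.Opens} {yo y1 y3 : ∀ a, A.R (U a)}
    {Yo Y1 : ∀ a, S.B.R (W1 ⊓ U a)} {Y3 : ∀ a, S.B.R (W3 ⊓ U a)}
    (sYo : IsSec S.B U G W1 Yo) (sY1 : IsSec S.B U G W1 Y1) (sY3 : IsSec S.B U G W3 Y3)
    (pYo : ∀ a, S.π _ (Yo a) = A.r inf_le_right (yo a))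
    (pY1 : ∀ a, S.π _ (Y1 a) = A.r inf_le_right (y1 a))
    (pY3 : ∀ a, S.π _ (Y3 a) = A.r inf_le_right (y3 a)) (h1 : W ≤ W1) (h3 : W ≤ W3)
    (r u : A.R W1)
    (e : ∀ a, A.r inf_le_right (y3 a) = A.r (inf_le_left : W1 ⊓ U a ≤ W1) r ^ p *
      A.r inf_le_right (yo a) + A.r (inf_le_left : W1 ⊓ U a ≤ W1) u ^ p * A.r inf_le_right (y1 a)) :
    ∃ b : ∀ a, A.R (W ⊓ U a), IsSec A U g W b ∧ ∀ a (V : X.Opens) (hV : V ≤ W) (ha : V ≤ U a),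
      S.B.r (le_inf (hV.trans h3) ha) (Y3 a) -
        S.τ V (A.r (hV.trans h1) r) * S.B.r (le_inf (hV.trans h1) ha) (Yo a) -
        S.τ V (A.r (hV.trans h1) u) * S.B.r (le_inf (hV.trans h1) ha) (Y1 a) =
      S.pm V (A.r (le_inf hV ha) (b a)) := by
  have hF : IsSec S.B U G W (fun a => S.B.r (inf_le_inf_right _ h3) (Y3 a) -
      S.B.r inf_le_left (S.τ W (A.r h1 r)) * S.B.r (inf_le_inf_right _ h1) (Yo a) -
      S.B.r inf_le_left (S.τ W (A.r h1 u)) * S.B.r (inf_le_inf_right _ h1) (Y1 a)) :=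
    ((sY3.restrict h3).minus ((sYo.restrict h1).times _)).minus ((sY1.restrict h1).times _)
  have hex : ∀ a, ∃ b, S.B.r (inf_le_inf_right _ h3) (Y3 a) -
      S.B.r inf_le_left (S.τ W (A.r h1 r)) * S.B.r (inf_le_inf_right _ h1) (Yo a) -
      S.B.r inf_le_left (S.τ W (A.r h1 u)) * S.B.r (inf_le_inf_right _ h1) (Y1 a) =
      S.pm (W ⊓ U a) b := by
    intro a
    apply S.exact
    rw [map_sub, map_sub, map_mul, map_mul, S.π_r, S.π_r, S.π_r, S.π_r, S.π_r, S.π_τ, S.π_τ,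
      pYo, pY1, pY3]
    have e1 : W ⊓ U a ≤ W1 ⊓ U a := inf_le_inf_right _ h1
    have h4 := congrArg (A.r e1) (e a)
    rw [map_add, map_mul, map_mul, map_pow, map_pow] at h4
    simp only [A.r_r, map_pow] at h4 ⊢
    rw [h4]
    ring
  choose b hb using hex
  refine ⟨b, IsSec.of_pm hG hF hb, ?_⟩
  intro a V hV ha
  have e1 : V ≤ W ⊓ U a := le_inf hV ha
  have h4 := congrArg (S.B.r e1) (hb a)
  rw [map_sub, map_sub, map_mul, map_mul, ← S.pm_r] at h4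
  simp only [← S.τ_r, A.r_r, S.B.r_r] at h4
  exact h4

end secs

theorem main_eq [Fact p.Prime] {A : Sys X} (S : LiftSys p A) {ι : Type} (U : ι → X.Opens)
    (g : ∀ a b, A.R (U a ⊓ U b)) (G : ∀ a b, S.B.R (U a ⊓ U b)) (hG : ∀ a b, S.π _ (G a b) = g a b)
    (W1 W2 W3 : X.Opens) (yo y1 y2 y3 : ∀ a, A.R (U a))
    (Yo1 Y1 : ∀ a, S.B.R (W1 ⊓ U a)) (Yo2 Y2 : ∀ a, S.B.R (W2 ⊓ U a)) (Y3 : ∀ a, S.B.R (W3 ⊓ U a))
    (sYo1 : IsSec S.B U G W1 Yo1) (sY1 : IsSec S.B U G W1 Y1) (sYo2 : IsSec S.B U G W2 Yo2)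
    (sY2 : IsSec S.B U G W2 Y2) (sY3 : IsSec S.B U G W3 Y3)
    (pYo1 : ∀ a, S.π _ (Yo1 a) = A.r inf_le_right (yo a))
    (pY1 : ∀ a, S.π _ (Y1 a) = A.r inf_le_right (y1 a))
    (pYo2 : ∀ a, S.π _ (Yo2 a) = A.r inf_le_right (yo a))
    (pY2 : ∀ a, S.π _ (Y2 a) = A.r inf_le_right (y2 a))
    (pY3 : ∀ a, S.π _ (Y3 a) = A.r inf_le_right (y3 a))
    (r u s v : A.R W1) (s' v' : A.R W2)
    (e12 : ∀ a, A.r inf_le_right (y2 a) = A.r (inf_le_left : W1 ⊓ U a ≤ W1) r ^ p *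
      A.r inf_le_right (yo a) + A.r (inf_le_left : W1 ⊓ U a ≤ W1) u ^ p * A.r inf_le_right (y1 a))
    (e13 : ∀ a, A.r inf_le_right (y3 a) = A.r (inf_le_left : W1 ⊓ U a ≤ W1) s ^ p *
      A.r inf_le_right (yo a) + A.r (inf_le_left : W1 ⊓ U a ≤ W1) v ^ p * A.r inf_le_right (y1 a))
    (e23 : ∀ a, A.r inf_le_right (y3 a) = A.r (inf_le_left : W2 ⊓ U a ≤ W2) s' ^ p *
      A.r inf_le_right (yo a) + A.r (inf_le_left : W2 ⊓ U a ≤ W2) v' ^ p * A.r inf_le_right (y2 a))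
    (ev : A.r (inf_le_left : W1 ⊓ W2 ≤ W1) v =
      A.r (inf_le_left : W1 ⊓ W2 ≤ W1) u * A.r (inf_le_right : W1 ⊓ W2 ≤ W2) v')
    (es : A.r (inf_le_left : W1 ⊓ W2 ≤ W1) s = A.r (inf_le_right : W1 ⊓ W2 ≤ W2) s' +
      A.r (inf_le_left : W1 ⊓ W2 ≤ W1) r * A.r (inf_le_right : W1 ⊓ W2 ≤ W2) v') :
    ∃ (D12 b12 : ∀ a, A.R (W1 ⊓ W2 ⊓ U a)) (b13 : ∀ a, A.R (W1 ⊓ W3 ⊓ U a))
      (b23 : ∀ a, A.R (W2 ⊓ W3 ⊓ U a)),
      IsSec A U g (W1 ⊓ W2) D12 ∧ IsSec A U g (W1 ⊓ W2) b12 ∧ IsSec A U g (W1 ⊓ W3) b13 ∧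
      IsSec A U g (W2 ⊓ W3) b23 ∧
      ∀ a (V : X.Opens) (h1 : V ≤ W1) (h2 : V ≤ W2) (h3 : V ≤ W3) (ha : V ≤ U a),
        A.r h2 s' ^ p * A.r (le_inf (le_inf h1 h2) ha) (D12 a) +
          A.r h2 v' ^ p * A.r (le_inf (le_inf h1 h2) ha) (b12 a) +
          A.r (le_inf (le_inf h2 h3) ha) (b23 a) - A.r (le_inf (le_inf h1 h3) ha) (b13 a) =
        bet p (A.r h2 s') (A.r h1 r * A.r h2 v') * A.r ha (yo a) := by
  obtain ⟨b12, s12, k12⟩ := exists_pm (W := W1 ⊓ W2) hG sYo1 sY1 sY2 pYo1 pY1 pY2 inf_le_left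
    inf_le_right r u e12
  obtain ⟨b13, s13, k13⟩ := exists_pm (W := W1 ⊓ W3) hG sYo1 sY1 sY3 pYo1 pY1 pY3 inf_le_left
    inf_le_right s v e13
  obtain ⟨b23, s23, k23⟩ := exists_pm (W := W2 ⊓ W3) hG sYo2 sY2 sY3 pYo2 pY2 pY3 inf_le_left
    inf_le_right s' v' e23
  have hF : IsSec S.B U G (W1 ⊓ W2) (fun a =>
      S.B.r (inf_le_inf_right _ (inf_le_right : W1 ⊓ W2 ≤ W2)) (Yo2 a) -
      S.B.r (inf_le_inf_right _ (inf_le_left : W1 ⊓ W2 ≤ W1)) (Yo1 a)) :=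
    (sYo2.restrict inf_le_right).minus (sYo1.restrict inf_le_left)
  have hex : ∀ a, ∃ D, S.B.r (inf_le_inf_right _ (inf_le_right : W1 ⊓ W2 ≤ W2)) (Yo2 a) -
      S.B.r (inf_le_inf_right _ (inf_le_left : W1 ⊓ W2 ≤ W1)) (Yo1 a) =
      S.pm (W1 ⊓ W2 ⊓ U a) D := by
    intro a
    apply S.exact
    rw [map_sub, S.π_r, S.π_r, pYo1, pYo2, A.r_r, A.r_r, sub_self]
  choose D12 hD12 using hex
  refine ⟨D12, b12, b13, b23, IsSec.of_pm hG hF hD12, s12, s13, s23, ?_⟩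
  intro a V h1 h2 h3 ha
  have j12 := k12 a V (le_inf h1 h2) ha
  have j13 := k13 a V (le_inf h1 h3) ha
  have j23 := k23 a V (le_inf h2 h3) ha
  have jD : S.B.r (le_inf h2 ha) (Yo2 a) - S.B.r (le_inf h1 ha) (Yo1 a) =
      S.pm V (A.r (le_inf (le_inf h1 h2) ha) (D12 a)) := by
    have e1 : V ≤ W1 ⊓ W2 ⊓ U a := le_inf (le_inf h1 h2) ha
    have h4 := congrArg (S.B.r e1) (hD12 a)
    rw [map_sub, ← S.pm_r, S.B.r_r, S.B.r_r] at h4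
    exact h4
  have ev' : A.r h1 v = A.r h1 u * A.r h2 v' := by
    have h4 := congrArg (A.r (le_inf h1 h2)) ev
    rw [map_mul, A.r_r, A.r_r, A.r_r] at h4
    exact h4
  have es' : A.r h1 s = A.r h2 s' + A.r h1 r * A.r h2 v' := by
    have h4 := congrArg (A.r (le_inf h1 h2)) es
    rw [map_add, map_mul, A.r_r, A.r_r, A.r_r, A.r_r] at h4
    exact h4
  have tv : S.τ V (A.r h1 v) = S.τ V (A.r h1 u) * S.τ V (A.r h2 v') := by
    rw [ev', S.τ_mul]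
  have ts : S.τ V (A.r h1 s) = S.τ V (A.r h2 s') + S.τ V (A.r h1 r) * S.τ V (A.r h2 v') +
      S.pm V (bet p (A.r h2 s') (A.r h1 r * A.r h2 v')) := by
    rw [es', S.τ_add, S.τ_mul]
  have po : S.π V (S.B.r (le_inf h1 ha) (Yo1 a)) = A.r ha (yo a) := by
    rw [S.π_r, pYo1, A.r_r]
  apply S.pm_inj
  rw [map_sub, map_add, map_add, ← S.π_τ, ← S.π_τ, ← S.mul_pm, ← S.mul_pm, ← j12, ← j13, ← j23,
    ← jD, mul_comm (bet p (A.r h2 s') (A.r h1 r * A.r h2 v')), ← po, ← S.mul_pm, tv, ts]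
  ring

end Totaro
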