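import Pool.Agent.Helper49.Tot.ADefs

/-!
# Lifts of sections over the union of two charts
-/

open CategoryTheory AlgebraicGeometry TopologicalSpace Opposite

universe u

namespace Totaro

variable {p : ℕ} {X : Scheme.{u}}

theorem exists_lift_sec {A : Sys X} (S : LiftSys p A) {ι : Type} (U : ι → X.Opens)
    (g : ∀ a b, A.R (U a ⊓ U b)) (hg : IsCoc A U g) (G : ∀ a b, S.B.R (U a ⊓ U b))
    (hG : IsCoc S.B U G) (hGg : ∀ a b, S.π _ (G a b) = g a b) (α β : ι)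
    (aα : IsAffineOpen (U α)) (aβ : IsAffineOpen (U β))
    (split : ∀ δ : A.R (U α ⊓ U β), ∃ (x : A.R (U α)) (y : A.R (U β)),
      δ = A.r inf_le_left x - g α β * A.r inf_le_right y)
    (y : ∀ a, A.R (U a))
    (hy : ∀ a b, A.r inf_le_left (y a) = g a b * A.r inf_le_right (y b)) :
    ∃ Z : ∀ a, S.B.R ((U α ⊔ U β) ⊓ U a), IsSec S.B U G (U α ⊔ U β) Z ∧
      ∀ a, S.π _ (Z a) = A.r inf_le_right (y a) := by
  -- lifts on the two charts which agree on the overlap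
  obtain ⟨xa, xb, hxa, hxb, hab⟩ : ∃ (xa : S.B.R (U α)) (xb : S.B.R (U β)),
      S.π _ xa = y α ∧ S.π _ xb = y β ∧
      S.B.r (inf_le_left : U α ⊓ U β ≤ U α) xa =
        G α β * S.B.r (inf_le_right : U α ⊓ U β ≤ U β) xb := by
    obtain ⟨za, hza⟩ := S.π_surj _ aα (y α)
    obtain ⟨zb, hzb⟩ := S.π_surj _ aβ (y β)
    obtain ⟨δ, hδ⟩ := S.exact _ (S.B.r (inf_le_left : U α ⊓ U β ≤ U α) za -
      G α β * S.B.r (inf_le_right : U α ⊓ U β ≤ U β) zb) (by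
        rw [map_sub, map_mul, S.π_r, S.π_r, hza, hzb, hGg, hy α β, sub_self])
    obtain ⟨x, x', hx⟩ := split δ
    refine ⟨za - S.pm _ x, zb - S.pm _ x', ?_, ?_, ?_⟩
    · rw [map_sub, S.π_pm, sub_zero, hza]
    · rw [map_sub, S.π_pm, sub_zero, hzb]
    · have h1 : S.pm _ δ = S.B.r (inf_le_left : U α ⊓ U β ≤ U α) (S.pm _ x) -
          G α β * S.B.r (inf_le_right : U α ⊓ U β ≤ U β) (S.pm _ x') := by
        rw [hx, map_sub, S.pm_r, ← hGg, ← S.mul_pm, S.pm_r]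
      rw [h1] at hδ
      rw [map_sub, map_sub, mul_sub]
      linear_combination hδ
  -- gluing
  have hW : ∀ c, (U α ⊔ U β) ⊓ U c ≤ (U c ⊓ U α) ⊔ (U c ⊓ U β) := by
    intro c z hz
    rcases hz.1 with h | h
    · exact Or.inl ⟨hz.2, h⟩
    · exact Or.inr ⟨hz.2, h⟩
  have h1 : ∀ c, U c ⊓ U α ≤ (U α ⊔ U β) ⊓ U c := fun c z hz => ⟨Or.inl hz.2, hz.1⟩
  have h2 : ∀ c, U c ⊓ U β ≤ (U α ⊔ U β) ⊓ U c := fun c z hz => ⟨Or.inr hz.2, hz.1⟩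
  have hglue : ∀ c, ∃ z : S.B.R ((U α ⊔ U β) ⊓ U c),
      S.B.r (h1 c) z = G c α * S.B.r inf_le_right xa ∧
      S.B.r (h2 c) z = G c β * S.B.r inf_le_right xb := by
    intro c
    apply S.B.glue (h1 c) (h2 c) (hW c)
    rw [map_mul, map_mul, S.B.r_r, S.B.r_r]
    have e : (U c ⊓ U α) ⊓ (U c ⊓ U β) ≤ U α ⊓ U β := fun z hz => ⟨hz.1.2, hz.2.2⟩
    have h3 := congrArg (S.B.r e) hab
    rw [map_mul, S.B.r_r, S.B.r_r] at h3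
    rw [h3, ← mul_assoc, hG.rel c α β]
  choose Z hZ1 hZ2 using hglue
  refine ⟨Z, ?_, ?_⟩
  · intro a b
    have e1 : (U a ⊓ U b) ⊓ U α ≤ (U α ⊔ U β) ⊓ (U a ⊓ U b) := fun z hz => ⟨Or.inl hz.2, hz.1⟩
    have e2 : (U a ⊓ U b) ⊓ U β ≤ (U α ⊔ U β) ⊓ (U a ⊓ U b) := fun z hz => ⟨Or.inr hz.2, hz.1⟩
    have e3 : (U α ⊔ U β) ⊓ (U a ⊓ U b) ≤ ((U a ⊓ U b) ⊓ U α) ⊔ ((U a ⊓ U b) ⊓ U β) := by
      intro z hz
      rcases hz.1 with h | h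
      · exact Or.inl ⟨hz.2, h⟩
      · exact Or.inr ⟨hz.2, h⟩
    apply S.B.sep e1 e2 e3
    · rw [map_mul, S.B.r_r, S.B.r_r, S.B.r_r]
      have f1 : (U a ⊓ U b) ⊓ U α ≤ U a ⊓ U α := fun z hz => ⟨hz.1.1, hz.2⟩
      have f2 : (U a ⊓ U b) ⊓ U α ≤ U b ⊓ U α := fun z hz => ⟨hz.1.2, hz.2⟩
      have k1 := congrArg (S.B.r f1) (hZ1 a)
      have k2 := congrArg (S.B.r f2) (hZ1 b)
      rw [S.B.r_r, map_mul, S.B.r_r] at k1 k2
      rw [k1, k2, ← mul_assoc, hG.rel a b α]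
    · rw [map_mul, S.B.r_r, S.B.r_r, S.B.r_r]
      have f1 : (U a ⊓ U b) ⊓ U β ≤ U a ⊓ U β := fun z hz => ⟨hz.1.1, hz.2⟩
      have f2 : (U a ⊓ U b) ⊓ U β ≤ U b ⊓ U β := fun z hz => ⟨hz.1.2, hz.2⟩
      have k1 := congrArg (S.B.r f1) (hZ2 a)
      have k2 := congrArg (S.B.r f2) (hZ2 b)
      rw [S.B.r_r, map_mul, S.B.r_r] at k1 k2
      rw [k1, k2, ← mul_assoc, hG.rel a b β]
  · intro c
    apply A.sep (h1 c) (h2 c) (hW c)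
    · rw [← S.π_r, hZ1, map_mul, S.π_r, hxa, hGg, A.r_r, ← hy c α]
    · rw [← S.π_r, hZ2, map_mul, S.π_r, hxb, hGg, A.r_r, ← hy c β]

/-- two sections over a union of two charts agree if they agree on the charts -/
theorem sec_ext {A : Sys X} {ι : Type} {U : ι → X.Opens} {g : ∀ a b, A.R (U a ⊓ U b)} {α β : ι}
    {W : X.Opens} (hW : W ≤ U α ⊔ U β) {x y : ∀ a, A.R (W ⊓ U a)} (hx : IsSec A U g W x)
    (hy : IsSec A U g W y) (hα : x α = y α) (hβ : x β = y β) : x = y := by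
  funext c
  have h1 : W ⊓ (U c ⊓ U α) ≤ W ⊓ U c := fun z hz => ⟨hz.1, hz.2.1⟩
  have h2 : W ⊓ (U c ⊓ U β) ≤ W ⊓ U c := fun z hz => ⟨hz.1, hz.2.1⟩
  have h3 : W ⊓ U c ≤ (W ⊓ (U c ⊓ U α)) ⊔ (W ⊓ (U c ⊓ U β)) := by
    intro z hz
    rcases hW hz.1 with h | h
    · exact Or.inl ⟨hz.1, hz.2, h⟩
    · exact Or.inr ⟨hz.1, hz.2, h⟩
  apply A.sep h1 h2 h3
  · rw [hx c α, hy c α, hα]
  · rw [hx c β, hy c β, hβ]

end Totaro
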