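import Mathlib

/-!
# Differential forms of top degree: algebraic lemmas for the module A6
-/

open MvPolynomial

universe u

namespace Totaro

namespace A6

section Multi

variable {A M : Type*} [CommRing A] [AddCommGroup M] [Module A M] {n : ℕ}

theorem sign_smul (u : ℤˣ) (w : M) : u • w = ((u : ℤ) : A) • w := by
  rcases Int.units_eq_one_or u with h | h
  · simp [h]
  · simp [h]

/-- if `n` elements span a module then their wedge product spans the top exterior power -/
theorem wedge_gen (v : Fin n → M) (hv : Submodule.span A (Set.range v) = ⊤) (ω : ⋀[A]^n M) :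
    ∃ z : A, ω = z • exteriorPower.ιMulti A n v := by
  have h1 := exteriorPower.ιMulti_span_of_span A n M hv
  have h2 : ω ∈ Submodule.span A (exteriorPower.ιMulti A n '' {a | Set.range a ⊆ Set.range v}) := by
    rw [h1]
    trivial
  induction h2 using Submodule.span_induction with
  | mem ω h =>
    obtain ⟨a, ha, rfl⟩ := h
    obtain ⟨α, rfl⟩ := Set.range_subset_range_iff_exists_comp.mp ha
    by_cases hα : Function.Injective α
    · let σ : Equiv.Perm (Fin n) := Equiv.ofBijective α (Finite.injective_iff_bijective.1 hα)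
      refine ⟨((Equiv.Perm.sign σ : ℤ) : A), ?_⟩
      have h3 := AlternatingMap.map_perm (exteriorPower.ιMulti A n) v σ
      have h4 : (v ∘ α) = v ∘ σ := rfl
      rw [h4, h3]
      exact sign_smul _ _
    · refine ⟨0, ?_⟩
      rw [zero_smul]
      exact AlternatingMap.map_eq_zero_of_not_injective _ _ fun h => hα (Function.Injective.of_comp h)
  | zero => exact ⟨0, (zero_smul _ _).symm⟩
  | add x y _ _ hx hy =>
    obtain ⟨z, rfl⟩ := hx
    obtain ⟨z', rfl⟩ := hy
    exact ⟨z + z', (add_smul _ _ _).symm⟩
  | smul c x _ hx =>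
    obtain ⟨z, rfl⟩ := hx
    exact ⟨c * z, (mul_smul _ _ _).symm⟩

theorem wedge_ne_zero [Nontrivial A] (v : Fin n → M) (f : Fin n → Module.Dual A M)
    (h : ∀ i j, f j (v i) = if i = j then 1 else 0) : exteriorPower.ιMulti A n v ≠ 0 := by
  intro h0
  have h1 := exteriorPower.pairingDual_ιMulti_ιMulti f v
  rw [h0, map_zero] at h1
  have h2 : (Matrix.of fun i j => f j (v i)) = (1 : Matrix (Fin n) (Fin n) A) := by
    ext i j
    rw [Matrix.of_apply, h i j, Matrix.one_apply]
  rw [h2, Matrix.det_one] at h1
  exact zero_ne_one h1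

end Multi

section Diff

variable {k B : Type u} [Field k] [CommRing B] [Algebra k B] {ι : Type}

/-- the differentials of the coordinates generate all differentials -/
theorem span_D (θ : MvPolynomial ι k →+* B) (hθ : ∀ a, θ (C a) = algebraMap k B a)
    (g : MvPolynomial ι k) (hg : IsUnit (θ g)) (hs : ∀ y : B, ∃ (m : ℕ) (r : MvPolynomial ι k),
      y * θ g ^ m = θ r) :
    Submodule.span B (Set.range fun i => KaehlerDifferential.D k B (θ (X i))) = ⊤ := by
  set N := Submodule.span B (Set.range fun i => KaehlerDifferential.D k B (θ (X i))) with hN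
  have h1 : ∀ r, KaehlerDifferential.D k B (θ r) ∈ N := by
    intro r
    induction r using MvPolynomial.induction_on with
    | C a =>
      rw [hθ, Derivation.map_algebraMap]
      exact N.zero_mem
    | add p q hp hq =>
      rw [map_add, map_add]
      exact N.add_mem hp hq
    | mul_X p i hp =>
      rw [map_mul, Derivation.leibniz]
      exact N.add_mem (N.smul_mem _ (Submodule.subset_span ⟨i, rfl⟩)) (N.smul_mem _ hp)
  have h2 : ∀ y, KaehlerDifferential.D k B y ∈ N := by
    intro y
    obtain ⟨m, r, hr⟩ := hs y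
    have h3 := congrArg (KaehlerDifferential.D k B) hr
    rw [Derivation.leibniz] at h3
    have h4 : θ g ^ m • KaehlerDifferential.D k B y ∈ N := by
      have h5 : θ g ^ m • KaehlerDifferential.D k B y =
          KaehlerDifferential.D k B (θ r) - y • KaehlerDifferential.D k B (θ g ^ m) := by
        rw [← h3]
        abel
      rw [h5, ← map_pow]
      exact N.sub_mem (h1 r) (N.smul_mem _ (h1 _))
    exact (Submodule.smul_mem_iff_of_isUnit _ (hg.pow m)).mp h4
  rw [eq_top_iff, ← KaehlerDifferential.span_range_derivation, Submodule.span_le]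
  rintro _ ⟨y, rfl⟩
  exact h2 y

theorem D_inv {c c' : B} (h : c * c' = 1) :
    KaehlerDifferential.D k B c' = (-(c' ^ 2)) • KaehlerDifferential.D k B c := by
  have h1 := congrArg (KaehlerDifferential.D k B) h
  rw [Derivation.leibniz, Derivation.map_one_eq_zero] at h1
  have h2 := congrArg (fun t => c' • t) h1
  simp only [smul_add, smul_smul, smul_zero] at h2
  rw [mul_comm c' c, h, one_smul] at h2
  rw [neg_smul, pow_two]
  exact eq_neg_of_add_eq_zero_left h2

/-- a coordinate swap -/
theorem wedge_swap {S : Type} {n : ℕ} (e : Fin n ≃ S ⊕ (S ⊕ Unit)) (x x' : S ⊕ (S ⊕ Unit) → B)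
    (h1 : ∀ l, x' (Sum.inl l) = x (Sum.inr (Sum.inl l)))
    (h2 : ∀ l, x' (Sum.inr (Sum.inl l)) = x (Sum.inl l))
    (h3 : x (Sum.inr (Sum.inr ())) * x' (Sum.inr (Sum.inr ())) = 1) :
    ∃ ε : ℤ, (ε = 1 ∨ ε = -1) ∧
      exteriorPower.ιMulti B n (fun i => KaehlerDifferential.D k B (x (e i))) =
        ((ε : B) * x (Sum.inr (Sum.inr ())) ^ 2) •
          exteriorPower.ιMulti B n (fun i => KaehlerDifferential.D k B (x' (e i))) := by
  classical
  set c := x (Sum.inr (Sum.inr ())) with hc
  set c' := x' (Sum.inr (Sum.inr ())) with hc'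
  let π : Equiv.Perm (S ⊕ (S ⊕ Unit)) :=
    { toFun := fun t => Sum.elim (fun l => Sum.inr (Sum.inl l))
        (Sum.elim (fun l => Sum.inl l) (fun u => Sum.inr (Sum.inr u))) t
      invFun := fun t => Sum.elim (fun l => Sum.inr (Sum.inl l))
        (Sum.elim (fun l => Sum.inl l) (fun u => Sum.inr (Sum.inr u))) t
      left_inv := by rintro (l | l | l) <;> rfl
      right_inv := by rintro (l | l | l) <;> rfl }
  let σ : Equiv.Perm (Fin n) := (e.trans π).trans e.symm
  set i0 : Fin n := e.symm (Sum.inr (Sum.inr ())) with hi0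
  have hσ : ∀ i, e (σ i) = π (e i) := by
    intro i
    show e (e.symm (π (e i))) = π (e i)
    rw [Equiv.apply_symm_apply]
  have hv : (fun i => KaehlerDifferential.D k B (x' (e i))) =
      Function.update ((fun i => KaehlerDifferential.D k B (x (e i))) ∘ σ) i0
        ((-(c' ^ 2)) • KaehlerDifferential.D k B c) := by
    funext i
    by_cases hi : i = i0
    · rw [hi, Function.update_self, hi0, Equiv.apply_symm_apply]
      exact D_inv h3
    · rw [Function.update_of_ne hi, Function.comp_apply, hσ]
      have hne : e i ≠ Sum.inr (Sum.inr ()) := by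
        intro h
        apply hi
        rw [hi0, ← h, Equiv.symm_apply_apply]
      rcases hei : e i with l | l | l
      · rw [h1]
        rfl
      · rw [h2]
        rfl
      · exact absurd hei hne
  have hself : Function.update ((fun i => KaehlerDifferential.D k B (x (e i))) ∘ σ) i0
      (KaehlerDifferential.D k B c) = (fun i => KaehlerDifferential.D k B (x (e i))) ∘ σ := by
    apply Function.update_eq_self_iff.mpr
    rw [Function.comp_apply, hσ, hi0, Equiv.apply_symm_apply]
    rfl
  have key : exteriorPower.ιMulti B n (fun i => KaehlerDifferential.D k B (x' (e i))) =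
      (-(c' ^ 2)) • ((Equiv.Perm.sign σ : ℤ) : B) •
        exteriorPower.ιMulti B n (fun i => KaehlerDifferential.D k B (x (e i))) := by
    rw [hv, AlternatingMap.map_update_smul, hself, AlternatingMap.map_perm]
    congr 1
  have hs : (Equiv.Perm.sign σ : ℤ) * (Equiv.Perm.sign σ : ℤ) = 1 := Int.units_coe_mul_self _
  have hsB : (((Equiv.Perm.sign σ : ℤ) : B)) * ((Equiv.Perm.sign σ : ℤ) : B) = 1 := by
    rw [← Int.cast_mul, hs, Int.cast_one]
  refine ⟨-(Equiv.Perm.sign σ : ℤ), ?_, ?_⟩
  · rcases Int.units_eq_one_or (Equiv.Perm.sign σ) with h | h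
    · right
      rw [h]
      rfl
    · left
      rw [h]
      rfl
  · rw [key, smul_smul, smul_smul]
    have h4 : ((-(Equiv.Perm.sign σ : ℤ) : ℤ) : B) * c ^ 2 * -(c' ^ 2) *
        ((Equiv.Perm.sign σ : ℤ) : B) = 1 := by
      rw [Int.cast_neg]
      have : -(((Equiv.Perm.sign σ : ℤ) : B)) * c ^ 2 * -(c' ^ 2) *
        ((Equiv.Perm.sign σ : ℤ) : B) = (((Equiv.Perm.sign σ : ℤ) : B) *
          ((Equiv.Perm.sign σ : ℤ) : B)) * (c * c') ^ 2 := by ring
      rw [this, hsB, h3]
      ring
    rw [h4, one_smul]

/-- on a polynomial ring (up to isomorphism) the wedge of the coordinates is not zero -/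
theorem wedge_coord_ne_zero [Nontrivial B] {n : ℕ} (ψ : MvPolynomial ι k ≃+* B)
    (hψ : ∀ a, ψ (C a) = algebraMap k B a) (e : Fin n ≃ ι) :
    exteriorPower.ιMulti B n (fun i => KaehlerDifferential.D k B (ψ (X (e i)))) ≠ 0 := by
  classical
  have hD : ∀ i : Fin n, ∃ f : Module.Dual B (Ω[B⁄k]), ∀ i', f (KaehlerDifferential.D k B
      (ψ (X (e i')))) = if i' = i then 1 else 0 := by
    intro i
    let δ : Derivation k B B :=
      { toFun := fun b => ψ (pderiv (e i) (ψ.symm b))
        map_add' := by
          intro b b'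
          simp only [map_add]
        map_smul' := by
          intro a b
          simp only [RingHom.id_apply]
          rw [Algebra.smul_def, ← hψ, map_mul, RingEquiv.symm_apply_apply, Derivation.leibniz,
            pderiv_C, smul_zero, add_zero, smul_eq_mul, map_mul, Algebra.smul_def, hψ]
        map_one_eq_zero' := by
          show ψ (pderiv (e i) (ψ.symm 1)) = 0
          rw [map_one, pderiv_one, map_zero]
        leibniz' := by
          intro b b'
          show ψ (pderiv (e i) (ψ.symm (b * b'))) = b • ψ (pderiv (e i) (ψ.symm b')) +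
            b' • ψ (pderiv (e i) (ψ.symm b))
          rw [map_mul, Derivation.leibniz, map_add, smul_eq_mul, smul_eq_mul, map_mul, map_mul,
            RingEquiv.apply_symm_apply, RingEquiv.apply_symm_apply, smul_eq_mul, smul_eq_mul] }
    refine ⟨δ.liftKaehlerDifferential, ?_⟩
    intro i'
    rw [Derivation.liftKaehlerDifferential_comp_D]
    show ψ (pderiv (e i) (ψ.symm (ψ (X (e i'))))) = _
    rw [RingEquiv.symm_apply_apply, pderiv_X]
    by_cases h : i' = i
    · rw [h, if_pos rfl, Pi.single_eq_same, map_one]
    · rw [if_neg h, Pi.single_eq_of_ne, map_zero]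
      intro h'
      exact h (e.injective h')
  choose f hf using hD
  exact wedge_ne_zero _ f fun i j => hf j i

end Diff

end A6

end Totaro
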