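import Pool.Agent.Helper49.Tot.Core3
import Pool.Agent.Helper49.Tot.A6Alg

/-!
# The local equations of an anticanonical divisor in two charts
-/

open CategoryTheory AlgebraicGeometry TopologicalSpace Opposite

open scoped KaehlerDifferential

universe u

namespace Totaro

namespace A6

section Kap

variable {k : Type u} [Field k] {X : Scheme.{u}} (s : X ⟶ Spec (.of k))

/-- the structure homomorphism of the sections over `U` -/
noncomputable def kapU (U : X.Opens) : k →+* Γ(X, U) :=
  (s.appLE ⊤ U (fun _ _ => trivial)).hom.comp (Scheme.ΓSpecIso (.of k)).inv.hom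

theorem kapU_res {U W : X.Opens} (h : W ≤ U) (a : k) : res h (kapU s U a) = kapU s W a := by
  have h1 := Scheme.Hom.appLE_map s (U := ⊤) (V := U) (fun _ _ => trivial) (homOfLE h).op
  have h2 := congrArg (fun f => f.hom ((Scheme.ΓSpecIso (.of k)).inv.hom a)) h1
  exact h2

theorem fromSpec_comp {U : X.Opens} (hU : IsAffineOpen U) :
    hU.fromSpec ≫ s = Spec.map (CommRingCat.ofHom (kapU s U)) := by
  have h1 := IsAffineOpen.SpecMap_appLE_fromSpec s (isAffineOpen_top (Spec (.of k))) hU
    (fun _ _ => trivial)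
  rw [← h1, IsAffineOpen.fromSpec_top, Scheme.isoSpec_Spec_inv, ← Spec.map_comp]
  rfl

end Kap

section ChartIso

variable {p N : ℕ} {k : Type u} [Field k] {X : Scheme.{u}} {s : X ⟶ Spec (.of k)} {o j : Fin N}

/-- the ring of sections over a chart is the polynomial ring in the coordinates -/
theorem chart_iso [Fact p.Prime] [CharP k p] {h : Represents p N k X s} (c : ChartMor p o j k h)
    (d : Chart o j Γ(X, c.U)) (hd : d.Is p (flag h (R := Γ(X, c.U)) c.affine.fromSpec)) :
    ∃ ψ : ChartRing o j k ≃+* Γ(X, c.U), (∀ a, ψ (MvPolynomial.C a) = kapU s c.U a) ∧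
      (gen c.hoj k).map (ψ : ChartRing o j k →+* Γ(X, c.U)) = d := by
  have hopen := c.open
  obtain ⟨ψ, hψ, hψd⟩ := chart_factor h c.hoj c.hs c.is (R := Γ(X, c.U)) c.affine.fromSpec d hd
  obtain ⟨e, he⟩ := exists_ev c.affine c.φ (fun y => c.mem_U.2 ⟨y, rfl⟩)
  have he' : Spec.map (CommRingCat.ofHom e) ≫ c.affine.fromSpec = c.φ := he
  have h1 : e.comp ψ = RingHom.id _ := by
    apply chart_inj h c.hoj c.hs c.is
    rw [CommRingCat.ofHom_comp, Spec.map_comp, Category.assoc]
    have h2 : Spec.map (CommRingCat.ofHom ψ) ≫ c.φ = c.affine.fromSpec := hψ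
    rw [h2, he']
    have h3 : Spec.map (CommRingCat.ofHom (RingHom.id (ChartRing o j k))) = 𝟙 _ := Spec.map_id _
    rw [h3, Category.id_comp]
  have h2 : ψ.comp e = RingHom.id _ := by
    have h3 : Spec.map (CommRingCat.ofHom (ψ.comp e)) ≫ c.affine.fromSpec =
        Spec.map (CommRingCat.ofHom (RingHom.id Γ(X, c.U))) ≫ c.affine.fromSpec := by
      rw [CommRingCat.ofHom_comp, Spec.map_comp, Category.assoc, he']
      have h4 : Spec.map (CommRingCat.ofHom ψ) ≫ c.φ = c.affine.fromSpec := hψ
      have h5 : Spec.map (CommRingCat.ofHom (RingHom.id Γ(X, c.U))) = 𝟙 _ := Spec.map_id _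
      rw [h4, h5, Category.id_comp]
    rw [cancel_mono] at h3
    exact congrArg (fun f => f.hom) (Spec.map_injective h3)
  refine ⟨RingEquiv.ofRingHom ψ e h2 h1, ?_, hψd⟩
  intro a
  have h3 : Spec.map (CommRingCat.ofHom (ψ.comp MvPolynomial.C)) =
      Spec.map (CommRingCat.ofHom (kapU s c.U)) := by
    rw [← fromSpec_comp s c.affine, CommRingCat.ofHom_comp, Spec.map_comp, ← c.hs,
      ← Category.assoc]
    have h4 : Spec.map (CommRingCat.ofHom ψ) ≫ c.φ = c.affine.fromSpec := hψ
    rw [h4]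
  have h4 := congrArg (fun f => f.hom) (Spec.map_injective h3)
  exact congrArg (fun f => f a) h4

/-- the index type of the coordinates -/
abbrev Idx (o j : Fin N) : Type := {l : Fin N // l ≠ o ∧ l ≠ j} ⊕ ({l : Fin N // l ≠ o ∧ l ≠ j} ⊕ Unit)

/-- the coordinates of a point of a chart -/
def crd {R : Type u} [CommRing R] (d : Chart o j R) : Idx o j → R :=
  Sum.elim (fun l => d.a l.1) (Sum.elim (fun l => d.b l.1) (fun _ => d.c))

theorem crd_gen (hoj : o ≠ j) {R : Type u} [CommRing R] (ψ : ChartRing o j k →+* R)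
    {d : Chart o j R} (hd : (gen hoj k).map ψ = d) (t : Idx o j) :
    ψ (MvPolynomial.X t) = crd d t := by
  subst hd
  rcases t with l | l | l
  · simp only [crd, Chart.map, gen, Sum.elim_inl]
    rw [dif_pos l.2]
  · simp only [crd, Chart.map, gen, Sum.elim_inl, Sum.elim_inr]
    rw [dif_pos l.2]
  · simp only [crd, Chart.map, gen, Sum.elim_inr]

theorem crd_map {R R' : Type u} [CommRing R] [CommRing R'] (φ : R →+* R') (d : Chart o j R)
    (t : Idx o j) : crd (d.map φ) t = φ (crd d t) := by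
  rcases t with l | l | l <;> rfl

variable {Y : Scheme.{u}} {n : ℕ}

/-- the equation of an anticanonical divisor in a chart -/
theorem chart_eq [Fact p.Prime] [CharP k p] {h : Represents p N k X s} (c : ChartMor p o j k h)
    (d : Chart o j Γ(X, c.U)) (hd : d.Is p (flag h (R := Γ(X, c.U)) c.affine.fromSpec))
    (f : Y ⟶ X) (an : Anticanonical n s f) (e : Fin n ≃ Idx o j) :
    an.σ c.U c.affine (wedge n s c.U (fun i => crd d (e i))) ≠ 0 ∧
      ∀ (g : Γ(X, c.U)) (x : Γ(X, X.basicOpen g)), f.app _ x = 0 ↔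
        ∃ z, x = res (X.basicOpen_le g)
          (an.σ c.U c.affine (wedge n s c.U (fun i => crd d (e i)))) * z := by
  obtain ⟨ψ, hψC, hψd⟩ := chart_iso c d hd
  have hX : ∀ t : Idx o j, ψ (MvPolynomial.X t) = crd d t := fun t =>
    crd_gen c.hoj (ψ : ChartRing o j k →+* Γ(X, c.U)) hψd t
  constructor
  · intro h0
    let _ := algX s c.U
    have : Nontrivial Γ(X, c.U) := ψ.injective.nontrivial
    have hspan := span_D (ψ : ChartRing o j k →+* Γ(X, c.U)) hψC 1 (by rw [map_one]; exact isUnit_one)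
      (fun y => ⟨0, ψ.symm y, by
        rw [pow_zero, mul_one]
        exact (ψ.apply_symm_apply y).symm⟩)
    have hspan2 : Submodule.span Γ(X, c.U) (Set.range fun i =>
        KaehlerDifferential.D k Γ(X, c.U) (crd d (e i))) = ⊤ := by
      rw [← hspan]
      congr 1
      have h1 : (fun i => KaehlerDifferential.D k Γ(X, c.U) (crd d (e i))) =
          (fun t => KaehlerDifferential.D k Γ(X, c.U)
            ((ψ : ChartRing o j k →+* Γ(X, c.U)) (MvPolynomial.X t))) ∘ e := by
        funext i
        show _ = KaehlerDifferential.D k Γ(X, c.U) (ψ (MvPolynomial.X (e i)))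
        rw [hX]
      rw [h1, EquivLike.range_comp]
    have h1 : (1 : Γ(X, c.U)) = 0 := by
      apply an.reg c.U c.affine
      intro ω
      obtain ⟨z, hz⟩ := wedge_gen _ hspan2 ω
      have h2 : an.σ c.U c.affine ω = z • an.σ c.U c.affine (wedge n s c.U (fun i => crd d (e i))) := by
        rw [hz, map_smul]
        rfl
      rw [h2, h0, smul_zero, mul_zero]
    exact one_ne_zero h1
  · intro g x
    have hV := c.affine.basicOpen g
    have hle := X.basicOpen_le g
    let _ := algX s (X.basicOpen g)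
    let θ : ChartRing o j k →+* Γ(X, X.basicOpen g) :=
      (res hle).comp (ψ : ChartRing o j k →+* Γ(X, c.U))
    have hθC : ∀ a, θ (MvPolynomial.C a) = algebraMap k Γ(X, X.basicOpen g) a := by
      intro a
      show res hle (ψ (MvPolynomial.C a)) = kapU s _ a
      rw [hψC, kapU_res]
    have hθg : θ (ψ.symm g) = res hle g := by
      show res hle (ψ (ψ.symm g)) = res hle g
      rw [RingEquiv.apply_symm_apply]
    have hunit : IsUnit (θ (ψ.symm g)) := by
      rw [hθg]
      exact RingedSpace.isUnit_res_basicOpen X.toLocallyRingedSpace.toRingedSpace g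
    have hs : ∀ y : Γ(X, X.basicOpen g), ∃ (m : ℕ) (r : ChartRing o j k),
        y * θ (ψ.symm g) ^ m = θ r := by
      intro y
      have hloc := c.affine.isLocalization_basicOpen g
      obtain ⟨m, r, hr⟩ := IsLocalization.Away.surj g y
      refine ⟨m, ψ.symm r, ?_⟩
      have hθr : θ (ψ.symm r) = res hle r := by
        show res hle (ψ (ψ.symm r)) = res hle r
        rw [RingEquiv.apply_symm_apply]
      rw [hθg, hθr]
      exact hr
    have hspan := span_D θ hθC _ hunit hs
    have hspan2 : Submodule.span Γ(X, X.basicOpen g) (Set.range fun i =>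
        KaehlerDifferential.D k Γ(X, X.basicOpen g) (res hle (crd d (e i)))) = ⊤ := by
      rw [← hspan]
      congr 1
      have h1 : (fun i => KaehlerDifferential.D k Γ(X, X.basicOpen g) (res hle (crd d (e i)))) =
          (fun t => KaehlerDifferential.D k Γ(X, X.basicOpen g) (θ (MvPolynomial.X t))) ∘ e := by
        funext i
        show _ = KaehlerDifferential.D k Γ(X, X.basicOpen g) (res hle (ψ (MvPolynomial.X (e i))))
        rw [hX]
      rw [h1, EquivLike.range_comp]
    have hnat := an.nat (X.basicOpen g) c.U hV c.affine hle (fun i => crd d (e i))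
    rw [← an.range _ hV]
    constructor
    · rintro ⟨ω, rfl⟩
      obtain ⟨z, hz⟩ := wedge_gen _ hspan2 ω
      refine ⟨z, ?_⟩
      rw [← hnat, hz, map_smul, smul_eq_mul, mul_comm]
      rfl
    · rintro ⟨z, rfl⟩
      refine ⟨z • wedge n s (X.basicOpen g) (fun i => res hle (crd d (e i))), ?_⟩
      rw [map_smul, hnat, smul_eq_mul, mul_comm]

end ChartIso

section Swap

variable {p N : ℕ} {o j : Fin N}

/-- the coordinates in the chart with the indices exchanged -/
theorem swap {R : Type u} [CommRing R] {F : Flag p N R} [Fact p.Prime] {d : Chart o j R}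
    {d' : Chart j o R} (h : d.Is p F) (h' : d'.Is p F) :
    d'.a = d.b ∧ d'.b = d.a ∧ d.c * d'.c = 1 := by
  have hW : d'.W = d.W := h'.1.symm.trans h.1
  have hL : d'.L p = d.L p := h'.2.symm.trans h.2
  have ha : d'.a ∈ d.W := by
    rw [← hW]
    exact Submodule.subset_span (by simp)
  have hb : d'.b ∈ d.W := by
    rw [← hW]
    exact Submodule.subset_span (by simp)
  have hy : d'.y p ∈ d.L p := by
    rw [← hL]
    exact Submodule.subset_span (by simp)
  rw [Chart.W, Submodule.mem_span_pair] at ha hb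
  rw [Chart.L, Submodule.mem_span_singleton] at hy
  obtain ⟨x, y, ha⟩ := ha
  obtain ⟨z, w, hb⟩ := hb
  obtain ⟨t, hy⟩ := hy
  have ha1 := congrFun ha o
  have ha2 := congrFun ha j
  have hb1 := congrFun hb o
  have hb2 := congrFun hb j
  have hy1 := congrFun hy o
  have hy2 := congrFun hy j
  simp only [Pi.add_apply, Pi.smul_apply, smul_eq_mul, d.ao, d.bo, d.aj, d.bj, d'.ao, d'.bo,
    d'.aj, d'.bj, mul_one, mul_zero, add_zero, zero_add, y_o, y_j] at ha1 ha2 hb1 hb2 hy1 hy2
  subst ha1 ha2 hb1 hb2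
  refine ⟨?_, ?_, ?_⟩
  · rw [← ha]
    simp
  · rw [← hb]
    simp
  · rw [← hy1, mul_comm]
    exact hy2

theorem swap_exists {R : Type u} [CommRing R] [Fact p.Prime] (hp : (p : R) = 0) (hoj : o ≠ j)
    {F : Flag p N R} {d : Chart o j R} (hd : d.Is p F) (hu : IsUnit d.c) :
    ∃ d' : Chart j o R, d'.Is p F := by
  refine chart_of_unit hp hoj.symm F d.a d.b (d.y p) ?_ ?_ ?_ ?_
  · rw [hd.1]; exact Submodule.subset_span (by simp)
  · rw [hd.1]; exact Submodule.subset_span (by simp)
  · rw [hd.2]; exact Submodule.subset_span (by simp)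
  · rw [d.ao, d.bo, d.aj, d.bj, y_j, mul_zero, zero_sub, one_mul, neg_one_mul]
    exact hu.neg

variable {k : Type u} [Field k] {X : Scheme.{u}} {s : X ⟶ Spec (.of k)}

/-- the intersection with the chart with the indices exchanged is a basic open -/
theorem preimage_swap [Fact p.Prime] [CharP k p] {h : Represents p N k X s}
    (c : ChartMor p o j k h) (c' : ChartMor p j o k h) :
    c.φ ⁻¹ᵁ c'.U = PrimeSpectrum.basicOpen ((gen c.hoj k).c) := by
  ext z
  constructor
  · intro hz
    have hz : c.φ z ∈ c'.U := hz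
    let K := (Spec (.of (ChartRing o j k))).residueField z
    let e : Spec K ⟶ Spec (.of (ChartRing o j k)) := Scheme.fromSpecResidueField _ z
    let t : Spec K ⟶ X := e ≫ c.φ
    have he : ∀ y, e y = z := fun y => Scheme.fromSpecResidueField_apply _ _
    have ht : ∀ y, t y = c.φ z := by
      intro y
      have h0 : e y = z := he y
      show (e ≫ c.φ) y = c.φ z
      rw [Scheme.Hom.comp_apply, h0]
    obtain ⟨d', hd'⟩ := c'.coord (R := K) t (by
      intro y
      have h0 : t y = c.φ z := ht y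
      exact Eq.mpr (congrArg (fun x => x ∈ c'.U) h0) hz)
    have hd := is_map h (R' := K) (Spec.preimage e).hom c.φ t (by
      show e ≫ c.φ = Spec.map (Spec.preimage e) ≫ c.φ
      rw [Spec.map_preimage]) c.is
    have h1 := (swap hd hd').2.2
    let χ : ChartRing o j k →+* K := (Spec.preimage e).hom
    have h2 : χ ((gen c.hoj k).c) ≠ 0 := by
      intro h0
      have h3 : χ ((gen c.hoj k).c) * d'.c = 1 := h1
      rw [h0, zero_mul] at h3
      exact zero_ne_one h3
    let y0 : Spec K := IsLocalRing.closedPoint K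
    have h4 : e = Spec.map (CommRingCat.ofHom χ) := by
      show e = Spec.map (Spec.preimage e)
      rw [Spec.map_preimage]
    have h5 : Spec.map (CommRingCat.ofHom χ) y0 = z := by rw [← h4]; exact he y0
    rw [← h5]
    show (gen c.hoj k).c ∉ Ideal.comap χ y0.asIdeal
    intro hmem
    have h6 : χ ((gen c.hoj k).c) ∈ y0.asIdeal := hmem
    have h7 : y0.asIdeal = ⊥ :=
      (Ideal.eq_bot_or_top (K := K) y0.asIdeal).resolve_right y0.isPrime.ne_top
    rw [h7, Ideal.mem_bot] at h6
    exact h2 h6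
  · intro hz
    have hz : (gen c.hoj k).c ∉ z.asIdeal := hz
    let B := Localization.Away ((gen c.hoj k).c)
    let α : ChartRing o j k →+* B := algebraMap _ _
    let t : Spec (.of B) ⟶ X := Spec.map (CommRingCat.ofHom α) ≫ c.φ
    have hd := is_map h α c.φ t rfl c.is
    have hp : (p : B) = 0 := p_zero_of_hom p (α.comp MvPolynomial.C)
    obtain ⟨d', hd'⟩ := swap_exists hp c.hoj hd (IsLocalization.Away.algebraMap_isUnit _)
    have h1 := c'.range t d' hd'
    have h2 : z ∈ Set.range (PrimeSpectrum.comap α) := by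
      rw [PrimeSpectrum.localization_away_comap_range B ((gen c.hoj k).c)]
      exact hz
    obtain ⟨y, h3⟩ : ∃ y : Spec (.of B), Spec.map (CommRingCat.ofHom α) y = z := h2
    have h4 := h1 y
    have h5 : t y = c.φ z := by
      show (Spec.map (CommRingCat.ofHom α) ≫ c.φ) y = c.φ z
      rw [Scheme.Hom.comp_apply, h3]
    rw [h5] at h4
    exact h4

theorem affine_swap [Fact p.Prime] [CharP k p] {h : Represents p N k X s}
    (c : ChartMor p o j k h) (c' : ChartMor p j o k h) : IsAffineOpen (c.U ⊓ c'.U) := by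
  have := c.open
  have h1 : c.U ⊓ c'.U = c.φ ''ᵁ (c.φ ⁻¹ᵁ c'.U) := by
    rw [Scheme.Hom.image_preimage_eq_opensRange_inf]
    rfl
  rw [h1, preimage_swap c c']
  exact IsAffineOpen.image_of_isOpenImmersion
    (IsAffineOpen.Spec_basicOpen _) _

end Swap

end A6

section Main

variable {p N : ℕ} {k : Type u} [Field k] {X Y : Scheme.{u}} {s : X ⟶ Spec (.of k)} {o j : Fin N}

open A6 in
/-- the coordinates of the chart `(o, j)` and of the chart `(j, o)` -/
theorem anticanonical_eqs [Fact p.Prime] [CharP k p] (h : Represents p N k X s)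
    (cA : ChartMor p o j k h) (cB : ChartMor p j o k h)
    (dA : Chart o j Γ(X, cA.U)) (hdA : dA.Is p (flag h (R := Γ(X, cA.U)) cA.affine.fromSpec))
    (dB : Chart j o Γ(X, cB.U)) (hdB : dB.Is p (flag h (R := Γ(X, cB.U)) cB.affine.fromSpec))
    (f : Y ⟶ X) (an : Anticanonical (2 * N - 3) s f) :
    ∃ (qA : Γ(X, cA.U)) (qB : Γ(X, cB.U)) (ε : ℤ), (ε = 1 ∨ ε = -1) ∧ qA ≠ 0 ∧
      (∀ (g : Γ(X, cA.U)) (x : Γ(X, X.basicOpen g)), f.app _ x = 0 ↔
        ∃ z, x = res (X.basicOpen_le g) qA * z) ∧
      (∀ (g : Γ(X, cB.U)) (x : Γ(X, X.basicOpen g)), f.app _ x = 0 ↔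
        ∃ z, x = res (X.basicOpen_le g) qB * z) ∧
      res (inf_le_left : cA.U ⊓ cB.U ≤ cA.U) qA = ε * res (inf_le_left : cA.U ⊓ cB.U ≤ cA.U) dA.c ^ 2 *
        res (inf_le_right : cA.U ⊓ cB.U ≤ cB.U) qB := by
  classical
  have hoj := cA.hoj
  -- the numbering of the coordinates
  have hcard : Fintype.card (Idx o j) = 2 * N - 3 := by
    have h1 : Fintype.card {l : Fin N // l ≠ o ∧ l ≠ j} = N - 2 := by
      rw [Fintype.card_subtype]
      have h2 : (Finset.univ.filter fun i : Fin N => i ≠ o ∧ i ≠ j) =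
          (Finset.univ.erase o).erase j := by
        ext i
        simp [and_comm]
      rw [h2, Finset.card_erase_of_mem, Finset.card_erase_of_mem (Finset.mem_univ _),
        Finset.card_univ, Fintype.card_fin]
      · omega
      · exact Finset.mem_erase.2 ⟨hoj.symm, Finset.mem_univ _⟩
    have h3 : 2 ≤ N := by
      have h4 : Fintype.card (Fin N) ≠ 0 ∧ Fintype.card (Fin N) ≠ 1 := by
        constructor
        · intro h5
          exact (Fintype.card_eq_zero_iff.1 h5).elim o
        · intro h5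
          obtain ⟨x, hx⟩ := Fintype.card_eq_one_iff.1 h5
          exact hoj ((hx o).trans (hx j).symm)
      rw [Fintype.card_fin] at h4
      omega
    rw [Fintype.card_sum, Fintype.card_sum, Fintype.card_unit, h1]
    omega
  let e : Fin (2 * N - 3) ≃ Idx o j := (Fintype.equivFinOfCardEq hcard).symm
  let τ : {l : Fin N // l ≠ o ∧ l ≠ j} ≃ {l : Fin N // l ≠ j ∧ l ≠ o} :=
    Equiv.subtypeEquivRight fun l => and_comm
  let e' : Fin (2 * N - 3) ≃ Idx j o :=
    e.trans (Equiv.sumCongr τ (Equiv.sumCongr τ (Equiv.refl Unit)))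
  obtain ⟨hA0, hA⟩ := chart_eq cA dA hdA f an e
  obtain ⟨_, hB⟩ := chart_eq cB dB hdB f an e'
  have hV := affine_swap cA cB
  have nA := an.nat (cA.U ⊓ cB.U) cA.U hV cA.affine inf_le_left (fun i => crd dA (e i))
  have nB := an.nat (cA.U ⊓ cB.U) cB.U hV cB.affine inf_le_right (fun i => crd dB (e' i))
  obtain ⟨d, hd⟩ := cA.coord_open hV inf_le_left
  obtain ⟨d', hd'⟩ := cB.coord_open hV inf_le_right
  have rA := coord_res h cA.hoj (hU := cA.affine) (hW := hV) inf_le_left hdA hd
  have rB := coord_res h cB.hoj (hU := cB.affine) (hW := hV) inf_le_right hdB hd'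
  obtain ⟨s1, s2, s3⟩ := swap hd hd'
  let _ := algX s (cA.U ⊓ cB.U)
  obtain ⟨ε, hε, hw⟩ := wedge_swap (k := k) (B := Γ(X, cA.U ⊓ cB.U)) e (crd d)
    (fun t => crd d' (Equiv.sumCongr τ (Equiv.sumCongr τ (Equiv.refl Unit)) t))
    (fun l => congrFun s1 l.1) (fun l => congrFun s2 l.1) s3
  refine ⟨_, _, ε, hε, hA0, hA, hB, ?_⟩
  rw [← nA, ← nB]
  have e1 : (fun i => res (inf_le_left : cA.U ⊓ cB.U ≤ cA.U) (crd dA (e i))) =
      fun i => crd d (e i) := by
    funext i
    rw [← rA, crd_map]
  have e2 : (fun i => res (inf_le_right : cA.U ⊓ cB.U ≤ cB.U) (crd dB (e' i))) =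
      fun i => crd d' (e' i) := by
    funext i
    rw [← rB, crd_map]
  have e3 : res (inf_le_left : cA.U ⊓ cB.U ≤ cA.U) dA.c = d.c := by
    rw [← rA]
    rfl
  rw [e1, e2, e3]
  have hw' : wedge (2 * N - 3) s (cA.U ⊓ cB.U) (fun i => crd d (e i)) =
      ((ε : Γ(X, cA.U ⊓ cB.U)) * d.c ^ 2) •
        wedge (2 * N - 3) s (cA.U ⊓ cB.U) (fun i => crd d' (e' i)) := hw
  rw [hw', map_smul, smul_eq_mul]

end Main

end Totaro
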