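import Pool.Agent.Helper49.Tot.Core3

open CategoryTheory AlgebraicGeometry TopologicalSpace Opposite

universe u

namespace Totaro

/- ### TOT-A5 : more on charts (pure algebra) -/

section A5

variable {p N : ℕ} {R : Type u} [CommRing R] {o j o' j' m : Fin N} {F : Flag p N R}

theorem a5_y_mem {d : Chart o j R} {d' : Chart o' j' R} (h : d.Is p F) (h' : d'.Is p F) :
    ∃ t : R, ∀ m, d'.y p m = t * d.y p m := by
  have hL : d'.L p = d.L p := h'.2.symm.trans h.2
  have hy : d'.y p ∈ d.L p := by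
    rw [← hL]
    exact Submodule.subset_span (by simp)
  rw [Chart.L, Submodule.mem_span_singleton] at hy
  obtain ⟨t, ht⟩ := hy
  exact ⟨t, fun m => by rw [← ht]; rfl⟩

theorem a5_a_mem {d : Chart o j R} {d' : Chart o' j' R} (h : d.Is p F) (h' : d'.Is p F) :
    ∃ x y : R, ∀ m, d'.a m = x * d.a m + y * d.b m := by
  have hW : d'.W = d.W := h'.1.symm.trans h.1
  have ha : d'.a ∈ d.W := by
    rw [← hW]
    exact Submodule.subset_span (by simp)
  rw [Chart.W, Submodule.mem_span_pair] at ha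
  obtain ⟨x, y, ht⟩ := ha
  exact ⟨x, y, fun m => by rw [← ht]; rfl⟩

theorem a5_b_mem {d : Chart o j R} {d' : Chart o' j' R} (h : d.Is p F) (h' : d'.Is p F) :
    ∃ x y : R, ∀ m, d'.b m = x * d.a m + y * d.b m := by
  have hW : d'.W = d.W := h'.1.symm.trans h.1
  have ha : d'.b ∈ d.W := by
    rw [← hW]
    exact Submodule.subset_span (by simp)
  rw [Chart.W, Submodule.mem_span_pair] at ha
  obtain ⟨x, y, ht⟩ := ha
  exact ⟨x, y, fun m => by rw [← ht]; rfl⟩

/-- general overlap -/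
theorem gen_overlap [Fact p.Prime] (hoj : o ≠ j) (hoj' : o' ≠ j') {d : Chart o j R} {d' : Chart o' j' R}
    (h : d.Is p F) (h' : d'.Is p F) :
    IsUnit (d.a o' * d.b j' - d.a j' * d.b o') ∧ d.y p o' * d'.y p o = 1 ∧
      ∀ m, d.y p m = d.y p o' * d'.y p m := by
  obtain ⟨x, y, ha⟩ := a5_a_mem h h'
  obtain ⟨z, w, hb⟩ := a5_b_mem h h'
  obtain ⟨t, ht⟩ := a5_y_mem h h'
  have ha1 := ha o'
  have ha2 := ha j'
  have hb1 := hb o'
  have hb2 := hb j'
  rw [d'.ao] at ha1
  rw [d'.aj] at ha2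
  rw [d'.bo] at hb1
  rw [d'.bj] at hb2
  have ht1 := ht o
  have ht2 := ht o'
  rw [y_o, mul_one] at ht1
  rw [y_o] at ht2
  refine ⟨?_, ?_, fun m => ?_⟩
  · refine IsUnit.of_mul_eq_one (x * w - y * z) ?_
    linear_combination (-1 : R) * hb2 * (x * d.a o' + y * d.b o')
      + hb1 * (x * d.a j' + y * d.b j') - ha1
  · rw [ht1]
    linear_combination -ht2
  · rw [ht m]
    linear_combination d.y p m * ht2

/-- existence of coordinates in another chart -/
theorem gen_change [Fact p.Prime] (hp : (p : R) = 0) (hoj' : o' ≠ j') {d : Chart o j R}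
    (h : d.Is p F) (hu : IsUnit ((d.a o' * d.b j' - d.a j' * d.b o') * d.y p o')) :
    ∃ d' : Chart o' j' R, d'.Is p F := by
  refine chart_of_unit hp hoj' F d.a d.b (d.y p) ?_ ?_ ?_ hu
  · rw [h.1]
    exact Submodule.subset_span (by simp)
  · rw [h.1]
    exact Submodule.subset_span (by simp)
  · rw [h.2]
    exact Submodule.subset_span (by simp)

theorem chart_swap [Fact p.Prime] (hoj : o ≠ j) {d : Chart o j R} {d' : Chart j o R}
    (h : d.Is p F) (h' : d'.Is p F) : d'.a = d.b ∧ d'.b = d.a ∧ d.c * d'.c = 1 := by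
  obtain ⟨x, y, ha⟩ := a5_a_mem h h'
  obtain ⟨z, w, hb⟩ := a5_b_mem h h'
  obtain ⟨t, ht⟩ := a5_y_mem h h'
  have ha1 := ha o
  have ha2 := ha j
  have hb1 := hb o
  have hb2 := hb j
  rw [d'.aj, d.ao, d.bo, mul_one, mul_zero, add_zero] at ha1
  rw [d'.ao, d.aj, d.bj, mul_one, mul_zero, zero_add] at ha2
  rw [d'.bj, d.ao, d.bo, mul_one, mul_zero, add_zero] at hb1
  rw [d'.bo, d.aj, d.bj, mul_one, mul_zero, zero_add] at hb2
  have ht1 := ht o
  have ht2 := ht j
  rw [y_o, y_j, mul_one] at ht1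
  rw [y_o, y_j] at ht2
  refine ⟨?_, ?_, ?_⟩
  · funext m
    rw [ha m, ← ha1, ← ha2]; ring
  · funext m
    rw [hb m, ← hb1, ← hb2]; ring
  · rw [ht1, mul_comm]
    exact ht2.symm

/-- the line in terms of the plane coordinates of the chart `(o, j)` -/
theorem line_rel [Fact p.Prime] (hoj : o ≠ j) {d : Chart o j R} {d' : Chart o' j' R}
    (h : d.Is p F) (h' : d'.Is p F) (m : Fin N) :
    d'.y p m = d.a m ^ p * d'.y p o + d.b m ^ p * d'.y p j := by
  obtain ⟨t, ht⟩ := a5_y_mem h h'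
  rw [ht m, ht o, ht j, y_o, y_j, Chart.y]
  ring

/-- over a field there is always a chart -/
theorem field_chart [Fact p.Prime] {K : Type u} [Field K] (hp : (p : K) = 0) (hN : 2 ≤ N)
    (F : Flag p N K) : ∃ (o j : Fin N) (_ : o ≠ j) (d : Chart o j K), d.Is p F := by
  have P : PrimeSpectrum K := ⟨⊥, Ideal.isPrime_bot⟩
  have hp0 : p ≠ 0 := (Fact.out : p.Prime).ne_zero
  have hWq : Module.finrank K ((Fin N → K) ⧸ F.W.toSubmodule) = N - 2 := by
    have h1 := F.W.rankAtStalk_eq P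
    rw [Module.rankAtStalk_eq_finrank_of_free] at h1
    exact h1
  have hLq : Module.finrank K ((Fin N → K) ⧸ F.L.toSubmodule) = N - 1 := by
    have h1 := F.L.rankAtStalk_eq P
    rw [Module.rankAtStalk_eq_finrank_of_free] at h1
    exact h1
  have hW2 : Module.finrank K F.W.toSubmodule = 2 := by
    have h1 := Submodule.finrank_quotient_add_finrank F.W.toSubmodule
    rw [hWq, Module.finrank_fintype_fun_eq_card, Fintype.card_fin] at h1
    omega
  have hL1 : Module.finrank K F.L.toSubmodule = 1 := by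
    have h1 := Submodule.finrank_quotient_add_finrank F.L.toSubmodule
    rw [hLq, Module.finrank_fintype_fun_eq_card, Fintype.card_fin] at h1
    omega
  have hLne : F.L.toSubmodule ≠ ⊥ := by
    intro h0
    rw [h0, finrank_bot] at hL1
    exact zero_ne_one hL1
  obtain ⟨l, hl, hl0⟩ := Submodule.exists_mem_ne_zero_of_ne_bot hLne
  obtain ⟨o, ho⟩ := Function.ne_iff.1 hl0
  -- a vector of the plane with non-zero coordinate `o`
  obtain ⟨w, hw, hwo⟩ : ∃ w ∈ F.W.toSubmodule, w o ≠ 0 := by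
    by_contra hcon
    push Not at hcon
    have h1 : F.L.toSubmodule ≤ LinearMap.ker (LinearMap.proj o : (Fin N → K) →ₗ[K] K) := by
      refine F.le.trans ?_
      rw [frobPull, Submodule.span_le]
      rintro _ ⟨v, hv, rfl⟩
      simp only [SetLike.mem_coe, LinearMap.mem_ker, LinearMap.proj_apply]
      rw [hcon v hv, zero_pow hp0]
    exact ho (h1 hl)
  obtain ⟨w2, hw2, hw2n⟩ : ∃ w2 ∈ F.W.toSubmodule, w2 ∉ Submodule.span K {w} := by
    by_contra hcon
    push Not at hcon
    have h1 : F.W.toSubmodule ≤ Submodule.span K {w} := hcon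
    have h2 := Submodule.finrank_mono h1
    have h3 := finrank_span_le_card (R := K) ({w} : Set (Fin N → K))
    rw [hW2] at h2
    simp at h3
    omega
  set w3 : Fin N → K := w2 - (w2 o / w o) • w with hw3
  have hw3W : w3 ∈ F.W.toSubmodule := Submodule.sub_mem _ hw2 (Submodule.smul_mem _ _ hw)
  have hw3o : w3 o = 0 := by
    rw [hw3]
    simp only [Pi.sub_apply, Pi.smul_apply, smul_eq_mul]
    field_simp
    ring
  have hw3n : w3 ≠ 0 := by
    intro h0
    apply hw2n
    rw [Submodule.mem_span_singleton]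
    exact ⟨w2 o / w o, (sub_eq_zero.1 h0).symm⟩
  obtain ⟨j, hj⟩ := Function.ne_iff.1 hw3n
  have hoj : o ≠ j := by
    rintro rfl
    exact hj hw3o
  obtain ⟨d, hd⟩ := chart_of_unit hp hoj F w w3 l hw hw3W hl (by
    rw [hw3o, mul_zero, sub_zero]
    exact (isUnit_iff_ne_zero.2 (mul_ne_zero (mul_ne_zero hwo hj) ho)))
  exact ⟨o, j, hoj, d, hd⟩

end A5

end Totaro
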