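import Pool.Agent.Helper49.Tot.Core3
import Pool.Agent.Helper49.Tot.A5

open CategoryTheory AlgebraicGeometry TopologicalSpace Opposite

universe u

namespace Totaro

section B1

variable {p N : ℕ} {k : Type u} [Field k] {X : Scheme.{u}} {s : X ⟶ Spec (.of k)}
  {o j o' j' : Fin N} {h : Represents p N k X s}

theorem res_unit {U V : X.Opens} (hVU : V ≤ U) {x : Γ(X, U)} (hV : V ≤ X.basicOpen x) :
    IsUnit (res hVU x) := by
  have h1 : IsUnit (res (X.basicOpen_le x) x) :=
    RingedSpace.isUnit_res_basicOpen X.toLocallyRingedSpace.toRingedSpace x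
  have h2 := h1.map (res hV)
  rwa [res_res] at h2

theorem le_basicOpen {U V : X.Opens} (hVU : V ≤ U) {x : Γ(X, U)} (hu : IsUnit (res hVU x)) :
    V ≤ X.basicOpen x := by
  have h1 := X.basicOpen_res x (homOfLE hVU).op
  have h2 : X.basicOpen (res hVU x) = V := X.basicOpen_of_isUnit hu
  have h3 : X.basicOpen (res hVU x) = V ⊓ X.basicOpen x := h1
  rw [h2] at h3
  rw [h3]
  exact inf_le_right

/-- the intersection of an affine open of a chart with another chart is a basic open -/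
theorem chart_inf [Fact p.Prime] [CharP k p] (hoj : o ≠ j) (c' : ChartMor p o' j' k h)
    {U : X.Opens} (hU : IsAffineOpen U) (d : Chart o j Γ(X, U))
    (hd : d.Is p (flag h (R := Γ(X, U)) hU.fromSpec)) :
    U ⊓ c'.U = X.basicOpen ((d.a o' * d.b j' - d.a j' * d.b o') * d.y p o') := by
  apply le_antisymm
  · intro x hx
    obtain ⟨_, ⟨V, hV', rfl⟩, hxV, hVle⟩ := X.isBasis_affineOpens.exists_subset_of_mem_open hx
      (U ⊓ c'.U).2
    have hV : IsAffineOpen V := hV'
    have hVU : V ≤ U := fun z hz => (hVle hz).1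
    have hVc : V ≤ c'.U := fun z hz => (hVle hz).2
    have hd1 : (d.map (res hVU)).Is p (flag h (R := Γ(X, V)) hV.fromSpec) :=
      is_map h (R := Γ(X, U)) (R' := Γ(X, V)) (res hVU) hU.fromSpec hV.fromSpec
        (hU.map_fromSpec hV (homOfLE hVU).op).symm hd
    obtain ⟨d', hd'⟩ := c'.coord_open hV hVc
    obtain ⟨g1, g2, -⟩ := gen_overlap hoj c'.hoj hd1 hd'
    have g3 : IsUnit ((d.map (res hVU)).y p o') := IsUnit.of_mul_eq_one _ g2
    have g4 := g1.mul g3
    have g5 : ((d.map (res hVU)).a o' * (d.map (res hVU)).b j' -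
        (d.map (res hVU)).a j' * (d.map (res hVU)).b o') * (d.map (res hVU)).y p o' =
        res hVU ((d.a o' * d.b j' - d.a j' * d.b o') * d.y p o') := by
      simp [Chart.map, Chart.y]
    rw [g5] at g4
    exact le_basicOpen hVU g4 hxV
  · refine le_inf (X.basicOpen_le _) ?_
    set δ := (d.a o' * d.b j' - d.a j' * d.b o') * d.y p o' with hδ
    have hV := hU.basicOpen δ
    have hd1 : (d.map (res (X.basicOpen_le δ))).Is p
        (flag h (R := Γ(X, X.basicOpen δ)) hV.fromSpec) :=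
      is_map h (R := Γ(X, U)) (R' := Γ(X, X.basicOpen δ)) (res (X.basicOpen_le δ)) hU.fromSpec
        hV.fromSpec (hU.map_fromSpec hV (homOfLE (X.basicOpen_le δ)).op).symm hd
    have hun : IsUnit (res (X.basicOpen_le δ) δ) := res_unit _ (le_refl _)
    obtain ⟨d', hd'⟩ := gen_change
      (p_zero_of_hom p (kap s (R := Γ(X, X.basicOpen δ)) hV.fromSpec)) c'.hoj hd1 (by
        have g5 : ((d.map (res (X.basicOpen_le δ))).a o' * (d.map (res (X.basicOpen_le δ))).b j' -
            (d.map (res (X.basicOpen_le δ))).a j' * (d.map (res (X.basicOpen_le δ))).b o') *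
            (d.map (res (X.basicOpen_le δ))).y p o' = res (X.basicOpen_le δ) δ := by
          simp [Chart.map, Chart.y, hδ]
        rw [g5]
        exact hun)
    intro x hx
    have hx' : x ∈ Set.range hV.fromSpec := by
      rw [hV.range_fromSpec]; exact hx
    obtain ⟨y, rfl⟩ := hx'
    exact c'.range (R := Γ(X, X.basicOpen δ)) hV.fromSpec d' hd' y

end B1

section B2

variable {p N : ℕ} {k : Type u} [Field k] {X : Scheme.{u}} {s : X ⟶ Spec (.of k)}
  {o j : Fin N} {h : Represents p N k X s}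

/-- the sections over a chart are the chart ring -/
theorem chart_iso [Fact p.Prime] [CharP k p] (c : ChartMor p o j k h) {d : Chart o j Γ(X, c.U)}
    (hd : d.Is p (flag h (R := Γ(X, c.U)) c.affine.fromSpec)) :
    ∃ ψ : ChartRing o j k →+* Γ(X, c.U), Function.Bijective ψ ∧ (gen c.hoj k).map ψ = d ∧
      Spec.map (CommRingCat.ofHom ψ) ≫ c.φ = c.affine.fromSpec := by
  obtain ⟨ψ, h1, h2⟩ := chart_factor h c.hoj c.hs c.is (R := Γ(X, c.U)) c.affine.fromSpec d hd
  obtain ⟨e, he⟩ := exists_ev c.affine c.φ (fun y => c.mem_U.2 ⟨y, rfl⟩)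
  have h3 : e.comp ψ = RingHom.id _ := by
    apply chart_inj h c.hoj c.hs c.is
    rw [CommRingCat.ofHom_comp, Spec.map_comp, Category.assoc]
    have : Spec.map (CommRingCat.ofHom ψ) ≫ c.φ = c.affine.fromSpec := h1
    rw [this]
    have h4 : Spec.map (CommRingCat.ofHom e) ≫ c.affine.fromSpec = c.φ := he
    rw [h4]
    have h5 : Spec.map (CommRingCat.ofHom (RingHom.id (ChartRing o j k))) = 𝟙 _ := by
      have : CommRingCat.ofHom (RingHom.id (ChartRing o j k)) = 𝟙 _ := rfl
      rw [this, Spec.map_id]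
    rw [h5, Category.id_comp]
  have h6 : ψ.comp e = RingHom.id _ := by
    refine ev_unique (hU := c.affine) (t := c.affine.fromSpec) (R := Γ(X, c.U)) ?_ ?_
    · show Spec.map (CommRingCat.ofHom (ψ.comp e)) ≫ c.affine.fromSpec = c.affine.fromSpec
      rw [CommRingCat.ofHom_comp, Spec.map_comp, Category.assoc]
      have h4 : Spec.map (CommRingCat.ofHom e) ≫ c.affine.fromSpec = c.φ := he
      rw [h4]
      exact h1
    · show Spec.map (CommRingCat.ofHom (RingHom.id Γ(X, c.U))) ≫ c.affine.fromSpec =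
        c.affine.fromSpec
      have h5 : Spec.map (CommRingCat.ofHom (RingHom.id Γ(X, c.U))) = 𝟙 _ := by
        have : CommRingCat.ofHom (RingHom.id Γ(X, c.U)) = 𝟙 _ := rfl
        rw [this, Spec.map_id]
      rw [h5, Category.id_comp]
  refine ⟨ψ, ⟨?_, ?_⟩, h2, h1⟩
  · intro x y hxy
    have h7 : ∀ x, e (ψ x) = x := fun x => congrArg (fun f => f x) h3
    rw [← h7 x, ← h7 y, hxy]
  · intro y
    exact ⟨e y, congrArg (fun f => f y) h6⟩

/-- the scalars in the sections -/
noncomputable def scal (s : X ⟶ Spec (.of k)) (U : X.Opens) : k →+* Γ(X, U) :=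
  (s.appLE ⊤ U (fun _ _ => trivial)).hom.comp (Scheme.ΓSpecIso (.of k)).inv.hom

theorem scal_res (s : X ⟶ Spec (.of k)) {U V : X.Opens} (hVU : V ≤ U) (x : k) :
    res hVU (scal s U x) = scal s V x := by
  have h1 : (s.appLE ⊤ U (fun _ _ => trivial)) ≫ X.presheaf.map (homOfLE hVU).op =
      s.appLE ⊤ V (fun _ _ => trivial) := Scheme.Hom.appLE_map _ _ _
  show ((s.appLE ⊤ U (fun _ _ => trivial)) ≫ X.presheaf.map (homOfLE hVU).op)
    ((Scheme.ΓSpecIso (.of k)).inv x) = _
  rw [h1]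
  rfl

theorem scal_kap (s : X ⟶ Spec (.of k)) {U : X.Opens} (hU : IsAffineOpen U) :
    kap s (R := Γ(X, U)) hU.fromSpec = scal s U := by
  have h1 : hU.fromSpec ≫ s = Spec.map (CommRingCat.ofHom (scal s U)) := by
    have h2 := IsAffineOpen.SpecMap_appLE_fromSpec s (isAffineOpen_top (Spec (.of k))) hU
      (show U ≤ s ⁻¹ᵁ ⊤ from fun _ _ => trivial)
    have h3 : CommRingCat.ofHom (scal s U) = (Scheme.ΓSpecIso (.of k)).inv ≫
      s.appLE ⊤ U (fun _ _ => trivial) := rfl
    rw [h3, Spec.map_comp, ← h2]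
    congr 1
    rw [IsAffineOpen.fromSpec_top, Scheme.isoSpec_Spec_inv]
  have h4 := kap_spec (s := s) (R := Γ(X, U)) hU.fromSpec
  rw [h1] at h4
  exact (congrArg (fun f => f.hom) (Spec.map_injective h4)).symm

/-- induction for sections over a chart -/
theorem chart_induction [Fact p.Prime] [CharP k p] (c : ChartMor p o j k h)
    {d : Chart o j Γ(X, c.U)} (hd : d.Is p (flag h (R := Γ(X, c.U)) c.affine.fromSpec))
    (S : Subring Γ(X, c.U)) (hs : ∀ x, scal s c.U x ∈ S) (ha : ∀ l, d.a l ∈ S)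
    (hb : ∀ l, d.b l ∈ S) (hc : d.c ∈ S) (x : Γ(X, c.U)) : x ∈ S := by
  obtain ⟨ψ, hψ, hg, hφ⟩ := chart_iso c hd
  obtain ⟨y, rfl⟩ := hψ.2 x
  have hC : ψ.comp MvPolynomial.C = scal s c.U := by
    rw [← scal_kap s c.affine]
    have h1 : c.affine.fromSpec ≫ s = Spec.map (CommRingCat.ofHom (ψ.comp MvPolynomial.C)) := by
      rw [← hφ, Category.assoc, c.hs, ← Spec.map_comp]
      rfl
    have h4 := kap_spec (s := s) (R := Γ(X, c.U)) c.affine.fromSpec
    rw [h1] at h4
    exact congrArg (fun f => f.hom) (Spec.map_injective h4)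
  induction y using MvPolynomial.induction_on with
  | C a =>
    have h1 : ψ (MvPolynomial.C a) = scal s c.U a := congrArg (fun f => f a) hC
    rw [h1]
    exact hs a
  | add x y hx hy => rw [map_add]; exact S.add_mem hx hy
  | mul_X x i hx =>
    rw [map_mul]
    refine S.mul_mem hx ?_
    rcases i with l | l | l
    · have h1 := congrArg (fun d : Chart o j Γ(X, c.U) => d.a l.1) hg
      simp only [Chart.map, gen, dif_pos l.2] at h1
      rw [h1]; exact ha _
    · have h1 := congrArg (fun d : Chart o j Γ(X, c.U) => d.b l.1) hg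
      simp only [Chart.map, gen, dif_pos l.2] at h1
      rw [h1]; exact hb _
    · have h1 : ψ (gen c.hoj k).c = d.c := congrArg (fun d : Chart o j Γ(X, c.U) => d.c) hg
      have h2 : (gen c.hoj k).c = MvPolynomial.X (Sum.inr (Sum.inr ())) := rfl
      rw [h2] at h1
      have h3 : l = () := rfl
      rw [h1]; exact hc

end B2

section B3

variable {p N : ℕ} {k : Type u} [Field k] {X : Scheme.{u}} {s : X ⟶ Spec (.of k)}

/-- The two charts over a plane chart, with coordinates. -/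
structure Pair [Fact p.Prime] [CharP k p] (h : Represents p N k X s) (o j : Fin N) where
  cA : ChartMor p o j k h
  cB : ChartMor p j o k h
  dA : Chart o j Γ(X, cA.U)
  hA : dA.Is p (flag h (R := Γ(X, cA.U)) cA.affine.fromSpec)
  dB : Chart j o Γ(X, cB.U)
  hB : dB.Is p (flag h (R := Γ(X, cB.U)) cB.affine.fromSpec)

variable [Fact p.Prime] [CharP k p] {h : Represents p N k X s} {o j : Fin N}

theorem exists_pair (h : Represents p N k X s) (hoj : o ≠ j) : Nonempty (Pair h o j) := by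
  obtain ⟨cA⟩ := exists_chartMor (p := p) h hoj
  obtain ⟨cB⟩ := exists_chartMor (p := p) h hoj.symm
  obtain ⟨dA, hA⟩ := cA.coord_open cA.affine (le_refl _)
  obtain ⟨dB, hB⟩ := cB.coord_open cB.affine (le_refl _)
  exact ⟨⟨cA, cB, dA, hA, dB, hB⟩⟩

/-- the union of the two charts -/
noncomputable def Pair.W (P : Pair h o j) : X.Opens := P.cA.U ⊔ P.cB.U

theorem Pair.leA (P : Pair h o j) : P.cA.U ≤ P.W := le_sup_left

theorem Pair.leB (P : Pair h o j) : P.cB.U ≤ P.W := le_sup_right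

theorem is_res {o j : Fin N} {U V : X.Opens} {hU : IsAffineOpen U} (hV : IsAffineOpen V)
    (hVU : V ≤ U) {d : Chart o j Γ(X, U)} (hd : d.Is p (flag h (R := Γ(X, U)) hU.fromSpec)) :
    (d.map (res hVU)).Is p (flag h (R := Γ(X, V)) hV.fromSpec) :=
  is_map h (R := Γ(X, U)) (R' := Γ(X, V)) (res hVU) hU.fromSpec hV.fromSpec
    (hU.map_fromSpec hV (homOfLE hVU).op).symm hd

theorem Pair.inf_eq (P : Pair h o j) : P.cA.U ⊓ P.cB.U = X.basicOpen P.dA.c := by
  rw [chart_inf P.cA.hoj P.cB P.cA.affine P.dA P.hA, P.dA.aj, P.dA.bo, P.dA.ao, P.dA.bj, y_j]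
  have : ((0 : Γ(X, P.cA.U)) * 0 - 1 * 1) * P.dA.c = (-1) * P.dA.c := by ring
  rw [this]
  rw [Scheme.basicOpen_mul, X.basicOpen_of_isUnit (isUnit_one.neg)]
  exact inf_eq_right.2 (X.basicOpen_le _)

theorem Pair.inf_affine (P : Pair h o j) : IsAffineOpen (P.cA.U ⊓ P.cB.U) := by
  rw [P.inf_eq]
  exact P.cA.affine.basicOpen _

theorem Pair.swap (P : Pair h o j) :
    (∀ m, res inf_le_left (P.dA.a m) = res (inf_le_right : P.cA.U ⊓ P.cB.U ≤ P.cB.U) (P.dB.b m)) ∧
    (∀ m, res inf_le_left (P.dA.b m) = res (inf_le_right : P.cA.U ⊓ P.cB.U ≤ P.cB.U) (P.dB.a m)) ∧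
    res (inf_le_left : P.cA.U ⊓ P.cB.U ≤ P.cA.U) P.dA.c *
      res (inf_le_right : P.cA.U ⊓ P.cB.U ≤ P.cB.U) P.dB.c = 1 := by
  obtain ⟨h1, h2, h3⟩ := chart_swap P.cA.hoj
    (is_res P.inf_affine (inf_le_left : P.cA.U ⊓ P.cB.U ≤ P.cA.U) P.hA)
    (is_res P.inf_affine (inf_le_right : P.cA.U ⊓ P.cB.U ≤ P.cB.U) P.hB)
  exact ⟨fun m => (congrFun h2 m).symm, fun m => (congrFun h1 m).symm, h3⟩

/-- the coordinate functions of the plane -/
theorem Pair.exists_a (P : Pair h o j) (m : Fin N) : ∃ a : Γ(X, P.W),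
    res P.leA a = P.dA.a m ∧ res P.leB a = P.dB.b m :=
  res_glue (V := P.W) P.leA P.leB (le_refl _) _ _ (P.swap.1 m)

theorem Pair.exists_b (P : Pair h o j) (m : Fin N) : ∃ b : Γ(X, P.W),
    res P.leA b = P.dA.b m ∧ res P.leB b = P.dB.a m :=
  res_glue (V := P.W) P.leA P.leB (le_refl _) _ _ (P.swap.2.1 m)

noncomputable def Pair.a (P : Pair h o j) (m : Fin N) : Γ(X, P.W) := (P.exists_a m).choose

noncomputable def Pair.b (P : Pair h o j) (m : Fin N) : Γ(X, P.W) := (P.exists_b m).choose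

theorem Pair.a_A (P : Pair h o j) (m : Fin N) : res P.leA (P.a m) = P.dA.a m :=
  (P.exists_a m).choose_spec.1

theorem Pair.a_B (P : Pair h o j) (m : Fin N) : res P.leB (P.a m) = P.dB.b m :=
  (P.exists_a m).choose_spec.2

theorem Pair.b_A (P : Pair h o j) (m : Fin N) : res P.leA (P.b m) = P.dA.b m :=
  (P.exists_b m).choose_spec.1

theorem Pair.b_B (P : Pair h o j) (m : Fin N) : res P.leB (P.b m) = P.dB.a m :=
  (P.exists_b m).choose_spec.2

/-- sections over a basic open of an affine open -/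
theorem basic_frac {U : X.Opens} (hU : IsAffineOpen U) (g : Γ(X, U)) {V : X.Opens} (hVU : V ≤ U)
    (hV : V = X.basicOpen g) (x : Γ(X, V)) :
    ∃ (n : ℕ) (y : Γ(X, U)), res hVU g ^ n * x = res hVU y := by
  subst hV
  have := hU.isLocalization_basicOpen g
  obtain ⟨⟨y, ⟨_, n, rfl⟩⟩, hy⟩ := IsLocalization.surj (Submonoid.powers g) x
  refine ⟨n, y, ?_⟩
  have h1 : x * res hVU (g ^ n) = res hVU y := hy
  rw [← h1, map_pow, mul_comm]

theorem basic_zero {U : X.Opens} (hU : IsAffineOpen U) (g : Γ(X, U)) {V : X.Opens} (hVU : V ≤ U)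
    (hV : V = X.basicOpen g) (y : Γ(X, U)) (hy : res hVU y = 0) : ∃ n : ℕ, g ^ n * y = 0 := by
  subst hV
  have := hU.isLocalization_basicOpen g
  have h1 : algebraMap Γ(X, U) Γ(X, X.basicOpen g) y = algebraMap Γ(X, U) Γ(X, X.basicOpen g) 0 := by
    rw [map_zero]; exact hy
  obtain ⟨⟨_, n, rfl⟩, hc⟩ := (IsLocalization.eq_iff_exists (Submonoid.powers g) _).1 h1
  refine ⟨n, ?_⟩
  rw [mul_zero] at hc
  exact hc

theorem basic_inv {U V : X.Opens} {g : Γ(X, U)} (hVU : V ≤ U) (hV : V ≤ X.basicOpen g) :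
    ∃ t : Γ(X, V), res hVU g * t = 1 := by
  obtain ⟨t, ht⟩ := (res_unit hVU hV).exists_right_inv
  exact ⟨t, ht⟩

end B3

section Laur

variable {P : Type u} [CommRing P]

/-- Laurent polynomials with exponents in `Q`. -/
def lsub (P : Type u) [CommRing P] (Q : AddSubmonoid ℤ) : Subring (LaurentPolynomial P) where
  carrier := {x | ∀ g, g ∉ Q → AddMonoidAlgebra.coeff x g = 0}
  mul_mem' := by
    classical
    intro x y hx hy g hg
    by_contra h
    have h1 : g ∈ (AddMonoidAlgebra.coeff (x * y)).support := Finsupp.mem_support_iff.2 h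
    have h2 := AddMonoidAlgebra.support_coeff_mul_subset x y h1
    obtain ⟨a, ha, b, hb, rfl⟩ := Finset.mem_add.1 h2
    refine hg (Q.add_mem ?_ ?_)
    · by_contra haQ
      exact Finsupp.mem_support_iff.1 ha (hx a haQ)
    · by_contra hbQ
      exact Finsupp.mem_support_iff.1 hb (hy b hbQ)
  one_mem' := by
    intro g hg
    have h0 : g ≠ 0 := fun h => hg (h ▸ Q.zero_mem)
    rw [AddMonoidAlgebra.one_def, AddMonoidAlgebra.coeff_single, Finsupp.single_apply,
      if_neg h0.symm]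
  add_mem' := by
    intro x y hx hy g hg
    rw [AddMonoidAlgebra.coeff_add, Finsupp.add_apply, hx g hg, hy g hg, add_zero]
  zero_mem' := by
    intro g hg
    rfl
  neg_mem' := by
    intro x hx g hg
    rw [AddMonoidAlgebra.coeff_neg, Finsupp.neg_apply, hx g hg, neg_zero]

theorem lsub_single {Q : AddSubmonoid ℤ} {g : ℤ} (hg : g ∈ Q) (r : P) :
    (AddMonoidAlgebra.single g r : LaurentPolynomial P) ∈ lsub P Q := by
  intro g' hg'
  have h0 : g ≠ g' := fun h => hg' (h ▸ hg)
  rw [AddMonoidAlgebra.coeff_single, Finsupp.single_apply, if_neg h0]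

theorem lsub_C {Q : AddSubmonoid ℤ} (r : P) : LaurentPolynomial.C r ∈ lsub P Q :=
  lsub_single Q.zero_mem r

theorem lsub_T {Q : AddSubmonoid ℤ} {g : ℤ} (hg : g ∈ Q) : (LaurentPolynomial.T g : LaurentPolynomial P) ∈ lsub P Q :=
  lsub_single hg 1

/-- the nonnegative integers and the nonpositive integers -/
noncomputable def Qpos : AddSubmonoid ℤ := AddSubmonoid.nonneg ℤ

noncomputable def Qneg : AddSubmonoid ℤ := (AddSubmonoid.nonneg ℤ).comap (-AddMonoidHom.id ℤ)

theorem mem_Qpos {m : ℤ} : m ∈ Qpos ↔ 0 ≤ m := AddSubmonoid.mem_nonneg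

theorem mem_Qneg {m : ℤ} : m ∈ Qneg ↔ m ≤ 0 := by
  rw [Qneg, AddSubmonoid.mem_comap, AddSubmonoid.mem_nonneg]
  simp

theorem laur_zero {x y : LaurentPolynomial P} (hx : x ∈ lsub P Qpos) (hy : y ∈ lsub P Qneg)
    (h : x = LaurentPolynomial.T (-1) * y) : x = 0 := by
  have h1 : ∀ m : ℤ, 0 ≤ m → AddMonoidAlgebra.coeff x m = 0 := by
    intro m hm
    rw [h]
    have h2 : (LaurentPolynomial.T (-1) : LaurentPolynomial P) = AddMonoidAlgebra.single (-1) 1 := rfl
    have h3 : AddMonoidAlgebra.coeff (AddMonoidAlgebra.single (-1) 1 * y : LaurentPolynomial P) m =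
        AddMonoidAlgebra.coeff y (m + 1) := by
      rw [AddMonoidAlgebra.coeff_single_mul_apply, one_mul]
      congr 1
      ring
    rw [h2, h3]
    exact hy (m + 1) (fun hmem => by
      rw [mem_Qneg] at hmem
      omega)
  apply AddMonoidAlgebra.ext
  ext m
  by_cases hm : 0 ≤ m
  · exact h1 m hm
  · exact hx m (fun hmem => hm (mem_Qpos.1 hmem))

end Laur

section B5

variable {p N : ℕ} {k : Type u} [Field k] {X : Scheme.{u}} {s : X ⟶ Spec (.of k)}

/-- polynomials in the plane coordinates -/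
abbrev PlaneRing (o j : Fin N) (k : Type u) [Field k] : Type u :=
  MvPolynomial ({l : Fin N // l ≠ o ∧ l ≠ j} ⊕ {l : Fin N // l ≠ o ∧ l ≠ j}) k

/-- the chart ring maps to polynomials in the last variable -/
noncomputable def thetaP (o j : Fin N) (k : Type u) [Field k] :
    ChartRing o j k →+* Polynomial (PlaneRing o j k) :=
  MvPolynomial.eval₂Hom (Polynomial.C.comp MvPolynomial.C)
    (Sum.elim (fun l => Polynomial.C (MvPolynomial.X (Sum.inl l)))
      (Sum.elim (fun l => Polynomial.C (MvPolynomial.X (Sum.inr l))) (fun _ => Polynomial.X)))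

theorem thetaP_injective (o j : Fin N) (k : Type u) [Field k] :
    Function.Injective (thetaP o j k) := by
  let η0 : PlaneRing o j k →+* ChartRing o j k := MvPolynomial.eval₂Hom MvPolynomial.C
    (Sum.elim (fun l => MvPolynomial.X (Sum.inl l)) (fun l => MvPolynomial.X (Sum.inr (Sum.inl l))))
  let η : Polynomial (PlaneRing o j k) →+* ChartRing o j k :=
    Polynomial.eval₂RingHom η0 (MvPolynomial.X (Sum.inr (Sum.inr ())))
  have h1 : η.comp (thetaP o j k) = RingHom.id _ := by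
    apply MvPolynomial.ringHom_ext
    · intro r
      simp [η, η0, thetaP]
    · intro i
      rcases i with l | l | l
      · simp [η, η0, thetaP]
      · simp [η, η0, thetaP]
      · simp [η, η0, thetaP]
  intro x y hxy
  have h2 : ∀ x, η (thetaP o j k x) = x := fun x => congrArg (fun f => f x) h1
  rw [← h2 x, ← h2 y, hxy]

/-- the chart ring maps to Laurent polynomials in the last variable -/
noncomputable def thetaL (o j : Fin N) (k : Type u) [Field k] :
    ChartRing o j k →+* LaurentPolynomial (PlaneRing o j k) :=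
  (Polynomial.toLaurent : Polynomial (PlaneRing o j k) →+* _).comp (thetaP o j k)

theorem thetaL_injective (o j : Fin N) (k : Type u) [Field k] :
    Function.Injective (thetaL o j k) :=
  Polynomial.toLaurent_injective.comp (thetaP_injective o j k)

variable [Fact p.Prime] [CharP k p] {h : Represents p N k X s} {o j : Fin N}

/-- evaluation at the generic Laurent point -/
theorem Pair.exists_laur (P : Pair h o j) :
    ∃ e : Γ(X, P.cA.U ⊓ P.cB.U) →+* LaurentPolynomial (PlaneRing o j k),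
      (∀ z : Γ(X, P.cA.U), e (res inf_le_left z) = 0 → z = 0) ∧
      (∀ z : Γ(X, P.cA.U), e (res inf_le_left z) ∈ lsub (PlaneRing o j k) Qpos) ∧
      (∀ w : Γ(X, P.cB.U), e (res inf_le_right w) ∈ lsub (PlaneRing o j k) Qneg) ∧
      e (res inf_le_left P.dA.c) = LaurentPolynomial.T 1 ∧
      e (res inf_le_right P.dB.c) = LaurentPolynomial.T (-1) := by
  let L := LaurentPolynomial (PlaneRing o j k)
  let κ : k →+* L := (thetaL o j k).comp MvPolynomial.C
  let dL : Chart o j L := (gen P.cA.hoj k).map (thetaL o j k)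
  let t : Spec (.of L) ⟶ X := Spec.map (CommRingCat.ofHom (thetaL o j k)) ≫ P.cA.φ
  have hdL : dL.Is p (flag h t) := is_map h (thetaL o j k) P.cA.φ t rfl P.cA.is
  have hcL : dL.c = LaurentPolynomial.T 1 := by
    show thetaL o j k (gen P.cA.hoj k).c = _
    simp [gen, thetaL, thetaP]
  have hpL : (p : L) = 0 := p_zero_of_hom p κ
  have hunit : IsUnit dL.c := by
    rw [hcL]
    exact LaurentPolynomial.isUnit_T 1
  obtain ⟨dL', hdL'⟩ := gen_change hpL P.cB.hoj hdL (by
    rw [dL.aj, dL.bo, dL.ao, dL.bj, y_j]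
    have : ((0 : L) * 0 - 1 * 1) * dL.c = -dL.c := by ring
    rw [this]
    exact hunit.neg)
  obtain ⟨sw1, sw2, sw3⟩ := chart_swap P.cA.hoj hdL hdL'
  have hcL' : dL'.c = LaurentPolynomial.T (-1) := by
    rw [hcL] at sw3
    have h1 : (LaurentPolynomial.T (-1) : L) * (LaurentPolynomial.T 1 * dL'.c) =
        LaurentPolynomial.T (-1) := by
      rw [sw3, mul_one]
    rw [← mul_assoc, ← LaurentPolynomial.T_add] at h1
    simpa using h1
  have ht : ∀ y, t y ∈ P.cA.U ⊓ P.cB.U := fun y => ⟨P.cA.range t dL hdL y, P.cB.range t dL' hdL' y⟩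
  obtain ⟨e, he⟩ := exists_ev P.inf_affine t ht
  let eA : Γ(X, P.cA.U) →+* L := e.comp (res inf_le_left)
  let eB : Γ(X, P.cB.U) →+* L := e.comp (res inf_le_right)
  have heA : IsEv P.cA.affine t eA := ev_res he _
  have heB : IsEv P.cB.affine t eB := ev_res he _
  have hA : P.dA.map eA = dL := ev_coord h P.cA.hoj heA P.hA hdL
  have hB : P.dB.map eB = dL' := ev_coord h P.cB.hoj heB P.hB hdL'
  have hscal : ∀ x : k, e (scal s (P.cA.U ⊓ P.cB.U) x) = κ x := by
    intro x
    have h1 : t ≫ s = Spec.map (CommRingCat.ofHom κ) := by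
      show (Spec.map (CommRingCat.ofHom (thetaL o j k)) ≫ P.cA.φ) ≫ s = _
      rw [Category.assoc, P.cA.hs, ← Spec.map_comp]
      rfl
    have h2 : t ≫ s = Spec.map (CommRingCat.ofHom (e.comp (scal s (P.cA.U ⊓ P.cB.U)))) := by
      have h3 : Spec.map (CommRingCat.ofHom e) ≫ P.inf_affine.fromSpec = t := he
      rw [← h3, Category.assoc, kap_spec (s := s) (R := Γ(X, P.cA.U ⊓ P.cB.U)) P.inf_affine.fromSpec,
        scal_kap, ← Spec.map_comp]
      rfl
    rw [h1] at h2
    exact (congrArg (fun f => f.hom x) (Spec.map_injective h2)).symm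
  have hκ : ∀ x : k, κ x = LaurentPolynomial.C (MvPolynomial.C x) := by
    intro x
    simp [κ, thetaL, thetaP]
  have hca : ∀ l, ∃ r, dL.a l = LaurentPolynomial.C r := by
    intro l
    show ∃ r, thetaL o j k ((gen P.cA.hoj k).a l) = _
    simp only [gen]
    split_ifs with h1 h2
    · exact ⟨MvPolynomial.X (Sum.inl ⟨l, h1⟩), by simp [thetaL, thetaP]⟩
    · exact ⟨1, by simp⟩
    · exact ⟨0, by simp⟩
  have hcb : ∀ l, ∃ r, dL.b l = LaurentPolynomial.C r := by
    intro l
    show ∃ r, thetaL o j k ((gen P.cA.hoj k).b l) = _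
    simp only [gen]
    split_ifs with h1 h2
    · exact ⟨MvPolynomial.X (Sum.inr ⟨l, h1⟩), by simp [thetaL, thetaP]⟩
    · exact ⟨1, by simp⟩
    · exact ⟨0, by simp⟩
  refine ⟨e, ?_, ?_, ?_, ?_, ?_⟩
  · intro z hz
    obtain ⟨ψ, hψ, hg, hφ⟩ := chart_iso P.cA P.hA
    obtain ⟨y, rfl⟩ := hψ.2 z
    have h1 : eA.comp ψ = thetaL o j k := by
      apply chart_inj h P.cA.hoj P.cA.hs P.cA.is
      rw [CommRingCat.ofHom_comp, Spec.map_comp, Category.assoc]
      rw [hφ]
      exact heA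
    have h2 : thetaL o j k y = 0 := by
      rw [← h1]
      exact hz
    have h3 : y = 0 := thetaL_injective o j k (by rw [h2, map_zero])
    rw [h3, map_zero]
  · intro z
    refine chart_induction P.cA P.hA ((lsub (PlaneRing o j k) Qpos).comap eA) ?_ ?_ ?_ ?_ z
    · intro x
      show e (res inf_le_left (scal s P.cA.U x)) ∈ lsub (PlaneRing o j k) Qpos
      rw [scal_res, hscal, hκ]
      exact lsub_C _
    · intro l
      show eA (P.dA.a l) ∈ lsub (PlaneRing o j k) Qpos
      obtain ⟨r, hr⟩ := hca l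
      have : eA (P.dA.a l) = dL.a l := congrFun (congrArg Chart.a hA) l
      rw [this, hr]
      exact lsub_C _
    · intro l
      show eA (P.dA.b l) ∈ lsub (PlaneRing o j k) Qpos
      obtain ⟨r, hr⟩ := hcb l
      have : eA (P.dA.b l) = dL.b l := congrFun (congrArg Chart.b hA) l
      rw [this, hr]
      exact lsub_C _
    · show eA P.dA.c ∈ lsub (PlaneRing o j k) Qpos
      have : eA P.dA.c = dL.c := congrArg Chart.c hA
      rw [this, hcL]
      exact lsub_T (mem_Qpos.2 (by norm_num))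
  · intro w
    refine chart_induction P.cB P.hB ((lsub (PlaneRing o j k) Qneg).comap eB) ?_ ?_ ?_ ?_ w
    · intro x
      show e (res inf_le_right (scal s P.cB.U x)) ∈ lsub (PlaneRing o j k) Qneg
      rw [scal_res, hscal, hκ]
      exact lsub_C _
    · intro l
      show eB (P.dB.a l) ∈ lsub (PlaneRing o j k) Qneg
      obtain ⟨r, hr⟩ := hcb l
      have : eB (P.dB.a l) = dL'.a l := congrFun (congrArg Chart.a hB) l
      rw [this, sw1, hr]
      exact lsub_C _
    · intro l
      show eB (P.dB.b l) ∈ lsub (PlaneRing o j k) Qneg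
      obtain ⟨r, hr⟩ := hca l
      have : eB (P.dB.b l) = dL'.b l := congrFun (congrArg Chart.b hB) l
      rw [this, sw2, hr]
      exact lsub_C _
    · show eB P.dB.c ∈ lsub (PlaneRing o j k) Qneg
      have : eB P.dB.c = dL'.c := congrArg Chart.c hB
      rw [this, hcL']
      exact lsub_T (mem_Qneg.2 (by norm_num))
  · have : eA P.dA.c = dL.c := congrArg Chart.c hA
    exact this.trans hcL
  · have : eB P.dB.c = dL'.c := congrArg Chart.c hB
    exact this.trans hcL'

/-- there are no nonzero sections of the line bundle `O(-1)` -/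
theorem Pair.no_sec (P : Pair h o j) (z : Γ(X, P.cA.U)) (w : Γ(X, P.cB.U))
    (hzw : res (inf_le_left : P.cA.U ⊓ P.cB.U ≤ P.cA.U) z =
      res (inf_le_right : P.cA.U ⊓ P.cB.U ≤ P.cB.U) P.dB.c * res inf_le_right w) : z = 0 := by
  obtain ⟨e, e1, e2, e3, e4, e5⟩ := P.exists_laur
  apply e1
  refine laur_zero (e2 z) (e3 w) ?_
  rw [hzw, map_mul, e5]

end B5

section B6

variable {p N : ℕ} {k : Type u} [Field k] {X : Scheme.{u}} {s : X ⟶ Spec (.of k)}
  [Fact p.Prime] [CharP k p] {h : Represents p N k X s} {o j : Fin N}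

theorem chart_domain (c : ChartMor p o j k h) {d : Chart o j Γ(X, c.U)}
    (hd : d.Is p (flag h (R := Γ(X, c.U)) c.affine.fromSpec)) :
    IsDomain Γ(X, c.U) ∧ d.c ≠ 0 := by
  obtain ⟨ψ, hψ, hg, -⟩ := chart_iso c hd
  let e : ChartRing o j k ≃+* Γ(X, c.U) := RingEquiv.ofBijective ψ hψ
  have h1 : IsDomain Γ(X, c.U) := e.symm.toMulEquiv.isDomain (ChartRing o j k)
  refine ⟨h1, ?_⟩
  have h2 : ψ (gen c.hoj k).c = d.c := congrArg (fun d : Chart o j Γ(X, c.U) => d.c) hg
  rw [← h2]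
  intro h3
  have h4 : (gen c.hoj k).c = 0 := hψ.1 (by rw [h3, map_zero])
  have h5 : (gen c.hoj k).c = MvPolynomial.X (Sum.inr (Sum.inr ())) := rfl
  rw [h5] at h4
  exact MvPolynomial.X_ne_zero _ h4

/-- regularity of nonzero elements on basic opens of a chart -/
theorem basic_regular (c : ChartMor p o j k h) {d : Chart o j Γ(X, c.U)}
    (hd : d.Is p (flag h (R := Γ(X, c.U)) c.affine.fromSpec)) {q : Γ(X, c.U)} (hq : q ≠ 0)
    (g : Γ(X, c.U)) {V : X.Opens} (hVU : V ≤ c.U) (hV : V = X.basicOpen g) (x : Γ(X, V))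
    (hx : res hVU q * x = 0) : x = 0 := by
  obtain ⟨hdom, -⟩ := chart_domain c hd
  obtain ⟨n, y, hy⟩ := basic_frac c.affine g hVU hV x
  have h1 : res hVU (q * y) = 0 := by
    rw [map_mul, ← hy, mul_left_comm, hx, mul_zero]
  obtain ⟨m, hm⟩ := basic_zero c.affine g hVU hV _ h1
  have h2 : g ^ m * y = 0 := by
    rw [mul_left_comm] at hm
    exact (mul_eq_zero.1 hm).resolve_left hq
  obtain ⟨t, ht⟩ := basic_inv (g := g) hVU hV.le
  have h3 : res hVU y = 0 := by
    have h4 := congrArg (res hVU) h2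
    rw [map_mul, map_pow, map_zero] at h4
    calc res hVU y = (res hVU g * t) ^ m * res hVU y := by rw [ht, one_pow, one_mul]
      _ = t ^ m * (res hVU g ^ m * res hVU y) := by rw [mul_pow]; ring
      _ = 0 := by rw [h4, mul_zero]
  rw [h3] at hy
  calc x = (res hVU g * t) ^ n * x := by rw [ht, one_pow, one_mul]
    _ = t ^ n * (res hVU g ^ n * x) := by rw [mul_pow]; ring
    _ = 0 := by rw [hy, mul_zero]

/-- injectivity of the restriction to the locus where the last coordinate does not vanish -/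
theorem basic_inj (c : ChartMor p o j k h) {d : Chart o j Γ(X, c.U)}
    (hd : d.Is p (flag h (R := Γ(X, c.U)) c.affine.fromSpec))
    (g : Γ(X, c.U)) {V V' : X.Opens} (hVU : V ≤ c.U) (hV : V = X.basicOpen g) (hle : V' ≤ V)
    (hV' : V' = V ⊓ X.basicOpen d.c) (x : Γ(X, V)) (hx : res hle x = 0) : x = 0 := by
  obtain ⟨hdom, hc⟩ := chart_domain c hd
  have hVa : IsAffineOpen V := by rw [hV]; exact c.affine.basicOpen _
  have h1 : V' = X.basicOpen (res hVU d.c) := by
    rw [hV']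
    exact (X.basicOpen_res d.c (homOfLE hVU).op).symm
  obtain ⟨m, hm⟩ := basic_zero hVa (res hVU d.c) hle h1 x hx
  rw [← map_pow] at hm
  exact basic_regular c hd (pow_ne_zero m hc) g hVU hV x hm

theorem Pair.VA (P : Pair h o j) {V : X.Opens} {g : Γ(X, P.W)} (hV : V = X.basicOpen g) :
    V ⊓ P.cA.U = X.basicOpen (res P.leA g) := by
  have h1 := X.basicOpen_res g (homOfLE P.leA).op
  have h2 : X.basicOpen (res P.leA g) = P.cA.U ⊓ X.basicOpen g := h1
  rw [h2, hV, inf_comm]

theorem Pair.VB (P : Pair h o j) {V : X.Opens} {g : Γ(X, P.W)} (hV : V = X.basicOpen g) :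
    V ⊓ P.cB.U = X.basicOpen (res P.leB g) := by
  have h1 := X.basicOpen_res g (homOfLE P.leB).op
  have h2 : X.basicOpen (res P.leB g) = P.cB.U ⊓ X.basicOpen g := h1
  rw [h2, hV, inf_comm]

theorem Pair.VAB (P : Pair h o j) {V : X.Opens} {g : Γ(X, P.W)} (hV : V = X.basicOpen g) :
    V ⊓ (P.cA.U ⊓ P.cB.U) =
      X.basicOpen (res (inf_le_left.trans P.leA : P.cA.U ⊓ P.cB.U ≤ P.W) g) := by
  have h1 := X.basicOpen_res g (homOfLE (inf_le_left.trans P.leA : P.cA.U ⊓ P.cB.U ≤ P.W)).op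
  have h2 : X.basicOpen (res (inf_le_left.trans P.leA : P.cA.U ⊓ P.cB.U ≤ P.W) g) =
    P.cA.U ⊓ P.cB.U ⊓ X.basicOpen g := h1
  rw [h2, hV, inf_comm]

/-- the symmetric pair -/
def Pair.symm (P : Pair h o j) : Pair h j o := ⟨P.cB, P.cA, P.dB, P.hB, P.dA, P.hA⟩

theorem Pair.inf_eq' (P : Pair h o j) : P.cA.U ⊓ P.cB.U = X.basicOpen P.dB.c := by
  rw [inf_comm]
  exact P.symm.inf_eq

/-- the decomposition of sections over the first chart -/
theorem Pair.split0 (P : Pair h o j) (y : Γ(X, P.cA.U)) :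
    ∃ (r : Γ(X, P.W)) (y1 : Γ(X, P.cA.U)), y = res P.leA r + P.dA.c * y1 := by
  let S : Subring Γ(X, P.cA.U) :=
    { carrier := {y | ∃ (r : Γ(X, P.W)) (y1 : Γ(X, P.cA.U)), y = res P.leA r + P.dA.c * y1}
      mul_mem' := by
        rintro _ _ ⟨r, y, rfl⟩ ⟨r', y', rfl⟩
        refine ⟨r * r', res P.leA r * y' + y * (res P.leA r' + P.dA.c * y'), ?_⟩
        rw [map_mul]; ring
      one_mem' := ⟨1, 0, by rw [map_one, mul_zero, add_zero]⟩
      add_mem' := by
        rintro _ _ ⟨r, y, rfl⟩ ⟨r', y', rfl⟩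
        exact ⟨r + r', y + y', by rw [map_add]; ring⟩
      zero_mem' := ⟨0, 0, by rw [map_zero, mul_zero, add_zero]⟩
      neg_mem' := by
        rintro _ ⟨r, y, rfl⟩
        exact ⟨-r, -y, by rw [map_neg]; ring⟩ }
  refine chart_induction P.cA P.hA S ?_ ?_ ?_ ?_ y
  · intro x
    exact ⟨scal s _ x, 0, by rw [scal_res, mul_zero, add_zero]⟩
  · intro l
    exact ⟨P.a l, 0, by rw [P.a_A, mul_zero, add_zero]⟩
  · intro l
    exact ⟨P.b l, 0, by rw [P.b_A, mul_zero, add_zero]⟩
  · exact ⟨0, 1, by rw [map_zero, mul_one, zero_add]⟩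

variable {V : X.Opens}

theorem Pair.split1 (P : Pair h o j) {g : Γ(X, P.W)} (hV : V = X.basicOpen g)
    (y : Γ(X, V ⊓ P.cA.U)) : ∃ (r : Γ(X, V)) (y1 : Γ(X, V ⊓ P.cA.U)),
      y = res inf_le_left r + res inf_le_right P.dA.c * y1 := by
  have hVW : V ≤ P.W := by rw [hV]; exact X.basicOpen_le _
  obtain ⟨n, y0, hy⟩ := basic_frac P.cA.affine (res P.leA g) inf_le_right (P.VA hV) y
  obtain ⟨r, y1, rfl⟩ := P.split0 y0
  obtain ⟨t, ht⟩ := basic_inv (g := g) hVW hV.le
  have ht' : res (inf_le_right : V ⊓ P.cA.U ≤ P.cA.U) (res P.leA g) *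
      res (inf_le_left : V ⊓ P.cA.U ≤ V) t = 1 := by
    have h1 := congrArg (res (inf_le_left : V ⊓ P.cA.U ≤ V)) ht
    rw [map_mul, map_one, res_res] at h1
    rw [res_res]
    exact h1
  refine ⟨t ^ n * res hVW r, res inf_le_left t ^ n * res inf_le_right y1, ?_⟩
  have e1 : res (inf_le_left : V ⊓ P.cA.U ≤ V) (t ^ n * res hVW r) =
      res inf_le_left t ^ n * res inf_le_right (res P.leA r) := by
    rw [map_mul, map_pow, res_res, res_res]
  rw [e1]
  rw [map_add, map_mul] at hy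
  calc y = (res (inf_le_right : V ⊓ P.cA.U ≤ P.cA.U) (res P.leA g) *
      res (inf_le_left : V ⊓ P.cA.U ≤ V) t) ^ n * y := by rw [ht', one_pow, one_mul]
    _ = res inf_le_left t ^ n * (res (inf_le_right : V ⊓ P.cA.U ≤ P.cA.U) (res P.leA g) ^ n *
      y) := by rw [mul_pow]; ring
    _ = _ := by rw [hy]; ring

/-- no sections of `O(-1)` over a plane basic open -/
theorem Pair.no_sec' (P : Pair h o j) {g : Γ(X, P.W)} (hV : V = X.basicOpen g)
    (z : Γ(X, V ⊓ P.cA.U)) (w : Γ(X, V ⊓ P.cB.U))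
    (lA : V ⊓ (P.cA.U ⊓ P.cB.U) ≤ V ⊓ P.cA.U) (lB : V ⊓ (P.cA.U ⊓ P.cB.U) ≤ V ⊓ P.cB.U)
    (hzw : res lA z = res lB (res inf_le_right P.dB.c) * res lB w) : z = 0 := by
  obtain ⟨n, z0, hz⟩ := basic_frac P.cA.affine (res P.leA g) inf_le_right (P.VA hV) z
  obtain ⟨m, w0, hw⟩ := basic_frac P.cB.affine (res P.leB g) inf_le_right (P.VB hV) w
  have lAB : V ⊓ (P.cA.U ⊓ P.cB.U) ≤ P.cA.U ⊓ P.cB.U := inf_le_right
  have hz' := congrArg (res lA) hz
  have hw' := congrArg (res lB) hw
  rw [map_mul, map_pow] at hz' hw'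
  simp only [res_res] at hz' hw' hzw
  let gAB : Γ(X, P.cA.U ⊓ P.cB.U) := res (inf_le_left.trans P.leA) g
  have h1 : res lAB (gAB ^ m * res inf_le_left z0 -
      res inf_le_right P.dB.c * (gAB ^ n * res inf_le_right w0)) = 0 := by
    simp only [map_sub, map_mul, map_pow, res_res, gAB]
    rw [← hz', ← hw', hzw]
    ring
  obtain ⟨l, hl⟩ := basic_zero P.inf_affine gAB lAB (P.VAB hV) _ h1
  have h2 : res (inf_le_left : P.cA.U ⊓ P.cB.U ≤ P.cA.U)
      (res P.leA g ^ (l + m) * z0) = res (inf_le_right : P.cA.U ⊓ P.cB.U ≤ P.cB.U) P.dB.c *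
        res inf_le_right (res P.leB g ^ (l + n) * w0) := by
    simp only [map_mul, map_pow, res_res]
    have h3 : gAB ^ (l + m) * res inf_le_left z0 - res inf_le_right P.dB.c *
        (gAB ^ (l + n) * res inf_le_right w0) = 0 := by
      rw [← hl]; ring
    exact sub_eq_zero.1 h3
  have h4 := P.no_sec _ _ h2
  obtain ⟨t, ht⟩ := basic_inv (g := res P.leA g) inf_le_right (P.VA hV).le
  have h5 := congrArg (res (inf_le_right : V ⊓ P.cA.U ≤ P.cA.U)) h4
  rw [map_mul, map_pow, map_zero, ← hz] at h5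
  set G := res (inf_le_right : V ⊓ P.cA.U ≤ P.cA.U) (res P.leA g) with hG
  calc z = (G * t) ^ (l + m + n) * z := by rw [ht, one_pow, one_mul]
    _ = t ^ (l + m + n) * (G ^ (l + m) * (G ^ n * z)) := by rw [mul_pow]; ring
    _ = 0 := by rw [h5, mul_zero]

end B6

end Totaro
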