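import Pool.Agent.Helper49.Tot.Core3
import Pool.Agent.Helper49.Tot.A7

open CategoryTheory AlgebraicGeometry TopologicalSpace Opposite

universe u

namespace Totaro

section Alg

variable {RW RA RB RAB : Type u} [CommRing RW] [CommRing RA] [CommRing RB] [CommRing RAB]
  (gA : RW →+* RA) (gB : RW →+* RB) (fA : RA →+* RAB) (fB : RB →+* RAB)
  (comm : ∀ x, fA (gA x) = fB (gB x)) (cA : RA) (cB : RB) (hc : fA cA * fB cB = 1)

include comm hc

theorem alg_split (h1 : ∀ y, ∃ r y1, y = gA r + cA * y1)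
    (h2 : ∀ x, ∃ (n : ℕ) (y : RA), fA cA ^ n * x = fA y) (x : RAB) :
    ∃ (xA : RA) (xB : RB), x = fA xA + fB cB * fB xB := by
  have key : ∀ (n : ℕ) (y : RA), ∃ (xA : RA) (xB : RB), fB cB ^ n * fA y = fA xA + fB cB * fB xB := by
    intro n
    induction n with
    | zero =>
      intro y
      exact ⟨y, 0, by rw [pow_zero, one_mul, map_zero, mul_zero, add_zero]⟩
    | succ n ih =>
      intro y
      obtain ⟨r, y1, rfl⟩ := h1 y
      obtain ⟨xA, xB, hx⟩ := ih y1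
      refine ⟨xA, cB ^ n * gB r + xB, ?_⟩
      have h3 : fB cB ^ (n + 1) * fA (gA r + cA * y1) =
          fB cB * (fB cB ^ n * fB (gB r)) + (fA cA * fB cB) * (fB cB ^ n * fA y1) := by
        rw [map_add, map_mul, comm]; ring
      rw [h3, hc, one_mul, hx, map_add, map_mul, map_pow]
      ring
  obtain ⟨n, y, hy⟩ := h2 x
  obtain ⟨xA, xB, hx⟩ := key n y
  refine ⟨xA, xB, ?_⟩
  rw [← hx, ← hy]
  calc x = (fA cA * fB cB) ^ n * x := by rw [hc, one_pow, one_mul]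
    _ = _ := by rw [mul_pow]; ring

variable (noSec : ∀ (z : RA) (w : RB), fA z = fB cB * fB w → z = 0)

include noSec

theorem alg_E (h1 : ∀ y, ∃ r y1, y = gA r + cA * y1) (injB : ∀ x, fB x = 0 → x = 0) (xA : RA) (xB : RB)
    (h : fA xA = fA cA * fB xB) : ∃ β γ : RW, xA = gA β + gA γ * cA ∧ xB = gB β * cB + gB γ := by
  obtain ⟨β, y1, rfl⟩ := h1 xA
  obtain ⟨γ, z, rfl⟩ := h1 y1
  have hz : z = 0 := by
    apply noSec z (xB - cB * gB β - gB γ)
    rw [map_add, map_mul, map_add, map_mul, comm, comm] at h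
    have h3 : fA z = (fA cA * fB cB) ^ 2 * fA z := by rw [hc, one_pow, one_mul]
    rw [map_sub, map_sub, map_mul, h3]
    have h4 : (fA cA * fB cB) ^ 2 * fA z = fB cB ^ 2 * (fA cA * (fB (gB γ) + fA cA * fA z)) -
        fB cB * (fA cA * fB cB) * fB (gB γ) := by ring
    have h5 : fA cA * (fB (gB γ) + fA cA * fA z) = fA cA * fB xB - fB (gB β) := by
      rw [← h]; ring
    rw [h4, h5, hc]
    have h6 : fB cB ^ 2 * (fA cA * fB xB - fB (gB β)) - fB cB * 1 * fB (gB γ) =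
        (fA cA * fB cB) * (fB cB * fB xB) - fB cB * (fB cB * fB (gB β)) - fB cB * fB (gB γ) := by ring
    rw [h6, hc]
    ring
  subst hz
  refine ⟨β, γ, by ring, ?_⟩
  rw [← sub_eq_zero]
  apply injB
  rw [mul_zero, add_zero, map_add, map_mul, comm, comm] at h
  rw [map_sub, map_add, map_mul]
  have h7 : fB xB = (fA cA * fB cB) * fB xB := by rw [hc, one_mul]
  rw [h7]
  have h8 : fA cA * fB cB * fB xB = fB cB * (fA cA * fB xB) := by ring
  rw [h8, ← h]
  have h9 : fB cB * (fB (gB β) + fA cA * fB (gB γ)) - (fB (gB β) * fB cB + fB (gB γ)) =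
      (fA cA * fB cB) * fB (gB γ) - fB (gB γ) := by ring
  rw [h9, hc]
  ring

theorem alg_U (qA : RA) (qB : RB) (ε : RAB) (εB : RB) (hεB : fB εB = ε) (hε : ε ^ 2 = 1)
    (hq : fA qA = ε * fA cA ^ 2 * fB qB)
    (reg : ∀ x, fA qA * x = 0 → x = 0) (P Q : RW) (hA : RA) (hB : RB)
    (eA : gA P + gA Q * cA = qA * hA) (eB : gB P * cB + gB Q = qB * hB) : gA P = 0 := by
  have e1 := congrArg fA eA
  have e2 := congrArg fB eB
  rw [map_add, map_mul, map_mul, comm, comm] at e1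
  rw [map_add, map_mul, map_mul] at e2
  have e3 : fA qA * (fA hA - fB cB * (ε * fB hB)) = 0 := by
    have h1 : fA qA * fA hA = fA cA * (fB qB * fB hB) := by
      rw [← e1, ← e2]
      have : fA cA * (fB (gB P) * fB cB + fB (gB Q)) =
        (fA cA * fB cB) * fB (gB P) + fA cA * fB (gB Q) := by ring
      rw [this, hc]; ring
    rw [mul_sub, h1, hq]
    have : ε * fA cA ^ 2 * fB qB * (fB cB * (ε * fB hB)) =
      ε ^ 2 * (fA cA * fB cB) * (fA cA * (fB qB * fB hB)) := by ring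
    rw [this, hε, hc]
    ring
  have e4 := sub_eq_zero.1 (reg _ e3)
  have e5 : hA = 0 := noSec hA (εB * hB) (by rw [e4, map_mul, hεB])
  rw [e5, mul_zero] at eA
  have e6 : gA Q = 0 := by
    apply noSec (gA Q) (-gB P)
    have h1 := congrArg fA eA
    rw [map_add, map_mul, comm, comm, map_zero] at h1
    rw [comm, map_neg]
    have h2 : fB (gB Q) = fB cB * (fB (gB P) + fB (gB Q) * fA cA) - fB cB * fB (gB P) +
        (1 - fA cA * fB cB) * fB (gB Q) := by ring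
    rw [h2, h1, hc]
    ring
  rw [e6, zero_mul, add_zero] at eA
  exact eA

end Alg

section B7

variable {p N : ℕ} {k : Type u} [Field k] {X : Scheme.{u}} {s : X ⟶ Spec (.of k)}
  [Fact p.Prime] [CharP k p] {h : Represents p N k X s} {o j l : Fin N} {V : X.Opens}

theorem Pair.VAB_A (P : Pair h o j) (V : X.Opens) :
    V ⊓ (P.cA.U ⊓ P.cB.U) = (V ⊓ P.cA.U) ⊓ X.basicOpen P.dA.c := by
  have h1 : P.cA.U ⊓ P.cB.U = P.cA.U ⊓ X.basicOpen P.dA.c := by
    rw [← P.inf_eq]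
    exact (inf_eq_right.2 inf_le_left).symm
  rw [h1, inf_assoc]

theorem Pair.VAB_B (P : Pair h o j) (V : X.Opens) :
    V ⊓ (P.cA.U ⊓ P.cB.U) = (V ⊓ P.cB.U) ⊓ X.basicOpen P.dB.c := by
  have h1 : P.cA.U ⊓ P.cB.U = P.cB.U ⊓ X.basicOpen P.dB.c := by
    rw [← P.inf_eq']
    exact (inf_eq_right.2 inf_le_right).symm
  rw [h1, inf_assoc]

variable (P : Pair h o j) {g : Γ(X, P.W)} (hV : V = X.basicOpen g)

theorem Pair.leVA (P : Pair h o j) (V : X.Opens) : V ⊓ (P.cA.U ⊓ P.cB.U) ≤ V ⊓ P.cA.U :=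
  inf_le_inf_left _ inf_le_left

theorem Pair.leVB (P : Pair h o j) (V : X.Opens) : V ⊓ (P.cA.U ⊓ P.cB.U) ≤ V ⊓ P.cB.U :=
  inf_le_inf_left _ inf_le_right

include hV

theorem Pair.injA (x : Γ(X, V ⊓ P.cA.U)) (hx : res (P.leVA V) x = 0) : x = 0 :=
  basic_inj P.cA P.hA _ inf_le_right (P.VA hV) (P.leVA V) (P.VAB_A V) x hx

theorem Pair.injB (x : Γ(X, V ⊓ P.cB.U)) (hx : res (P.leVB V) x = 0) : x = 0 :=
  basic_inj P.cB P.hB _ inf_le_right (P.VB hV) (P.leVB V) (P.VAB_B V) x hx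

theorem Pair.cc : res (P.leVA V) (res inf_le_right P.dA.c) *
    res (P.leVB V) (res inf_le_right P.dB.c) = 1 := by
  have h1 := congrArg (res (inf_le_right : V ⊓ (P.cA.U ⊓ P.cB.U) ≤ P.cA.U ⊓ P.cB.U)) P.swap.2.2
  rw [map_mul, map_one, res_res, res_res] at h1
  rw [res_res, res_res]
  exact h1

theorem Pair.fracA (x : Γ(X, V ⊓ (P.cA.U ⊓ P.cB.U))) :
    ∃ (n : ℕ) (y : Γ(X, V ⊓ P.cA.U)),
      res (P.leVA V) (res inf_le_right P.dA.c) ^ n * x = res (P.leVA V) y := by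
  have hVa : IsAffineOpen (V ⊓ P.cA.U) := by rw [P.VA hV]; exact P.cA.affine.basicOpen _
  refine basic_frac hVa _ (P.leVA V) ?_ x
  rw [P.VAB_A V]
  exact (X.basicOpen_res P.dA.c (homOfLE (inf_le_right : V ⊓ P.cA.U ≤ P.cA.U)).op).symm

theorem Pair.split (x : Γ(X, V ⊓ (P.cA.U ⊓ P.cB.U))) :
    ∃ (xA : Γ(X, V ⊓ P.cA.U)) (xB : Γ(X, V ⊓ P.cB.U)),
      x = res (P.leVA V) xA + res (P.leVB V) (res inf_le_right P.dB.c) * res (P.leVB V) xB :=
  alg_split (res (inf_le_left : V ⊓ P.cA.U ≤ V)) (res (inf_le_left : V ⊓ P.cB.U ≤ V))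
    (res (P.leVA V)) (res (P.leVB V)) (fun x => by rw [res_res, res_res])
    (res inf_le_right P.dA.c) (res inf_le_right P.dB.c) (P.cc hV) (P.split1 hV) (P.fracA hV) x

theorem Pair.E (xA : Γ(X, V ⊓ P.cA.U)) (xB : Γ(X, V ⊓ P.cB.U))
    (hx : res (P.leVA V) xA = res (P.leVA V) (res inf_le_right P.dA.c) * res (P.leVB V) xB) :
    ∃ β γ : Γ(X, V), xA = res inf_le_left β + res inf_le_left γ * res inf_le_right P.dA.c ∧
      xB = res inf_le_left β * res inf_le_right P.dB.c + res inf_le_left γ :=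
  alg_E (res (inf_le_left : V ⊓ P.cA.U ≤ V)) (res (inf_le_left : V ⊓ P.cB.U ≤ V))
    (res (P.leVA V)) (res (P.leVB V)) (fun x => by rw [res_res, res_res])
    (res inf_le_right P.dA.c) (res inf_le_right P.dB.c) (P.cc hV)
    (fun z w hzw => P.no_sec' hV z w _ _ hzw) (P.split1 hV) (P.injB hV) xA xB hx

theorem Pair.U {qA : Γ(X, P.cA.U)} {qB : Γ(X, P.cB.U)} {ε : ℤ} (hε : ε = 1 ∨ ε = -1) (hqA : qA ≠ 0)
    (hq : res (inf_le_left : P.cA.U ⊓ P.cB.U ≤ P.cA.U) qA =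
      ε * res (inf_le_left : P.cA.U ⊓ P.cB.U ≤ P.cA.U) P.dA.c ^ 2 *
        res (inf_le_right : P.cA.U ⊓ P.cB.U ≤ P.cB.U) qB)
    (P' Q' : Γ(X, V)) (kA : Γ(X, V ⊓ P.cA.U)) (kB : Γ(X, V ⊓ P.cB.U))
    (eA : res inf_le_left P' + res inf_le_left Q' * res inf_le_right P.dA.c = res inf_le_right qA * kA)
    (eB : res inf_le_left P' * res inf_le_right P.dB.c + res inf_le_left Q' =
      res inf_le_right qB * kB) : res (inf_le_left : V ⊓ P.cA.U ≤ V) P' = 0 := by
  refine alg_U (res (inf_le_left : V ⊓ P.cA.U ≤ V)) (res (inf_le_left : V ⊓ P.cB.U ≤ V))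
    (res (P.leVA V)) (res (P.leVB V)) (fun x => by rw [res_res, res_res])
    (res inf_le_right P.dA.c) (res inf_le_right P.dB.c) (P.cc hV)
    (fun z w hzw => P.no_sec' hV z w _ _ hzw) (res inf_le_right qA) (res inf_le_right qB) (ε : ℤ) (ε : ℤ)
    (by rw [map_intCast]) ?_ ?_ ?_ P' Q' kA kB eA eB
  · rcases hε with rfl | rfl <;> norm_num
  · have h1 := congrArg (res (inf_le_right : V ⊓ (P.cA.U ⊓ P.cB.U) ≤ P.cA.U ⊓ P.cB.U)) hq
    rw [map_mul, map_mul, map_pow, map_intCast, res_res, res_res, res_res] at h1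
    rw [res_res, res_res, res_res]
    exact h1
  · intro x hx
    rw [res_res] at hx
    have hVAB : V ⊓ (P.cA.U ⊓ P.cB.U) = X.basicOpen (res P.leA g * P.dA.c) := by
      rw [P.VAB_A V, P.VA hV, Scheme.basicOpen_mul]
    exact basic_regular P.cA P.hA hqA _ (inf_le_right.trans inf_le_left) hVAB x hx

/-- a section over a plane open which vanishes on the first chart vanishes -/
theorem Pair.zero_of_A (x : Γ(X, V)) (hx : res (inf_le_left : V ⊓ P.cA.U ≤ V) x = 0) : x = 0 := by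
  have hVW : V ≤ P.W := by rw [hV]; exact X.basicOpen_le _
  have hcov : V ≤ (V ⊓ P.cA.U) ⊔ (V ⊓ P.cB.U) := by
    rw [← inf_sup_left]
    exact le_inf (le_refl _) hVW
  refine res_sep inf_le_left inf_le_left hcov x 0 (by rw [hx, map_zero]) ?_
  rw [map_zero]
  apply P.injB hV
  rw [res_res]
  have h1 := congrArg (res (P.leVA V)) hx
  rw [res_res, map_zero] at h1
  exact h1

end B7

end Totaro
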