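import Pool.Agent.Helper49.Tot.Core3
import Pool.Agent.Helper49.Tot.A8

open CategoryTheory AlgebraicGeometry TopologicalSpace Opposite

universe u

namespace Totaro

section B8

variable {p N : ℕ} {k : Type u} [Field k] {X : Scheme.{u}} {s : X ⟶ Spec (.of k)}
  [Fact p.Prime] [CharP k p] {h : Represents p N k X s} {o j l m : Fin N} {V : X.Opens}

theorem basicOpen_neg {U : X.Opens} (x : Γ(X, U)) : X.basicOpen (-x) = X.basicOpen x := by
  have h1 : -x = (-1) * x := by ring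
  rw [h1, Scheme.basicOpen_mul, X.basicOpen_of_isUnit (isUnit_one.neg)]
  exact inf_eq_right.2 (X.basicOpen_le _)

theorem basicOpen_union {U : X.Opens} (a b c : Γ(X, U)) (q : ℕ) :
    X.basicOpen (a * c) ⊔ X.basicOpen (a * (a ^ q + c * b)) = X.basicOpen a := by
  apply le_antisymm
  · refine sup_le ?_ ?_
    · rw [Scheme.basicOpen_mul]; exact inf_le_left
    · rw [Scheme.basicOpen_mul]; exact inf_le_left
  · intro x hx
    have hxU : x ∈ U := X.basicOpen_le _ hx
    by_cases hc : x ∈ X.basicOpen c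
    · left
      rw [Scheme.basicOpen_mul]
      exact ⟨hx, hc⟩
    · right
      rw [Scheme.basicOpen_mul]
      refine ⟨hx, ?_⟩
      show x ∈ X.basicOpen (a ^ q + c * b)
      rw [Scheme.mem_basicOpen _ _ _ hxU] at hx hc ⊢
      by_contra hcon
      apply hc
      rw [map_add, map_mul, map_pow] at hcon
      by_contra hc'
      have h1 : ¬ IsUnit (X.presheaf.germ U x hxU c * X.presheaf.germ U x hxU b) := by
        intro h2
        exact hc' (isUnit_of_mul_isUnit_left h2)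
      have h3 : (X.presheaf.germ U x hxU a ^ q) ∈ nonunits _ := by
        have h4 : X.presheaf.germ U x hxU a ^ q = (X.presheaf.germ U x hxU a ^ q +
          X.presheaf.germ U x hxU c * X.presheaf.germ U x hxU b) +
            -(X.presheaf.germ U x hxU c * X.presheaf.germ U x hxU b) := by ring
        rw [h4]
        exact IsLocalRing.nonunits_add hcon (by
          rw [mem_nonunits_iff, IsUnit.neg_iff]
          exact h1)
      exact h3 (hx.pow q)

theorem Pair.A_W (P : Pair h o j) (Q : Pair h o l) : P.cA.U ⊓ Q.W = X.basicOpen (P.dA.b l) := by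
  have h1 : P.cA.U ⊓ Q.W = (P.cA.U ⊓ Q.cA.U) ⊔ (P.cA.U ⊓ Q.cB.U) := inf_sup_left _ _ _
  rw [h1, chart_inf P.cA.hoj Q.cA P.cA.affine P.dA P.hA, chart_inf P.cA.hoj Q.cB P.cA.affine P.dA P.hA,
    P.dA.ao, P.dA.bo, y_o, one_mul, mul_zero, sub_zero, mul_one, zero_sub]
  apply le_antisymm
  · refine sup_le (le_refl _) ?_
    rw [Scheme.basicOpen_mul, basicOpen_neg]
    exact inf_le_left
  · exact le_sup_left

theorem Pair.B_W (P : Pair h o j) (Q : Pair h o l) : P.cB.U ⊓ Q.W = X.basicOpen (P.dB.a l) := by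
  have h1 : P.cB.U ⊓ Q.W = (P.cB.U ⊓ Q.cA.U) ⊔ (P.cB.U ⊓ Q.cB.U) := inf_sup_left _ _ _
  rw [h1, chart_inf P.cB.hoj Q.cA P.cB.affine P.dB P.hB, chart_inf P.cB.hoj Q.cB P.cB.affine P.dB P.hB,
    P.dB.aj, P.dB.bj, y_j, zero_mul, mul_one, zero_sub, sub_zero]
  have h2 : (-P.dB.a l) * P.dB.c = -(P.dB.a l * P.dB.c) := by ring
  rw [h2, basicOpen_neg]
  exact basicOpen_union (P.dB.a l) (P.dB.b l ^ p) P.dB.c p

theorem Pair.W_W (P : Pair h o j) (Q : Pair h o l) : P.W ⊓ Q.W = X.basicOpen (P.b l) := by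
  have h1 : P.W ⊓ Q.W = (P.cA.U ⊓ Q.W) ⊔ (P.cB.U ⊓ Q.W) := inf_sup_right _ _ _
  have h2 : X.basicOpen (res P.leA (P.b l)) = P.cA.U ⊓ X.basicOpen (P.b l) :=
    X.basicOpen_res (P.b l) (homOfLE P.leA).op
  have h3 : X.basicOpen (res P.leB (P.b l)) = P.cB.U ⊓ X.basicOpen (P.b l) :=
    X.basicOpen_res (P.b l) (homOfLE P.leB).op
  rw [h1, P.A_W Q, P.B_W Q, ← P.b_A, ← P.b_B, h2, h3, ← inf_sup_right]
  exact inf_eq_right.2 (X.basicOpen_le _)

theorem Pair.W_W_W (P : Pair h o j) (Q : Pair h o l) (R : Pair h o m) :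
    P.W ⊓ Q.W ⊓ R.W = X.basicOpen (P.b l * P.b m) := by
  rw [Scheme.basicOpen_mul, ← P.W_W Q, ← P.W_W R]
  apply le_antisymm
  · exact le_inf inf_le_left (inf_le_inf_right _ inf_le_left)
  · exact le_inf inf_le_left (inf_le_right.trans inf_le_right)

theorem Pair.W_A (P : Pair h o j) (Q : Pair h o l) :
    P.W ⊓ Q.W ⊓ P.cA.U ≤ P.cA.U ⊓ Q.cA.U := by
  refine le_inf inf_le_right ?_
  have h1 : P.W ⊓ Q.W ⊓ P.cA.U ≤ P.cA.U ⊓ Q.W := le_inf inf_le_right (inf_le_left.trans inf_le_right)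
  refine h1.trans ?_
  rw [P.A_W Q]
  have h2 := chart_inf P.cA.hoj Q.cA P.cA.affine P.dA P.hA
  rw [P.dA.ao, P.dA.bo, y_o, one_mul, mul_zero, sub_zero, mul_one] at h2
  rw [← h2]
  exact inf_le_right

/-- the relation between the plane coordinates -/
theorem Pair.plane_rel (P : Pair h o j) (Q : Pair h o l)  (m : Fin N) :
    res (inf_le_left : P.W ⊓ Q.W ≤ P.W) (P.b m) =
      res (inf_le_left : P.W ⊓ Q.W ≤ P.W) (P.b l) * res inf_le_right (Q.b m) ∧
    res (inf_le_left : P.W ⊓ Q.W ≤ P.W) (P.a m) = res inf_le_right (Q.a m) +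
      res (inf_le_left : P.W ⊓ Q.W ≤ P.W) (P.a l) * res inf_le_right (Q.b m) := by
  have hle : P.W ⊓ Q.W ⊓ P.cA.U ≤ P.cA.U ⊓ Q.cA.U := P.W_A Q
  have hVa : IsAffineOpen (P.W ⊓ Q.W ⊓ P.cA.U) := by
    rw [P.VA (P.W_W Q)]; exact P.cA.affine.basicOpen _
  obtain ⟨-, h1, h2, -⟩ := chart_overlap P.cA.hoj Q.cA.hoj (is_res hVa (hle.trans inf_le_left) P.hA)
    (is_res hVa (hle.trans inf_le_right) Q.hA)
  have h1 := h1 m
  have h2 := h2 m
  simp only [Chart.map] at h1 h2
  rw [← P.b_A, ← P.b_A, ← Q.b_A, res_res, res_res, res_res] at h1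
  rw [← P.a_A, ← P.a_A, ← Q.a_A, ← Q.b_A, res_res, res_res, res_res, res_res] at h2
  constructor
  · rw [← sub_eq_zero]
    apply P.zero_of_A (P.W_W Q)
    rw [map_sub, map_mul, res_res, res_res, res_res]
    exact sub_eq_zero.2 h1
  · rw [← sub_eq_zero]
    apply P.zero_of_A (P.W_W Q)
    rw [map_sub, map_add, map_mul, res_res, res_res, res_res, res_res]
    exact sub_eq_zero.2 h2

/-- the line in terms of the plane coordinates -/
theorem Pair.line (P : Pair h o j) {o' j' : Fin N} (c' : ChartMor p o' j' k h)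
    {d' : Chart o' j' Γ(X, c'.U)} (hd' : d'.Is p (flag h (R := Γ(X, c'.U)) c'.affine.fromSpec))
    (m : Fin N) :
    res (inf_le_right : P.W ⊓ c'.U ≤ c'.U) (d'.y p m) =
      res (inf_le_left : P.W ⊓ c'.U ≤ P.W) (P.a m) ^ p * res inf_le_right (d'.y p o) +
      res (inf_le_left : P.W ⊓ c'.U ≤ P.W) (P.b m) ^ p * res inf_le_right (d'.y p j) := by
  have hcov : P.W ⊓ c'.U ≤ (P.cA.U ⊓ c'.U) ⊔ (P.cB.U ⊓ c'.U) := by
    rw [← inf_sup_right]; exact le_refl _
  have aA : IsAffineOpen (P.cA.U ⊓ c'.U) := by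
    rw [chart_inf P.cA.hoj c' P.cA.affine P.dA P.hA]; exact P.cA.affine.basicOpen _
  have aB : IsAffineOpen (P.cB.U ⊓ c'.U) := by
    rw [chart_inf P.cB.hoj c' P.cB.affine P.dB P.hB]; exact P.cB.affine.basicOpen _
  refine res_sep (inf_le_inf_right _ P.leA) (inf_le_inf_right _ P.leB) hcov _ _ ?_ ?_
  · have h1 := line_rel P.cA.hoj (is_res aA inf_le_left P.hA) (is_res aA inf_le_right hd') m
    rw [map_add, map_mul, map_mul, map_pow, map_pow]
    simp only [res_res]
    simp only [Chart.map, Chart.y] at h1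
    simp only [← P.a_A, ← P.b_A, res_res] at h1
    simp only [Chart.y, map_add, map_mul, map_pow]
    exact h1
  · have h1 := line_rel P.cB.hoj (is_res aB inf_le_left P.hB) (is_res aB inf_le_right hd') m
    rw [map_add, map_mul, map_mul, map_pow, map_pow]
    simp only [res_res]
    simp only [Chart.map, Chart.y] at h1
    simp only [← P.a_B, ← P.b_B, res_res] at h1
    simp only [Chart.y, map_add, map_mul, map_pow]
    rw [h1]
    ring

end B8

end Totaro
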