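import Pool.Agent.Helper49.Tot.A1
import Pool.Agent.Helper49.Tot.A2
import Pool.Agent.Helper49.Tot.A3
import Pool.Agent.Helper49.Tot.A4
import Pool.Agent.Helper49.Tot.A6
import Pool.Agent.Helper49.Tot.A9

open CategoryTheory AlgebraicGeometry TopologicalSpace Opposite

universe u

namespace Totaro

/-- the index set of the charts -/
abbrev Ind (N : ℕ) : Type := {a : Fin N × Fin N // a.1 ≠ a.2}

section Charts

variable {p N : ℕ} {k : Type u} [Field k] {X Y : Scheme.{u}} {s : X ⟶ Spec (.of k)}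
  [Fact p.Prime] [CharP k p]

/-- all charts with coordinates -/
structure Charts (h : Represents p N k X s) where
  c : ∀ a : Ind N, ChartMor p a.1.1 a.1.2 k h
  d : ∀ a : Ind N, Chart a.1.1 a.1.2 Γ(X, (c a).U)
  is : ∀ a : Ind N, (d a).Is p (flag h (R := Γ(X, (c a).U)) (c a).affine.fromSpec)

theorem exists_charts (h : Represents p N k X s) : Nonempty (Charts h) := by
  have h1 : ∀ a : Ind N, Nonempty (ChartMor p a.1.1 a.1.2 k h) := fun a => exists_chartMor h a.2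
  let c : ∀ a : Ind N, ChartMor p a.1.1 a.1.2 k h := fun a => (h1 a).some
  have h2 : ∀ a : Ind N, ∃ d : Chart a.1.1 a.1.2 Γ(X, (c a).U),
      d.Is p (flag h (R := Γ(X, (c a).U)) (c a).affine.fromSpec) :=
    fun a => (c a).coord_open (c a).affine (le_refl _)
  choose d hd using h2
  exact ⟨⟨c, d, hd⟩⟩

variable {h : Represents p N k X s}

/-- the open subset of a chart -/
noncomputable abbrev Charts.U (C : Charts h) (a : Ind N) : X.Opens := (C.c a).U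

/-- the pair of charts over a plane chart -/
abbrev Charts.pair (C : Charts h) {o j : Fin N} (hoj : o ≠ j) : Pair h o j :=
  ⟨C.c ⟨(o, j), hoj⟩, C.c ⟨(j, o), hoj.symm⟩, C.d ⟨(o, j), hoj⟩, C.is ⟨(o, j), hoj⟩,
    C.d ⟨(j, o), hoj.symm⟩, C.is ⟨(j, o), hoj.symm⟩⟩

theorem Charts.affine_inf (C : Charts h) (a b : Ind N) : IsAffineOpen (C.U a ⊓ C.U b) := by
  have h1 : C.U a ⊓ C.U b = _ := chart_inf a.2 (C.c b) (C.c a).affine (C.d a) (C.is a)
  rw [h1]
  exact (C.c a).affine.basicOpen _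

theorem Charts.cover (C : Charts h) (hN : 2 ≤ N) : (⨆ a, C.U a) = ⊤ := by
  rw [eq_top_iff]
  intro x _
  let t : Spec (X.residueField x) ⟶ X := X.fromSpecResidueField x
  let y0 : Spec (X.residueField x) := IsLocalRing.closedPoint (X.residueField x)
  have ht : t y0 = x := Scheme.fromSpecResidueField_apply _ _
  obtain ⟨o, j, hoj, d, hd⟩ := field_chart (K := X.residueField x)
    (p_zero_of_hom p (kap s (R := X.residueField x) t)) hN (flag h (R := X.residueField x) t)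
  have h1 := (C.c ⟨(o, j), hoj⟩).range (R := X.residueField x) t d hd y0
  have h2 : t y0 ∈ C.U ⟨(o, j), hoj⟩ := h1
  rw [ht] at h2
  exact Opens.mem_iSup.2 ⟨⟨(o, j), hoj⟩, h2⟩

theorem Charts.rel (C : Charts h) (a b : Ind N) (m : Fin N) :
    res (inf_le_left : C.U a ⊓ C.U b ≤ C.U a) ((C.d a).y p m) =
      res (inf_le_left : C.U a ⊓ C.U b ≤ C.U a) ((C.d a).y p b.1.1) *
        res (inf_le_right : C.U a ⊓ C.U b ≤ C.U b) ((C.d b).y p m) := by
  have hV := C.affine_inf a b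
  obtain ⟨-, -, h1⟩ := gen_overlap a.2 b.2
    (is_res hV (inf_le_left : C.U a ⊓ C.U b ≤ C.U a) (C.is a))
    (is_res hV (inf_le_right : C.U a ⊓ C.U b ≤ C.U b) (C.is b))
  have h2 := h1 m
  have h3 : ∀ {o j : Fin N} {R R' : Type u} [CommRing R] [CommRing R'] (φ : R →+* R') (d : Chart o j R)
      (m : Fin N), (d.map φ).y p m = φ (d.y p m) := by
    intro o j R R' _ _ φ d m
    simp [Chart.map, Chart.y]
  rw [h3, h3, h3] at h2
  exact h2

/-- the map of sheaves of rings given by a morphism -/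
noncomputable def phi (f : Y ⟶ X) (V : X.Opens) : Γ(X, V) →+* (pushSys f).R V := (f.app V).hom

/-- the cocycle of the line bundle -/
noncomputable def Charts.g (C : Charts h) (f : Y ⟶ X) (a b : Ind N) :
    (pushSys f).R (C.U a ⊓ C.U b) :=
  phi f (C.U a ⊓ C.U b) (res inf_le_left ((C.d a).y p b.1.1))

/-- the coordinate sections of the line bundle -/
noncomputable def Charts.y (C : Charts h) (f : Y ⟶ X) (m : Fin N) (a : Ind N) :
    (pushSys f).R (C.U a) :=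
  phi f (C.U a) ((C.d a).y p m)

theorem push_r (f : Y ⟶ X) {V W : X.Opens} (hWV : W ≤ V) (x : Γ(X, V)) :
    (pushSys f).r hWV (phi f V x) = phi f W (res hWV x) :=
  (app_res f hWV x).symm

theorem Charts.y_rel (C : Charts h) (f : Y ⟶ X) (m : Fin N) (a b : Ind N) :
    (pushSys f).r inf_le_left (C.y f m a) = C.g f a b * (pushSys f).r inf_le_right (C.y f m b) := by
  unfold Charts.y Charts.g
  rw [push_r, push_r, C.rel a b m, map_mul]

theorem Charts.isCoc (C : Charts h) (f : Y ⟶ X) : IsCoc (pushSys f) C.U (C.g f) := by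
  constructor
  · intro a
    unfold Charts.g
    rw [y_o, map_one, map_one]
  · intro a b c
    have h1 := congrArg ((pushSys f).r (show C.U a ⊓ C.U b ⊓ C.U c ≤ C.U a ⊓ C.U b from inf_le_left))
      (C.y_rel f c.1.1 a b)
    rw [map_mul, (pushSys f).r_r, (pushSys f).r_r] at h1
    unfold Charts.y at h1
    unfold Charts.g at h1 ⊢
    rw [push_r, push_r, push_r] at h1
    rw [push_r, push_r, push_r, res_res, res_res, res_res]
    rw [res_res] at h1
    exact h1.symm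

theorem Charts.cech (C : Charts h) (hN : 2 ≤ N) (f : Y ⟶ X) [IsAffineHom f] (hY : CechTwoZero Y) :
    CechH2 (pushSys f) C.U := by
  intro ω hω
  refine hY (Ind N) (fun a => f ⁻¹ᵁ (C.U a)) (fun a => (C.c a).affine.preimage f) ?_ ω hω
  have h1 := C.cover hN
  have h2 : f ⁻¹ᵁ (⨆ a, C.U a) = ⊤ := by rw [h1]; rfl
  rw [eq_top_iff, ← h2]
  intro y hy
  have h3 : f y ∈ ⨆ a, C.U a := hy
  obtain ⟨a, ha⟩ := Opens.mem_iSup.1 h3
  exact Opens.mem_iSup.2 ⟨a, ha⟩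

end Charts

section Anti

variable {p N : ℕ} {k : Type u} [Field k] {X Y : Scheme.{u}} {s : X ⟶ Spec (.of k)}
  [Fact p.Prime] [CharP k p] {h : Represents p N k X s} {o j : Fin N}

theorem Charts.exists_lift (C : Charts h) (hoj : o ≠ j) (f : Y ⟶ X) [IsClosedImmersion f]
    (S : LiftSys p (pushSys f)) (G : ∀ a b, S.B.R (C.U a ⊓ C.U b)) (hG : IsCoc S.B C.U G)
    (hGg : ∀ a b, S.π _ (G a b) = C.g f a b) (m : Fin N) :
    ∃ Z : ∀ a, S.B.R ((C.pair hoj).W ⊓ C.U a), IsSec S.B C.U G (C.pair hoj).W Z ∧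
      ∀ a, S.π _ (Z a) = (pushSys f).r inf_le_right (C.y f m a) := by
  let P := C.pair hoj
  refine exists_lift_sec S C.U (C.g f) (C.isCoc f) G hG hGg ⟨(o, j), hoj⟩ ⟨(j, o), hoj.symm⟩
    P.cA.affine P.cB.affine ?_ (C.y f m) (C.y_rel f m)
  intro δ
  have haff : IsAffineOpen (P.cA.U ⊓ P.cB.U) := P.inf_affine
  obtain ⟨δ', hδ'⟩ := Scheme.Hom.app_surjective f (P.cA.U ⊓ P.cB.U) haff δ
  obtain ⟨xA, xB, hx⟩ := alg_split (res P.leA) (res P.leB)
    (res (inf_le_left : P.cA.U ⊓ P.cB.U ≤ P.cA.U)) (res (inf_le_right : P.cA.U ⊓ P.cB.U ≤ P.cB.U))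
    (fun x => by rw [res_res, res_res]) P.dA.c P.dB.c P.swap.2.2 P.split0
    (fun x => basic_frac P.cA.affine P.dA.c inf_le_left P.inf_eq x) δ'
  refine ⟨phi f _ xA, phi f _ (-(P.dB.c ^ 2 * xB)), ?_⟩
  have h1 : δ' = res (inf_le_left : P.cA.U ⊓ P.cB.U ≤ P.cA.U) xA -
      res (inf_le_left : P.cA.U ⊓ P.cB.U ≤ P.cA.U) P.dA.c *
        res (inf_le_right : P.cA.U ⊓ P.cB.U ≤ P.cB.U) (-(P.dB.c ^ 2 * xB)) := by
    rw [hx, map_neg, map_mul, map_pow]
    have h2 := P.swap.2.2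
    have h3 : ∀ c c' x y : Γ(X, P.cA.U ⊓ P.cB.U), c * c' = 1 → x + c' * y = x - c * (-(c' ^ 2 * y)) := by
      intro c c' x y hcc
      have : x - c * (-(c' ^ 2 * y)) = x + (c * c') * (c' * y) := by ring
      rw [this, hcc, one_mul]
    exact h3 _ _ _ _ h2
  have h4 := congrArg (phi f (P.cA.U ⊓ P.cB.U)) h1
  have hδ'' : phi f (P.cA.U ⊓ P.cB.U) δ' = δ := hδ'
  rw [hδ'', map_sub, map_mul] at h4
  have h5 : C.g f ⟨(o, j), hoj⟩ ⟨(j, o), hoj.symm⟩ =
      phi f (P.cA.U ⊓ P.cB.U) (res inf_le_left P.dA.c) := by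
    unfold Charts.g
    have : (C.d ⟨(o, j), hoj⟩).y p j = (C.d ⟨(o, j), hoj⟩).c := y_j _
    rw [this]
  rw [h5, push_r, push_r]
  exact h4

/-- the local equations of an anticanonical divisor -/
structure Eqs (P : Pair h o j) (f : Y ⟶ X) where
  qA : Γ(X, P.cA.U)
  qB : Γ(X, P.cB.U)
  ε : ℤ
  hε : ε = 1 ∨ ε = -1
  hqA : qA ≠ 0
  kA : ∀ (g : Γ(X, P.cA.U)) (x : Γ(X, X.basicOpen g)), f.app _ x = 0 ↔
        ∃ z, x = res (X.basicOpen_le g) qA * z
  kB : ∀ (g : Γ(X, P.cB.U)) (x : Γ(X, X.basicOpen g)), f.app _ x = 0 ↔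
        ∃ z, x = res (X.basicOpen_le g) qB * z
  rel : res (inf_le_left : P.cA.U ⊓ P.cB.U ≤ P.cA.U) qA =
    ε * res (inf_le_left : P.cA.U ⊓ P.cB.U ≤ P.cA.U) P.dA.c ^ 2 *
      res (inf_le_right : P.cA.U ⊓ P.cB.U ≤ P.cB.U) qB

theorem exists_eqs (P : Pair h o j) (f : Y ⟶ X) (an : Anticanonical (2 * N - 3) s f) :
    Nonempty (Eqs P f) := by
  obtain ⟨qA, qB, ε, h1, h2, h3, h4, h5⟩ := anticanonical_eqs h P.cA P.cB P.dA P.hA P.dB P.hB f an
  exact ⟨⟨qA, qB, ε, h1, h2, h3, h4, h5⟩⟩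

variable {P : Pair h o j} {f : Y ⟶ X}

theorem Eqs.kerA (E : Eqs P f) {V : X.Opens} (g : Γ(X, P.cA.U)) (hV : V = X.basicOpen g)
    (hle : V ≤ P.cA.U) (x : Γ(X, V)) : phi f _ x = 0 ↔ ∃ z, x = res hle E.qA * z := by
  subst hV
  exact E.kA g x

theorem Eqs.kerB (E : Eqs P f) {V : X.Opens} (g : Γ(X, P.cB.U)) (hV : V = X.basicOpen g)
    (hle : V ≤ P.cB.U) (x : Γ(X, V)) : phi f _ x = 0 ↔ ∃ z, x = res hle E.qB * z := by
  subst hV
  exact E.kB g x

theorem Pair.VAB' (P : Pair h o j) {V : X.Opens} {g : Γ(X, P.W)} (hV : V = X.basicOpen g) :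
    V ⊓ (P.cA.U ⊓ P.cB.U) = X.basicOpen (res P.leA g * P.dA.c) := by
  rw [P.VAB_A V, P.VA hV, Scheme.basicOpen_mul]

/-- sections of `O(1)` on the anticanonical divisor over a plane open, in two charts -/
theorem Eqs.sec (E : Eqs P f) [IsClosedImmersion f] {V : X.Opens} {g : Γ(X, P.W)}
    (hV : V = X.basicOpen g) (xA : (pushSys f).R (V ⊓ P.cA.U)) (xB : (pushSys f).R (V ⊓ P.cB.U))
    (hx : (pushSys f).r (P.leVA V) xA = (pushSys f).r (P.leVA V) (phi f _ (res inf_le_right P.dA.c)) *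
      (pushSys f).r (P.leVB V) xB) :
    ∃ β γ : Γ(X, V),
      xA = phi f _ (res inf_le_left β) + phi f _ (res inf_le_left γ) * phi f _ (res inf_le_right P.dA.c) ∧
      xB = phi f _ (res inf_le_left β) * phi f _ (res inf_le_right P.dB.c) +
        phi f _ (res inf_le_left γ) := by
  have aA : IsAffineOpen (V ⊓ P.cA.U) := by rw [P.VA hV]; exact P.cA.affine.basicOpen _
  have aB : IsAffineOpen (V ⊓ P.cB.U) := by rw [P.VB hV]; exact P.cB.affine.basicOpen _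
  obtain ⟨yA, rfl⟩ : ∃ yA, phi f _ yA = xA := Scheme.Hom.app_surjective f _ aA xA
  obtain ⟨yB, rfl⟩ : ∃ yB, phi f _ yB = xB := Scheme.Hom.app_surjective f _ aB xB
  rw [push_r, push_r, push_r] at hx
  have h1 : phi f _ (res (P.leVA V) yA - res (P.leVA V) (res inf_le_right P.dA.c) *
      res (P.leVB V) yB) = 0 := by
    rw [map_sub, map_mul]
    exact sub_eq_zero.2 hx
  obtain ⟨z, hz⟩ := (E.kerA _ (P.VAB' hV) (inf_le_right.trans inf_le_left) _).1 h1
  obtain ⟨zA, zB, hz2⟩ := P.split hV z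
  have qrel := congrArg (res (inf_le_right : V ⊓ (P.cA.U ⊓ P.cB.U) ≤ P.cA.U ⊓ P.cB.U)) E.rel
  rw [map_mul, map_mul, map_pow, map_intCast, res_res, res_res, res_res] at qrel
  have hcc := P.cc hV
  have hεε : ((E.ε : ℤ) : Γ(X, V ⊓ (P.cA.U ⊓ P.cB.U))) ^ 2 = 1 := by
    rcases E.hε with h2 | h2 <;> rw [h2] <;> norm_num
  obtain ⟨β, γ, e1, e2⟩ := P.E hV (yA - res inf_le_right E.qA * zA)
    (yB + ((E.ε : ℤ) : Γ(X, V ⊓ P.cB.U)) * (res inf_le_right E.qB * zB)) (by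
      rw [map_sub, map_mul, map_add, map_mul, map_mul, map_intCast]
      simp only [res_res] at hz hz2 hcc ⊢
      have hz3 : res (P.leVA V) yA = res (inf_le_right.trans inf_le_left) P.dA.c * res (P.leVB V) yB +
        res (inf_le_right.trans inf_le_left) E.qA * z := by
        rw [← hz]; ring
      rw [hz3, hz2, qrel]
      set c := res (inf_le_right.trans inf_le_left : V ⊓ (P.cA.U ⊓ P.cB.U) ≤ P.cA.U) P.dA.c
      set c' := res (inf_le_right.trans inf_le_right : V ⊓ (P.cA.U ⊓ P.cB.U) ≤ P.cB.U) P.dB.c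
      have h3 : ∀ a b q t y : Γ(X, V ⊓ (P.cA.U ⊓ P.cB.U)),
        c * y + (E.ε : Γ(X, V ⊓ (P.cA.U ⊓ P.cB.U))) * c ^ 2 * q * (a + c' * b) -
          (E.ε : Γ(X, V ⊓ (P.cA.U ⊓ P.cB.U))) * c ^ 2 * q * a =
        c * y + (c * c') * ((E.ε : Γ(X, V ⊓ (P.cA.U ⊓ P.cB.U))) * c * (q * b)) := by
        intro a b q t y; ring
      rw [h3 _ _ _ 0, hcc]
      ring)
  refine ⟨β, γ, ?_, ?_⟩
  · have h2 : phi f _ (res (inf_le_right : V ⊓ P.cA.U ≤ P.cA.U) E.qA * zA) = 0 :=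
      (E.kerA _ (P.VA hV) inf_le_right _).2 ⟨zA, rfl⟩
    have h3 := congrArg (phi f (V ⊓ P.cA.U)) e1
    rw [map_sub, h2, sub_zero, map_add, map_mul] at h3
    exact h3
  · have h2 : phi f _ (res (inf_le_right : V ⊓ P.cB.U ≤ P.cB.U) E.qB * zB) = 0 :=
      (E.kerB _ (P.VB hV) inf_le_right _).2 ⟨zB, rfl⟩
    have h3 := congrArg (phi f (V ⊓ P.cB.U)) e2
    rw [map_add, map_mul _ ((E.ε : ℤ) : Γ(X, V ⊓ P.cB.U)), h2, mul_zero, add_zero, map_add, map_mul] at h3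
    exact h3

/-- uniqueness of the first coefficient -/
theorem Eqs.uniq (E : Eqs P f) {V : X.Opens} {g : Γ(X, P.W)} (hV : V = X.basicOpen g)
    (P' Q' : Γ(X, V))
    (hA : phi f _ (res (inf_le_left : V ⊓ P.cA.U ≤ V) P') +
      phi f _ (res (inf_le_left : V ⊓ P.cA.U ≤ V) Q') * phi f _ (res inf_le_right P.dA.c) = 0)
    (hB : phi f _ (res (inf_le_left : V ⊓ P.cB.U ≤ V) P') * phi f _ (res inf_le_right P.dB.c) +
      phi f _ (res (inf_le_left : V ⊓ P.cB.U ≤ V) Q') = 0) :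
    res (inf_le_left : V ⊓ P.cA.U ≤ V) P' = 0 := by
  rw [← map_mul, ← map_add] at hA hB
  obtain ⟨kA, h1⟩ := (E.kerA _ (P.VA hV) inf_le_right _).1 hA
  obtain ⟨kB, h2⟩ := (E.kerB _ (P.VB hV) inf_le_right _).1 hB
  exact P.U hV E.hε E.hqA E.rel P' Q' kA kB h1 h2

end Anti

end Totaro
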