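import Pool.Agent.Helper49.Tot.A10

open CategoryTheory AlgebraicGeometry TopologicalSpace Opposite

universe u

namespace Totaro

section Fin1

variable {p N : ℕ} {k : Type u} [Field k] {X Y : Scheme.{u}} {s : X ⟶ Spec (.of k)}
  [Fact p.Prime] [CharP k p] {h : Represents p N k X s} {o j : Fin N}

theorem Charts.y_o_A (C : Charts h) (hoj : o ≠ j) (f : Y ⟶ X) :
    C.y f o ⟨(o, j), hoj⟩ = 1 := by
  have h1 : (C.d ⟨(o, j), hoj⟩).y p o = 1 := y_o _
  unfold Charts.y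
  rw [h1, map_one]

theorem Charts.y_j_A (C : Charts h) (hoj : o ≠ j) (f : Y ⟶ X) :
    C.y f j ⟨(o, j), hoj⟩ = phi f _ (C.pair hoj).dA.c := by
  have h1 : (C.d ⟨(o, j), hoj⟩).y p j = (C.d ⟨(o, j), hoj⟩).c := y_j _
  unfold Charts.y
  rw [h1]

theorem Charts.y_o_B (C : Charts h) (hoj : o ≠ j) (f : Y ⟶ X) :
    C.y f o ⟨(j, o), hoj.symm⟩ = phi f _ (C.pair hoj).dB.c := by
  have h1 : (C.d ⟨(j, o), hoj.symm⟩).y p o = (C.d ⟨(j, o), hoj.symm⟩).c := y_j _
  unfold Charts.y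
  rw [h1]

theorem Charts.y_j_B (C : Charts h) (hoj : o ≠ j) (f : Y ⟶ X) :
    C.y f j ⟨(j, o), hoj.symm⟩ = 1 := by
  have h1 : (C.d ⟨(j, o), hoj.symm⟩).y p j = 1 := y_o _
  unfold Charts.y
  rw [h1, map_one]

/-- sections of `O(1)` over a plane open are combinations of two coordinate sections -/
theorem Charts.sec_E (C : Charts h) (hoj : o ≠ j) {f : Y ⟶ X} [IsClosedImmersion f]
    (E : Eqs (C.pair hoj) f) {V : X.Opens} {g : Γ(X, (C.pair hoj).W)} (hV : V = X.basicOpen g)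
    (x : ∀ a, (pushSys f).R (V ⊓ C.U a)) (hx : IsSec (pushSys f) C.U (C.g f) V x) :
    ∃ β γ : Γ(X, V), ∀ a, x a =
      (pushSys f).r inf_le_left (phi f V β) * (pushSys f).r inf_le_right (C.y f o a) +
      (pushSys f).r inf_le_left (phi f V γ) * (pushSys f).r inf_le_right (C.y f j a) := by
  let P := C.pair hoj
  have hVW : V ≤ P.W := by rw [hV]; exact X.basicOpen_le _
  have hg : C.g f ⟨(o, j), hoj⟩ ⟨(j, o), hoj.symm⟩ =
      phi f (P.cA.U ⊓ P.cB.U) (res inf_le_left P.dA.c) := by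
    unfold Charts.g
    have : (C.d ⟨(o, j), hoj⟩).y p j = (C.d ⟨(o, j), hoj⟩).c := y_j _
    rw [this]
  have h1 := hx ⟨(o, j), hoj⟩ ⟨(j, o), hoj.symm⟩
  rw [hg] at h1
  have h2 : (pushSys f).r (inf_le_right : V ⊓ (P.cA.U ⊓ P.cB.U) ≤ P.cA.U ⊓ P.cB.U)
      (phi f (P.cA.U ⊓ P.cB.U) (res inf_le_left P.dA.c)) =
      (pushSys f).r (P.leVA V) (phi f _ (res inf_le_right P.dA.c)) := by
    rw [push_r, push_r, res_res, res_res]
  have h3 : (pushSys f).r (P.leVA V) (x ⟨(o, j), hoj⟩) =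
      (pushSys f).r (P.leVA V) (phi f _ (res inf_le_right P.dA.c)) *
        (pushSys f).r (P.leVB V) (x ⟨(j, o), hoj.symm⟩) := by
    rw [← h2]
    exact h1
  obtain ⟨β, γ, e1, e2⟩ := E.sec hV _ _ h3
  refine ⟨β, γ, ?_⟩
  let z : ∀ a, (pushSys f).R (V ⊓ C.U a) := fun a =>
    (pushSys f).r inf_le_left (phi f V β) * (pushSys f).r inf_le_right (C.y f o a) +
      (pushSys f).r inf_le_left (phi f V γ) * (pushSys f).r inf_le_right (C.y f j a)
  have hz : IsSec (pushSys f) C.U (C.g f) V z := by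
    intro a b
    have hle : V ⊓ (C.U a ⊓ C.U b) ≤ C.U a ⊓ C.U b := inf_le_right
    have r1 := congrArg ((pushSys f).r hle) (C.y_rel f o a b)
    have r2 := congrArg ((pushSys f).r hle) (C.y_rel f j a b)
    rw [map_mul, (pushSys f).r_r, (pushSys f).r_r] at r1 r2
    simp only [z, map_add, map_mul, (pushSys f).r_r]
    rw [r1, r2]
    ring
  have hxz : x = z := by
    refine sec_ext (α := ⟨(o, j), hoj⟩) (β := ⟨(j, o), hoj.symm⟩) hVW hx hz ?_ ?_
    · rw [e1]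
      simp only [z]
      rw [C.y_o_A hoj, C.y_j_A hoj, map_one, mul_one, push_r, push_r, push_r]
    · rw [e2]
      simp only [z]
      rw [C.y_o_B hoj, C.y_j_B hoj, map_one, mul_one, push_r, push_r, push_r]
  intro a
  rw [hxz]

/-- uniqueness of the coefficient -/
theorem Charts.sec_U (C : Charts h) (hoj : o ≠ j) {f : Y ⟶ X}
    (E : Eqs (C.pair hoj) f) {V : X.Opens} {g : Γ(X, (C.pair hoj).W)} (hV : V = X.basicOpen g)
    (P' Q' : Γ(X, V))
    (hz : ∀ a, (pushSys f).r (inf_le_left : V ⊓ C.U a ≤ V) (phi f V P') *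
      (pushSys f).r inf_le_right (C.y f o a) +
      (pushSys f).r inf_le_left (phi f V Q') * (pushSys f).r inf_le_right (C.y f j a) = 0) :
    res (inf_le_left : V ⊓ (C.pair hoj).cA.U ≤ V) P' = 0 := by
  refine E.uniq hV P' Q' ?_ ?_
  · have h1 := hz ⟨(o, j), hoj⟩
    rw [C.y_o_A hoj, C.y_j_A hoj, map_one, mul_one, push_r, push_r, push_r] at h1
    exact h1
  · have h1 := hz ⟨(j, o), hoj.symm⟩
    rw [C.y_o_B hoj, C.y_j_B hoj, map_one, mul_one, push_r, push_r, push_r] at h1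
    exact h1

end Fin1

section Fin2

variable {p N : ℕ} {k Λ : Type u} [Field k] [CommRing Λ] {q : Λ →+* k} {X Y : Scheme.{u}}
  {s : X ⟶ Spec (.of k)} [Fact p.Prime] [CharP k p] {h : Represents p N k X s} {o j l : Fin N}

theorem Charts.line (C : Charts h) (hoj : o ≠ j) (f : Y ⟶ X) (m : Fin N) (a : Ind N) :
    (pushSys f).r (inf_le_right : (C.pair hoj).W ⊓ C.U a ≤ C.U a) (C.y f m a) =
      (pushSys f).r inf_le_left (phi f _ ((C.pair hoj).a m)) ^ p *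
        (pushSys f).r inf_le_right (C.y f o a) +
      (pushSys f).r inf_le_left (phi f _ ((C.pair hoj).b m)) ^ p *
        (pushSys f).r inf_le_right (C.y f j a) := by
  unfold Charts.y
  rw [push_r, push_r, push_r, push_r, push_r, (C.pair hoj).line (C.c a) (C.is a) m, map_add, map_mul,
    map_mul, map_pow, map_pow]

theorem Charts.plane (C : Charts h) (hoj : o ≠ j) (hol : o ≠ l) (f : Y ⟶ X) (m : Fin N) :
    (pushSys f).r (inf_le_left : (C.pair hoj).W ⊓ (C.pair hol).W ≤ (C.pair hoj).W)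
        (phi f _ ((C.pair hoj).b m)) =
      (pushSys f).r inf_le_left (phi f _ ((C.pair hoj).b l)) *
        (pushSys f).r inf_le_right (phi f _ ((C.pair hol).b m)) ∧
    (pushSys f).r (inf_le_left : (C.pair hoj).W ⊓ (C.pair hol).W ≤ (C.pair hoj).W)
        (phi f _ ((C.pair hoj).a m)) =
      (pushSys f).r inf_le_right (phi f _ ((C.pair hol).a m)) +
      (pushSys f).r inf_le_left (phi f _ ((C.pair hoj).a l)) *
        (pushSys f).r inf_le_right (phi f _ ((C.pair hol).b m)) := by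
  obtain ⟨h1, h2⟩ := (C.pair hoj).plane_rel (C.pair hol) m
  constructor
  · rw [push_r, push_r, push_r, h1, map_mul]
  · rw [push_r, push_r, push_r, push_r, h2, map_add, map_mul]

theorem anti_no_lift (h : Represents p N k X s) (hN : 4 ≤ N) (hq : IsLen2 p q) (f : Y ⟶ X)
    [IsClosedImmersion f] (an : Anticanonical (2 * N - 3) s f) (hY : CechTwoZero Y) :
    ¬ LiftsTo Λ q Y (f ≫ s) := by
  intro hlift
  obtain ⟨S⟩ := exists_liftSys hq f (f ≫ s) hlift
  obtain ⟨C⟩ := exists_charts h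
  obtain ⟨G, hG, hGg⟩ := lift_cocycle S C.U C.affine_inf (C.cech (by omega) f hY) (C.g f) (C.isCoc f)
  let o : Fin N := ⟨0, by omega⟩
  let j1 : Fin N := ⟨1, by omega⟩
  let j2 : Fin N := ⟨2, by omega⟩
  let j3 : Fin N := ⟨3, by omega⟩
  have h1 : o ≠ j1 := by simp [o, j1]
  have h2 : o ≠ j2 := by simp [o, j2]
  have h3 : o ≠ j3 := by simp [o, j3]
  have n12 : j1 ≠ j2 := by simp [j1, j2]
  have n13 : j1 ≠ j3 := by simp [j1, j3]
  have n23 : j2 ≠ j3 := by simp [j2, j3]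
  obtain ⟨E1⟩ := exists_eqs (C.pair h1) f an
  obtain ⟨E2⟩ := exists_eqs (C.pair h2) f an
  obtain ⟨Yo1, sYo1, pYo1⟩ := C.exists_lift h1 f S G hG hGg o
  obtain ⟨Y1, sY1, pY1⟩ := C.exists_lift h1 f S G hG hGg j1
  obtain ⟨Yo2, sYo2, pYo2⟩ := C.exists_lift h2 f S G hG hGg o
  obtain ⟨Y2, sY2, pY2⟩ := C.exists_lift h2 f S G hG hGg j2
  obtain ⟨Y3, sY3, pY3⟩ := C.exists_lift h3 f S G hG hGg j3
  obtain ⟨D12, b12, b13, b23, sD, sb12, sb13, sb23, key⟩ := main_eq S C.U (C.g f) G hGg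
    (C.pair h1).W (C.pair h2).W (C.pair h3).W (C.y f o) (C.y f j1) (C.y f j2) (C.y f j3)
    Yo1 Y1 Yo2 Y2 Y3 sYo1 sY1 sYo2 sY2 sY3 pYo1 pY1 pYo2 pY2 pY3
    (phi f _ ((C.pair h1).a j2)) (phi f _ ((C.pair h1).b j2)) (phi f _ ((C.pair h1).a j3))
    (phi f _ ((C.pair h1).b j3)) (phi f _ ((C.pair h2).a j3)) (phi f _ ((C.pair h2).b j3))
    (C.line h1 f j2) (C.line h1 f j3) (C.line h2 f j3) (C.plane h1 h2 f j3).1 (C.plane h1 h2 f j3).2
  obtain ⟨D0, D1, hD⟩ := C.sec_E h1 E1 ((C.pair h1).W_W (C.pair h2)) D12 sD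
  obtain ⟨β12, γ12, hb12⟩ := C.sec_E h1 E1 ((C.pair h1).W_W (C.pair h2)) b12 sb12
  obtain ⟨β13, γ13, hb13⟩ := C.sec_E h1 E1 ((C.pair h1).W_W (C.pair h3)) b13 sb13
  obtain ⟨β23, γ23, hb23⟩ := C.sec_E h2 E2 ((C.pair h2).W_W (C.pair h3)) b23 sb23
  let V : X.Opens := (C.pair h1).W ⊓ (C.pair h2).W ⊓ (C.pair h3).W
  have v12 : V ≤ (C.pair h1).W ⊓ (C.pair h2).W := inf_le_left
  have v1 : V ≤ (C.pair h1).W := v12.trans inf_le_left
  have v2 : V ≤ (C.pair h2).W := v12.trans inf_le_right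
  have v3 : V ≤ (C.pair h3).W := inf_le_right
  have v13 : V ≤ (C.pair h1).W ⊓ (C.pair h3).W := le_inf v1 v3
  have v23 : V ≤ (C.pair h2).W ⊓ (C.pair h3).W := le_inf v2 v3
  let P' : Γ(X, V) := res v2 ((C.pair h2).a j3) ^ p * res v12 D0 +
    res v2 ((C.pair h2).b j3) ^ p * res v12 β12 + res v23 β23 +
    res v23 γ23 * res v1 ((C.pair h1).a j2) ^ p - res v13 β13 -
    bet p (res v2 ((C.pair h2).a j3)) (res v1 ((C.pair h1).a j2) * res v2 ((C.pair h2).b j3))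
  let Q' : Γ(X, V) := res v2 ((C.pair h2).a j3) ^ p * res v12 D1 +
    res v2 ((C.pair h2).b j3) ^ p * res v12 γ12 +
    res v23 γ23 * res v1 ((C.pair h1).b j2) ^ p - res v13 γ13
  have hz : ∀ a, (pushSys f).r (inf_le_left : V ⊓ C.U a ≤ V) (phi f V P') *
      (pushSys f).r inf_le_right (C.y f o a) +
      (pushSys f).r inf_le_left (phi f V Q') * (pushSys f).r inf_le_right (C.y f j1 a) = 0 := by
    intro a
    have kk := key a (V ⊓ C.U a) (inf_le_left.trans v1) (inf_le_left.trans v2)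
      (inf_le_left.trans v3) inf_le_right
    have hy2 := congrArg ((pushSys f).r (show V ⊓ C.U a ≤ (C.pair h1).W ⊓ C.U a from
      inf_le_inf_right _ v1)) (C.line h1 f j2 a)
    rw [hD a, hb12 a, hb13 a, hb23 a] at kk
    simp only [map_add, map_mul, map_pow, (pushSys f).r_r, push_r, res_res] at kk hy2
    have eP : (pushSys f).r (inf_le_left : V ⊓ C.U a ≤ V) (phi f V P') =
        phi f _ (res inf_le_left P') := push_r f _ _
    have eQ : (pushSys f).r (inf_le_left : V ⊓ C.U a ≤ V) (phi f V Q') =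
        phi f _ (res inf_le_left Q') := push_r f _ _
    rw [eP, eQ]
    simp only [P', Q', map_add, map_sub, map_mul, map_pow, res_res, bet_map]
    linear_combination kk - phi f _ (res (inf_le_left.trans v23) γ23) * hy2
  have hP := C.sec_U h1 E1 ((C.pair h1).W_W_W (C.pair h2) (C.pair h3)) P' Q' hz
  let c1 := C.c ⟨(o, j1), h1⟩
  let c2 := C.c ⟨(o, j2), h2⟩
  let c3 := C.c ⟨(o, j3), h3⟩
  have hW : IsAffineOpen (c1.U ⊓ c2.U ⊓ c3.U) := c1.affine_inf₂ c2 c3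
  have w12 : c1.U ⊓ c2.U ⊓ c3.U ≤ c1.U ⊓ c2.U := inf_le_left
  have w13 : c1.U ⊓ c2.U ⊓ c3.U ≤ c1.U ⊓ c3.U := inf_le_inf_right _ inf_le_left
  have w23 : c1.U ⊓ c2.U ⊓ c3.U ≤ c2.U ⊓ c3.U := inf_le_inf_right _ inf_le_right
  have u1 : c1.U ≤ (C.pair h1).W := (C.pair h1).leA
  have u2 : c2.U ≤ (C.pair h2).W := (C.pair h2).leA
  have u3 : c3.U ≤ (C.pair h3).W := (C.pair h3).leA
  have w0 : c1.U ⊓ c2.U ⊓ c3.U ≤ V ⊓ (C.pair h1).cA.U :=
    le_inf (inf_le_inf (inf_le_inf u1 u2) u3) (w12.trans inf_le_left)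
  have hP' := congrArg (res w0) hP
  rw [map_zero] at hP'
  simp only [P', map_add, map_sub, map_mul, map_pow, res_res, bet_map] at hP'
  refine no_split h n12 n13 n23 c1 c2 c3 hW rfl ((C.d ⟨(o, j1), h1⟩).map (res (w12.trans inf_le_left)))
    (is_res hW _ (C.is ⟨(o, j1), h1⟩)) ((C.d ⟨(o, j2), h2⟩).map (res (w12.trans inf_le_right)))
    (is_res hW _ (C.is ⟨(o, j2), h2⟩)) (res (inf_le_inf u1 u2) D0) (res (inf_le_inf u1 u2) β12)
    (res (inf_le_inf u1 u3) β13) (res (inf_le_inf u2 u3) β23)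
    (-(res (w0.trans (inf_le_left.trans v23)) γ23)) w12 w13 w23 ?_
  have ea2 : (C.d ⟨(o, j2), h2⟩).a j3 = res u2 ((C.pair h2).a j3) := ((C.pair h2).a_A j3).symm
  have eb2 : (C.d ⟨(o, j2), h2⟩).b j3 = res u2 ((C.pair h2).b j3) := ((C.pair h2).b_A j3).symm
  have ea1 : (C.d ⟨(o, j1), h1⟩).a j2 = res u1 ((C.pair h1).a j2) := ((C.pair h1).a_A j2).symm
  show res (w12.trans inf_le_right) ((C.d ⟨(o, j2), h2⟩).a j3) ^ p * res w12 (res (inf_le_inf u1 u2) D0) +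
      res (w12.trans inf_le_right) ((C.d ⟨(o, j2), h2⟩).b j3) ^ p *
        res w12 (res (inf_le_inf u1 u2) β12) + res w23 (res (inf_le_inf u2 u3) β23) -
      res w13 (res (inf_le_inf u1 u3) β13) =
    bet p (res (w12.trans inf_le_right) ((C.d ⟨(o, j2), h2⟩).a j3))
      (res (w12.trans inf_le_left) ((C.d ⟨(o, j1), h1⟩).a j2) *
        res (w12.trans inf_le_right) ((C.d ⟨(o, j2), h2⟩).b j3)) +
      -(res (w0.trans (inf_le_left.trans v23)) γ23) *
        res (w12.trans inf_le_left) ((C.d ⟨(o, j1), h1⟩).a j2) ^ p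
  rw [ea2, eb2, ea1]
  simp only [res_res]
  linear_combination hP'

end Fin2

end Totaro
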