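import Pool.Agent.Helper49.Tot.Core2

/-!
# Cocycles and sections of line bundles (definitions for the modules A1, A3, A4)
-/

open CategoryTheory AlgebraicGeometry TopologicalSpace Opposite

universe u

namespace Totaro

variable {X : Scheme.{u}}

/-- the Cech condition for the finite family `U`. -/
def CechH2 (A : Sys X) {ι : Type} (U : ι → X.Opens) : Prop :=
  ∀ ω : ∀ a b c, A.R (U a ⊓ U b ⊓ U c),
      (∀ a b c d, A.r (W := U a ⊓ U b ⊓ U c ⊓ U d)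
          (show U a ⊓ U b ⊓ U c ⊓ U d ≤ U b ⊓ U c ⊓ U d from fun _ h => ⟨⟨h.1.1.2, h.1.2⟩, h.2⟩) (ω b c d)
        - A.r (W := U a ⊓ U b ⊓ U c ⊓ U d)
          (show U a ⊓ U b ⊓ U c ⊓ U d ≤ U a ⊓ U c ⊓ U d from fun _ h => ⟨⟨h.1.1.1, h.1.2⟩, h.2⟩) (ω a c d)
        + A.r (W := U a ⊓ U b ⊓ U c ⊓ U d)
          (show U a ⊓ U b ⊓ U c ⊓ U d ≤ U a ⊓ U b ⊓ U d from fun _ h => ⟨h.1.1, h.2⟩) (ω a b d)
        - A.r (W := U a ⊓ U b ⊓ U c ⊓ U d)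
          (show U a ⊓ U b ⊓ U c ⊓ U d ≤ U a ⊓ U b ⊓ U c from fun _ h => h.1) (ω a b c) = 0) →
      ∃ η : ∀ a b, A.R (U a ⊓ U b), ∀ a b c,
        ω a b c = A.r (show U a ⊓ U b ⊓ U c ≤ U b ⊓ U c from fun _ h => ⟨h.1.2, h.2⟩) (η b c)
          - A.r (show U a ⊓ U b ⊓ U c ≤ U a ⊓ U c from fun _ h => ⟨h.1.1, h.2⟩) (η a c)
          + A.r (show U a ⊓ U b ⊓ U c ≤ U a ⊓ U b from fun _ h => h.1) (η a b)

/-- `g` is a multiplicative cocycle. -/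
structure IsCoc (A : Sys X) {ι : Type} (U : ι → X.Opens) (g : ∀ a b, A.R (U a ⊓ U b)) : Prop where
  one : ∀ a, g a a = 1
  mul : ∀ a b c, A.r (show U a ⊓ U b ⊓ U c ≤ U a ⊓ U b from fun _ h => h.1) (g a b) *
    A.r (show U a ⊓ U b ⊓ U c ≤ U b ⊓ U c from fun _ h => ⟨h.1.2, h.2⟩) (g b c) =
    A.r (show U a ⊓ U b ⊓ U c ≤ U a ⊓ U c from fun _ h => ⟨h.1.1, h.2⟩) (g a c)

/-- `x` is a section over `V` of the line bundle with cocycle `g`. -/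
def IsSec (A : Sys X) {ι : Type} (U : ι → X.Opens) (g : ∀ a b, A.R (U a ⊓ U b)) (V : X.Opens)
    (x : ∀ a, A.R (V ⊓ U a)) : Prop :=
  ∀ a b, A.r (show V ⊓ (U a ⊓ U b) ≤ V ⊓ U a from fun _ h => ⟨h.1, h.2.1⟩) (x a) =
    A.r (show V ⊓ (U a ⊓ U b) ≤ U a ⊓ U b from fun _ h => h.2) (g a b) *
      A.r (show V ⊓ (U a ⊓ U b) ≤ V ⊓ U b from fun _ h => ⟨h.1, h.2.2⟩) (x b)

/-- the cocycle relation on a smaller open subset -/
theorem IsCoc.rel {A : Sys X} {ι : Type} {U : ι → X.Opens} {g : ∀ a b, A.R (U a ⊓ U b)}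
    (hg : IsCoc A U g) (a b c : ι) {V : X.Opens} (hab : V ≤ U a ⊓ U b) (hbc : V ≤ U b ⊓ U c)
    (hac : V ≤ U a ⊓ U c) : A.r hab (g a b) * A.r hbc (g b c) = A.r hac (g a c) := by
  have hV : V ≤ U a ⊓ U b ⊓ U c := fun _ h => ⟨hab h, (hbc h).2⟩
  have h := congrArg (A.r hV) (hg.mul a b c)
  rw [map_mul, A.r_r, A.r_r, A.r_r] at h
  exact h

end Totaro
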