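import Mathlib

/-!
# Frobenius-twisted flag varieties: definitions

For a ring `R` of characteristic `p` the `R`-points of the variety `P(F^* S)` over the Grassmannian of
planes in the `N`-space are the pairs `(W, L)` where `W` is a rank two subbundle of `R ^ N` and `L`
is a line subbundle contained in the Frobenius pullback of `W`.
-/

open CategoryTheory AlgebraicGeometry

universe u

namespace Totaro

section Alg

/-- The Frobenius pullback of a submodule `W` of `R ^ N`: the span of all vectors
`(w_1 ^ p, ..., w_N ^ p)` with `w` in `W`. -/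
def frobPull (p : ℕ) {N : ℕ} {R : Type u} [CommRing R] (W : Submodule R (Fin N → R)) :
    Submodule R (Fin N → R) :=
  Submodule.span R ((fun (w : Fin N → R) (i : Fin N) => w i ^ p) '' (W : Set (Fin N → R)))

/-- The base change of a submodule of `R ^ N` along `φ : R → R'`: the span of the image. -/
def bc {N : ℕ} {R R' : Type u} [CommRing R] [CommRing R'] (φ : R →+* R')
    (W : Submodule R (Fin N → R)) : Submodule R' (Fin N → R') :=
  Submodule.span R' ((fun (w : Fin N → R) (i : Fin N) => φ (w i)) '' (W : Set (Fin N → R)))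

/-- Pairs `(W, L)`: a submodule `W` of `R ^ N` with projective quotient of rank `N - 2` and a
submodule `L` with projective quotient of rank `N - 1` which is contained in the Frobenius
pullback of `W`. -/
structure Flag (p N : ℕ) (R : Type u) [CommRing R] where
  W : Module.Grassmannian R (Fin N → R) (N - 2)
  L : Module.Grassmannian R (Fin N → R) (N - 1)
  le : L.toSubmodule ≤ frobPull p W.toSubmodule

/-- Coordinates on the standard chart with indices `o`, `j`. -/
structure Chart {N : ℕ} (o j : Fin N) (R : Type u) [CommRing R] where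
  a : Fin N → R
  b : Fin N → R
  c : R
  ao : a o = 1
  bo : b o = 0
  aj : a j = 0
  bj : b j = 1

variable {N : ℕ} {o j : Fin N} {R : Type u} [CommRing R]

theorem Chart.ext' {d d' : Chart o j R} (ha : d.a = d'.a) (hb : d.b = d'.b) (hc : d.c = d'.c) :
    d = d' := by
  cases d; cases d'; cases ha; cases hb; cases hc; rfl

/-- The plane of a point of a chart. -/
def Chart.W (d : Chart o j R) : Submodule R (Fin N → R) := Submodule.span R {d.a, d.b}

/-- The generator of the line of a point of a chart. -/
def Chart.y (p : ℕ) (d : Chart o j R) : Fin N → R := fun i => d.a i ^ p + d.c * d.b i ^ p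

/-- The line of a point of a chart. -/
def Chart.L (p : ℕ) (d : Chart o j R) : Submodule R (Fin N → R) := Submodule.span R {d.y p}

/-- Base change of chart coordinates. -/
def Chart.map {R' : Type u} [CommRing R'] (φ : R →+* R') (d : Chart o j R) : Chart o j R' where
  a := fun i => φ (d.a i)
  b := fun i => φ (d.b i)
  c := φ d.c
  ao := by rw [d.ao, map_one]
  bo := by rw [d.bo, map_zero]
  aj := by rw [d.aj, map_zero]
  bj := by rw [d.bj, map_one]

/-- The flag `F` is given by the chart coordinates `d`. -/
def Chart.Is (p : ℕ) (d : Chart o j R) (F : Flag p N R) : Prop :=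
  F.W.toSubmodule = d.W ∧ F.L.toSubmodule = d.L p

/-- The polynomial `((x + y) ^ p - x ^ p - y ^ p) / p`. -/
def bet (p : ℕ) {R : Type*} [CommRing R] (x y : R) : R :=
  ∑ i ∈ Finset.Ioo 0 p, ((p.choose i / p : ℕ) : R) * x ^ (p - i) * y ^ i

end Alg

section Geom

/-- A `k`-scheme `X` with structure morphism `s` together with a description of its points over
`k`-algebras: they are the flags, compatibly with base change. -/
structure Represents (p N : ℕ) (k : Type u) [Field k] (X : Scheme.{u}) (s : X ⟶ Spec (.of k)) where
  pt : ∀ (R : Type u) [CommRing R] [Algebra k R],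
    {x : Spec (.of R) ⟶ X // x ≫ s = Spec.map (CommRingCat.ofHom (algebraMap k R))} ≃ Flag p N R
  nat : ∀ (R R' : Type u) [CommRing R] [Algebra k R] [CommRing R'] [Algebra k R'] (φ : R →ₐ[k] R')
    (x : {x : Spec (.of R) ⟶ X // x ≫ s = Spec.map (CommRingCat.ofHom (algebraMap k R))})
    (x' : {x : Spec (.of R') ⟶ X // x ≫ s = Spec.map (CommRingCat.ofHom (algebraMap k R'))}),
    x'.1 = Spec.map (CommRingCat.ofHom φ.toRingHom) ≫ x.1 →
      (pt R' x').W.toSubmodule = bc φ.toRingHom (pt R x).W.toSubmodule ∧
      (pt R' x').L.toSubmodule = bc φ.toRingHom (pt R x).L.toSubmodule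

/-- The scheme `Y` over `Spec k` lifts to a flat scheme over `Spec Λ`. -/
def LiftsTo {k : Type u} [CommRing k] (Λ : Type u) [CommRing Λ] (q : Λ →+* k) (Y : Scheme.{u})
    (g : Y ⟶ Spec (.of k)) : Prop :=
  ∃ (Z : Scheme.{u}) (f : Z ⟶ Spec (.of Λ)) (i : Y ⟶ Z), Flat f ∧
    IsPullback i g f (Spec.map (CommRingCat.ofHom q))

/-- The properties of the ring of Witt vectors of length two which are used. -/
structure IsLen2 (p : ℕ) {k Λ : Type u} [CommRing k] [CommRing Λ] (q : Λ →+* k) : Prop where
  surj : Function.Surjective q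
  ker : ∀ x, q x = 0 → ∃ y, x = p * y
  sq : (p : Λ) ^ 2 = 0
  ann : ∀ x, (p : Λ) * x = 0 → ∃ y, x = p * y
  char : q p = 0

end Geom

end Totaro
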