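import Pool.Agent.Helper49.Tot.T8

/-!
# Sheaves of rings in a bare hands form and lifts
-/

open CategoryTheory AlgebraicGeometry TopologicalSpace Opposite

universe u

namespace Totaro

/-- A sheaf of rings on `X` (only binary covers are glued). -/
structure Sys (X : Scheme.{u}) where
  R : X.Opens → Type u
  ring : ∀ V, CommRing (R V)
  r : ∀ {W V : X.Opens}, W ≤ V → R V →+* R W
  r_r : ∀ {U V W : X.Opens} (h : W ≤ V) (h' : V ≤ U) (x : R U), r h (r h' x) = r (h.trans h') x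
  r_self : ∀ {V : X.Opens} (h : V ≤ V) (x : R V), r h x = x
  sep : ∀ {V V1 V2 : X.Opens} (h1 : V1 ≤ V) (h2 : V2 ≤ V), V ≤ V1 ⊔ V2 → ∀ x y : R V,
    r h1 x = r h1 y → r h2 x = r h2 y → x = y
  glue : ∀ {V V1 V2 : X.Opens} (h1 : V1 ≤ V) (h2 : V2 ≤ V), V ≤ V1 ⊔ V2 →
    ∀ (x1 : R V1) (x2 : R V2), r (inf_le_left : V1 ⊓ V2 ≤ V1) x1 = r inf_le_right x2 →
      ∃ x : R V, r h1 x = x1 ∧ r h2 x = x2

attribute [instance] Sys.ring

/-- A lift of a sheaf of rings `A` killed by `p`: the sheaf `B` is an extension of `A` by `A`, the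
embedding `pm` of `A` in `B` is multiplication by `p` of any lift, and `τ` is the `p`-th power of
any lift. -/
structure LiftSys (p : ℕ) {X : Scheme.{u}} (A : Sys X) where
  B : Sys X
  π : ∀ V, B.R V →+* A.R V
  pm : ∀ V, A.R V →+ B.R V
  τ : ∀ V, A.R V → B.R V
  π_r : ∀ {W V : X.Opens} (h : W ≤ V) (x : B.R V), π W (B.r h x) = A.r h (π V x)
  pm_r : ∀ {W V : X.Opens} (h : W ≤ V) (x : A.R V), pm W (A.r h x) = B.r h (pm V x)
  τ_r : ∀ {W V : X.Opens} (h : W ≤ V) (x : A.R V), τ W (A.r h x) = B.r h (τ V x)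
  π_surj : ∀ V : X.Opens, IsAffineOpen V → Function.Surjective (π V)
  pm_inj : ∀ V, Function.Injective (pm V)
  π_pm : ∀ (V) (x : A.R V), π V (pm V x) = 0
  exact : ∀ (V) (x : B.R V), π V x = 0 → ∃ y, x = pm V y
  mul_pm : ∀ (V) (b : B.R V) (a : A.R V), b * pm V a = pm V (π V b * a)
  π_τ : ∀ (V) (x : A.R V), π V (τ V x) = x ^ p
  τ_mul : ∀ (V) (x y : A.R V), τ V (x * y) = τ V x * τ V y
  τ_add : ∀ (V) (x y : A.R V), τ V (x + y) = τ V x + τ V y + pm V (bet p x y)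

theorem res_sep {S : Scheme.{u}} {V V1 V2 : S.Opens} (h1 : V1 ≤ V) (h2 : V2 ≤ V)
    (hV : V ≤ V1 ⊔ V2) (x y : Γ(S, V)) (hx : res h1 x = res h1 y) (hy : res h2 x = res h2 y) :
    x = y :=
  S.sheaf.eq_of_locally_eq₂ (homOfLE h1) (homOfLE h2) hV x y hx hy

theorem res_glue {S : Scheme.{u}} {V V1 V2 : S.Opens} (h1 : V1 ≤ V) (h2 : V2 ≤ V)
    (hV : V ≤ V1 ⊔ V2) (x1 : Γ(S, V1)) (x2 : Γ(S, V2))
    (hx : res (inf_le_left : V1 ⊓ V2 ≤ V1) x1 = res inf_le_right x2) :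
    ∃ x : Γ(S, V), res h1 x = x1 ∧ res h2 x = x2 := by
  let W : Bool → S.Opens := fun b => Bool.rec V2 V1 b
  let sf : ∀ b : Bool, Γ(S, W b) := fun b => Bool.rec x2 x1 b
  have hcov : V ≤ iSup W := by
    intro z hz
    rcases hV hz with h | h
    · exact Opens.mem_iSup.2 ⟨true, h⟩
    · exact Opens.mem_iSup.2 ⟨false, h⟩
  have hle : ∀ b, W b ≤ V := by
    intro b
    cases b
    · exact h2
    · exact h1
  obtain ⟨x, hx', -⟩ := S.sheaf.existsUnique_gluing' W V (fun b => homOfLE (hle b)) hcov sf (by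
    intro b b'
    cases b
    · cases b'
      · rfl
      · have e : V2 ⊓ V1 ≤ V1 ⊓ V2 := le_of_eq (inf_comm _ _)
        have h3 := congrArg (res e) hx
        rw [res_res, res_res] at h3
        exact h3.symm
    · cases b'
      · exact hx
      · rfl)
  exact ⟨x, hx' true, hx' false⟩

/-- The direct image of the structure sheaf. -/
def pushSys {X Y : Scheme.{u}} (f : Y ⟶ X) : Sys X where
  R := fun V => Γ(Y, f ⁻¹ᵁ V)
  ring := fun V => inferInstance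
  r := fun {W V} h => res (show f ⁻¹ᵁ W ≤ f ⁻¹ᵁ V from fun _ hx => h hx)
  r_r := fun h h' x => res_res _ _ x
  r_self := fun h x => res_self _ x
  sep := by
    intro V V1 V2 h1 h2 hV x y hx hy
    exact res_sep _ _ (show f ⁻¹ᵁ V ≤ f ⁻¹ᵁ V1 ⊔ f ⁻¹ᵁ V2 from fun _ hz => hV hz) x y hx hy
  glue := by
    intro V V1 V2 h1 h2 hV x1 x2 hx
    exact res_glue _ _ (show f ⁻¹ᵁ V ≤ f ⁻¹ᵁ V1 ⊔ f ⁻¹ᵁ V2 from fun _ hz => hV hz) x1 x2 hx

/-- Vanishing of the second Cech cohomology of the structure sheaf of `Y` for all finite covers by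
affine open subsets. -/
def CechTwoZero (Y : Scheme.{u}) : Prop :=
  ∀ (ι : Type) [Finite ι] (U : ι → Y.Opens), (∀ a, IsAffineOpen (U a)) → (⨆ a, U a) = ⊤ →
    ∀ ω : ∀ a b c, Γ(Y, U a ⊓ U b ⊓ U c),
      (∀ a b c d, res (W := U a ⊓ U b ⊓ U c ⊓ U d)
          (show U a ⊓ U b ⊓ U c ⊓ U d ≤ U b ⊓ U c ⊓ U d from fun _ h => ⟨⟨h.1.1.2, h.1.2⟩, h.2⟩) (ω b c d)
        - res (W := U a ⊓ U b ⊓ U c ⊓ U d)
          (show U a ⊓ U b ⊓ U c ⊓ U d ≤ U a ⊓ U c ⊓ U d from fun _ h => ⟨⟨h.1.1.1, h.1.2⟩, h.2⟩) (ω a c d)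
        + res (W := U a ⊓ U b ⊓ U c ⊓ U d)
          (show U a ⊓ U b ⊓ U c ⊓ U d ≤ U a ⊓ U b ⊓ U d from fun _ h => ⟨h.1.1, h.2⟩) (ω a b d)
        - res (W := U a ⊓ U b ⊓ U c ⊓ U d)
          (show U a ⊓ U b ⊓ U c ⊓ U d ≤ U a ⊓ U b ⊓ U c from fun _ h => h.1) (ω a b c) = 0) →
      ∃ η : ∀ a b, Γ(Y, U a ⊓ U b), ∀ a b c,
        ω a b c = res (show U a ⊓ U b ⊓ U c ≤ U b ⊓ U c from fun _ h => ⟨h.1.2, h.2⟩) (η b c)
          - res (show U a ⊓ U b ⊓ U c ≤ U a ⊓ U c from fun _ h => ⟨h.1.1, h.2⟩) (η a c)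
          + res (show U a ⊓ U b ⊓ U c ≤ U a ⊓ U b from fun _ h => h.1) (η a b)

end Totaro
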