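import Pool.Agent.Helper49.Tot.Core2

/-!
# Anticanonical divisors
-/

open CategoryTheory AlgebraicGeometry TopologicalSpace Opposite

open scoped KaehlerDifferential

universe u

namespace Totaro

section

variable {k : Type u} [Field k] {X Y : Scheme.{u}}

/-- The `k`-algebra structure on the sections over an open subset of a `k`-scheme. -/
noncomputable abbrev algX (s : X ⟶ Spec (.of k)) (U : X.Opens) : Algebra k Γ(X, U) :=
  ((s.appLE ⊤ U (fun _ _ => trivial)).hom.comp (Scheme.ΓSpecIso (.of k)).inv.hom).toAlgebra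

/-- The module of differential forms of degree `n` of the ring of sections over `U`. -/
noncomputable abbrev Forms (n : ℕ) (s : X ⟶ Spec (.of k)) (U : X.Opens) : Type u :=
  letI := algX s U
  ⋀[Γ(X, U)]^n (Ω[Γ(X, U)⁄k])

/-- The form `dx_1 ∧ ... ∧ dx_n`. -/
noncomputable def wedge (n : ℕ) (s : X ⟶ Spec (.of k)) (U : X.Opens) (x : Fin n → Γ(X, U)) :
    Forms n s U :=
  letI := algX s U
  exteriorPower.ιMulti Γ(X, U) n (fun i => KaehlerDifferential.D k Γ(X, U) (x i))

/-- `Y` is an anticanonical divisor of the smooth `k`-scheme `X` of dimension `n`: the zero scheme of a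
regular section of the anticanonical sheaf of `X`. -/
structure Anticanonical (n : ℕ) (s : X ⟶ Spec (.of k)) (f : Y ⟶ X) where
  σ : ∀ U : X.Opens, IsAffineOpen U → (Forms n s U →ₗ[Γ(X, U)] Γ(X, U))
  reg : ∀ U hU (t : Γ(X, U)), (∀ ω, t * σ U hU ω = 0) → t = 0
  range : ∀ U hU (x : Γ(X, U)), (∃ ω, σ U hU ω = x) ↔ f.app U x = 0
  nat : ∀ (W U : X.Opens) (hW : IsAffineOpen W) (hU : IsAffineOpen U) (h : W ≤ U)
    (x : Fin n → Γ(X, U)),
    σ W hW (wedge n s W (fun i => res h (x i))) = res h (σ U hU (wedge n s U x))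

end

end Totaro
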