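import Pool.Agent.Helper49.Tot.Core

/-!
# Definitions for the statements on the varieties of Totaro

Compact forms of the definitions: points and flags, sections, anticanonical divisors, double
covers, Cech cohomology in degree two.
-/

open CategoryTheory AlgebraicGeometry

open scoped KaehlerDifferential

universe u

namespace Totaro

section Witt

variable (p : ℕ) [Fact p.Prime] (k : Type u) [Field k] [CharP k p]

/-- The Witt vectors of length two as a quotient of the Witt vectors. -/
abbrev WTwo : Type u := WittVector p k ⧸ Ideal.span {((p : WittVector p k)) ^ 2}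

theorem wres_aux : ∀ a ∈ Ideal.span {((p : WittVector p k)) ^ 2},
    (WittVector.constantCoeff : WittVector p k →+* k) a = 0 := by
  intro a ha
  obtain ⟨b, rfl⟩ := Ideal.mem_span_singleton'.1 ha
  have : WittVector.constantCoeff (p : WittVector p k) = (0 : k) := by
    rw [map_natCast]
    exact CharP.cast_eq_zero k p
  rw [map_mul, map_pow, this]
  simp

/-- The residue map of the Witt vectors of length two. -/
noncomputable def wres : WTwo p k →+* k :=
  Ideal.Quotient.lift _ (WittVector.constantCoeff : WittVector p k →+* k) (wres_aux p k)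

end Witt

section Points

variable {k : Type u} [Field k] {X : Scheme.{u}}

/-- The points of the `k`-scheme `X` with values in the `k`-algebra `R`. -/
def Pt (s : X ⟶ Spec (.of k)) (R : Type u) [CommRing R] [Algebra k R] : Type u :=
  {x : Spec (.of R) ⟶ X // x ≫ s = Spec.map (CommRingCat.ofHom (algebraMap k R))}

/-- Base change of points. -/
noncomputable def Pt.map {s : X ⟶ Spec (.of k)} {R R' : Type u} [CommRing R] [Algebra k R]
    [CommRing R'] [Algebra k R'] (φ : R →ₐ[k] R') (x : Pt s R) : Pt s R' :=
  ⟨Spec.map (CommRingCat.ofHom φ.toRingHom) ≫ x.1, by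
    rw [Category.assoc, x.2, ← Spec.map_comp]
    congr 1
    ext r
    exact φ.commutes r⟩

/-- `X` with structure morphism `s` represents the functor of flags: natural bijections between the
points of `X` with values in a `k`-algebra `R` and the flags over `R`. -/
structure RepFlags (p N : ℕ) (k : Type u) [Field k] (X : Scheme.{u}) (s : X ⟶ Spec (.of k)) where
  pt : ∀ (R : Type u) [CommRing R] [Algebra k R], Pt s R ≃ Flag p N R
  nat : ∀ (R R' : Type u) [CommRing R] [Algebra k R] [CommRing R'] [Algebra k R'] (φ : R →ₐ[k] R')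
    (x : Pt s R), (pt R' (x.map φ)).W.toSubmodule = bc φ.toRingHom (pt R x).W.toSubmodule ∧
      (pt R' (x.map φ)).L.toSubmodule = bc φ.toRingHom (pt R x).L.toSubmodule

end Points

section Sections

/-- The ring of sections. -/
def Sec (X : Scheme.{u}) (U : X.Opens) : Type u := Γ(X, U)

noncomputable instance secRing (X : Scheme.{u}) (U : X.Opens) : CommRing (Sec X U) :=
  (Γ(X, U)).commRing

/-- Restriction of sections. -/
noncomputable def rs {X : Scheme.{u}} {W V : X.Opens} (h : W ≤ V) : Sec X V →+* Sec X W :=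
  (X.presheaf.map (homOfLE h).op).hom

/-- The preimage of an open subset. -/
def pre {X Y : Scheme.{u}} (f : Y ⟶ X) (U : X.Opens) : Y.Opens := f ⁻¹ᵁ U

/-- Pullback of sections. -/
noncomputable def pull {X Y : Scheme.{u}} (f : Y ⟶ X) (U : X.Opens) : Sec X U →+* Sec Y (pre f U) :=
  (f.app U).hom

/-- The action of an endomorphism `σ` of `Y` on the sections over an open subset `V` contained in
its preimage. -/
noncomputable def act {Y : Scheme.{u}} (σ : Y ⟶ Y) (V : Y.Opens) (h : V ≤ pre σ V) :
    Sec Y V →+* Sec Y V :=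
  (σ.appLE V V h).hom

/-- A double cover: an involution `σ` of `Y` over `X` such that the structure sheaf of `X` is the
sheaf of invariants of `σ` in the direct image of the structure sheaf of `Y`. -/
structure DblCover {X Y : Scheme.{u}} (f : Y ⟶ X) where
  σ : Y ⟶ Y
  overX : σ ≫ f = f
  invol : σ ≫ σ = 𝟙 Y
  inj : ∀ U : X.Opens, Function.Injective (pull f U)
  inv : ∀ (U : X.Opens) (h : pre f U ≤ pre σ (pre f U)) (y : Sec Y (pre f U)),
    act σ (pre f U) h y = y → ∃ x : Sec X U, pull f U x = y

/-- Cech cochains of degree one of the structure sheaf. -/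
def CochOne (Y : Scheme.{u}) {ι : Type} (U : ι → Y.Opens) : Type u :=
  ∀ a b, Sec Y (U a ⊓ U b)

/-- Cech cochains of degree two of the structure sheaf. -/
def CochTwo (Y : Scheme.{u}) {ι : Type} (U : ι → Y.Opens) : Type u :=
  ∀ a b c, Sec Y (U a ⊓ U b ⊓ U c)

/-- Cech cocycles of degree two (checked on all open subsets of the fourfold intersections). -/
def IsCocTwo {Y : Scheme.{u}} {ι : Type} {U : ι → Y.Opens} (ω : CochTwo Y U) : Prop :=
  ∀ a b c d (V : Y.Opens) (h1 : V ≤ U b ⊓ U c ⊓ U d) (h2 : V ≤ U a ⊓ U c ⊓ U d)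
    (h3 : V ≤ U a ⊓ U b ⊓ U d) (h4 : V ≤ U a ⊓ U b ⊓ U c),
    rs h1 (ω b c d) - rs h2 (ω a c d) + rs h3 (ω a b d) - rs h4 (ω a b c) = 0

/-- The coboundary of the degree one cochain `η` is `ω`. -/
def IsBdryTwo {Y : Scheme.{u}} {ι : Type} {U : ι → Y.Opens} (η : CochOne Y U) (ω : CochTwo Y U) :
    Prop :=
  ∀ a b c (h1 : U a ⊓ U b ⊓ U c ≤ U b ⊓ U c) (h2 : U a ⊓ U b ⊓ U c ≤ U a ⊓ U c)
    (h3 : U a ⊓ U b ⊓ U c ≤ U a ⊓ U b), ω a b c = rs h1 (η b c) - rs h2 (η a c) + rs h3 (η a b)

/-- Vanishing of the second Cech cohomology of the structure sheaf of `Y` for all finite covers by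
affine open subsets. -/
def HTwoZero (Y : Scheme.{u}) : Prop :=
  ∀ (ι : Type) [Finite ι] (U : ι → Y.Opens), (∀ a, IsAffineOpen (U a)) → (⨆ a, U a) = ⊤ →
    ∀ ω : CochTwo Y U, IsCocTwo ω → ∃ η : CochOne Y U, IsBdryTwo η ω

end Sections

section Canonical

variable {k : Type u} [Field k] {X Y : Scheme.{u}}

/-- The ring of sections of a `k`-scheme, as a `k`-algebra. -/
def SecK {k : Type u} [Field k] {X : Scheme.{u}} (_ : X ⟶ Spec (.of k)) (U : X.Opens) : Type u :=
  Γ(X, U)

noncomputable instance secKRing (s : X ⟶ Spec (.of k)) (U : X.Opens) : CommRing (SecK s U) :=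
  (Γ(X, U)).commRing

/-- The structure map of the `k`-algebra of sections. -/
noncomputable def strK (s : X ⟶ Spec (.of k)) (U : X.Opens) : k →+* SecK s U :=
  (s.appLE ⊤ U (fun _ _ => trivial)).hom.comp (Scheme.ΓSpecIso (.of k)).inv.hom

noncomputable instance secKAlg (s : X ⟶ Spec (.of k)) (U : X.Opens) : Algebra k (SecK s U) :=
  (strK s U).toAlgebra

/-- Restriction of sections. -/
noncomputable def rsK (s : X ⟶ Spec (.of k)) {W V : X.Opens} (h : W ≤ V) : SecK s V →+* SecK s W :=
  (X.presheaf.map (homOfLE h).op).hom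

/-- Pullback of sections. -/
noncomputable def pullK (s : X ⟶ Spec (.of k)) (f : Y ⟶ X) (U : X.Opens) :
    SecK s U →+* Sec Y (pre f U) :=
  (f.app U).hom

/-- The module of differentials over `U`. -/
def OmK (s : X ⟶ Spec (.of k)) (U : X.Opens) : Type u := Ω[SecK s U⁄k]

noncomputable instance omGroup (s : X ⟶ Spec (.of k)) (U : X.Opens) : AddCommGroup (OmK s U) :=
  (inferInstance : AddCommGroup (Ω[SecK s U⁄k]))

noncomputable instance omModule (s : X ⟶ Spec (.of k)) (U : X.Opens) : Module (SecK s U) (OmK s U) :=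
  (inferInstance : Module (SecK s U) (Ω[SecK s U⁄k]))

/-- The differential of a section. -/
noncomputable def dK {s : X ⟶ Spec (.of k)} {U : X.Opens} (x : SecK s U) : OmK s U :=
  KaehlerDifferential.D k (SecK s U) x

/-- `Y` is an anticanonical divisor of the smooth `k`-scheme `X` of dimension `n`: the zero scheme of
a regular section of the anticanonical sheaf. Over an affine open subset, such a section is an
alternating map of degree `n` on the module of differentials; it is regular if its values are not
killed by a nonzero function, and its values generate the ideal of `Y`. -/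
structure AntiDiv (n : ℕ) (s : X ⟶ Spec (.of k)) (f : Y ⟶ X) where
  σ : ∀ U : X.Opens, IsAffineOpen U → ((OmK s U) [⋀^Fin n]→ₗ[SecK s U] (SecK s U))
  reg : ∀ U hU (t : SecK s U), (∀ θ, t * σ U hU θ = 0) → t = 0
  ideal : ∀ U hU (x : SecK s U), x ∈ Ideal.span (Set.range (σ U hU)) ↔ pullK s f U x = 0
  nat : ∀ (W U : X.Opens) (hW : IsAffineOpen W) (hU : IsAffineOpen U) (h : W ≤ U)
    (x : Fin n → SecK s U),
    σ W hW (fun i => dK (rsK s h (x i))) = rsK s h (σ U hU (fun i => dK (x i)))

end Canonical

end Totaro
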