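import Pool.Agent.Helper49.Tot.Core

/-!
# TOT-1: the test ring

Dual numbers over polynomials in one variable over Laurent polynomials in two variables.
-/

open CategoryTheory AlgebraicGeometry

universe u

namespace Totaro

section TestRing

variable (k : Type u) [Field k]

/-- Laurent polynomials in two variables. -/
abbrev T1K := AddMonoidAlgebra k (ℤ × ℤ)

/-- The Laurent polynomials with exponents in `Q`. -/
def t1Sub (Q : AddSubmonoid (ℤ × ℤ)) : Subalgebra k (T1K k) where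
  carrier := {x | ∀ g, g ∉ Q → x.coeff g = 0}
  mul_mem' := by
    classical
    intro x y hx hy g hg
    by_contra h
    have h1 : g ∈ (x * y).coeff.support := Finsupp.mem_support_iff.2 h
    have h2 := AddMonoidAlgebra.support_coeff_mul_subset x y h1
    obtain ⟨a, ha, b, hb, rfl⟩ := Finset.mem_add.1 h2
    refine hg (Q.add_mem ?_ ?_)
    · by_contra haQ
      exact Finsupp.mem_support_iff.1 ha (hx a haQ)
    · by_contra hbQ
      exact Finsupp.mem_support_iff.1 hb (hy b hbQ)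
  add_mem' := by
    intro x y hx hy g hg
    rw [AddMonoidAlgebra.coeff_add, Finsupp.add_apply, hx g hg, hy g hg, add_zero]
  algebraMap_mem' := by
    intro r g hg
    have h0 : g ≠ 0 := fun h => hg (h ▸ Q.zero_mem)
    rw [AddMonoidAlgebra.coe_algebraMap]
    simp [AddMonoidAlgebra.coeff_single, h0.symm]

variable {k} in
theorem t1Sub_single {Q : AddSubmonoid (ℤ × ℤ)} {g : ℤ × ℤ} (hg : g ∈ Q) (r : k) :
    AddMonoidAlgebra.single g r ∈ t1Sub k Q := by
  intro g' hg'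
  have h0 : g ≠ g' := fun h => hg' (h ▸ hg)
  simp [AddMonoidAlgebra.coeff_single, h0]

/-- Polynomials with coefficients in `t1Sub`. -/
def t1Poly (Q : AddSubmonoid (ℤ × ℤ)) : Subalgebra k (Polynomial (T1K k)) where
  carrier := {f | ∀ n, f.coeff n ∈ t1Sub k Q}
  mul_mem' := by
    intro x y hx hy n
    rw [Polynomial.coeff_mul]
    exact Subalgebra.sum_mem _ fun c _ => Subalgebra.mul_mem _ (hx _) (hy _)
  add_mem' := by
    intro x y hx hy n
    rw [Polynomial.coeff_add]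
    exact Subalgebra.add_mem _ (hx n) (hy n)
  algebraMap_mem' := by
    intro r n
    rw [Polynomial.algebraMap_apply, Polynomial.coeff_C]
    split_ifs
    · exact Subalgebra.algebraMap_mem _ _
    · exact Subalgebra.zero_mem _

variable {k} in
theorem t1Poly_C {Q : AddSubmonoid (ℤ × ℤ)} {x : T1K k} (hx : x ∈ t1Sub k Q) :
    Polynomial.C x ∈ t1Poly k Q := by
  intro n
  rw [Polynomial.coeff_C]
  split_ifs
  · exact hx
  · exact Subalgebra.zero_mem _

variable {k} in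
theorem t1Poly_X {Q : AddSubmonoid (ℤ × ℤ)} : (Polynomial.X : Polynomial (T1K k)) ∈ t1Poly k Q := by
  intro n
  rw [Polynomial.coeff_X]
  split_ifs
  · exact Subalgebra.one_mem _
  · exact Subalgebra.zero_mem _

/-- The test ring. -/
abbrev T1E := DualNumber (Polynomial (T1K k))

/-- The subalgebras for the first two overlaps. -/
def t1S (Q : AddSubmonoid (ℤ × ℤ)) : Subalgebra k (T1E k) where
  carrier := {x | x.fst ∈ t1Poly k Q ∧ x.snd ∈ t1Poly k Q}
  mul_mem' := by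
    rintro x y ⟨hx1, hx2⟩ ⟨hy1, hy2⟩
    refine ⟨?_, ?_⟩
    · rw [TrivSqZeroExt.fst_mul]
      exact Subalgebra.mul_mem _ hx1 hy1
    · rw [TrivSqZeroExt.snd_mul, smul_eq_mul, MulOpposite.smul_eq_mul_unop, MulOpposite.unop_op]
      exact Subalgebra.add_mem _ (Subalgebra.mul_mem _ hx1 hy2) (Subalgebra.mul_mem _ hx2 hy1)
  add_mem' := by
    rintro x y ⟨hx1, hx2⟩ ⟨hy1, hy2⟩
    exact ⟨Subalgebra.add_mem _ hx1 hy1, Subalgebra.add_mem _ hx2 hy2⟩
  algebraMap_mem' := by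
    intro r
    refine ⟨?_, ?_⟩
    · exact Subalgebra.algebraMap_mem _ _
    · exact Subalgebra.zero_mem _

/-- The subalgebra for the third overlap. -/
def t1S' (Q : AddSubmonoid (ℤ × ℤ)) (U W : Polynomial (T1K k)) : Subalgebra k (T1E k) where
  carrier := {x | x.fst ∈ t1Poly k Q ∧
    U * (x.snd + W * Polynomial.derivative x.fst) ∈ t1Poly k Q}
  mul_mem' := by
    rintro x y ⟨hx1, hx2⟩ ⟨hy1, hy2⟩
    refine ⟨?_, ?_⟩
    · rw [TrivSqZeroExt.fst_mul]
      exact Subalgebra.mul_mem _ hx1 hy1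
    · rw [TrivSqZeroExt.snd_mul, smul_eq_mul, MulOpposite.smul_eq_mul_unop, MulOpposite.unop_op,
        TrivSqZeroExt.fst_mul, Polynomial.derivative_mul]
      have : U * (x.fst * y.snd + x.snd * y.fst +
          W * (Polynomial.derivative x.fst * y.fst + x.fst * Polynomial.derivative y.fst)) =
          x.fst * (U * (y.snd + W * Polynomial.derivative y.fst)) +
          y.fst * (U * (x.snd + W * Polynomial.derivative x.fst)) := by ring
      rw [this]
      exact Subalgebra.add_mem _ (Subalgebra.mul_mem _ hx1 hy2) (Subalgebra.mul_mem _ hy1 hx2)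
  add_mem' := by
    rintro x y ⟨hx1, hx2⟩ ⟨hy1, hy2⟩
    refine ⟨Subalgebra.add_mem _ hx1 hy1, ?_⟩
    rw [TrivSqZeroExt.snd_add, TrivSqZeroExt.fst_add, Polynomial.derivative_add]
    have : U * (x.snd + y.snd +
        W * (Polynomial.derivative x.fst + Polynomial.derivative y.fst)) =
        U * (x.snd + W * Polynomial.derivative x.fst) +
        U * (y.snd + W * Polynomial.derivative y.fst) := by ring
    rw [this]
    exact Subalgebra.add_mem _ hx2 hy2
  algebraMap_mem' := by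
    intro r
    refine ⟨Subalgebra.algebraMap_mem _ _, ?_⟩
    have h1 : (algebraMap k (T1E k) r).fst = Polynomial.C (algebraMap k (T1K k) r) := rfl
    have h2 : (algebraMap k (T1E k) r).snd = 0 := rfl
    rw [h1, h2, Polynomial.derivative_C, mul_zero, add_zero, mul_zero]
    exact Subalgebra.zero_mem _

/-- Monomials are units. -/
noncomputable def t1Unit (g : ℤ × ℤ) : (T1K k)ˣ where
  val := AddMonoidAlgebra.single g 1
  inv := AddMonoidAlgebra.single (-g) 1
  val_inv := by rw [AddMonoidAlgebra.single_mul_single, add_neg_cancel, mul_one]; rfl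
  inv_val := by rw [AddMonoidAlgebra.single_mul_single, neg_add_cancel, mul_one]; rfl

/-- The units of the test ring. -/
noncomputable def t1UnitE (g : ℤ × ℤ) : (T1E k)ˣ :=
  Units.map ((TrivSqZeroExt.inlHom (Polynomial (T1K k)) (Polynomial (T1K k))).comp
    (Polynomial.C : T1K k →+* Polynomial (T1K k)) : T1K k →* T1E k) (t1Unit k g)

theorem t1UnitE_coe (g : ℤ × ℤ) : ((t1UnitE k g : (T1E k)ˣ) : T1E k) =
    TrivSqZeroExt.inl (Polynomial.C (AddMonoidAlgebra.single g 1)) := rfl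

theorem t1UnitE_inv (g : ℤ × ℤ) : (t1UnitE k g)⁻¹ = t1UnitE k (-g) := by
  apply inv_eq_of_mul_eq_one_right
  ext1
  rw [Units.val_mul, t1UnitE_coe, t1UnitE_coe, ← TrivSqZeroExt.inl_mul, ← Polynomial.C_mul,
    AddMonoidAlgebra.single_mul_single, add_neg_cancel, mul_one]
  rfl

theorem t1UnitE_mul (g h : ℤ × ℤ) : t1UnitE k g * t1UnitE k h = t1UnitE k (g + h) := by
  ext1
  rw [Units.val_mul, t1UnitE_coe, t1UnitE_coe, ← TrivSqZeroExt.inl_mul, ← Polynomial.C_mul,
    AddMonoidAlgebra.single_mul_single, mul_one]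
  rfl

theorem t1_inl_pow (f : Polynomial (T1K k)) (n : ℕ) : (TrivSqZeroExt.inl f : T1E k) ^ n =
    TrivSqZeroExt.inl (f ^ n) :=
  (map_pow (TrivSqZeroExt.inlHom (Polynomial (T1K k)) (Polynomial (T1K k))) f n).symm

theorem t1UnitE_pow (g : ℤ × ℤ) (n : ℕ) : (t1UnitE k g : T1E k) ^ n =
    TrivSqZeroExt.inl (Polynomial.C (AddMonoidAlgebra.single (n • g) 1)) := by
  rw [t1UnitE_coe, t1_inl_pow, ← Polynomial.C_pow, AddMonoidAlgebra.single_pow,
    one_pow]

/-- exponents with nonnegative second entry -/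
def t1Q12 : AddSubmonoid (ℤ × ℤ) where
  carrier := {g | 0 ≤ g.2}
  add_mem' := by
    intro a b ha hb
    have ha' : 0 ≤ a.2 := ha
    have hb' : 0 ≤ b.2 := hb
    change 0 ≤ (a + b).2
    simp only [Prod.snd_add]
    omega
  zero_mem' := by simp

theorem t1_mem12 {g : ℤ × ℤ} : g ∈ t1Q12 ↔ 0 ≤ g.2 := by
  rw [← AddSubmonoid.mem_carrier]; simp [t1Q12]

/-- exponents with nonnegative first entry -/
def t1Q13 : AddSubmonoid (ℤ × ℤ) where
  carrier := {g | 0 ≤ g.1}
  add_mem' := by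
    intro a b ha hb
    have ha' : 0 ≤ a.1 := ha
    have hb' : 0 ≤ b.1 := hb
    change 0 ≤ (a + b).1
    simp only [Prod.fst_add]
    omega
  zero_mem' := by simp

theorem t1_mem13 {g : ℤ × ℤ} : g ∈ t1Q13 ↔ 0 ≤ g.1 := by
  rw [← AddSubmonoid.mem_carrier]; simp [t1Q13]

/-- exponents with nonpositive sum -/
def t1Q23 : AddSubmonoid (ℤ × ℤ) where
  carrier := {g | g.1 + g.2 ≤ 0}
  add_mem' := by
    intro a b ha hb
    have ha' : a.1 + a.2 ≤ 0 := ha
    have hb' : b.1 + b.2 ≤ 0 := hb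
    change (a + b).1 + (a + b).2 ≤ 0
    simp only [Prod.fst_add, Prod.snd_add]
    omega
  zero_mem' := by simp

theorem t1_mem23 {g : ℤ × ℤ} : g ∈ t1Q23 ↔ g.1 + g.2 ≤ 0 := by
  rw [← AddSubmonoid.mem_carrier]; simp [t1Q23]

variable {k} in
theorem t1_mem_S {Q : AddSubmonoid (ℤ × ℤ)} {g : ℤ × ℤ} (hg : g ∈ Q) :
    (t1UnitE k g : T1E k) ∈ t1S k Q :=
  ⟨t1Poly_C (t1Sub_single hg 1), Subalgebra.zero_mem _⟩

variable {k} in
theorem t1_mem_S' {Q : AddSubmonoid (ℤ × ℤ)} {g : ℤ × ℤ} (hg : g ∈ Q)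
    (U W : Polynomial (T1K k)) : (t1UnitE k g : T1E k) ∈ t1S' k Q U W := by
  refine ⟨t1Poly_C (t1Sub_single hg 1), ?_⟩
  have h1 : (t1UnitE k g : T1E k).fst = Polynomial.C (AddMonoidAlgebra.single g 1) := rfl
  have h2 : (t1UnitE k g : T1E k).snd = 0 := rfl
  rw [h1, h2, Polynomial.derivative_C, mul_zero, add_zero, mul_zero]
  exact Subalgebra.zero_mem _

end TestRing

theorem test_ring (p : ℕ) [Fact p.Prime] (k : Type u) [Field k] [CharP k p] :
    ∃ (E : Type u) (_ : CommRing E) (_ : Algebra k E) (ε s : E) (u v : Eˣ)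
      (S12 S13 S23 : Subalgebra k E),
      ε ^ 2 = 0 ∧
      (s ∈ S12 ∧ ε ∈ S12 ∧ (u : E) ∈ S12 ∧ ((u⁻¹ : Eˣ) : E) ∈ S12 ∧ (v : E) ∈ S12) ∧
      (s ∈ S13 ∧ ε ∈ S13 ∧ (u : E) ∈ S13 ∧ (v : E) ∈ S13 ∧ ((v⁻¹ : Eˣ) : E) ∈ S13) ∧
      (((u⁻¹ : Eˣ) : E) ∈ S23 ∧ ((v * u⁻¹ : Eˣ) : E) ∈ S23 ∧ ((u * v⁻¹ : Eˣ) : E) ∈ S23 ∧
        ε * ((u⁻¹ : Eˣ) : E) ∈ S23 ∧ s - ε * ((v * u⁻¹ : Eˣ) : E) ∈ S23) ∧
      ∀ D12 ∈ S12, ∀ F12 ∈ S12, ∀ F13 ∈ S13, ∀ F23 ∈ S23,
        s ^ p * D12 + ((v * u⁻¹ : Eˣ) : E) ^ p * F12 + F23 - F13 ≠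
          ε * s ^ (p - 1) * ((v * u⁻¹ : Eˣ) : E) := by
  have hp : 2 ≤ p := (Fact.out : p.Prime).two_le
  have hX : ∀ Q : AddSubmonoid (ℤ × ℤ),
      (TrivSqZeroExt.inl Polynomial.X : T1E k) ∈ t1S k Q :=
    fun Q => ⟨t1Poly_X, Subalgebra.zero_mem _⟩
  have hE : ∀ Q : AddSubmonoid (ℤ × ℤ), (DualNumber.eps : T1E k) ∈ t1S k Q :=
    fun Q => ⟨Subalgebra.zero_mem _, Subalgebra.one_mem _⟩
  have hu : (t1UnitE k (1, 0))⁻¹ = t1UnitE k (-1, 0) := t1UnitE_inv k _
  have hv : (t1UnitE k (0, 1))⁻¹ = t1UnitE k (0, -1) := t1UnitE_inv k _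
  have hvu : t1UnitE k (0, 1) * (t1UnitE k (1, 0))⁻¹ = t1UnitE k (-1, 1) := by
    rw [hu, t1UnitE_mul]; rfl
  have huv : t1UnitE k (1, 0) * (t1UnitE k (0, 1))⁻¹ = t1UnitE k (1, -1) := by
    rw [hv, t1UnitE_mul]; rfl
  have hm : (Polynomial.C (AddMonoidAlgebra.single ((1, 0) : ℤ × ℤ) (1 : k)) :
      Polynomial (T1K k)) * Polynomial.C (AddMonoidAlgebra.single ((-1, 0) : ℤ × ℤ) (1 : k)) =
      1 := by
    rw [← Polynomial.C_mul, AddMonoidAlgebra.single_mul_single, mul_one]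
    rfl
  refine ⟨T1E k, inferInstance, inferInstance, DualNumber.eps, TrivSqZeroExt.inl Polynomial.X,
    t1UnitE k (1, 0), t1UnitE k (0, 1), t1S k t1Q12, t1S k t1Q13,
    t1S' k t1Q23 (Polynomial.C (AddMonoidAlgebra.single (1, 0) 1))
      (Polynomial.C (AddMonoidAlgebra.single (-1, 1) 1)), ?_, ?_, ?_, ?_, ?_⟩
  · rw [sq, DualNumber.eps_mul_eps]
  · rw [hu]
    exact ⟨hX _, hE _, t1_mem_S (by simp [t1_mem12]),
      t1_mem_S (by simp [t1_mem12]), t1_mem_S (by simp [t1_mem12])⟩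
  · rw [hv]
    exact ⟨hX _, hE _, t1_mem_S (by simp [t1_mem13]),
      t1_mem_S (by simp [t1_mem13]), t1_mem_S (by simp [t1_mem13])⟩
  · rw [hvu, huv, hu]
    refine ⟨t1_mem_S' (by simp [t1_mem23]) _ _,
      t1_mem_S' (by simp [t1_mem23]) _ _,
      t1_mem_S' (by simp [t1_mem23]) _ _, ⟨?_, ?_⟩, ⟨?_, ?_⟩⟩
    · rw [TrivSqZeroExt.fst_mul, DualNumber.fst_eps, zero_mul]
      exact Subalgebra.zero_mem _
    · rw [TrivSqZeroExt.fst_mul, TrivSqZeroExt.snd_mul, DualNumber.fst_eps, DualNumber.snd_eps,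
        zero_mul, Polynomial.derivative_zero, mul_zero, add_zero, zero_smul, zero_add,
        MulOpposite.smul_eq_mul_unop, MulOpposite.unop_op, one_mul, t1UnitE_coe,
        TrivSqZeroExt.fst_inl, hm]
      exact Subalgebra.one_mem _
    · rw [TrivSqZeroExt.fst_sub, TrivSqZeroExt.fst_mul, DualNumber.fst_eps, zero_mul, sub_zero,
        TrivSqZeroExt.fst_inl]
      exact t1Poly_X
    · rw [TrivSqZeroExt.fst_sub, TrivSqZeroExt.fst_mul, DualNumber.fst_eps, zero_mul, sub_zero,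
        TrivSqZeroExt.fst_inl, TrivSqZeroExt.snd_sub, TrivSqZeroExt.snd_mul, DualNumber.fst_eps,
        DualNumber.snd_eps, TrivSqZeroExt.snd_inl, zero_smul, zero_add,
        MulOpposite.smul_eq_mul_unop, MulOpposite.unop_op, one_mul, t1UnitE_coe,
        TrivSqZeroExt.fst_inl, Polynomial.derivative_X, mul_one, zero_sub, neg_add_cancel,
        mul_zero]
      exact Subalgebra.zero_mem _
  · intro D12 hD12 F12 hF12 F13 hF13 F23 hF23 heq
    rw [hvu] at heq
    have h1 := congrArg TrivSqZeroExt.snd heq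
    rw [TrivSqZeroExt.snd_sub, TrivSqZeroExt.snd_add, TrivSqZeroExt.snd_add,
      TrivSqZeroExt.snd_mul, TrivSqZeroExt.snd_mul, t1_inl_pow, t1UnitE_pow,
      mul_assoc, TrivSqZeroExt.snd_mul, TrivSqZeroExt.fst_inl, TrivSqZeroExt.snd_inl,
      TrivSqZeroExt.fst_inl, TrivSqZeroExt.snd_inl, DualNumber.fst_eps, DualNumber.snd_eps,
      zero_smul, smul_zero, smul_zero, zero_add, add_zero, add_zero, smul_eq_mul, smul_eq_mul,
      MulOpposite.smul_eq_mul_unop, MulOpposite.unop_op, one_mul, TrivSqZeroExt.fst_mul,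
      t1_inl_pow, TrivSqZeroExt.fst_inl, t1UnitE_coe, TrivSqZeroExt.fst_inl] at h1
    have h2 := congrArg (fun f => (Polynomial.coeff f (p - 1)).coeff (-1, 1)) h1
    simp only [Polynomial.coeff_sub, Polynomial.coeff_add, Polynomial.coeff_C_mul,
      Polynomial.coeff_mul_C, Polynomial.coeff_X_pow, AddMonoidAlgebra.coeff_sub,
      AddMonoidAlgebra.coeff_add, Finsupp.sub_apply, Finsupp.add_apply,
      AddMonoidAlgebra.coeff_single_mul_apply] at h2
    have hA : (Polynomial.X ^ p * TrivSqZeroExt.snd D12 : Polynomial (T1K k)).coeff (p - 1) =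
        0 := by
      rw [Polynomial.coeff_X_pow_mul', if_neg (by omega)]
    have hB : ((TrivSqZeroExt.snd F12).coeff (p - 1)).coeff (-(p • (-1, 1)) + (-1, 1)) = 0 := by
      refine hF12.2 (p - 1) _ ?_
      rw [t1_mem12]
      simp only [Prod.smul_mk, smul_neg, nsmul_eq_mul, mul_one, Prod.neg_mk, neg_neg, Prod.mk_add_mk]
      omega
    have hC : ((TrivSqZeroExt.snd F13).coeff (p - 1)).coeff (-1, 1) = 0 := by
      refine hF13.2 (p - 1) _ ?_
      rw [t1_mem13]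
      simp
    have hD : ((TrivSqZeroExt.snd F23).coeff (p - 1)).coeff (-1, 1) = 0 := by
      have hd1 := hF23.2 (p - 1) (0, 1) (by rw [t1_mem23]; simp)
      rw [Polynomial.coeff_C_mul, AddMonoidAlgebra.coeff_single_mul_apply, one_mul,
        Polynomial.coeff_add, Polynomial.coeff_C_mul, Polynomial.coeff_derivative] at hd1
      have hcast : ((p - 1 : ℕ) : T1K k) + 1 = 0 := by
        have h3 : ((p - 1 : ℕ) : T1K k) + 1 = ((p - 1 + 1 : ℕ) : T1K k) := by push_cast; rfl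
        rw [h3, Nat.sub_add_cancel (by omega), ← map_natCast (algebraMap k (T1K k)) p,
          CharP.cast_eq_zero, map_zero]
      rw [hcast, mul_zero, mul_zero, add_zero] at hd1
      simpa using hd1
    rw [hA, hB, hC, hD] at h2
    simp at h2

end Totaro
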