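import Pool.Agent.Helper49.Tot.Core

open CategoryTheory AlgebraicGeometry

universe u

namespace Totaro

/-! ### TOT-2: flags and charts -/

variable {p N : ℕ} {R : Type u} [CommRing R] {o j j' : Fin N}

/-- A surjection onto a finite free module gives a point of the Grassmannian. -/
theorem exists_grass {M : Type u} [AddCommGroup M] [Module R M] {ι : Type} [Fintype ι]
    (π : M →ₗ[R] (ι → R)) (hπ : Function.Surjective π) {k : ℕ} (hk : Fintype.card ι = k)
    (W : Submodule R M) (hW : LinearMap.ker π = W) :
    ∃ G : Module.Grassmannian R M k, G.toSubmodule = W := by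
  subst hW
  have e := π.quotKerEquivOfSurjective hπ
  refine ⟨{ toSubmodule := LinearMap.ker π
            finite_quotient := Module.Finite.equiv e.symm
            projective_quotient := Module.Projective.of_equiv e.symm
            rankAtStalk_eq := ?_ }, rfl⟩
  intro P
  have hnt : Nontrivial R := by
    refine nontrivial_of_ne (0 : R) 1 fun h => ?_
    exact P.2.ne_top ((Ideal.eq_top_iff_one _).2 (h ▸ P.asIdeal.zero_mem))
  rw [Module.rankAtStalk_eq_of_equiv e, Module.rankAtStalk_eq_finrank_of_free]
  simp [hk]

theorem grass_eq_of_le {M : Type u} [AddCommGroup M] [Module R M] {k : ℕ}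
    {G G' : Module.Grassmannian R M k} (h : G.toSubmodule ≤ G'.toSubmodule) : G = G' := by
  apply Module.Grassmannian.ext
  refine le_antisymm h fun x hx => ?_
  have hb : Function.Bijective (Submodule.factor h) := by
    apply Module.bijective_of_surjective_of_rankAtStalk_eq (Submodule.factor_surjective h)
    intro m _
    rw [G.rankAtStalk_eq, G'.rankAtStalk_eq]
  have h0 : Submodule.factor h (Submodule.Quotient.mk x) = 0 := by
    have h1 : Submodule.factor h (Submodule.Quotient.mk x) = Submodule.Quotient.mk x := rfl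
    rw [h1, Submodule.Quotient.mk_eq_zero]
    exact hx
  have h2 := hb.1 (h0.trans (map_zero _).symm)
  rwa [Submodule.Quotient.mk_eq_zero] at h2

theorem y_o [Fact p.Prime] (d : Chart o j R) : d.y p o = 1 := by
  have hp0 : p ≠ 0 := (Fact.out : p.Prime).ne_zero
  simp [Chart.y, d.ao, d.bo, zero_pow hp0]

theorem y_j [Fact p.Prime] (d : Chart o j R) : d.y p j = d.c := by
  have hp0 : p ≠ 0 := (Fact.out : p.Prime).ne_zero
  simp [Chart.y, d.aj, d.bj, zero_pow hp0]

theorem mem_frobPull {W : Submodule R (Fin N → R)} {w : Fin N → R} (hw : w ∈ W) :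
    (fun i => w i ^ p) ∈ frobPull p W :=
  Submodule.subset_span ⟨w, hw, rfl⟩

theorem exists_grass_two (hoj : o ≠ j) (a b : Fin N → R) (ao : a o = 1) (bo : b o = 0)
    (aj : a j = 0) (bj : b j = 1) :
    ∃ G : Module.Grassmannian R (Fin N → R) (N - 2),
      G.toSubmodule = Submodule.span R {a, b} := by
  classical
  let π : (Fin N → R) →ₗ[R] ({i : Fin N // i ≠ o ∧ i ≠ j} → R) :=
    { toFun := fun x i => x i - x o * a i - x j * b i
      map_add' := by
        intro x y
        funext i
        simp only [Pi.add_apply]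
        ring
      map_smul' := by
        intro c x
        funext i
        simp only [Pi.smul_apply, smul_eq_mul, RingHom.id_apply]
        ring }
  have hπ : ∀ x i, π x i = x i - x o * a i - x j * b i := fun x i => rfl
  refine exists_grass π ?_ ?_ _ ?_
  · intro f
    refine ⟨fun i => if h : i ≠ o ∧ i ≠ j then f ⟨i, h⟩ else 0, ?_⟩
    funext i
    rw [hπ]
    have h1 : ¬ (o ≠ o ∧ o ≠ j) := fun h => h.1 rfl
    have h2 : ¬ (j ≠ o ∧ j ≠ j) := fun h => h.2 rfl
    rw [dif_pos i.2, dif_neg h1, dif_neg h2]
    simp
  · rw [Fintype.card_subtype]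
    have h1 : (Finset.univ.filter fun i : Fin N => i ≠ o ∧ i ≠ j) =
        (Finset.univ.erase o).erase j := by
      ext i
      simp [and_comm]
    rw [h1, Finset.card_erase_of_mem, Finset.card_erase_of_mem (Finset.mem_univ _),
      Finset.card_univ, Fintype.card_fin]
    · omega
    · exact Finset.mem_erase.2 ⟨hoj.symm, Finset.mem_univ _⟩
  · apply le_antisymm
    · intro x hx
      rw [LinearMap.mem_ker] at hx
      rw [Submodule.mem_span_pair]
      refine ⟨x o, x j, ?_⟩
      funext i
      simp only [Pi.add_apply, Pi.smul_apply, smul_eq_mul]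
      by_cases h1 : i = o
      · subst h1
        rw [ao, bo]
        ring
      · by_cases h2 : i = j
        · subst h2
          rw [aj, bj]
          ring
        · have h3 := congrFun hx ⟨i, h1, h2⟩
          rw [hπ] at h3
          simp only [Pi.zero_apply] at h3
          linear_combination -h3
    · rw [Submodule.span_le]
      intro x hx
      rcases hx with rfl | hx
      · rw [SetLike.mem_coe, LinearMap.mem_ker]
        funext i
        rw [hπ, ao, aj]
        simp
      · rw [Set.mem_singleton_iff] at hx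
        subst hx
        rw [SetLike.mem_coe, LinearMap.mem_ker]
        funext i
        rw [hπ, bo, bj]
        simp

theorem exists_grass_one (y : Fin N → R) (yo : y o = 1) :
    ∃ G : Module.Grassmannian R (Fin N → R) (N - 1),
      G.toSubmodule = Submodule.span R {y} := by
  classical
  let π : (Fin N → R) →ₗ[R] ({i : Fin N // i ≠ o} → R) :=
    { toFun := fun x i => x i - x o * y i
      map_add' := by
        intro x y
        funext i
        simp only [Pi.add_apply]
        ring
      map_smul' := by
        intro c x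
        funext i
        simp only [Pi.smul_apply, smul_eq_mul, RingHom.id_apply]
        ring }
  have hπ : ∀ x i, π x i = x i - x o * y i := fun x i => rfl
  refine exists_grass π ?_ ?_ _ ?_
  · intro f
    refine ⟨fun i => if h : i ≠ o then f ⟨i, h⟩ else 0, ?_⟩
    funext i
    rw [hπ]
    have h1 : ¬ (o ≠ o) := fun h => h rfl
    rw [dif_pos i.2, dif_neg h1]
    simp
  · rw [Fintype.card_subtype]
    have h1 : (Finset.univ.filter fun i : Fin N => i ≠ o) = Finset.univ.erase o := by
      ext i
      simp
    rw [h1, Finset.card_erase_of_mem (Finset.mem_univ _), Finset.card_univ, Fintype.card_fin]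
  · apply le_antisymm
    · intro x hx
      rw [LinearMap.mem_ker] at hx
      rw [Submodule.mem_span_singleton]
      refine ⟨x o, ?_⟩
      funext i
      simp only [Pi.smul_apply, smul_eq_mul]
      by_cases h1 : i = o
      · subst h1
        rw [yo]
        ring
      · have h3 := congrFun hx ⟨i, h1⟩
        rw [hπ] at h3
        simp only [Pi.zero_apply] at h3
        linear_combination -h3
    · rw [Submodule.span_le]
      intro x hx
      rw [Set.mem_singleton_iff] at hx
      subst hx
      rw [SetLike.mem_coe, LinearMap.mem_ker]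
      funext i
      rw [hπ, yo]
      simp

theorem chart_flag [Fact p.Prime] (hp : (p : R) = 0) (hoj : o ≠ j) (d : Chart o j R) :
    ∃ F : Flag p N R, d.Is p F := by
  obtain ⟨G, hG⟩ := exists_grass_two hoj d.a d.b d.ao d.bo d.aj d.bj
  obtain ⟨H, hH⟩ := exists_grass_one (d.y p) (y_o d)
  refine ⟨⟨G, H, ?_⟩, hG, hH⟩
  rw [hH, hG, Submodule.span_singleton_le_iff_mem]
  have ha : d.a ∈ Submodule.span R {d.a, d.b} := Submodule.subset_span (by simp)
  have hb : d.b ∈ Submodule.span R {d.a, d.b} := Submodule.subset_span (by simp)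
  have h := Submodule.add_mem _ (mem_frobPull (p := p) ha)
    (Submodule.smul_mem _ d.c (mem_frobPull (p := p) hb))
  exact h

theorem flag_ext {F F' : Flag p N R} (hW : F.W.toSubmodule = F'.W.toSubmodule)
    (hL : F.L.toSubmodule = F'.L.toSubmodule) : F = F' := by
  have h1 : F.W = F'.W := Module.Grassmannian.ext hW
  have h2 : F.L = F'.L := Module.Grassmannian.ext hL
  cases F
  cases F'
  cases h1
  cases h2
  rfl

theorem chart_unique [Fact p.Prime] (hoj : o ≠ j) {d d' : Chart o j R} {F : Flag p N R}
    (h : d.Is p F) (h' : d'.Is p F) : d = d' := by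
  have hW : d'.W = d.W := h'.1.symm.trans h.1
  have hL : d'.L p = d.L p := h'.2.symm.trans h.2
  have ha : d'.a ∈ d.W := by
    rw [← hW]
    exact Submodule.subset_span (by simp)
  have hb : d'.b ∈ d.W := by
    rw [← hW]
    exact Submodule.subset_span (by simp)
  have hy : d'.y p ∈ d.L p := by
    rw [← hL]
    exact Submodule.subset_span (by simp)
  rw [Chart.W, Submodule.mem_span_pair] at ha hb
  rw [Chart.L, Submodule.mem_span_singleton] at hy
  obtain ⟨x, y, ha⟩ := ha
  obtain ⟨z, w, hb⟩ := hb
  obtain ⟨t, hy⟩ := hy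
  have ha1 := congrFun ha o
  have ha2 := congrFun ha j
  have hb1 := congrFun hb o
  have hb2 := congrFun hb j
  have hy1 := congrFun hy o
  have hy2 := congrFun hy j
  simp only [Pi.add_apply, Pi.smul_apply, smul_eq_mul, d.ao, d.bo, d.aj, d.bj, d'.ao, d'.bo,
    d'.aj, d'.bj, mul_one, mul_zero, add_zero, zero_add, y_o, y_j] at ha1 ha2 hb1 hb2 hy1 hy2
  subst ha1 ha2 hb1 hb2 hy1
  apply Chart.ext'
  · rw [← ha]
    simp
  · rw [← hb]
    simp
  · rw [← hy2]
    simp

theorem frobPull_pair [Fact p.Prime] (hp : (p : R) = 0) (a b : Fin N → R) :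
    frobPull p (Submodule.span R {a, b}) ≤
      Submodule.span R {(fun i => a i ^ p), (fun i => b i ^ p)} := by
  rw [frobPull, Submodule.span_le]
  rintro _ ⟨w, hw, rfl⟩
  rw [SetLike.mem_coe, Submodule.mem_span_pair] at hw
  obtain ⟨x, y, rfl⟩ := hw
  rw [SetLike.mem_coe, Submodule.mem_span_pair]
  refine ⟨x ^ p, y ^ p, ?_⟩
  funext i
  simp only [Pi.add_apply, Pi.smul_apply, smul_eq_mul]
  obtain ⟨r, hr⟩ := exists_add_pow_prime_eq (Fact.out : p.Prime) (x * a i) (y * b i)
  rw [hr, hp]
  ring

theorem chart_of_unit [Fact p.Prime] (hp : (p : R) = 0) (hoj : o ≠ j) (F : Flag p N R)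
    (w w' l : Fin N → R) (hw : w ∈ F.W.toSubmodule) (hw' : w' ∈ F.W.toSubmodule)
    (hl : l ∈ F.L.toSubmodule) (hu : IsUnit ((w o * w' j - w j * w' o) * l o)) :
    ∃ d : Chart o j R, d.Is p F := by
  have hu1 : IsUnit (w o * w' j - w j * w' o) := isUnit_of_mul_isUnit_left hu
  have hu2 : IsUnit (l o) := isUnit_of_mul_isUnit_right hu
  obtain ⟨δ, hδ⟩ := hu1.exists_left_inv
  obtain ⟨μ, hμ⟩ := hu2.exists_left_inv
  set a : Fin N → R := δ • (w' j • w - w j • w') with ha
  set b : Fin N → R := δ • (w o • w' - w' o • w) with hb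
  set y : Fin N → R := μ • l with hy
  have haW : a ∈ F.W.toSubmodule := Submodule.smul_mem _ _
    (Submodule.sub_mem _ (Submodule.smul_mem _ _ hw) (Submodule.smul_mem _ _ hw'))
  have hbW : b ∈ F.W.toSubmodule := Submodule.smul_mem _ _
    (Submodule.sub_mem _ (Submodule.smul_mem _ _ hw') (Submodule.smul_mem _ _ hw))
  have hyL : y ∈ F.L.toSubmodule := Submodule.smul_mem _ _ hl
  have ao : a o = 1 := by
    rw [ha]
    simp only [Pi.sub_apply, Pi.smul_apply, smul_eq_mul]
    linear_combination hδ
  have aj : a j = 0 := by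
    rw [ha]
    simp only [Pi.sub_apply, Pi.smul_apply, smul_eq_mul]
    ring
  have bo : b o = 0 := by
    rw [hb]
    simp only [Pi.sub_apply, Pi.smul_apply, smul_eq_mul]
    ring
  have bj : b j = 1 := by
    rw [hb]
    simp only [Pi.sub_apply, Pi.smul_apply, smul_eq_mul]
    linear_combination hδ
  have yo : y o = 1 := by
    rw [hy]
    simp only [Pi.smul_apply, smul_eq_mul]
    exact hμ
  obtain ⟨G, hG⟩ := exists_grass_two hoj a b ao bo aj bj
  obtain ⟨H, hH⟩ := exists_grass_one y yo
  have hGW : G = F.W := by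
    apply grass_eq_of_le
    rw [hG, Submodule.span_le]
    intro x hx
    rcases hx with rfl | hx
    · exact haW
    · rw [Set.mem_singleton_iff] at hx
      rw [hx]
      exact hbW
  have hHL : H = F.L := by
    apply grass_eq_of_le
    rw [hH, Submodule.span_singleton_le_iff_mem]
    exact hyL
  have hy1 : y ∈ Submodule.span R {(fun i => a i ^ p), (fun i => b i ^ p)} := by
    apply frobPull_pair hp a b
    rw [← hG, hGW]
    exact F.le hyL
  rw [Submodule.mem_span_pair] at hy1
  obtain ⟨s, t, hst⟩ := hy1
  have hp0 : p ≠ 0 := (Fact.out : p.Prime).ne_zero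
  have h1 := congrFun hst o
  simp only [Pi.add_apply, Pi.smul_apply, smul_eq_mul, ao, bo, yo, one_pow, zero_pow hp0, mul_one,
    mul_zero, add_zero] at h1
  subst h1
  refine ⟨⟨a, b, t, ao, bo, aj, bj⟩, ?_, ?_⟩
  · rw [← hGW, hG]
    rfl
  · rw [← hHL, hH]
    have h2 : (Chart.y p (⟨a, b, t, ao, bo, aj, bj⟩ : Chart o j R)) = y := by
      rw [← hst]
      funext i
      simp [Chart.y]
    rw [Chart.L, h2]

theorem chart_overlap [Fact p.Prime] (hoj : o ≠ j) (hoj' : o ≠ j') {d : Chart o j R}
    {d' : Chart o j' R} {F : Flag p N R} (h : d.Is p F) (h' : d'.Is p F) :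
    d.b j' * d'.b j = 1 ∧ (∀ i, d.b i = d.b j' * d'.b i) ∧ (∀ i, d.a i = d'.a i + d.a j' * d'.b i) ∧
      d'.c = d.a j' ^ p + d.c * d.b j' ^ p := by
  have hW : d.W = d'.W := h.1.symm.trans h'.1
  have hL : d'.L p = d.L p := h'.2.symm.trans h.2
  have ha : d.a ∈ d'.W := by
    rw [← hW]
    exact Submodule.subset_span (by simp)
  have hb : d.b ∈ d'.W := by
    rw [← hW]
    exact Submodule.subset_span (by simp)
  have hy : d'.y p ∈ d.L p := by
    rw [← hL]
    exact Submodule.subset_span (by simp)
  rw [Chart.W, Submodule.mem_span_pair] at ha hb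
  rw [Chart.L, Submodule.mem_span_singleton] at hy
  obtain ⟨x, y, ha⟩ := ha
  obtain ⟨z, w, hb⟩ := hb
  obtain ⟨t, hy⟩ := hy
  have ha1 := congrFun ha o
  have ha2 := congrFun ha j'
  have hb1 := congrFun hb o
  have hb2 := congrFun hb j'
  have hy1 := congrFun hy o
  simp only [Pi.add_apply, Pi.smul_apply, smul_eq_mul, d.ao, d.bo, d'.ao, d'.bo,
    d'.aj, d'.bj, mul_one, mul_zero, add_zero, zero_add, y_o] at ha1 ha2 hb1 hb2 hy1
  subst hy1
  rw [one_smul] at hy
  have hbi : ∀ i, d.b i = d.b j' * d'.b i := by
    intro i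
    have h1 := congrFun hb i
    simp only [Pi.add_apply, Pi.smul_apply, smul_eq_mul] at h1
    rw [← h1, hb1, hb2]
    ring
  refine ⟨?_, hbi, ?_, ?_⟩
  · rw [← hbi j, d.bj]
  · intro i
    have h1 := congrFun ha i
    simp only [Pi.add_apply, Pi.smul_apply, smul_eq_mul] at h1
    rw [← h1, ha1, ha2]
    ring
  · rw [← y_j (p := p) d', ← hy]
    rfl

theorem bc_span {R' : Type u} [CommRing R'] (φ : R →+* R') (S : Set (Fin N → R)) :
    bc φ (Submodule.span R S) = Submodule.span R' ((fun w i => φ (w i)) '' S) := by
  apply le_antisymm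
  · rw [bc, Submodule.span_le]
    rintro _ ⟨w, hw, rfl⟩
    rw [SetLike.mem_coe] at hw ⊢
    induction hw using Submodule.span_induction with
    | mem x hx => exact Submodule.subset_span ⟨x, hx, rfl⟩
    | zero =>
      simp only [Pi.zero_apply, map_zero]
      exact Submodule.zero_mem _
    | add x y _ _ hx hy =>
      have h := Submodule.add_mem _ hx hy
      have h1 : (fun i => φ ((x + y) i)) = (fun i => φ (x i)) + (fun i => φ (y i)) := by
        funext i
        simp
      beta_reduce
      rw [h1]
      exact h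
    | smul c x _ hx =>
      have h := Submodule.smul_mem _ (φ c) hx
      have h1 : (fun i => φ ((c • x) i)) = φ c • (fun i => φ (x i)) := by
        funext i
        simp
      beta_reduce
      rw [h1]
      exact h
  · apply Submodule.span_mono
    rintro _ ⟨w, hw, rfl⟩
    exact ⟨w, Submodule.subset_span hw, rfl⟩

theorem bc_W {R' : Type u} [CommRing R'] (φ : R →+* R') (d : Chart o j R) :
    bc φ d.W = (d.map φ).W := by
  rw [Chart.W, bc_span, Set.image_pair]
  rfl

theorem bc_L {R' : Type u} [CommRing R'] (φ : R →+* R') (d : Chart o j R) :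
    bc φ (d.L p) = (d.map φ).L p := by
  rw [Chart.L, bc_span, Set.image_singleton, Chart.L]
  congr 2
  funext i
  simp [Chart.y, Chart.map]

/-- over a field: if the chart plane is spanned by the image of `M`, then a minor of two vectors
of `M` does not vanish. -/
theorem exists_minor {K : Type u} [Field K] (hoj : o ≠ j) (φ : R →+* K)
    (M : Submodule R (Fin N → R)) (d : Chart o j K) (h : bc φ M = d.W) :
    ∃ w ∈ M, ∃ w' ∈ M, φ (w o * w' j - w j * w' o) ≠ 0 := by
  by_contra hcon
  push Not at hcon
  have key : ∀ v ∈ bc φ M, ∀ v' ∈ bc φ M, v o * v' j - v j * v' o = 0 := by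
    intro v hv
    rw [bc] at hv
    induction hv using Submodule.span_induction with
    | mem x hx =>
      obtain ⟨w, hw, rfl⟩ := hx
      intro v' hv'
      rw [bc] at hv'
      induction hv' using Submodule.span_induction with
      | mem x hx =>
        obtain ⟨w', hw', rfl⟩ := hx
        have h1 := hcon w hw w' hw'
        simpa using h1
      | zero => simp
      | add x y _ _ hx hy =>
        simp only [Pi.add_apply]
        linear_combination hx + hy
      | smul c x _ hx =>
        simp only [Pi.smul_apply, smul_eq_mul]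
        linear_combination c * hx
    | zero =>
      intro v' _
      simp
    | add x y _ _ hx hy =>
      intro v' hv'
      simp only [Pi.add_apply]
      linear_combination hx v' hv' + hy v' hv'
    | smul c x _ hx =>
      intro v' hv'
      simp only [Pi.smul_apply, smul_eq_mul]
      linear_combination c * hx v' hv'
  have ha : d.a ∈ bc φ M := by
    rw [h]
    exact Submodule.subset_span (by simp)
  have hb : d.b ∈ bc φ M := by
    rw [h]
    exact Submodule.subset_span (by simp)
  have h1 := key _ ha _ hb
  rw [d.ao, d.bj, d.aj, d.bo] at h1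
  simp at h1

theorem exists_coord [Fact p.Prime] {K : Type u} [Field K] (φ : R →+* K)
    (M : Submodule R (Fin N → R)) (d : Chart o j K) (h : bc φ M = d.L p) :
    ∃ l ∈ M, φ (l o) ≠ 0 := by
  by_contra hcon
  push Not at hcon
  have key : ∀ v ∈ bc φ M, v o = 0 := by
    intro v hv
    rw [bc] at hv
    induction hv using Submodule.span_induction with
    | mem x hx =>
      obtain ⟨w, hw, rfl⟩ := hx
      exact hcon w hw
    | zero => simp
    | add x y _ _ hx hy => simp [hx, hy]
    | smul c x _ hx => simp [hx]
  have hy : d.y p ∈ bc φ M := by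
    rw [h]
    exact Submodule.subset_span (by simp)
  have h1 := key _ hy
  rw [y_o] at h1
  exact one_ne_zero h1

end Totaro
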