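import Pool.Agent.Helper49.Tot.Core

open CategoryTheory AlgebraicGeometry

universe u

namespace Totaro

variable {p N : ℕ} {R : Type u} [CommRing R] {o j j' : Fin N}

theorem bet_spec [Fact p.Prime] (x y : R) : (x + y) ^ p = x ^ p + y ^ p + p * bet p x y := by
  have hp : p.Prime := Fact.out
  have hp0 := hp.pos
  have h1 : Finset.range (p + 1) = insert 0 (insert p (Finset.Ioo 0 p)) := by
    ext i
    simp only [Finset.mem_range, Finset.mem_insert, Finset.mem_Ioo]
    omega
  rw [add_comm x y, add_pow, h1, Finset.sum_insert, Finset.sum_insert]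
  · have h2 : ∑ i ∈ Finset.Ioo 0 p, y ^ i * x ^ (p - i) * (p.choose i : R) =
        p * bet p x y := by
      unfold bet
      rw [Finset.mul_sum]
      apply Finset.sum_congr rfl
      intro i hi
      rw [Finset.mem_Ioo] at hi
      have h3 : p ∣ p.choose i := hp.dvd_choose_self hi.1.ne' hi.2
      have h4 : (p.choose i : R) = p * ((p.choose i / p : ℕ) : R) := by
        rw [← Nat.cast_mul, Nat.mul_div_cancel' h3]
      rw [h4]
      ring
    rw [h2]
    simp only [pow_zero, one_mul, Nat.sub_zero, Nat.choose_zero_right, Nat.cast_one, mul_one,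
      Nat.sub_self, Nat.choose_self]
    ring
  · simp
  · simp only [Finset.mem_insert, Finset.mem_Ioo]
    omega

theorem bet_map {R' : Type*} [CommRing R'] (φ : R →+* R') (x y : R) :
    φ (bet p x y) = bet p (φ x) (φ y) := by
  unfold bet
  rw [map_sum]
  apply Finset.sum_congr rfl
  intro i _
  rw [map_mul, map_mul, map_pow, map_pow, map_natCast]

/-- for `w ^ 2 = 0` only the first summand survives -/
theorem bet_sq_zero [Fact p.Prime] (x w : R) (hw : w ^ 2 = 0) : bet p x w = x ^ (p - 1) * w := by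
  have hp : p.Prime := Fact.out
  have hp2 := hp.two_le
  unfold bet
  rw [Finset.sum_eq_single 1]
  · rw [Nat.choose_one_right, Nat.div_self hp.pos, Nat.cast_one, one_mul, pow_one]
  · intro i hi hi1
    rw [Finset.mem_Ioo] at hi
    have h2 : w ^ i = 0 := by
      obtain ⟨k, hk⟩ := Nat.exists_eq_add_of_le (show 2 ≤ i by omega)
      rw [hk, pow_add, hw, zero_mul]
    rw [h2, mul_zero]
  · intro h
    exfalso
    apply h
    rw [Finset.mem_Ioo]
    omega

lemma pow_add_mul [Fact p.Prime] (hsq : (p : R) ^ 2 = 0) (a e : R) :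
    (a + p * e) ^ p = a ^ p := by
  have hp : p.Prime := Fact.out
  have hp2 := hp.two_le
  have h1 : ∀ i, 1 ≤ i → (p : R) * ((p : R) * e) ^ i = 0 := by
    intro i hi
    obtain ⟨k, rfl⟩ := Nat.exists_eq_add_of_le hi
    have : (p : R) * ((p : R) * e) ^ (1 + k) = (p : R) ^ 2 * (e * ((p : R) * e) ^ k) := by
      ring
    rw [this, hsq, zero_mul]
  have h2 : ((p : R) * e) ^ p = 0 := by
    obtain ⟨k, hk⟩ := Nat.exists_eq_add_of_le hp2
    have : ((p : R) * e) ^ (2 + k) = (p : R) ^ 2 * (e ^ 2 * ((p : R) * e) ^ k) := by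
      ring
    have h3 : ((p : R) * e) ^ p = ((p : R) * e) ^ (2 + k) := by
      conv_lhs => rw [hk]
      rw [← hk]
    rw [h3, this, hsq, zero_mul]
  have h3 : (p : R) * bet p a (p * e) = 0 := by
    unfold bet
    rw [Finset.mul_sum]
    apply Finset.sum_eq_zero
    intro i hi
    rw [Finset.mem_Ioo] at hi
    have h4 := h1 i hi.1
    calc (p : R) * (((p.choose i / p : ℕ) : R) * a ^ (p - i) * ((p : R) * e) ^ i)
        = (((p.choose i / p : ℕ) : R) * a ^ (p - i)) * ((p : R) * ((p : R) * e) ^ i) := by ring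
      _ = 0 := by rw [h4, mul_zero]
  rw [bet_spec, h2, h3, add_zero, add_zero]

theorem key_ring {B C : Type u} [CommRing B] [CommRing C] [Fact p.Prime] (ψ : B →+* C)
    (hsq : (p : B) ^ 2 = 0) (hC : (p : C) = 0)
    (hann : ∀ x, (p : B) * x = 0 → ∃ y, x = p * y)
    (y1 y2 y3 r u s v s' v' b12 b13 b23 e1 e2 : B)
    (h12 : y2 = r ^ p + y1 * u ^ p + p * b12) (h13 : y3 = s ^ p + y1 * v ^ p + p * b13)
    (h23 : y3 = s' ^ p + y2 * v' ^ p + p * b23) (hv : v = u * v' + p * e1)
    (hs : s = s' + r * v' + p * e2) :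
    ψ b12 * ψ v' ^ p + ψ b23 - ψ b13 = bet p (ψ s') (ψ r * ψ v') := by
  have hvp : v ^ p = u ^ p * v' ^ p := by
    rw [hv, pow_add_mul hsq, mul_pow]
  have hsp : s ^ p = s' ^ p + r ^ p * v' ^ p + p * bet p s' (r * v') := by
    rw [hs, pow_add_mul hsq, bet_spec, mul_pow]
  have hkey : (p : B) * (b12 * v' ^ p + b23 - b13 - bet p s' (r * v')) = 0 := by
    have h1 : s ^ p + y1 * v ^ p + p * b13 = s' ^ p + y2 * v' ^ p + p * b23 := by
      rw [← h13, ← h23]
    rw [hsp, hvp, h12] at h1
    linear_combination -h1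
  obtain ⟨y, hy⟩ := hann _ hkey
  have h2 : ψ (b12 * v' ^ p + b23 - b13 - bet p s' (r * v')) = 0 := by
    rw [hy, map_mul, map_natCast, hC, zero_mul]
  rw [map_sub, map_sub, map_add, map_mul, map_pow, bet_map, map_mul] at h2
  exact sub_eq_zero.1 h2

theorem witt_len2 (p : ℕ) [Fact p.Prime] (k : Type u) [Field k] [CharP k p] [PerfectRing k p] :
    ∃ q : (WittVector p k ⧸ Ideal.span {((p : WittVector p k)) ^ 2}) →+* k,
      IsLen2 p q ∧ ∀ x : WittVector p k, q (Ideal.Quotient.mk _ x) = x.coeff 0 := by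
  have hp : p.Prime := Fact.out
  have hc : WittVector.constantCoeff (p : WittVector p k) = (0 : k) := by
    rw [map_natCast]
    exact CharP.cast_eq_zero k p
  have hker : ∀ a ∈ Ideal.span {((p : WittVector p k)) ^ 2},
      (WittVector.constantCoeff : WittVector p k →+* k) a = 0 := by
    intro a ha
    obtain ⟨b, rfl⟩ := Ideal.mem_span_singleton'.1 ha
    rw [map_mul, map_pow, hc]
    simp
  refine ⟨Ideal.Quotient.lift _ WittVector.constantCoeff hker, ?_, fun x => rfl⟩
  refine ⟨?_, ?_, ?_, ?_, ?_⟩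
  · intro x
    exact ⟨Ideal.Quotient.mk _ (WittVector.teichmuller p x), WittVector.teichmuller_coeff_zero p x⟩
  · intro x hx
    obtain ⟨y, rfl⟩ := Ideal.Quotient.mk_surjective x
    have h1 : y.coeff 0 = 0 := hx
    obtain ⟨z, hz⟩ := Ideal.mem_span_singleton'.1
      ((WittVector.mem_span_p_iff_coeff_zero_eq_zero y).2 h1)
    refine ⟨Ideal.Quotient.mk _ z, ?_⟩
    rw [← hz, map_mul, map_natCast, mul_comm]
  · rw [← map_natCast (Ideal.Quotient.mk (Ideal.span {((p : WittVector p k)) ^ 2})), ← map_pow]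
    exact Ideal.Quotient.eq_zero_iff_mem.2 (Ideal.mem_span_singleton_self _)
  · intro x hx
    obtain ⟨y, rfl⟩ := Ideal.Quotient.mk_surjective x
    rw [← map_natCast (Ideal.Quotient.mk (Ideal.span {((p : WittVector p k)) ^ 2})),
      ← map_mul] at hx
    obtain ⟨z, hz⟩ := Ideal.mem_span_singleton'.1 (Ideal.Quotient.eq_zero_iff_mem.1 hx)
    have hp0 : (p : WittVector p k) ≠ 0 := WittVector.p_nonzero p k
    have h1 : y = p * z := by
      apply mul_left_cancel₀ hp0
      rw [← hz]
      ring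
    exact ⟨Ideal.Quotient.mk _ z, by rw [h1, map_mul, map_natCast]⟩
  · rw [← map_natCast (Ideal.Quotient.mk (Ideal.span {((p : WittVector p k)) ^ 2})),
      Ideal.Quotient.lift_mk]
    exact hc

end Totaro
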