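import Pool.Agent.Helper49.Tot.Core

open CategoryTheory AlgebraicGeometry TopologicalSpace Opposite TensorProduct

universe u

namespace Totaro

/-- Restriction of sections. -/
def res {X : Scheme.{u}} {W V : X.Opens} (h : W ≤ V) : Γ(X, V) →+* Γ(X, W) :=
  (X.presheaf.map (homOfLE h).op).hom

theorem res_res {X : Scheme.{u}} {U V W : X.Opens} (h : W ≤ V) (h' : V ≤ U) (x : Γ(X, U)) :
    res h (res h' x) = res (h.trans h') x := by
  show (X.presheaf.map (homOfLE h').op ≫ X.presheaf.map (homOfLE h).op) x = _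
  rw [← Functor.map_comp]
  rfl

theorem res_self {X : Scheme.{u}} {V : X.Opens} (h : V ≤ V) (x : Γ(X, V)) : res h x = x := by
  have : X.presheaf.map (homOfLE h).op = 𝟙 _ := X.presheaf.map_id _
  show (X.presheaf.map (homOfLE h).op).hom x = x
  rw [this]; rfl

theorem app_res {Y Z : Scheme.{u}} (i : Y ⟶ Z) {W V : Z.Opens} (h : W ≤ V) (x : Γ(Z, V)) :
    i.app W (res h x) = res (show i ⁻¹ᵁ W ≤ i ⁻¹ᵁ V from fun _ hx => h hx) (i.app V x) := by
  have := i.naturality (homOfLE h).op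
  exact congrArg (fun f => f x) (congrArg (fun f => f.hom) this)

theorem eq_of_affine {X : Scheme.{u}} {V : X.Opens} (x y : Γ(X, V))
    (h : ∀ (W : X.Opens) (_ : IsAffineOpen W) (hW : W ≤ V), res hW x = res hW y) : x = y := by
  let ι := {W : X.Opens // IsAffineOpen W ∧ W ≤ V}
  refine X.sheaf.eq_of_locally_eq' (fun w : ι => w.1) V (fun w => homOfLE w.2.2) ?_ x y ?_
  · intro z hz
    obtain ⟨_, ⟨W, hW, rfl⟩, hzW, hWV⟩ := X.isBasis_affineOpens.exists_subset_of_mem_open hz V.2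
    exact Opens.mem_iSup.2 ⟨⟨W, hW, hWV⟩, hzW⟩
  · intro w
    exact h w.1 w.2.1 w.2.2

theorem glue_affine {X : Scheme.{u}} (V : X.Opens)
    (t : ∀ (W : X.Opens) (_ : IsAffineOpen W) (_ : W ≤ V), Γ(X, W))
    (ht : ∀ (W W' : X.Opens) (h : IsAffineOpen W) (h' : IsAffineOpen W') (hW : W ≤ V)
      (hW' : W' ≤ V) (hWW : W' ≤ W), res hWW (t W h hW) = t W' h' hW') :
    ∃ x : Γ(X, V), ∀ (W : X.Opens) (h : IsAffineOpen W) (hW : W ≤ V), res hW x = t W h hW := by
  let ι := {W : X.Opens // IsAffineOpen W ∧ W ≤ V}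
  have hcov : V ≤ iSup (fun w : ι => w.1) := by
    intro z hz
    obtain ⟨_, ⟨W, hW, rfl⟩, hzW, hWV⟩ := X.isBasis_affineOpens.exists_subset_of_mem_open hz V.2
    exact Opens.mem_iSup.2 ⟨⟨W, hW, hWV⟩, hzW⟩
  obtain ⟨x, hx, -⟩ := X.sheaf.existsUnique_gluing' (fun w : ι => w.1) V (fun w => homOfLE w.2.2)
    hcov (fun w => t w.1 w.2.1 w.2.2) (by
      intro w w'
      apply eq_of_affine
      intro W hW hWW
      have h1 : W ≤ w.1 := hWW.trans inf_le_left
      have h2 : W ≤ w'.1 := hWW.trans inf_le_right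
      have e1 : res hWW (res inf_le_left (t w.1 w.2.1 w.2.2)) = t W hW (h1.trans w.2.2) := by
        rw [res_res]
        exact ht _ _ _ _ _ _ _
      have e2 : res hWW (res inf_le_right (t w'.1 w'.2.1 w'.2.2)) = t W hW (h1.trans w.2.2) := by
        rw [res_res]
        exact ht _ _ _ _ _ _ _
      exact e1.trans e2.symm)
  exact ⟨x, fun W h hW => hx ⟨W, h, hW⟩⟩

section Lift

variable {p : ℕ} {k Λ : Type u} [CommRing k] [CommRing Λ] {q : Λ →+* k}
variable {Y Z : Scheme.{u}} {g : Y ⟶ Spec (.of k)} {f : Z ⟶ Spec (.of Λ)} {i : Y ⟶ Z}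

theorem isClosedImmersion_i (hq : IsLen2 p q)
    (h : IsPullback i g f (Spec.map (CommRingCat.ofHom q))) : IsClosedImmersion i := by
  have h1 : IsClosedImmersion (Spec.map (CommRingCat.ofHom q)) :=
    IsClosedImmersion.spec_of_surjective _ hq.surj
  exact MorphismProperty.of_isPullback (P := @IsClosedImmersion) h.flip h1

theorem surjective_i (hq : IsLen2 p q)
    (h : IsPullback i g f (Spec.map (CommRingCat.ofHom q))) : Surjective i := by
  have h1 : Surjective (Spec.map (CommRingCat.ofHom q)) := by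
    constructor
    have : Function.Surjective (PrimeSpectrum.comap q) := by
      rw [← Set.range_eq_univ, range_comap_of_surjective _ _ hq.surj]
      rw [Set.eq_univ_iff_forall]
      intro P
      rw [PrimeSpectrum.mem_zeroLocus]
      intro x hx
      obtain ⟨y, rfl⟩ := hq.ker x hx
      have : (p * y) ^ 2 ∈ P.asIdeal := by
        rw [mul_pow, hq.sq, zero_mul]; exact P.asIdeal.zero_mem
      exact P.isPrime.mem_of_pow_mem 2 this
    exact this
  exact MorphismProperty.of_isPullback (P := @Surjective) h.flip h1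

theorem p_sq (hq : IsLen2 p q) (f : Z ⟶ Spec (.of Λ)) (V : Z.Opens) : (p : Γ(Z, V)) ^ 2 = 0 := by
  have h1 : ((f.appLE ⊤ V (by simp)).hom.comp (Scheme.ΓSpecIso (.of Λ)).inv.hom) ((p : Λ) ^ 2) = 0 := by
    rw [hq.sq, map_zero]
  simpa using h1

theorem p_zero (hq : IsLen2 p q) (g : Y ⟶ Spec (.of k)) (V : Y.Opens) : (p : Γ(Y, V)) = 0 := by
  have h1 : ((g.appLE ⊤ V (by simp)).hom.comp (Scheme.ΓSpecIso (.of k)).inv.hom) (q (p : Λ)) = 0 := by
    rw [hq.char, map_zero]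
  simpa using h1

/-- kernel of a pushout of a surjection -/
theorem pushout_ker {A B C P : CommRingCat.{u}} {φ : A ⟶ B} {ψ : A ⟶ C} {b : B ⟶ P} {c : C ⟶ P}
    (h : IsPushout φ ψ b c) (hψ : Function.Surjective ψ) (x : A) (hx : ∀ a : A, ψ a = 0 → ∃ a', a = x * a')
    (y : B) (hy : b y = 0) : ∃ y', y = φ x * y' := by
  let I : Ideal B := Ideal.span {φ x}
  let π : B ⟶ CommRingCat.of (B ⧸ I) := CommRingCat.ofHom (Ideal.Quotient.mk I)
  have hker : ∀ a : A, ψ.hom a = 0 → (φ ≫ π).hom a = 0 := by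
    intro a ha
    obtain ⟨a', rfl⟩ := hx a ha
    show Ideal.Quotient.mk I (φ.hom (x * a')) = 0
    rw [Ideal.Quotient.eq_zero_iff_mem, map_mul]
    exact Ideal.mul_mem_right _ _ (Ideal.mem_span_singleton_self _)
  let c' : C →+* (B ⧸ I) := RingHom.liftOfSurjective ψ.hom hψ ⟨(φ ≫ π).hom, hker⟩
  have hc' : φ ≫ π = ψ ≫ CommRingCat.ofHom c' := by
    ext a
    show _ = c' (ψ.hom a)
    simp only [c', RingHom.liftOfSurjective_comp_apply]
  have h2 : b ≫ h.desc π (CommRingCat.ofHom c') hc' = π := h.inl_desc _ _ _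
  have h3 : π.hom y = 0 := by
    rw [← h2]
    show (h.desc π (CommRingCat.ofHom c') hc').hom (b.hom y) = 0
    have : b.hom y = 0 := hy
    rw [this, map_zero]
  have h4 : y ∈ I := Ideal.Quotient.eq_zero_iff_mem.1 h3
  obtain ⟨y', hy'⟩ := Ideal.mem_span_singleton'.1 h4
  exact ⟨y', by rw [← hy', mul_comm]⟩

theorem restrict_appTop (i : Y ⟶ Z) (V : Z.Opens) :
    (i ∣_ V).appTop = V.topIso.hom ≫ i.app V ≫ (i ⁻¹ᵁ V).topIso.inv := by
  have h := Scheme.Hom.resLE_eq_morphismRestrict (f := i) (U := V)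
  rw [← h, Scheme.Hom.appTop, Scheme.Hom.resLE_app_top, Scheme.Hom.app_eq_appLE]

theorem affine_ker (hq : IsLen2 p q)
    (h : IsPullback i g f (Spec.map (CommRingCat.ofHom q))) {V : Z.Opens} (hV : IsAffineOpen V)
    (b : Γ(Z, V)) (hb : i.app V b = 0) : ∃ b', b = p * b' := by
  have h1 := (isPullback_morphismRestrict i V).paste_vert h
  have : IsAffine V := hV
  have h2 := isPushout_appTop_of_isPullback h1
  have hsurj : Function.Surjective (Spec.map (CommRingCat.ofHom q)).appTop := by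
    have : IsClosedImmersion (Spec.map (CommRingCat.ofHom q)) :=
      IsClosedImmersion.spec_of_surjective _ hq.surj
    exact Scheme.Hom.app_surjective _ _ (isAffineOpen_top _)
  have h3 := pushout_ker h2 hsurj (p : Γ(Spec (.of Λ), ⊤)) (by
    intro a ha
    have h5 := Scheme.ΓSpecIso_naturality (CommRingCat.ofHom q)
    have h4 : q ((Scheme.ΓSpecIso (.of Λ)).hom a) = 0 := by
      have h6 : ((Spec.map (CommRingCat.ofHom q)).appTop ≫ (Scheme.ΓSpecIso (.of k)).hom) a = 0 := by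
        rw [CommRingCat.comp_apply, ha, map_zero]
      rw [h5] at h6
      exact h6
    obtain ⟨y, hy⟩ := hq.ker _ h4
    refine ⟨(Scheme.ΓSpecIso (.of Λ)).inv y, ?_⟩
    have h7 : a = (Scheme.ΓSpecIso (.of Λ)).inv ((Scheme.ΓSpecIso (.of Λ)).hom a) := by
      rw [← CommRingCat.comp_apply, Iso.hom_inv_id]; rfl
    rw [h7, hy, map_mul, map_natCast]) (V.topIso.inv b) (by
      rw [restrict_appTop]
      have : V.topIso.hom (V.topIso.inv b) = b := by
        rw [← CommRingCat.comp_apply, Iso.inv_hom_id]; rfl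
      rw [CommRingCat.comp_apply, CommRingCat.comp_apply, this, hb, map_zero])
  obtain ⟨y', hy'⟩ := h3
  refine ⟨V.topIso.hom y', ?_⟩
  have : V.topIso.hom (V.topIso.inv b) = b := by
    rw [← CommRingCat.comp_apply, Iso.inv_hom_id]; rfl
  rw [← this, hy', map_mul]
  congr 1
  simp

/-- flatness: the annihilator of `p` in the sections over an affine open is generated by `p`. -/
theorem affine_ann (hq : IsLen2 p q) (hf : Flat f) {V : Z.Opens} (hV : IsAffineOpen V)
    (b : Γ(Z, V)) (hb : (p : Γ(Z, V)) * b = 0) : ∃ b', b = p * b' := by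
  have h1 : (f.appLE ⊤ V (by simp)).hom.Flat :=
    Scheme.Hom.flat_appLE f (isAffineOpen_top _) hV (by simp)
  have h2 : ((f.appLE ⊤ V (by simp)).hom.comp
      ((Scheme.ΓSpecIso (.of Λ)).inv.hom)).Flat := by
    refine RingHom.Flat.comp ?_ h1
    exact RingHom.Flat.of_bijective (ConcreteCategory.bijective_of_isIso _)
  algebraize [((f.appLE ⊤ V (by simp)).hom.comp ((Scheme.ΓSpecIso (.of Λ)).inv.hom))]
  have h3 : Module.Flat Λ Γ(Z, V) := h2
  let P : Λ →ₗ[Λ] Λ := LinearMap.lsmul Λ Λ (p : Λ)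
  have hex : Function.Exact P P := by
    intro x
    constructor
    · intro hx
      obtain ⟨y, hy⟩ := hq.ann x hx
      exact ⟨y, hy.symm⟩
    · rintro ⟨y, rfl⟩
      show (p : Λ) * (p * y) = 0
      rw [← mul_assoc, ← sq, hq.sq, zero_mul]
  have h4 := Module.Flat.lTensor_exact Γ(Z, V) hex
  have hp : ∀ x : Γ(Z, V), (p : Λ) • x = (p : Γ(Z, V)) * x := by
    intro x
    rw [Algebra.smul_def, map_natCast]
  have hP : ∀ t : TensorProduct Λ Γ(Z, V) Λ,
      TensorProduct.rid Λ Γ(Z, V) ((P.lTensor Γ(Z, V)) t) =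
        (p : Γ(Z, V)) * TensorProduct.rid Λ Γ(Z, V) t := by
    intro t
    induction t with
    | zero => simp
    | tmul x y =>
      rw [LinearMap.lTensor_tmul, TensorProduct.rid_tmul, TensorProduct.rid_tmul]
      show ((p : Λ) * y) • x = _
      rw [mul_smul, hp]
    | add x y hx hy => rw [map_add, map_add, hx, hy, map_add, mul_add]
  have h5 : (P.lTensor Γ(Z, V)) (b ⊗ₜ[Λ] (1 : Λ)) = 0 := by
    apply (TensorProduct.rid Λ Γ(Z, V)).injective
    rw [hP, TensorProduct.rid_tmul, one_smul, hb, map_zero]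
  obtain ⟨t, ht⟩ := (h4 _).1 h5
  refine ⟨TensorProduct.rid Λ Γ(Z, V) t, ?_⟩
  rw [← hP, ht, TensorProduct.rid_tmul, one_smul]

theorem pow_p_eq {B : Type u} [CommRing B] (hsq : (p : B) ^ 2 = 0) {x y z : B}
    (h : x - y = p * z) : x ^ p = y ^ p := by
  have h1 : (p : B) ∣ x - y := ⟨z, h⟩
  have h2 := dvd_sub_pow_of_dvd_sub h1 1
  rw [show 1 + 1 = 2 from rfl, hsq, pow_one, zero_dvd_iff] at h2
  exact sub_eq_zero.1 h2

theorem affine_pow (hq : IsLen2 p q)
    (h : IsPullback i g f (Spec.map (CommRingCat.ofHom q))) {V : Z.Opens} (hV : IsAffineOpen V)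
    (x y : Γ(Z, V)) (hxy : i.app V x = i.app V y) : x ^ p = y ^ p := by
  obtain ⟨z, hz⟩ := affine_ker hq h hV (x - y) (by rw [map_sub, hxy, sub_self])
  exact pow_p_eq (p_sq hq f V) hz

/-- every `p`-th power of a section lifts canonically -/
theorem tau_exists (hq : IsLen2 p q)
    (h : IsPullback i g f (Spec.map (CommRingCat.ofHom q))) (V : Z.Opens) (c : Γ(Y, i ⁻¹ᵁ V)) :
    ∃ b : Γ(Z, V), i.app V b = c ^ p := by
  have hcl := isClosedImmersion_i hq h
  have hsurj : ∀ (W : Z.Opens) (_ : IsAffineOpen W) (hW : W ≤ V), ∃ x : Γ(Z, W),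
      i.app W x = res (show i ⁻¹ᵁ W ≤ i ⁻¹ᵁ V from fun _ hx => hW hx) c := by
    intro W hWa hW
    exact Scheme.Hom.app_surjective i W hWa _
  choose x hx using hsurj
  obtain ⟨b, hb⟩ := glue_affine V (fun W hWa hW => x W hWa hW ^ p) (by
    intro W W' hWa hWa' hW hW' hWW
    rw [map_pow]
    apply affine_pow hq h hWa'
    rw [app_res, hx, hx, res_res])
  refine ⟨b, ?_⟩
  have hzc : ∀ (s : Γ(Y, i ⁻¹ᵁ V)) (t : Γ(Y, i ⁻¹ᵁ V)), (∀ (W : Z.Opens) (_ : IsAffineOpen W)
      (hW : W ≤ V), res (show i ⁻¹ᵁ W ≤ i ⁻¹ᵁ V from fun _ hx => hW hx) s =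
        res (show i ⁻¹ᵁ W ≤ i ⁻¹ᵁ V from fun _ hx => hW hx) t) → s = t := by
    intro s t hst
    let ι := {W : Z.Opens // IsAffineOpen W ∧ W ≤ V}
    refine Y.sheaf.eq_of_locally_eq' (fun w : ι => i ⁻¹ᵁ w.1) (i ⁻¹ᵁ V)
      (fun w => homOfLE (show i ⁻¹ᵁ w.1 ≤ i ⁻¹ᵁ V from fun _ hx => w.2.2 hx)) ?_ s t ?_
    · intro z hz
      obtain ⟨_, ⟨W, hW, rfl⟩, hzW, hWV⟩ := Z.isBasis_affineOpens.exists_subset_of_mem_open
        (show i z ∈ (V : Set Z) from hz) V.2
      exact Opens.mem_iSup.2 ⟨⟨W, hW, hWV⟩, hzW⟩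
    · intro w
      exact hst w.1 w.2.1 w.2.2
  apply hzc
  intro W hWa hW
  rw [← app_res i hW b, hb W hWa hW, map_pow, hx, map_pow]

/-- a section over any open which dies on `Y` is nilpotent -/
theorem ker_sq (hq : IsLen2 p q)
    (h : IsPullback i g f (Spec.map (CommRingCat.ofHom q))) (V : Z.Opens) (b : Γ(Z, V))
    (hb : i.app V b = 0) : b ^ 2 = 0 := by
  apply eq_of_affine
  intro W hWa hW
  obtain ⟨z, hz⟩ := affine_ker hq h hWa (res hW b) (by rw [app_res, hb, map_zero])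
  rw [map_pow, hz, mul_pow, p_sq hq f W, zero_mul, map_zero]

/-- opens of `Y` and `Z` correspond -/
theorem preimage_le (hq : IsLen2 p q)
    (h : IsPullback i g f (Spec.map (CommRingCat.ofHom q))) {V V' : Z.Opens}
    (hV : i ⁻¹ᵁ V ≤ i ⁻¹ᵁ V') : V ≤ V' := by
  have := surjective_i hq h
  intro z hz
  obtain ⟨y, rfl⟩ := i.surjective z
  exact hV hz

theorem exists_preimage (hq : IsLen2 p q)
    (h : IsPullback i g f (Spec.map (CommRingCat.ofHom q))) (U : Y.Opens) :
    ∃ V : Z.Opens, i ⁻¹ᵁ V = U := by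
  have hcl := isClosedImmersion_i hq h
  have := surjective_i hq h
  obtain ⟨V, hVo, hV⟩ := i.isClosedEmbedding.isInducing.isOpen_iff.1 U.2
  exact ⟨⟨V, hVo⟩, Opens.ext hV⟩

/-- a thickening of an affine open is affine -/
theorem affine_thick [Fact p.Prime] (hq : IsLen2 p q)
    (h : IsPullback i g f (Spec.map (CommRingCat.ofHom q))) (V : Z.Opens)
    (hV : IsAffineOpen (i ⁻¹ᵁ V)) : IsAffineOpen V := by
  have hcl := isClosedImmersion_i hq h
  have hsur := surjective_i hq h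
  let s : Set Γ(Z, V) := {b | IsAffineOpen (Z.basicOpen b)}
  refine isAffineOpen_of_isAffineOpen_basicOpen V s ?_ (fun b hb => hb)
  let t : Set Γ(Y, i ⁻¹ᵁ V) := {c | ∃ b ∈ s, i.app V b = c ^ p}
  have ht : Ideal.span t = ⊤ := by
    rw [← hV.self_le_iSup_basicOpen_iff]
    intro y hy
    obtain ⟨_, ⟨W, hW, rfl⟩, hyW, hWV⟩ := Z.isBasis_affineOpens.exists_subset_of_mem_open
      (show i y ∈ (V : Set Z) from hy) V.2
    obtain ⟨c, hc1, hc2⟩ := hV.exists_basicOpen_le (V := i ⁻¹ᵁ W) ⟨y, hyW⟩ hy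
    obtain ⟨b, hb⟩ := tau_exists hq h V c
    have hpre : i ⁻¹ᵁ (Z.basicOpen b) = Y.basicOpen c := by
      rw [Scheme.preimage_basicOpen, hb, Scheme.basicOpen_pow _ _ (Fact.out : p.Prime).pos]
    have hbW : Z.basicOpen b ≤ W := by
      apply preimage_le hq h
      rw [hpre]; exact hc1
    have hbs : b ∈ s := by
      show IsAffineOpen (Z.basicOpen b)
      have : Z.basicOpen b = Z.basicOpen (res hWV b) := by
        have h1 := Z.basicOpen_res b (homOfLE hWV).op
        exact (h1.trans (inf_eq_right.2 hbW)).symm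
      rw [this]
      exact hW.basicOpen _
    exact Opens.mem_iSup.2 ⟨⟨c, b, hbs, hb⟩, hc2⟩
  let J : Ideal Γ(Z, V) := Ideal.span s
  let I : Ideal Γ(Y, i ⁻¹ᵁ V) :=
    { carrier := {c | ∃ b ∈ J, i.app V b = c ^ p}
      zero_mem' := ⟨0, J.zero_mem, by rw [map_zero, zero_pow (Fact.out : p.Prime).ne_zero]⟩
      add_mem' := by
        rintro c c' ⟨b, hb, hbc⟩ ⟨b', hb', hbc'⟩
        refine ⟨b + b', J.add_mem hb hb', ?_⟩
        obtain ⟨r, hr⟩ := exists_add_pow_prime_eq (Fact.out : p.Prime) c c'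
        rw [hr, p_zero hq g, zero_mul, zero_mul, zero_mul, add_zero, map_add, hbc, hbc']
      smul_mem' := by
        rintro d c ⟨b, hb, hbc⟩
        obtain ⟨b', hb'⟩ := tau_exists hq h V d
        exact ⟨b' * b, J.mul_mem_left _ hb, by rw [map_mul, hb', hbc, smul_eq_mul, mul_pow]⟩ }
  have hI : Ideal.span t ≤ I := by
    rw [Ideal.span_le]
    rintro c ⟨b, hb, hbc⟩
    exact ⟨b, Ideal.subset_span hb, hbc⟩
  have h1 : (1 : Γ(Y, i ⁻¹ᵁ V)) ∈ I := hI (by rw [ht]; trivial)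
  obtain ⟨b, hb, hb1⟩ := h1
  have h2 := ker_sq hq h V (1 - b) (by rw [map_sub, hb1, one_pow, map_one, sub_self])
  rw [Ideal.eq_top_iff_one]
  have h3 : (1 : Γ(Z, V)) = (2 - b) * b := by linear_combination h2
  rw [h3]
  exact J.mul_mem_left _ hb

end Lift

end Totaro
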