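import Pool.Agent.Helper49.Tot.T2

open CategoryTheory AlgebraicGeometry TopologicalSpace Opposite

universe u

namespace Totaro

section Rep

variable {p N : ℕ} {k : Type u} [Field k] {X : Scheme.{u}} {s : X ⟶ Spec (.of k)}

/-- The structure ring homomorphism of a ring-valued point. -/
noncomputable def kap (s : X ⟶ Spec (.of k)) {R : Type u} [CommRing R] (x : Spec (.of R) ⟶ X) :
    k →+* R := (Spec.preimage (x ≫ s)).hom

theorem kap_spec {R : Type u} [CommRing R] (x : Spec (.of R) ⟶ X) :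
    x ≫ s = Spec.map (CommRingCat.ofHom (kap s x)) := by
  have : CommRingCat.ofHom (kap s x) = Spec.preimage (x ≫ s) := rfl
  rw [this, Spec.map_preimage]

/-- The flag of a ring-valued point. -/
noncomputable def flag (h : Represents p N k X s) {R : Type u} [CommRing R]
    (x : Spec (.of R) ⟶ X) : Flag p N R :=
  @Represents.pt p N k _ X s h R _ (kap s x).toAlgebra ⟨x, kap_spec x⟩

theorem flag_comp (h : Represents p N k X s) {R R' : Type u} [CommRing R] [CommRing R']
    (φ : R →+* R') (x : Spec (.of R) ⟶ X) (x' : Spec (.of R') ⟶ X)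
    (hx : x' = Spec.map (CommRingCat.ofHom φ) ≫ x) :
    (flag h x').W.toSubmodule = bc φ (flag h x).W.toSubmodule ∧
    (flag h x').L.toSubmodule = bc φ (flag h x).L.toSubmodule := by
  have hk : kap s x' = φ.comp (kap s x) := by
    have h1 := kap_spec (s := s) x'
    rw [hx, Category.assoc, kap_spec (s := s) x, ← Spec.map_comp] at h1
    have h2 := Spec.map_injective h1
    have h3 := congrArg (fun f => f.hom) h2
    rw [hx]
    exact h3.symm
  let a1 := (kap s x).toAlgebra
  let a2 := (kap s x').toAlgebra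
  have hc : ∀ r : k, φ (algebraMap k R r) = algebraMap k R' r := by
    intro r
    show φ (kap s x r) = kap s x' r
    rw [hk]; rfl
  let φ' : R →ₐ[k] R' := { φ with commutes' := hc }
  exact h.nat R R' φ' ⟨x, kap_spec x⟩ ⟨x', kap_spec x'⟩ hx

theorem flag_inj (h : Represents p N k X s) {R : Type u} [CommRing R]
    (x x' : Spec (.of R) ⟶ X) (hs : x ≫ s = x' ≫ s) (hF : flag h x = flag h x') : x = x' := by
  have hk : kap s x = kap s x' := by
    have : Spec.preimage (x ≫ s) = Spec.preimage (x' ≫ s) := by rw [hs]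
    exact congrArg (fun f => f.hom) this
  have key : ∀ (κ κ' : k →+* R) (hκ : κ = κ') (h1 : x ≫ s = Spec.map (CommRingCat.ofHom κ))
      (h2 : x' ≫ s = Spec.map (CommRingCat.ofHom κ')),
      @Represents.pt p N k _ X s h R _ κ.toAlgebra ⟨x, h1⟩ =
        @Represents.pt p N k _ X s h R _ κ'.toAlgebra ⟨x', h2⟩ → x = x' := by
    rintro κ κ' rfl h1 h2 h3
    have := (@Represents.pt p N k _ X s h R _ κ.toAlgebra).injective h3
    exact congrArg Subtype.val this
  exact key _ _ hk (kap_spec x) (kap_spec x') hF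

theorem flag_surj (h : Represents p N k X s) {R : Type u} [CommRing R] (κ : k →+* R)
    (F : Flag p N R) : ∃ x : Spec (.of R) ⟶ X, x ≫ s = Spec.map (CommRingCat.ofHom κ) ∧
      flag h x = F := by
  let a := κ.toAlgebra
  obtain ⟨⟨x, hx⟩, hF⟩ := (h.pt R).surjective F
  have hk : kap s x = κ := by
    have h1 := kap_spec (s := s) x
    rw [hx] at h1
    have h2 := Spec.map_injective h1
    exact (congrArg (fun f => f.hom) h2).symm
  refine ⟨x, hx, ?_⟩
  rw [← hF]
  have key : ∀ (κ' : k →+* R) (hκ : κ' = κ) (h1 : x ≫ s = Spec.map (CommRingCat.ofHom κ')),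
      @Represents.pt p N k _ X s h R _ κ'.toAlgebra ⟨x, h1⟩ =
        @Represents.pt p N k _ X s h R _ κ.toAlgebra ⟨x, hx⟩ := by
    rintro κ' rfl h1
    rfl
  exact key _ hk (kap_spec x)

end Rep

section ChartMap

variable {p N : ℕ} {o j : Fin N} {k : Type u} [Field k]

/-- The coordinate ring of a chart. -/
abbrev ChartRing (o j : Fin N) (k : Type u) [Field k] : Type u :=
  MvPolynomial ({l : Fin N // l ≠ o ∧ l ≠ j} ⊕ ({l : Fin N // l ≠ o ∧ l ≠ j} ⊕ Unit)) k

open Classical in
/-- The generic point of a chart. -/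
noncomputable def gen (hoj : o ≠ j) (k : Type u) [Field k] : Chart o j (ChartRing o j k) where
  a := fun l => if h : l ≠ o ∧ l ≠ j then MvPolynomial.X (Sum.inl ⟨l, h⟩) else if l = o then 1 else 0
  b := fun l => if h : l ≠ o ∧ l ≠ j then MvPolynomial.X (Sum.inr (Sum.inl ⟨l, h⟩))
    else if l = j then 1 else 0
  c := MvPolynomial.X (Sum.inr (Sum.inr ()))
  ao := by simp
  bo := by simp [hoj]
  aj := by simp [hoj.symm]
  bj := by simp

theorem gen_map (hoj : o ≠ j) {R : Type u} [CommRing R] (κ : k →+* R) (d : Chart o j R) :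
    ∃ ψ : ChartRing o j k →+* R, ψ.comp MvPolynomial.C = κ ∧ (gen hoj k).map ψ = d := by
  let v : ({l : Fin N // l ≠ o ∧ l ≠ j} ⊕ ({l : Fin N // l ≠ o ∧ l ≠ j} ⊕ Unit)) → R :=
    Sum.elim (fun l => d.a l.1) (Sum.elim (fun l => d.b l.1) (fun _ => d.c))
  refine ⟨MvPolynomial.eval₂Hom κ v, ?_, ?_⟩
  · ext r
    simp
  · apply Chart.ext'
    · funext l
      show MvPolynomial.eval₂Hom κ v ((gen hoj k).a l) = d.a l
      unfold gen
      simp only
      split_ifs with h1 h2
      · simp [v]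
      · subst h2; simp [d.ao]
      · have : l = j := by
          by_contra h3
          exact h1 ⟨h2, h3⟩
        subst this; simp [d.aj]
    · funext l
      show MvPolynomial.eval₂Hom κ v ((gen hoj k).b l) = d.b l
      unfold gen
      simp only
      split_ifs with h1 h2
      · simp [v]
      · subst h2; simp [d.bj]
      · have : l = o := by
          by_contra h3
          exact h1 ⟨h3, h2⟩
        subst this; simp [d.bo]
    · show MvPolynomial.eval₂Hom κ v ((gen hoj k).c) = d.c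
      simp [gen, v]

theorem gen_map_unique (hoj : o ≠ j) {R : Type u} [CommRing R] {ψ ψ' : ChartRing o j k →+* R}
    (hC : ψ.comp MvPolynomial.C = ψ'.comp MvPolynomial.C)
    (hd : (gen hoj k).map ψ = (gen hoj k).map ψ') : ψ = ψ' := by
  apply MvPolynomial.ringHom_ext
  · intro r
    exact congrArg (fun f => f r) hC
  · intro i
    rcases i with l | l | l
    · have h1 := congrArg (fun d : Chart o j R => d.a l.1) hd
      simp only [Chart.map, gen, dif_pos l.2] at h1
      exact h1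
    · have h1 := congrArg (fun d : Chart o j R => d.b l.1) hd
      simp only [Chart.map, gen, dif_pos l.2] at h1
      exact h1
    · exact congrArg (fun d : Chart o j R => d.c) hd

variable {X : Scheme.{u}} {s : X ⟶ Spec (.of k)}

theorem is_map (h : Represents p N k X s) {R R' : Type u} [CommRing R] [CommRing R']
    (φ : R →+* R') (x : Spec (.of R) ⟶ X) (x' : Spec (.of R') ⟶ X)
    (hx : x' = Spec.map (CommRingCat.ofHom φ) ≫ x) {d : Chart o j R} (hd : d.Is p (flag h x)) :
    (d.map φ).Is p (flag h x') := by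
  obtain ⟨h1, h2⟩ := flag_comp h φ x x' hx
  exact ⟨by rw [h1, hd.1, bc_W], by rw [h2, hd.2, bc_L]⟩

theorem p_zero_of_hom (p : ℕ) [CharP k p] {R : Type u} [CommRing R] (κ : k →+* R) :
    (p : R) = 0 := by
  have : κ (p : k) = 0 := by rw [CharP.cast_eq_zero, map_zero]
  rw [map_natCast] at this
  exact this

theorem chart_mor [Fact p.Prime] [CharP k p] (h : Represents p N k X s) (hoj : o ≠ j) :
    ∃ φ : Spec (.of (ChartRing o j k)) ⟶ X,
      φ ≫ s = Spec.map (CommRingCat.ofHom MvPolynomial.C) ∧ (gen hoj k).Is p (flag h φ) := by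
  obtain ⟨F, hF⟩ := chart_flag (p := p) (p_zero_of_hom p (MvPolynomial.C (R := k))) hoj (gen hoj k)
  obtain ⟨φ, h1, h2⟩ := flag_surj h (MvPolynomial.C (R := k)) F
  exact ⟨φ, h1, by rw [h2]; exact hF⟩

/-- a morphism whose flag lies in the chart factors through the chart -/
theorem chart_factor [Fact p.Prime] [CharP k p] (h : Represents p N k X s) (hoj : o ≠ j)
    {φ : Spec (.of (ChartRing o j k)) ⟶ X}
    (hφs : φ ≫ s = Spec.map (CommRingCat.ofHom MvPolynomial.C)) (hφ : (gen hoj k).Is p (flag h φ))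
    {R : Type u} [CommRing R] (x : Spec (.of R) ⟶ X) (d : Chart o j R) (hd : d.Is p (flag h x)) :
    ∃ ψ : ChartRing o j k →+* R, Spec.map (CommRingCat.ofHom ψ) ≫ φ = x ∧
      (gen hoj k).map ψ = d := by
  obtain ⟨ψ, h1, h2⟩ := gen_map hoj (kap s x) d
  refine ⟨ψ, ?_, h2⟩
  apply flag_inj h
  · rw [Category.assoc, hφs, ← Spec.map_comp, kap_spec (s := s) x, ← h1]
    rfl
  · have h3 := is_map h ψ φ _ rfl hφ
    rw [h2] at h3
    exact flag_ext (h3.1.trans hd.1.symm) (h3.2.trans hd.2.symm)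

theorem chart_inj [Fact p.Prime] (h : Represents p N k X s) (hoj : o ≠ j)
    {φ : Spec (.of (ChartRing o j k)) ⟶ X}
    (hφs : φ ≫ s = Spec.map (CommRingCat.ofHom MvPolynomial.C)) (hφ : (gen hoj k).Is p (flag h φ))
    {R : Type u} [CommRing R] (ψ ψ' : ChartRing o j k →+* R)
    (he : Spec.map (CommRingCat.ofHom ψ) ≫ φ = Spec.map (CommRingCat.ofHom ψ') ≫ φ) : ψ = ψ' := by
  apply gen_map_unique hoj
  · have h1 : Spec.map (CommRingCat.ofHom (ψ.comp MvPolynomial.C)) =
        Spec.map (CommRingCat.ofHom (ψ'.comp MvPolynomial.C)) := by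
      rw [CommRingCat.ofHom_comp, CommRingCat.ofHom_comp, Spec.map_comp, Spec.map_comp, ← hφs,
        ← Category.assoc, ← Category.assoc, he]
    exact congrArg (fun f => f.hom) (Spec.map_injective h1)
  · have h3 := is_map h ψ φ _ rfl hφ
    have h4 := is_map h ψ' φ _ rfl hφ
    rw [← he] at h4
    exact chart_unique hoj h3 h4

theorem chart_mono [Fact p.Prime] (h : Represents p N k X s) (hoj : o ≠ j)
    {φ : Spec (.of (ChartRing o j k)) ⟶ X}
    (hφs : φ ≫ s = Spec.map (CommRingCat.ofHom MvPolynomial.C)) (hφ : (gen hoj k).Is p (flag h φ)) :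
    Mono φ := by
  constructor
  intro T g g' hg
  have key : ∀ (R : CommRingCat.{u}) (f : Spec R ⟶ T), f ≫ g = f ≫ g' := by
    intro R f
    have h1 : Spec.map (Spec.preimage (f ≫ g)) ≫ φ = Spec.map (Spec.preimage (f ≫ g')) ≫ φ := by
      rw [Spec.map_preimage, Spec.map_preimage, Category.assoc, Category.assoc, hg]
    have h2 := chart_inj h hoj hφs hφ _ _ h1
    rw [← Spec.map_preimage (f ≫ g), ← Spec.map_preimage (f ≫ g')]
    congr 1
    ext1
    exact h2
  apply T.affineCover.hom_ext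
  intro i
  exact key _ (T.affineCover.f i)

end ChartMap

section ChartOpen

variable {p N : ℕ} {o j : Fin N} {k : Type u} [Field k] {X : Scheme.{u}} {s : X ⟶ Spec (.of k)}

theorem mem_bc {R R' : Type u} [CommRing R] [CommRing R'] (φ : R →+* R')
    (W : Submodule R (Fin N → R)) (w : Fin N → R) (hw : w ∈ W) :
    (fun i => φ (w i)) ∈ bc φ W := Submodule.subset_span ⟨w, hw, rfl⟩

/-- every point in the image of the chart has an affine neighbourhood over which the flag lies in
the chart -/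
theorem exists_good [Fact p.Prime] [CharP k p] (h : Represents p N k X s) (hoj : o ≠ j)
    {φ : Spec (.of (ChartRing o j k)) ⟶ X} (hφ : (gen hoj k).Is p (flag h φ))
    (z : Spec (.of (ChartRing o j k))) :
    ∃ (V : X.Opens) (hV : IsAffineOpen V) (d : Chart o j Γ(X, V)), φ z ∈ V ∧
      d.Is p (flag h (R := Γ(X, V)) hV.fromSpec) := by
  obtain ⟨_, ⟨V0, hV0', rfl⟩, hzV, -⟩ := X.isBasis_affineOpens.exists_subset_of_mem_open
    (Set.mem_univ (φ z)) isOpen_univ
  have hV0 : IsAffineOpen V0 := hV0'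
  let K := (Spec (.of (ChartRing o j k))).residueField z
  let e : Spec K ⟶ Spec (.of (ChartRing o j k)) := Scheme.fromSpecResidueField _ z
  let t : Spec K ⟶ X := e ≫ φ
  have ht : ∀ y, t y = φ z := by
    intro y
    have : e y = z := Scheme.fromSpecResidueField_apply _ _
    show (e ≫ φ) y = φ z
    rw [Scheme.Hom.comp_apply, this]
  have hrange : Set.range t ⊆ Set.range hV0.fromSpec := by
    rintro _ ⟨y, rfl⟩
    rw [hV0.range_fromSpec, ht y]
    exact hzV
  let l0 : Spec K ⟶ Spec Γ(X, V0) := IsOpenImmersion.lift hV0.fromSpec t hrange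
  have hl0 : l0 ≫ hV0.fromSpec = t := IsOpenImmersion.lift_fac _ _ _
  let χ : Γ(X, V0) →+* K := (Spec.preimage l0).hom
  have hχ : l0 = Spec.map (CommRingCat.ofHom χ) := by
    show l0 = Spec.map (Spec.preimage l0)
    rw [Spec.map_preimage]
  let F0 := flag h (R := Γ(X, V0)) hV0.fromSpec
  have hF := flag_comp h (R := Γ(X, V0)) (R' := K) χ hV0.fromSpec t (by rw [← hχ, hl0])
  have hd := is_map h (R' := K) (Spec.preimage e).hom φ t (by
    show e ≫ φ = Spec.map (Spec.preimage e) ≫ φ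
    rw [Spec.map_preimage]) hφ
  obtain ⟨w, hw, w', hw', hww⟩ := exists_minor (K := K) hoj χ F0.W.toSubmodule _ (hF.1.symm.trans hd.1)
  obtain ⟨l, hl, hll⟩ := exists_coord (K := K) χ F0.L.toSubmodule _ (hF.2.symm.trans hd.2)
  let δ : Γ(X, V0) := (w o * w' j - w j * w' o) * l o
  have hδ : χ δ ≠ 0 := by
    show χ ((w o * w' j - w j * w' o) * l o) ≠ 0
    rw [map_mul]
    exact mul_ne_zero hww hll
  have hV := hV0.basicOpen δ
  let ρ : Γ(X, V0) →+* Γ(X, X.basicOpen δ) := (X.presheaf.map (homOfLE (X.basicOpen_le δ)).op).hom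
  have hρ : hV.fromSpec = Spec.map (CommRingCat.ofHom ρ) ≫ hV0.fromSpec :=
    (hV0.map_fromSpec hV (homOfLE (X.basicOpen_le δ)).op).symm
  have hF2 := flag_comp h (R := Γ(X, V0)) (R' := Γ(X, X.basicOpen δ)) ρ hV0.fromSpec hV.fromSpec hρ
  have hun : IsUnit (ρ δ) :=
    RingedSpace.isUnit_res_basicOpen X.toLocallyRingedSpace.toRingedSpace δ
  have hp : (p : Γ(X, X.basicOpen δ)) = 0 :=
    p_zero_of_hom p (kap s (R := Γ(X, X.basicOpen δ)) hV.fromSpec)
  obtain ⟨d, hd'⟩ := chart_of_unit (R := Γ(X, X.basicOpen δ)) hp hoj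
    (flag h (R := Γ(X, X.basicOpen δ)) hV.fromSpec) (fun i => ρ (w i)) (fun i => ρ (w' i))
    (fun i => ρ (l i)) (by rw [hF2.1]; exact mem_bc ρ _ w hw) (by rw [hF2.1]; exact mem_bc ρ _ w' hw')
    (by rw [hF2.2]; exact mem_bc ρ _ l hl) (by
      have : ρ δ = (ρ (w o) * ρ (w' j) - ρ (w j) * ρ (w' o)) * ρ (l o) := by
        show ρ ((w o * w' j - w j * w' o) * l o) = _
        simp only [map_mul, map_sub]
      rw [← this]
      exact hun)
  refine ⟨X.basicOpen δ, hV, d, ?_, hd'⟩
  let y0 : Spec K := IsLocalRing.closedPoint K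
  have h1 : l0 y0 ∈ hV0.fromSpec ⁻¹ᵁ X.basicOpen δ := by
    rw [hV0.fromSpec_preimage_basicOpen, hχ]
    show δ ∉ Ideal.comap χ y0.asIdeal
    intro hmem
    have h2 : χ δ ∈ y0.asIdeal := hmem
    have h3 : y0.asIdeal = ⊥ := by
      exact (Ideal.eq_bot_or_top (K := K) y0.asIdeal).resolve_right y0.isPrime.ne_top
    rw [h3, Ideal.mem_bot] at h2
    exact hδ h2
  have h4 : hV0.fromSpec (l0 y0) = φ z := by
    rw [← Scheme.Hom.comp_apply, hl0, ht]
  rw [← h4]
  exact h1

end ChartOpen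

section ChartOpen2

variable {p N : ℕ} {o j : Fin N} {k : Type u} [Field k] {X : Scheme.{u}} {s : X ⟶ Spec (.of k)}

theorem iso_good [Fact p.Prime] [CharP k p] (h : Represents p N k X s) (hoj : o ≠ j)
    {φ : Spec (.of (ChartRing o j k)) ⟶ X}
    (hφs : φ ≫ s = Spec.map (CommRingCat.ofHom MvPolynomial.C)) (hφ : (gen hoj k).Is p (flag h φ))
    (V : X.Opens) (hV : IsAffineOpen V) (d : Chart o j Γ(X, V))
    (hd : d.Is p (flag h (R := Γ(X, V)) hV.fromSpec)) : IsIso (φ ∣_ V) := by
  have hm := chart_mono h hoj hφs hφ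
  obtain ⟨ψ, hψ, -⟩ := chart_factor h hoj hφs hφ (R := Γ(X, V)) hV.fromSpec d hd
  let a : V.toScheme ⟶ Spec (.of (ChartRing o j k)) :=
    hV.isoSpec.hom ≫ Spec.map (CommRingCat.ofHom ψ)
  have ha : a ≫ φ = V.ι := by
    show (hV.isoSpec.hom ≫ Spec.map (CommRingCat.ofHom ψ)) ≫ φ = V.ι
    rw [Category.assoc]
    have h1 : Spec.map (CommRingCat.ofHom ψ) ≫ φ = hV.fromSpec := hψ
    rw [h1]
    exact hV.isoSpec_hom_fromSpec
  have hr : Set.range a ⊆ Set.range (φ ⁻¹ᵁ V).ι := by
    rintro _ ⟨y, rfl⟩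
    rw [Scheme.Opens.range_ι]
    show φ (a y) ∈ V
    rw [← Scheme.Hom.comp_apply, ha]
    exact y.2
  let σ : V.toScheme ⟶ (φ ⁻¹ᵁ V).toScheme := IsOpenImmersion.lift (φ ⁻¹ᵁ V).ι a hr
  have hσ : σ ≫ (φ ⁻¹ᵁ V).ι = a := IsOpenImmersion.lift_fac _ _ _
  have h1 : σ ≫ (φ ∣_ V) = 𝟙 _ := by
    rw [← cancel_mono V.ι, Category.assoc, morphismRestrict_ι, ← Category.assoc, hσ, ha,
      Category.id_comp]
  have h2 : (φ ∣_ V) ≫ σ = 𝟙 _ := by
    rw [← cancel_mono (φ ⁻¹ᵁ V).ι, ← cancel_mono φ]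
    simp only [Category.assoc, Category.id_comp]
    rw [← morphismRestrict_ι, ← Category.assoc σ, h1, Category.id_comp]
  exact ⟨σ, h2, h1⟩

theorem chart_open [Fact p.Prime] [CharP k p] (h : Represents p N k X s) (hoj : o ≠ j)
    {φ : Spec (.of (ChartRing o j k)) ⟶ X}
    (hφs : φ ≫ s = Spec.map (CommRingCat.ofHom MvPolynomial.C)) (hφ : (gen hoj k).Is p (flag h φ)) :
    IsOpenImmersion φ := by
  apply IsOpenImmersion.of_forall_source_exists
  · intro z z' hz
    obtain ⟨V, hV, d, hzV, hd⟩ := exists_good h hoj hφ z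
    have hiso := iso_good h hoj hφs hφ V hV d hd
    have hz'V : φ z' ∈ V := by
      have : φ z = φ z' := hz
      rw [← this]; exact hzV
    have e1 : ∀ y : (φ ⁻¹ᵁ V).toScheme, ((φ ∣_ V) y).1 = φ y.1 := by
      intro y
      have h3 : V.ι ((φ ∣_ V) y) = φ ((φ ⁻¹ᵁ V).ι y) := by
        rw [← Scheme.Hom.comp_apply, ← Scheme.Hom.comp_apply, morphismRestrict_ι]
      exact h3
    have h1 : (φ ∣_ V) ⟨z, hzV⟩ = (φ ∣_ V) ⟨z', hz'V⟩ := by
      apply Subtype.ext
      exact (e1 ⟨z, hzV⟩).trans (Eq.trans hz (e1 ⟨z', hz'V⟩).symm)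
    have h2 : (⟨z, hzV⟩ : (φ ⁻¹ᵁ V).toScheme) = ⟨z', hz'V⟩ :=
      (φ ∣_ V).homeomorph.injective h1
    exact congrArg Subtype.val h2
  · intro z
    obtain ⟨V, hV, d, hzV, hd⟩ := exists_good h hoj hφ z
    have hiso := iso_good h hoj hφs hφ V hV d hd
    refine ⟨(φ ⁻¹ᵁ V).toScheme, (φ ⁻¹ᵁ V).ι, inferInstance, ?_, ?_⟩
    · rw [Scheme.Opens.opensRange_ι]
      exact hzV
    · rw [← morphismRestrict_ι]
      infer_instance

end ChartOpen2

section ChartRange

variable {p N : ℕ} {o j l m : Fin N} {k : Type u} [Field k] {X : Scheme.{u}} {s : X ⟶ Spec (.of k)}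

/-- The data of a chart of `X`. -/
structure ChartMor (p : ℕ) {N : ℕ} (o j : Fin N) (k : Type u) [Field k] {X : Scheme.{u}}
    {s : X ⟶ Spec (.of k)} (h : Represents p N k X s) where
  hoj : o ≠ j
  φ : Spec (.of (ChartRing o j k)) ⟶ X
  hs : φ ≫ s = Spec.map (CommRingCat.ofHom MvPolynomial.C)
  is : (gen hoj k).Is p (flag h φ)

theorem exists_chartMor [Fact p.Prime] [CharP k p] (h : Represents p N k X s) (hoj : o ≠ j) :
    Nonempty (ChartMor p o j k h) := by
  obtain ⟨φ, h1, h2⟩ := chart_mor h hoj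
  exact ⟨⟨hoj, φ, h1, h2⟩⟩

variable {h : Represents p N k X s}

theorem ChartMor.open [Fact p.Prime] [CharP k p] (c : ChartMor p o j k h) : IsOpenImmersion c.φ :=
  chart_open h c.hoj c.hs c.is

/-- The open subset of a chart. -/
noncomputable def ChartMor.U [Fact p.Prime] [CharP k p] (c : ChartMor p o j k h) : X.Opens :=
  have := c.open
  c.φ.opensRange

theorem ChartMor.mem_U [Fact p.Prime] [CharP k p] (c : ChartMor p o j k h) {x : X} :
    x ∈ c.U ↔ ∃ z, c.φ z = x := Iff.rfl

/-- a ring-valued point in the chart: existence of coordinates -/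
theorem ChartMor.coord [Fact p.Prime] [CharP k p] (c : ChartMor p o j k h) {R : Type u} [CommRing R]
    (t : Spec (.of R) ⟶ X) (ht : ∀ y, t y ∈ c.U) : ∃ d : Chart o j R, d.Is p (flag h t) := by
  have := c.open
  have hr : Set.range t ⊆ Set.range c.φ := by
    rintro _ ⟨y, rfl⟩
    exact c.mem_U.1 (ht y)
  let l0 := IsOpenImmersion.lift c.φ t hr
  have hl0 : l0 ≫ c.φ = t := IsOpenImmersion.lift_fac _ _ _
  have h1 := is_map h (R' := R) (Spec.preimage l0).hom c.φ t (by
    show t = Spec.map (Spec.preimage l0) ≫ c.φ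
    rw [Spec.map_preimage, hl0]) c.is
  exact ⟨_, h1⟩

theorem ChartMor.range [Fact p.Prime] [CharP k p] (c : ChartMor p o j k h) {R : Type u} [CommRing R]
    (t : Spec (.of R) ⟶ X) (d : Chart o j R) (hd : d.Is p (flag h t)) (y : Spec (.of R)) :
    t y ∈ c.U := by
  obtain ⟨ψ, hψ, -⟩ := chart_factor h c.hoj c.hs c.is t d hd
  rw [c.mem_U, ← hψ]
  exact ⟨Spec.map (CommRingCat.ofHom ψ) y, by rw [← Scheme.Hom.comp_apply]⟩

theorem chart_change [Fact p.Prime] {R : Type u} [CommRing R] (hp : (p : R) = 0) (hol : o ≠ l)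
    {F : Flag p N R} {d : Chart o j R} (hd : d.Is p F) (hu : IsUnit (d.b l)) :
    ∃ d' : Chart o l R, d'.Is p F := by
  refine chart_of_unit hp hol F d.a d.b (d.y p) ?_ ?_ ?_ ?_
  · rw [hd.1]; exact Submodule.subset_span (by simp)
  · rw [hd.1]; exact Submodule.subset_span (by simp)
  · rw [hd.2]; exact Submodule.subset_span (by simp)
  · rw [d.ao, d.bo, y_o, one_mul, mul_zero, sub_zero, mul_one]
    exact hu

/-- the intersection with another chart is a basic open -/
theorem ChartMor.preimage [Fact p.Prime] [CharP k p] (c : ChartMor p o j k h)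
    (c' : ChartMor p o l k h) :
    c.φ ⁻¹ᵁ c'.U = PrimeSpectrum.basicOpen ((gen c.hoj k).b l) := by
  ext z
  constructor
  · intro hz
    have hz : c.φ z ∈ c'.U := hz
    let K := (Spec (.of (ChartRing o j k))).residueField z
    let e : Spec K ⟶ Spec (.of (ChartRing o j k)) := Scheme.fromSpecResidueField _ z
    let t : Spec K ⟶ X := e ≫ c.φ
    have he : ∀ y, e y = z := fun y => Scheme.fromSpecResidueField_apply _ _
    have ht : ∀ y, t y = c.φ z := by
      intro y
      have h0 : e y = z := he y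
      show (e ≫ c.φ) y = c.φ z
      rw [Scheme.Hom.comp_apply, h0]
    obtain ⟨d', hd'⟩ := c'.coord (R := K) t (by
      intro y
      have h0 : t y = c.φ z := ht y
      exact Eq.mpr (congrArg (fun x => x ∈ c'.U) h0) hz)
    have hd := is_map h (R' := K) (Spec.preimage e).hom c.φ t (by
      show e ≫ c.φ = Spec.map (Spec.preimage e) ≫ c.φ
      rw [Spec.map_preimage]) c.is
    have h1 := (chart_overlap c.hoj c'.hoj hd hd').1
    let χ : ChartRing o j k →+* K := (Spec.preimage e).hom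
    have h2 : χ ((gen c.hoj k).b l) ≠ 0 := by
      intro h0
      have h3 : χ ((gen c.hoj k).b l) * d'.b j = 1 := h1
      rw [h0, zero_mul] at h3
      exact zero_ne_one h3
    let y0 : Spec K := IsLocalRing.closedPoint K
    have h4 : e = Spec.map (CommRingCat.ofHom χ) := by
      show e = Spec.map (Spec.preimage e)
      rw [Spec.map_preimage]
    have h5 : Spec.map (CommRingCat.ofHom χ) y0 = z := by rw [← h4]; exact he y0
    rw [← h5]
    show (gen c.hoj k).b l ∉ Ideal.comap χ y0.asIdeal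
    intro hmem
    have h6 : χ ((gen c.hoj k).b l) ∈ y0.asIdeal := hmem
    have h7 : y0.asIdeal = ⊥ :=
      (Ideal.eq_bot_or_top (K := K) y0.asIdeal).resolve_right y0.isPrime.ne_top
    rw [h7, Ideal.mem_bot] at h6
    exact h2 h6
  · intro hz
    have hz : (gen c.hoj k).b l ∉ z.asIdeal := hz
    let B := Localization.Away ((gen c.hoj k).b l)
    let α : ChartRing o j k →+* B := algebraMap _ _
    let t : Spec (.of B) ⟶ X := Spec.map (CommRingCat.ofHom α) ≫ c.φ
    have hd := is_map h α c.φ t rfl c.is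
    have hp : (p : B) = 0 := p_zero_of_hom p (α.comp MvPolynomial.C)
    obtain ⟨d', hd'⟩ := chart_change hp c'.hoj hd (IsLocalization.Away.algebraMap_isUnit _)
    have h1 := c'.range t d' hd'
    have h2 : z ∈ Set.range (PrimeSpectrum.comap α) := by
      rw [PrimeSpectrum.localization_away_comap_range B ((gen c.hoj k).b l)]
      exact hz
    obtain ⟨y, h3⟩ : ∃ y : Spec (.of B), Spec.map (CommRingCat.ofHom α) y = z := h2
    have h4 := h1 y
    have h5 : t y = c.φ z := by
      show (Spec.map (CommRingCat.ofHom α) ≫ c.φ) y = c.φ z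
      rw [Scheme.Hom.comp_apply, h3]
    rw [h5] at h4
    exact h4

theorem ChartMor.affine [Fact p.Prime] [CharP k p] (c : ChartMor p o j k h) : IsAffineOpen c.U := by
  have := c.open
  exact isAffineOpen_opensRange c.φ

theorem ChartMor.affine_inf [Fact p.Prime] [CharP k p] (c : ChartMor p o j k h)
    (c' : ChartMor p o l k h) : IsAffineOpen (c.U ⊓ c'.U) := by
  have := c.open
  have h1 : c.U ⊓ c'.U = c.φ ''ᵁ (c.φ ⁻¹ᵁ c'.U) := by
    rw [Scheme.Hom.image_preimage_eq_opensRange_inf]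
    rfl
  rw [h1, c.preimage c']
  exact IsAffineOpen.image_of_isOpenImmersion
    (IsAffineOpen.Spec_basicOpen _) _

theorem ChartMor.affine_inf₂ [Fact p.Prime] [CharP k p] (c : ChartMor p o j k h)
    (c' : ChartMor p o l k h) (c'' : ChartMor p o m k h) : IsAffineOpen (c.U ⊓ c'.U ⊓ c''.U) := by
  have := c.open
  have h1 : c.U ⊓ c'.U ⊓ c''.U = c.φ ''ᵁ (c.φ ⁻¹ᵁ (c'.U ⊓ c''.U)) := by
    rw [Scheme.Hom.image_preimage_eq_opensRange_inf, inf_assoc]
    rfl
  have h2 : c.φ ⁻¹ᵁ (c'.U ⊓ c''.U) =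
      PrimeSpectrum.basicOpen ((gen c.hoj k).b l * (gen c.hoj k).b m) := by
    rw [PrimeSpectrum.basicOpen_mul, ← c.preimage c', ← c.preimage c'']
    rfl
  rw [h1, h2]
  exact IsAffineOpen.image_of_isOpenImmersion
    (IsAffineOpen.Spec_basicOpen _) _

end ChartRange

end Totaro
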