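import Pool.Agent.Helper49.Tot.T1
import Pool.Agent.Helper49.Tot.T3
import Pool.Agent.Helper49.Tot.T4
import Pool.Agent.Helper49.Tot.T5

open CategoryTheory AlgebraicGeometry TopologicalSpace Opposite

universe u

namespace Totaro

section Eval

variable {X : Scheme.{u}} {U W : X.Opens} {R R' : Type u} [CommRing R] [CommRing R']

/-- `e` is the evaluation of functions on the affine open `U` at the ring-valued point `t`. -/
def IsEv (hU : IsAffineOpen U) (t : Spec (.of R) ⟶ X) (e : Γ(X, U) →+* R) : Prop :=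
  Spec.map (CommRingCat.ofHom e) ≫ hU.fromSpec = t

theorem exists_ev (hU : IsAffineOpen U) (t : Spec (.of R) ⟶ X) (ht : ∀ y, t y ∈ U) :
    ∃ e : Γ(X, U) →+* R, IsEv hU t e := by
  have hr : Set.range t ⊆ Set.range hU.fromSpec := by
    rintro _ ⟨y, rfl⟩
    rw [hU.range_fromSpec]
    exact ht y
  refine ⟨(Spec.preimage (IsOpenImmersion.lift hU.fromSpec t hr)).hom, ?_⟩
  show Spec.map (Spec.preimage (IsOpenImmersion.lift hU.fromSpec t hr)) ≫ hU.fromSpec = t
  rw [Spec.map_preimage, IsOpenImmersion.lift_fac]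

theorem ev_unique {hU : IsAffineOpen U} {t : Spec (.of R) ⟶ X} {e e' : Γ(X, U) →+* R}
    (h : IsEv hU t e) (h' : IsEv hU t e') : e = e' := by
  have h1 : Spec.map (CommRingCat.ofHom e) ≫ hU.fromSpec =
      Spec.map (CommRingCat.ofHom e') ≫ hU.fromSpec := h.trans h'.symm
  rw [cancel_mono] at h1
  exact congrArg (fun f => f.hom) (Spec.map_injective h1)

theorem ev_res {hU : IsAffineOpen U} {hW : IsAffineOpen W} {t : Spec (.of R) ⟶ X}
    {e : Γ(X, W) →+* R} (h : IsEv hW t e) (hWU : W ≤ U) : IsEv hU t (e.comp (res hWU)) := by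
  have h1 := hU.map_fromSpec hW (homOfLE hWU).op
  show Spec.map (CommRingCat.ofHom (e.comp (res hWU))) ≫ hU.fromSpec = t
  rw [CommRingCat.ofHom_comp, Spec.map_comp, Category.assoc]
  have h2 : Spec.map (CommRingCat.ofHom (res hWU)) ≫ hU.fromSpec = hW.fromSpec := h1
  rw [h2]
  exact h

theorem ev_comp {hU : IsAffineOpen U} {t : Spec (.of R) ⟶ X} {t' : Spec (.of R') ⟶ X}
    {e : Γ(X, U) →+* R} (h : IsEv hU t e) (φ : R →+* R')
    (ht : t' = Spec.map (CommRingCat.ofHom φ) ≫ t) : IsEv hU t' (φ.comp e) := by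
  show Spec.map (CommRingCat.ofHom (φ.comp e)) ≫ hU.fromSpec = t'
  rw [CommRingCat.ofHom_comp, Spec.map_comp, Category.assoc, ht]
  congr 1

variable {p N : ℕ} {o j : Fin N} {k : Type u} [Field k] {s : X ⟶ Spec (.of k)}

theorem ev_coord [Fact p.Prime] (h : Represents p N k X s) (hoj : o ≠ j) {hU : IsAffineOpen U}
    {t : Spec (.of R) ⟶ X} {e : Γ(X, U) →+* R} (he : IsEv hU t e) {d : Chart o j Γ(X, U)}
    (hd : d.Is p (flag h (R := Γ(X, U)) hU.fromSpec)) {d' : Chart o j R}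
    (hd' : d'.Is p (flag h t)) : d.map e = d' :=
  chart_unique hoj (is_map h (R := Γ(X, U)) e hU.fromSpec t he.symm hd) hd'

end Eval

section NoSplit

variable {p N : ℕ} {k : Type u} [Field k] {X : Scheme.{u}} {s : X ⟶ Spec (.of k)}

/-- the coordinates over an affine open contained in a chart -/
theorem ChartMor.coord_open [Fact p.Prime] [CharP k p] {o j : Fin N} {h : Represents p N k X s}
    (c : ChartMor p o j k h) {U : X.Opens} (hU : IsAffineOpen U) (hUc : U ≤ c.U) :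
    ∃ d : Chart o j Γ(X, U), d.Is p (flag h (R := Γ(X, U)) hU.fromSpec) := by
  apply c.coord (R := Γ(X, U)) hU.fromSpec
  intro y
  have h1 : hU.fromSpec y ∈ Set.range hU.fromSpec := ⟨y, rfl⟩
  rw [hU.range_fromSpec] at h1
  exact hUc h1

theorem coord_res [Fact p.Prime] {o j : Fin N} (h : Represents p N k X s) (hoj : o ≠ j)
    {U W : X.Opens} {hU : IsAffineOpen U} {hW : IsAffineOpen W} (hWU : W ≤ U)
    {d : Chart o j Γ(X, U)} (hd : d.Is p (flag h (R := Γ(X, U)) hU.fromSpec))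
    {d' : Chart o j Γ(X, W)} (hd' : d'.Is p (flag h (R := Γ(X, W)) hW.fromSpec)) :
    d.map (res hWU) = d' := by
  refine ev_coord h hoj (t := hW.fromSpec) (R := Γ(X, W)) ?_ hd hd'
  exact hU.map_fromSpec hW (homOfLE hWU).op

end NoSplit

section NoSplit2

variable {p N : ℕ}

open Classical in
/-- a point of the chart with few nonzero coordinates -/
noncomputable def mk4 {o j1 j2 j3 : Fin N} (h1 : o ≠ j1) (h2 : o ≠ j2) (h3 : o ≠ j3) (h12 : j1 ≠ j2)
    (h13 : j1 ≠ j3) {R : Type u} [CommRing R] (x2 x3 z2 z3 : R) : Chart o j1 R where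
  a := fun l => if l = o then 1 else if l = j2 then x2 else if l = j3 then x3 else 0
  b := fun l => if l = j1 then 1 else if l = j2 then z2 else if l = j3 then z3 else 0
  c := 0
  ao := by simp
  bo := by simp [h1, h2, h3]
  aj := by simp [h1.symm, h12, h13]
  bj := by simp

theorem mk4_map {o j1 j2 j3 : Fin N} (h1 : o ≠ j1) (h2 : o ≠ j2) (h3 : o ≠ j3) (h12 : j1 ≠ j2)
    (h13 : j1 ≠ j3) {R R' : Type u} [CommRing R] [CommRing R'] (φ : R →+* R') (x2 x3 z2 z3 : R) :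
    (mk4 h1 h2 h3 h12 h13 x2 x3 z2 z3).map φ =
      mk4 h1 h2 h3 h12 h13 (φ x2) (φ x3) (φ z2) (φ z3) := by
  apply Chart.ext'
  · funext l
    simp only [Chart.map, mk4]
    split_ifs <;> simp
  · funext l
    simp only [Chart.map, mk4]
    split_ifs <;> simp
  · simp [Chart.map, mk4]

variable {k : Type u} [Field k] {X : Scheme.{u}} {s : X ⟶ Spec (.of k)}

theorem pt_eq (h : Represents p N k X s) {o j : Fin N} {R : Type u} [CommRing R]
    {x x' : Spec (.of R) ⟶ X} (hs : x ≫ s = x' ≫ s) {d : Chart o j R} (hd : d.Is p (flag h x))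
    (hd' : d.Is p (flag h x')) : x = x' :=
  flag_inj h x x' hs (flag_ext (hd.1.trans hd'.1.symm) (hd.2.trans hd'.2.symm))

theorem exists_pt [Fact p.Prime] [CharP k p] (h : Represents p N k X s) {o j : Fin N} (hoj : o ≠ j)
    {R : Type u} [CommRing R] [Algebra k R] (d : Chart o j R) :
    ∃ x : Spec (.of R) ⟶ X, x ≫ s = Spec.map (CommRingCat.ofHom (algebraMap k R)) ∧
      d.Is p (flag h x) := by
  obtain ⟨F, hF⟩ := chart_flag (p := p) (p_zero_of_hom p (algebraMap k R)) hoj d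
  obtain ⟨x, h1, h2⟩ := flag_surj h (algebraMap k R) F
  exact ⟨x, h1, by rw [h2]; exact hF⟩

theorem no_split [Fact p.Prime] [CharP k p] (h : Represents p N k X s) {o j1 j2 j3 : Fin N}
    (n12 : j1 ≠ j2) (n13 : j1 ≠ j3) (n23 : j2 ≠ j3)
    (c1 : ChartMor p o j1 k h) (c2 : ChartMor p o j2 k h) (c3 : ChartMor p o j3 k h)
    {W : X.Opens} (hW : IsAffineOpen W) (hW1 : W = c1.U ⊓ c2.U ⊓ c3.U)
    (d1 : Chart o j1 Γ(X, W)) (hd1 : d1.Is p (flag h (R := Γ(X, W)) hW.fromSpec))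
    (d2 : Chart o j2 Γ(X, W)) (hd2 : d2.Is p (flag h (R := Γ(X, W)) hW.fromSpec))
    (D f12 : Γ(X, c1.U ⊓ c2.U)) (f13 : Γ(X, c1.U ⊓ c3.U)) (f23 : Γ(X, c2.U ⊓ c3.U)) (g : Γ(X, W))
    (w12 : W ≤ c1.U ⊓ c2.U) (w13 : W ≤ c1.U ⊓ c3.U) (w23 : W ≤ c2.U ⊓ c3.U)
    (heq : d2.a j3 ^ p * res w12 D + d2.b j3 ^ p * res w12 f12 + res w23 f23 - res w13 f13 =
      bet p (d2.a j3) (d1.a j2 * d2.b j3) + g * d1.a j2 ^ p) : False := by
  have hp2 : 2 ≤ p := (Fact.out : p.Prime).two_le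
  have h1 := c1.hoj
  have h2 := c2.hoj
  have h3 := c3.hoj
  obtain ⟨E, iE, aE, ε, s0, u, v, S12, S13, S23, hε, ⟨a1, a2, a3, a4, a5⟩, ⟨b1, b2, b3, b4, b5⟩,
    ⟨e1, e2, e3, e4, e5⟩, htest⟩ := test_ring p k
  set w : Eˣ := v * u⁻¹ with hw
  have huw : (u : E) * (w : E) = v := by
    rw [hw, Units.val_mul, mul_left_comm, Units.mul_inv, mul_one]
  have huu : (u : E) * ((u⁻¹ : Eˣ) : E) = 1 := Units.mul_inv u
  -- the three test points
  obtain ⟨t12, t12s, t12d⟩ := exists_pt h h1 (mk4 (R := S12) h1 h2 h3 n12 n13 ⟨ε, a2⟩ ⟨s0, a1⟩ ⟨u, a3⟩ ⟨v, a5⟩)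
  obtain ⟨t13, t13s, t13d⟩ := exists_pt h h1 (mk4 (R := S13) h1 h2 h3 n12 n13 ⟨ε, b2⟩ ⟨s0, b1⟩ ⟨u, b3⟩ ⟨v, b4⟩)
  obtain ⟨t23, t23s, t23d⟩ := exists_pt h h2 (mk4 (R := S23) h2 h1 h3 n12.symm n23
    ⟨-(ε * ((u⁻¹ : Eˣ) : E)), S23.neg_mem e4⟩ ⟨s0 - ε * (w : E), e5⟩ ⟨((u⁻¹ : Eˣ) : E), e1⟩ ⟨(w : E), e2⟩)
  let v12 : S12 →+* E := S12.val.toRingHom
  let v13 : S13 →+* E := S13.val.toRingHom
  let v23 : S23 →+* E := S23.val.toRingHom
  let T : Spec (.of E) ⟶ X := Spec.map (CommRingCat.ofHom v12) ≫ t12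
  have hTd : (mk4 h1 h2 h3 n12 n13 ε s0 (u : E) (v : E)).Is p (flag h T) := by
    have := is_map h v12 t12 T rfl t12d
    rw [mk4_map] at this
    exact this
  have hTs : T ≫ s = Spec.map (CommRingCat.ofHom (algebraMap k E)) := by
    show (Spec.map (CommRingCat.ofHom v12) ≫ t12) ≫ s = _
    rw [Category.assoc, t12s, ← Spec.map_comp]
    rfl
  have hT13 : T = Spec.map (CommRingCat.ofHom v13) ≫ t13 := by
    refine pt_eq h ?_ hTd ?_
    · rw [hTs, Category.assoc, t13s, ← Spec.map_comp]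
      rfl
    · have := is_map h v13 t13 _ rfl t13d
      rw [mk4_map] at this
      exact this
  -- second chart
  have hpE : (p : E) = 0 := p_zero_of_hom p (algebraMap k E)
  have hε' : ε ^ p = 0 := by
    obtain ⟨m, hm⟩ := Nat.exists_eq_add_of_le hp2
    rw [hm, pow_add, hε, zero_mul]
  have hTd2 : (mk4 h2 h1 h3 n12.symm n23 (-(ε * ((u⁻¹ : Eˣ) : E))) (s0 - ε * (w : E))
      ((u⁻¹ : Eˣ) : E) (w : E)).Is p (flag h T) := by
    obtain ⟨d', hd'⟩ := chart_change hpE h2 hTd (by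
      have : (mk4 h1 h2 h3 n12 n13 ε s0 (u : E) (v : E)).b j2 = u := by
        simp [mk4, n12.symm]
      rw [this]; exact u.isUnit)
    obtain ⟨q1, q2, q3, q4⟩ := chart_overlap h1 h2 hTd hd'
    have r1 : (mk4 h1 h2 h3 n12 n13 ε s0 (u : E) (v : E)).b j2 = u := by
      simp [mk4, n12.symm]
    have r2 : (mk4 h1 h2 h3 n12 n13 ε s0 (u : E) (v : E)).a j2 = ε := by
      simp [mk4, h2.symm]
    have q2' : ∀ i, d'.b i = ((u⁻¹ : Eˣ) : E) * (mk4 h1 h2 h3 n12 n13 ε s0 (u : E) (v : E)).b i := by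
      intro i
      rw [q2 i, r1, ← mul_assoc, Units.inv_mul, one_mul]
    have key : d' = (mk4 h2 h1 h3 n12.symm n23 (-(ε * ((u⁻¹ : Eˣ) : E))) (s0 - ε * (w : E))
      ((u⁻¹ : Eˣ) : E) (w : E)) := by
      have hb : d'.b = (mk4 h2 h1 h3 n12.symm n23 (-(ε * ((u⁻¹ : Eˣ) : E))) (s0 - ε * (w : E))
        ((u⁻¹ : Eˣ) : E) (w : E)).b := by
        funext i
        rw [q2']
        simp only [mk4]
        split_ifs with i1 i2 i3 i4
        · exact absurd (i1.symm.trans i2) n12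
        · simp
        · simp
        · rw [hw]; push_cast; ring
        · simp
      apply Chart.ext' _ hb
      · rw [q4, r1, r2, hε']
        simp [mk4]
      · funext i
        have := q3 i
        rw [r2, q2'] at this
        have h5 : d'.a i = (mk4 h1 h2 h3 n12 n13 ε s0 (u : E) (v : E)).a i -
          ε * (((u⁻¹ : Eˣ) : E) * (mk4 h1 h2 h3 n12 n13 ε s0 (u : E) (v : E)).b i) := by
          rw [this]; ring
        rw [h5]
        simp only [mk4]
        by_cases i1 : i = o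
        · subst i1
          simp [h1, h2, h3]
        · by_cases i2 : i = j1
          · subst i2
            simp [h1.symm, n12, n13]
          · by_cases i3 : i = j2
            · subst i3
              simp [h2.symm, n12.symm, n23]
            · by_cases i4 : i = j3
              · subst i4
                simp [h3.symm, n13.symm, n23.symm, hw]
                ring
              · simp [i1, i2, i3, i4]
    rw [← key]
    exact hd'
  have hT23 : T = Spec.map (CommRingCat.ofHom v23) ≫ t23 := by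
    refine pt_eq h ?_ hTd2 ?_
    · rw [hTs, Category.assoc, t23s, ← Spec.map_comp]
      rfl
    · have := is_map h v23 t23 _ rfl t23d
      rw [mk4_map] at this
      exact this
  -- the ranges
  have m12 : ∀ y, t12 y ∈ c1.U ⊓ c2.U := by
    intro y
    refine ⟨c1.range t12 _ t12d y, ?_⟩
    obtain ⟨d', hd'⟩ := chart_change (p_zero_of_hom p (algebraMap k S12)) h2 t12d (by
      have : (mk4 (R := S12) h1 h2 h3 n12 n13 ⟨ε, a2⟩ ⟨s0, a1⟩ ⟨u, a3⟩ ⟨v, a5⟩).b j2 = ⟨u, a3⟩ := by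
        simp [mk4, n12.symm]
      rw [this]
      exact IsUnit.of_mul_eq_one ⟨((u⁻¹ : Eˣ) : E), a4⟩ (Subtype.ext huu))
    exact c2.range t12 d' hd' y
  have m13 : ∀ y, t13 y ∈ c1.U ⊓ c3.U := by
    intro y
    refine ⟨c1.range t13 _ t13d y, ?_⟩
    obtain ⟨d', hd'⟩ := chart_change (p_zero_of_hom p (algebraMap k S13)) h3 t13d (by
      have : (mk4 (R := S13) h1 h2 h3 n12 n13 ⟨ε, b2⟩ ⟨s0, b1⟩ ⟨u, b3⟩ ⟨v, b4⟩).b j3 = ⟨v, b4⟩ := by
        simp [mk4, n13.symm, n23.symm]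
      rw [this]
      exact IsUnit.of_mul_eq_one ⟨((v⁻¹ : Eˣ) : E), b5⟩ (Subtype.ext (Units.mul_inv v)))
    exact c3.range t13 d' hd' y
  have m23 : ∀ y, t23 y ∈ c2.U ⊓ c3.U := by
    intro y
    refine ⟨c2.range t23 _ t23d y, ?_⟩
    obtain ⟨d', hd'⟩ := chart_change (p_zero_of_hom p (algebraMap k S23)) h3 t23d (by
      have : (mk4 (R := S23) h2 h1 h3 n12.symm n23
        ⟨-(ε * ((u⁻¹ : Eˣ) : E)), S23.neg_mem e4⟩ ⟨s0 - ε * (w : E), e5⟩ ⟨((u⁻¹ : Eˣ) : E), e1⟩
          ⟨(w : E), e2⟩).b j3 = ⟨(w : E), e2⟩ := by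
        simp [mk4, n13.symm, n23.symm]
      rw [this]
      refine IsUnit.of_mul_eq_one ⟨((u * v⁻¹ : Eˣ) : E), e3⟩ (Subtype.ext ?_)
      show (w : E) * ((u * v⁻¹ : Eˣ) : E) = 1
      rw [hw, ← Units.val_mul]
      simp)
    exact c3.range t23 d' hd' y
  have hT12 : T = Spec.map (CommRingCat.ofHom v12) ≫ t12 := rfl
  have mT : ∀ y, T y ∈ W := by
    intro y
    rw [hW1]
    have x12 : T y ∈ c1.U ⊓ c2.U := m12 _
    have x13 : T y ∈ c1.U ⊓ c3.U := by rw [hT13]; exact m13 _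
    exact ⟨x12, x13.2⟩
  obtain ⟨e, he⟩ := exists_ev hW T mT
  obtain ⟨g12, hg12⟩ := exists_ev (c1.affine_inf c2) t12 m12
  obtain ⟨g13, hg13⟩ := exists_ev (c1.affine_inf c3) t13 m13
  obtain ⟨g23, hg23⟩ := exists_ev (c2.affine_inf c3) t23 m23
  have q12 : ∀ x, e (res w12 x) = v12 (g12 x) := by
    intro x
    have := ev_unique (ev_res (hU := c1.affine_inf c2) he w12) (ev_comp hg12 v12 hT12)
    exact congrArg (fun f => f x) this
  have q13 : ∀ x, e (res w13 x) = v13 (g13 x) := by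
    intro x
    have := ev_unique (ev_res (hU := c1.affine_inf c3) he w13) (ev_comp hg13 v13 hT13)
    exact congrArg (fun f => f x) this
  have q23 : ∀ x, e (res w23 x) = v23 (g23 x) := by
    intro x
    have := ev_unique (ev_res (hU := c2.affine_inf c3) he w23) (ev_comp hg23 v23 hT23)
    exact congrArg (fun f => f x) this
  have hd1' := ev_coord h h1 he hd1 hTd
  have hd2' := ev_coord h h2 he hd2 hTd2
  have ea : e (d1.a j2) = ε := by
    have : (d1.map e).a j2 = e (d1.a j2) := rfl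
    rw [← this, hd1']
    simp [mk4, h2.symm]
  have eb : e (d2.b j3) = w := by
    have : (d2.map e).b j3 = e (d2.b j3) := rfl
    rw [← this, hd2']
    simp [mk4, n13.symm, n23.symm]
  have ec : e (d2.a j3) = s0 - ε * (w : E) := by
    have : (d2.map e).a j3 = e (d2.a j3) := rfl
    rw [← this, hd2']
    simp [mk4, h3.symm, n13.symm]
  have h10 := congrArg e heq
  rw [map_sub, map_add, map_add, map_mul, map_mul, map_pow, map_pow, q12, q12, q13, q23, map_add,
    bet_map, map_mul, map_mul, map_pow, ea, eb, ec, hε', mul_zero, add_zero] at h10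
  have h11 : (s0 - ε * (w : E)) ^ p = s0 ^ p := by
    rw [sub_eq_add_neg, bet_spec, hpE, zero_mul, add_zero, ← neg_mul, mul_pow, neg_pow, hε', mul_zero,
      zero_mul, add_zero]
  have h12' : (ε * (w : E)) ^ 2 = 0 := by rw [mul_pow, hε, zero_mul]
  have h13' : ∀ n, (s0 - ε * (w : E)) ^ n * ε = s0 ^ n * ε := by
    intro n
    induction n with
    | zero => rw [pow_zero, pow_zero]
    | succ n ih =>
      rw [pow_succ, pow_succ, mul_assoc, sub_mul]
      have : ε * (w : E) * ε = 0 := by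
        have : ε * (w : E) * ε = ε ^ 2 * w := by ring
        rw [this, hε, zero_mul]
      rw [this, sub_zero, mul_comm s0 ε, ← mul_assoc, ih]
      ring
  rw [h11, bet_sq_zero _ _ h12', ← mul_assoc, h13'] at h10
  refine htest (v12 (g12 D)) (g12 D).2 (v12 (g12 f12)) (g12 f12).2 (v13 (g13 f13)) (g13 f13).2
    (v23 (g23 f23)) (g23 f23).2 ?_
  rw [h10]
  ring

end NoSplit2

end Totaro
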