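import Pool.Agent.Helper49.Tot.T6

open CategoryTheory AlgebraicGeometry TopologicalSpace Opposite

universe u

namespace Totaro

section Pi

variable {p : ℕ} {k Λ : Type u} [CommRing k] [CommRing Λ] {q : Λ →+* k}
variable {X Y Z : Scheme.{u}} {g : Y ⟶ Spec (.of k)} {f : Z ⟶ Spec (.of Λ)} {i : Y ⟶ Z}

/-- restriction of sections of a lift to the sections of `Y` over an open with the same points -/
def piY (i : Y ⟶ Z) {V : Z.Opens} {U : Y.Opens} (hVU : i ⁻¹ᵁ V = U) : Γ(Z, V) →+* Γ(Y, U) :=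
  (res hVU.ge).comp (i.app V).hom

theorem piY_eq_zero {V : Z.Opens} {U : Y.Opens} (hVU : i ⁻¹ᵁ V = U) (x : Γ(Z, V))
    (h : piY i hVU x = 0) : i.app V x = 0 := by
  subst hVU
  have h1 : res (le_refl (i ⁻¹ᵁ V)) (i.app V x) = 0 := h
  rwa [res_self] at h1

theorem piY_ker (hq : IsLen2 p q)
    (h : IsPullback i g f (Spec.map (CommRingCat.ofHom q))) {V : Z.Opens} {U : Y.Opens}
    (hVU : i ⁻¹ᵁ V = U) (hV : IsAffineOpen V) (x y : Γ(Z, V)) (hx : piY i hVU x = piY i hVU y) :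
    ∃ b, x = y + p * b := by
  obtain ⟨b, hb⟩ := affine_ker hq h hV (x - y) (piY_eq_zero hVU _ (by rw [map_sub, hx, sub_self]))
  exact ⟨b, by rw [← hb]; ring⟩

theorem piY_surj (hq : IsLen2 p q)
    (h : IsPullback i g f (Spec.map (CommRingCat.ofHom q))) {V : Z.Opens} {U : Y.Opens}
    (hVU : i ⁻¹ᵁ V = U) (hV : IsAffineOpen V) (y : Γ(Y, U)) : ∃ x, piY i hVU x = y := by
  subst hVU
  have hcl := isClosedImmersion_i hq h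
  obtain ⟨x, hx⟩ := Scheme.Hom.app_surjective i V hV y
  refine ⟨x, ?_⟩
  show res (le_refl (i ⁻¹ᵁ V)) (i.app V x) = y
  rw [res_self]
  exact hx

theorem piY_res {V V' : Z.Opens} {U U' : Y.Opens} (hVU : i ⁻¹ᵁ V = U) (hVU' : i ⁻¹ᵁ V' = U')
    (hV : V' ≤ V) (hU : U' ≤ U) (x : Γ(Z, V)) :
    piY i hVU' (res hV x) = res hU (piY i hVU x) := by
  subst hVU
  subst hVU'
  show res _ (i.app V' (res hV x)) = res _ (res _ (i.app V x))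
  rw [app_res, res_res, res_res]

end Pi

/-- An additive, linear and natural retraction of the structure sheaf of `Y` onto that of `X`. -/
structure Retr {X Y : Scheme.{u}} (f : Y ⟶ X) where
  ρ : ∀ U : X.Opens, Γ(Y, f ⁻¹ᵁ U) →+ Γ(X, U)
  lin : ∀ (U : X.Opens) (x : Γ(X, U)) (y : Γ(Y, f ⁻¹ᵁ U)), ρ U (f.app U x * y) = x * ρ U y
  one : ∀ U : X.Opens, ρ U 1 = 1
  nat : ∀ (W U : X.Opens) (h : W ≤ U) (h' : f ⁻¹ᵁ W ≤ f ⁻¹ᵁ U) (y : Γ(Y, f ⁻¹ᵁ U)),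
    ρ W (res h' y) = res h (ρ U y)

section Main

variable {p N : ℕ} {k Λ : Type u} [Field k] [CommRing Λ] {q : Λ →+* k}
variable {X Y : Scheme.{u}} {s : X ⟶ Spec (.of k)}

theorem not_lift [Fact p.Prime] [CharP k p] (h : Represents p N k X s) (hN : 4 ≤ N)
    (hq : IsLen2 p q) (f : Y ⟶ X) [IsAffineHom f] (R : Retr f) : ¬ LiftsTo Λ q Y (f ≫ s) := by
  rintro ⟨Z, fZ, i, hflat, hpb⟩
  let o : Fin N := ⟨0, by omega⟩
  let j1 : Fin N := ⟨1, by omega⟩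
  let j2 : Fin N := ⟨2, by omega⟩
  let j3 : Fin N := ⟨3, by omega⟩
  have h1 : o ≠ j1 := by simp [o, j1]
  have h2 : o ≠ j2 := by simp [o, j2]
  have h3 : o ≠ j3 := by simp [o, j3]
  have n12 : j1 ≠ j2 := by simp [j1, j2]
  have n13 : j1 ≠ j3 := by simp [j1, j3]
  have n23 : j2 ≠ j3 := by simp [j2, j3]
  obtain ⟨c1⟩ := exists_chartMor (p := p) h h1
  obtain ⟨c2⟩ := exists_chartMor (p := p) h h2
  obtain ⟨c3⟩ := exists_chartMor (p := p) h h3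
  have hW : IsAffineOpen (c1.U ⊓ c2.U ⊓ c3.U) := c1.affine_inf₂ c2 c3
  have a12 : IsAffineOpen (c1.U ⊓ c2.U) := c1.affine_inf c2
  have a13 : IsAffineOpen (c1.U ⊓ c3.U) := c1.affine_inf c3
  have a23 : IsAffineOpen (c2.U ⊓ c3.U) := c2.affine_inf c3
  have w12 : c1.U ⊓ c2.U ⊓ c3.U ≤ c1.U ⊓ c2.U := inf_le_left
  have w13 : c1.U ⊓ c2.U ⊓ c3.U ≤ c1.U ⊓ c3.U := inf_le_inf_right _ inf_le_left
  have w23 : c1.U ⊓ c2.U ⊓ c3.U ≤ c2.U ⊓ c3.U := inf_le_inf_right _ inf_le_right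
  -- coordinates
  obtain ⟨D1, hD1⟩ := c1.coord_open c1.affine (le_refl _)
  obtain ⟨D2, hD2⟩ := c2.coord_open c2.affine (le_refl _)
  obtain ⟨D3, hD3⟩ := c3.coord_open c3.affine (le_refl _)
  have is1 : ∀ (U : X.Opens) (hU : IsAffineOpen U) (hUc : U ≤ c1.U),
      (D1.map (res hUc)).Is p (flag h (R := Γ(X, U)) hU.fromSpec) := by
    intro U hU hUc
    obtain ⟨d, hd⟩ := c1.coord_open hU hUc
    rw [coord_res h h1 hUc hD1 hd]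
    exact hd
  have is2 : ∀ (U : X.Opens) (hU : IsAffineOpen U) (hUc : U ≤ c2.U),
      (D2.map (res hUc)).Is p (flag h (R := Γ(X, U)) hU.fromSpec) := by
    intro U hU hUc
    obtain ⟨d, hd⟩ := c2.coord_open hU hUc
    rw [coord_res h h2 hUc hD2 hd]
    exact hd
  have is3 : ∀ (U : X.Opens) (hU : IsAffineOpen U) (hUc : U ≤ c3.U),
      (D3.map (res hUc)).Is p (flag h (R := Γ(X, U)) hU.fromSpec) := by
    intro U hU hUc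
    obtain ⟨d, hd⟩ := c3.coord_open hU hUc
    rw [coord_res h h3 hUc hD3 hd]
    exact hd
  obtain ⟨-, -, -, r12⟩ := chart_overlap h1 h2 (is1 _ a12 inf_le_left) (is2 _ a12 inf_le_right)
  obtain ⟨-, -, -, r13⟩ := chart_overlap h1 h3 (is1 _ a13 inf_le_left) (is3 _ a13 inf_le_right)
  obtain ⟨-, -, -, r23⟩ := chart_overlap h2 h3 (is2 _ a23 inf_le_left) (is3 _ a23 inf_le_right)
  obtain ⟨-, rb, ra, -⟩ := chart_overlap h1 h2 (is1 _ hW (w12.trans inf_le_left))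
    (is2 _ hW (w12.trans inf_le_right))
  -- opens of the lift
  obtain ⟨V1, hV1⟩ := exists_preimage hq hpb (f ⁻¹ᵁ c1.U)
  obtain ⟨V2, hV2⟩ := exists_preimage hq hpb (f ⁻¹ᵁ c2.U)
  obtain ⟨V3, hV3⟩ := exists_preimage hq hpb (f ⁻¹ᵁ c3.U)
  have hV12 : i ⁻¹ᵁ (V1 ⊓ V2) = f ⁻¹ᵁ (c1.U ⊓ c2.U) := by
    show i ⁻¹ᵁ V1 ⊓ i ⁻¹ᵁ V2 = f ⁻¹ᵁ c1.U ⊓ f ⁻¹ᵁ c2.U
    rw [hV1, hV2]
  have hV13 : i ⁻¹ᵁ (V1 ⊓ V3) = f ⁻¹ᵁ (c1.U ⊓ c3.U) := by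
    show i ⁻¹ᵁ V1 ⊓ i ⁻¹ᵁ V3 = f ⁻¹ᵁ c1.U ⊓ f ⁻¹ᵁ c3.U
    rw [hV1, hV3]
  have hV23 : i ⁻¹ᵁ (V2 ⊓ V3) = f ⁻¹ᵁ (c2.U ⊓ c3.U) := by
    show i ⁻¹ᵁ V2 ⊓ i ⁻¹ᵁ V3 = f ⁻¹ᵁ c2.U ⊓ f ⁻¹ᵁ c3.U
    rw [hV2, hV3]
  have hVW : i ⁻¹ᵁ (V1 ⊓ V2 ⊓ V3) = f ⁻¹ᵁ (c1.U ⊓ c2.U ⊓ c3.U) := by
    show i ⁻¹ᵁ (V1 ⊓ V2) ⊓ i ⁻¹ᵁ V3 = f ⁻¹ᵁ (c1.U ⊓ c2.U) ⊓ f ⁻¹ᵁ c3.U
    rw [hV12, hV3]
  have aV : ∀ (U : X.Opens) (V : Z.Opens), i ⁻¹ᵁ V = f ⁻¹ᵁ U → IsAffineOpen U → IsAffineOpen V := by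
    intro U V hVU hU
    apply affine_thick hq hpb
    rw [hVU]
    exact hU.preimage f
  have aV1 := aV _ _ hV1 c1.affine
  have aV2 := aV _ _ hV2 c2.affine
  have aV3 := aV _ _ hV3 c3.affine
  have aV12 := aV _ _ hV12 a12
  have aV13 := aV _ _ hV13 a13
  have aV23 := aV _ _ hV23 a23
  have aVW := aV _ _ hVW hW
  -- lifts of the coordinates
  obtain ⟨y1, hy1⟩ := piY_surj hq hpb hV1 aV1 (f.app _ D1.c)
  obtain ⟨r, hr⟩ := piY_surj hq hpb hV1 aV1 (f.app _ (D1.a j2))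
  obtain ⟨u, hu⟩ := piY_surj hq hpb hV1 aV1 (f.app _ (D1.b j2))
  obtain ⟨s1, hs1⟩ := piY_surj hq hpb hV1 aV1 (f.app _ (D1.a j3))
  obtain ⟨v, hv⟩ := piY_surj hq hpb hV1 aV1 (f.app _ (D1.b j3))
  obtain ⟨y2, hy2⟩ := piY_surj hq hpb hV2 aV2 (f.app _ D2.c)
  obtain ⟨s2, hs2⟩ := piY_surj hq hpb hV2 aV2 (f.app _ (D2.a j3))
  obtain ⟨v2, hv2⟩ := piY_surj hq hpb hV2 aV2 (f.app _ (D2.b j3))
  obtain ⟨y3, hy3⟩ := piY_surj hq hpb hV3 aV3 (f.app _ D3.c)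
  have key : ∀ (U U' : X.Opens) (V V' : Z.Opens) (hVU : i ⁻¹ᵁ V = f ⁻¹ᵁ U)
      (hVU' : i ⁻¹ᵁ V' = f ⁻¹ᵁ U') (hV : V' ≤ V) (hU : U' ≤ U) (x : Γ(Z, V)) (y : Γ(X, U)),
      piY i hVU x = f.app U y → piY i hVU' (res hV x) = f.app U' (res hU y) := by
    intro U U' V V' hVU hVU' hV hU x y hxy
    rw [piY_res hVU hVU' hV (show f ⁻¹ᵁ U' ≤ f ⁻¹ᵁ U from fun _ hx => hU hx), hxy, app_res]
  have ring1 : ∀ (U : X.Opens) (a b c d : Γ(X, U)), a = b ^ p + c * d ^ p →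
      f.app U a = f.app U b ^ p + f.app U c * f.app U d ^ p := by
    intro U a b c d hh
    rw [hh, map_add, map_mul, map_pow, map_pow]
  have ring2 : ∀ (U : X.Opens) (a b c : Γ(X, U)), a = b * c →
      f.app U a = f.app U b * f.app U c := by
    intro U a b c hh
    rw [hh, map_mul]
  have ring3 : ∀ (U : X.Opens) (a b c d : Γ(X, U)), a = b + c * d →
      f.app U a = f.app U b + f.app U c * f.app U d := by
    intro U a b c d hh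
    rw [hh, map_add, map_mul]
  obtain ⟨b12, hb12⟩ := piY_ker hq hpb hV12 aV12 (res inf_le_right y2)
    (res inf_le_left r ^ p + res inf_le_left y1 * res inf_le_left u ^ p) (by
      rw [map_add, map_mul, map_pow, map_pow, key _ _ _ _ hV2 hV12 inf_le_right inf_le_right _ _ hy2,
        key _ _ _ _ hV1 hV12 inf_le_left inf_le_left _ _ hr,
        key _ _ _ _ hV1 hV12 inf_le_left inf_le_left _ _ hy1,
        key _ _ _ _ hV1 hV12 inf_le_left inf_le_left _ _ hu]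
      exact ring1 _ _ _ _ _ r12)
  obtain ⟨b13, hb13⟩ := piY_ker hq hpb hV13 aV13 (res inf_le_right y3)
    (res inf_le_left s1 ^ p + res inf_le_left y1 * res inf_le_left v ^ p) (by
      rw [map_add, map_mul, map_pow, map_pow, key _ _ _ _ hV3 hV13 inf_le_right inf_le_right _ _ hy3,
        key _ _ _ _ hV1 hV13 inf_le_left inf_le_left _ _ hs1,
        key _ _ _ _ hV1 hV13 inf_le_left inf_le_left _ _ hy1,
        key _ _ _ _ hV1 hV13 inf_le_left inf_le_left _ _ hv]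
      exact ring1 _ _ _ _ _ r13)
  obtain ⟨b23, hb23⟩ := piY_ker hq hpb hV23 aV23 (res inf_le_right y3)
    (res inf_le_left s2 ^ p + res inf_le_left y2 * res inf_le_left v2 ^ p) (by
      rw [map_add, map_mul, map_pow, map_pow, key _ _ _ _ hV3 hV23 inf_le_right inf_le_right _ _ hy3,
        key _ _ _ _ hV2 hV23 inf_le_left inf_le_left _ _ hs2,
        key _ _ _ _ hV2 hV23 inf_le_left inf_le_left _ _ hy2,
        key _ _ _ _ hV2 hV23 inf_le_left inf_le_left _ _ hv2]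
      exact ring1 _ _ _ _ _ r23)
  have v12 : V1 ⊓ V2 ⊓ V3 ≤ V1 ⊓ V2 := inf_le_left
  have v13 : V1 ⊓ V2 ⊓ V3 ≤ V1 ⊓ V3 := inf_le_inf_right _ inf_le_left
  have v23 : V1 ⊓ V2 ⊓ V3 ≤ V2 ⊓ V3 := inf_le_inf_right _ inf_le_right
  have k1 : V1 ⊓ V2 ⊓ V3 ≤ V1 := v12.trans inf_le_left
  have k2 : V1 ⊓ V2 ⊓ V3 ≤ V2 := v12.trans inf_le_right
  have k3 : V1 ⊓ V2 ⊓ V3 ≤ V3 := inf_le_right
  have l1 : c1.U ⊓ c2.U ⊓ c3.U ≤ c1.U := w12.trans inf_le_left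
  have l2 : c1.U ⊓ c2.U ⊓ c3.U ≤ c2.U := w12.trans inf_le_right
  obtain ⟨e1, he1⟩ := piY_ker hq hpb hVW aVW (res k1 v) (res k1 u * res k2 v2) (by
      rw [map_mul, key _ _ _ _ hV1 hVW k1 l1 _ _ hv, key _ _ _ _ hV1 hVW k1 l1 _ _ hu,
        key _ _ _ _ hV2 hVW k2 l2 _ _ hv2]
      exact ring2 _ _ _ _ (rb j3))
  obtain ⟨e2, he2⟩ := piY_ker hq hpb hVW aVW (res k1 s1) (res k2 s2 + res k1 r * res k2 v2) (by
      rw [map_add, map_mul, key _ _ _ _ hV1 hVW k1 l1 _ _ hs1, key _ _ _ _ hV1 hVW k1 l1 _ _ hr,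
        key _ _ _ _ hV2 hVW k2 l2 _ _ hs2, key _ _ _ _ hV2 hVW k2 l2 _ _ hv2]
      exact ring3 _ _ _ _ _ (ra j3))
  have eq12 := congrArg (res v12) hb12
  have eq13 := congrArg (res v13) hb13
  have eq23 := congrArg (res v23) hb23
  simp only [map_add, map_mul, map_pow, res_res, map_natCast] at eq12 eq13 eq23
  have hC : (p : Γ(Y, f ⁻¹ᵁ (c1.U ⊓ c2.U ⊓ c3.U))) = 0 := p_zero hq (f ≫ s) _
  have hkey := key_ring (p := p) (piY i hVW) (p_sq hq fZ _) hC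
    (fun x hx => affine_ann hq hflat aVW x hx)
    (res k1 y1) (res k2 y2) (res k3 y3) (res k1 r) (res k1 u) (res k1 s1) (res k1 v) (res k2 s2)
    (res k2 v2) (res v12 b12) (res v13 b13) (res v23 b23) e1 e2 eq12 eq13 eq23 he1 he2
  rw [key _ _ _ _ hV1 hVW k1 l1 _ _ hr, key _ _ _ _ hV2 hVW k2 l2 _ _ hs2,
    key _ _ _ _ hV2 hVW k2 l2 _ _ hv2,
    piY_res hV12 hVW v12 (show f ⁻¹ᵁ _ ≤ f ⁻¹ᵁ _ from fun _ hx => w12 hx),
    piY_res hV13 hVW v13 (show f ⁻¹ᵁ _ ≤ f ⁻¹ᵁ _ from fun _ hx => w13 hx),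
    piY_res hV23 hVW v23 (show f ⁻¹ᵁ _ ≤ f ⁻¹ᵁ _ from fun _ hx => w23 hx),
    ← map_mul, ← map_pow] at hkey
  have hfin := congrArg (R.ρ _) hkey
  have hbet : bet p (f.app (c1.U ⊓ c2.U ⊓ c3.U) (res l2 (D2.a j3)))
      (f.app (c1.U ⊓ c2.U ⊓ c3.U) (res l1 (D1.a j2) * res l2 (D2.b j3))) =
      f.app (c1.U ⊓ c2.U ⊓ c3.U) (bet p (res l2 (D2.a j3)) (res l1 (D1.a j2) * res l2 (D2.b j3))) *
        1 := by
    rw [mul_one]
    exact (bet_map (f.app (c1.U ⊓ c2.U ⊓ c3.U)).hom _ _).symm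
  rw [hbet, R.lin, R.one, mul_one, map_sub, map_add, mul_comm, R.lin, R.nat _ _ w12, R.nat _ _ w13,
    R.nat _ _ w23] at hfin
  refine no_split h n12 n13 n23 c1 c2 c3 hW rfl (D1.map (res l1)) (is1 _ hW l1) (D2.map (res l2))
    (is2 _ hW l2) 0 (R.ρ _ (piY i hV12 b12)) (R.ρ _ (piY i hV13 b13)) (R.ρ _ (piY i hV23 b23)) 0
    w12 w13 w23 ?_
  rw [map_zero, mul_zero, zero_add, zero_mul, add_zero]
  exact hfin

end Main

end Totaro
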