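import Pool.Agent.Helper49.Tot.T7
import Pool.Agent.Helper49.Tot.Defs

open CategoryTheory AlgebraicGeometry TopologicalSpace Opposite

universe u

namespace Totaro

/-- A double cover: an involution `σ` of `Y` over `X` such that the structure sheaf of `X` is the
sheaf of invariants of `σ` in the direct image of the structure sheaf of `Y`. -/
structure DoubleCover {X Y : Scheme.{u}} (f : Y ⟶ X) where
  σ : Y ⟶ Y
  overX : σ ≫ f = f
  invol : σ ≫ σ = 𝟙 Y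
  inj : ∀ U : X.Opens, Function.Injective (f.app U)
  inv : ∀ (U : X.Opens) (h : f ⁻¹ᵁ U ≤ σ ⁻¹ᵁ (f ⁻¹ᵁ U)) (y : Γ(Y, f ⁻¹ᵁ U)),
    σ.appLE (f ⁻¹ᵁ U) (f ⁻¹ᵁ U) h y = y → ∃ x : Γ(X, U), f.app U x = y

section Double

variable {X Y : Scheme.{u}} {f : Y ⟶ X}

theorem DoubleCover.le (c : DoubleCover f) (U : X.Opens) : f ⁻¹ᵁ U ≤ c.σ ⁻¹ᵁ (f ⁻¹ᵁ U) := by
  have : c.σ ⁻¹ᵁ (f ⁻¹ᵁ U) = (c.σ ≫ f) ⁻¹ᵁ U := rfl
  rw [this, c.overX]

/-- the action of the involution on the sections over a preimage -/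
noncomputable def DoubleCover.act (c : DoubleCover f) (U : X.Opens) :
    Γ(Y, f ⁻¹ᵁ U) →+* Γ(Y, f ⁻¹ᵁ U) :=
  (c.σ.appLE (f ⁻¹ᵁ U) (f ⁻¹ᵁ U) (c.le U)).hom

theorem appLE_eq {g g' : Y ⟶ Y} (h : g = g') {U V : Y.Opens} (e : V ≤ g ⁻¹ᵁ U) (e' : V ≤ g' ⁻¹ᵁ U)
    (y : Γ(Y, U)) : g.appLE U V e y = g'.appLE U V e' y := by
  subst h; rfl

theorem DoubleCover.act_act (c : DoubleCover f) (U : X.Opens) (y : Γ(Y, f ⁻¹ᵁ U)) :
    c.act U (c.act U y) = y := by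
  have h1 := Scheme.Hom.appLE_comp_appLE c.σ c.σ (f ⁻¹ᵁ U) (f ⁻¹ᵁ U) (f ⁻¹ᵁ U) (c.le U) (c.le U)
  have h2 : c.act U (c.act U y) =
      (c.σ.appLE (f ⁻¹ᵁ U) (f ⁻¹ᵁ U) (c.le U) ≫ c.σ.appLE (f ⁻¹ᵁ U) (f ⁻¹ᵁ U) (c.le U)) y := rfl
  rw [h2, h1]
  have h4 : ∀ (g : Y ⟶ Y) (hg : g = 𝟙 Y) (e : f ⁻¹ᵁ U ≤ g ⁻¹ᵁ (f ⁻¹ᵁ U)),
      g.appLE (f ⁻¹ᵁ U) (f ⁻¹ᵁ U) e y = y := by
    rintro g rfl e
    rw [Scheme.Hom.appLE, Scheme.Hom.id_app]
    exact res_self (le_refl (f ⁻¹ᵁ U)) y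
  exact h4 _ c.invol _

theorem DoubleCover.act_app (c : DoubleCover f) (U : X.Opens) (x : Γ(X, U)) :
    c.act U (f.app U x) = f.app U x := by
  have h1 := Scheme.Hom.app_eq_appLE f (U := U)
  have h2 := Scheme.Hom.appLE_comp_appLE c.σ f U (f ⁻¹ᵁ U) (f ⁻¹ᵁ U) (le_refl _) (c.le U)
  have h3 : c.act U (f.app U x) = (f.appLE U (f ⁻¹ᵁ U) (le_refl _) ≫
      c.σ.appLE (f ⁻¹ᵁ U) (f ⁻¹ᵁ U) (c.le U)) x := by
    rw [← h1]; rfl
  rw [h3, h2, h1]
  have h4 : ∀ (g : Y ⟶ X) (hg : g = f) (e : f ⁻¹ᵁ U ≤ g ⁻¹ᵁ U),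
      g.appLE U (f ⁻¹ᵁ U) e = f.appLE U (f ⁻¹ᵁ U) (le_refl _) := by
    rintro g rfl e; rfl
  rw [h4 _ c.overX]

theorem DoubleCover.act_res (c : DoubleCover f) {U W : X.Opens} (h : f ⁻¹ᵁ W ≤ f ⁻¹ᵁ U)
    (y : Γ(Y, f ⁻¹ᵁ U)) : c.act W (res h y) = res h (c.act U y) := by
  have h1 : c.act W (res h y) = (Y.presheaf.map (homOfLE h).op ≫
    c.σ.appLE (f ⁻¹ᵁ W) (f ⁻¹ᵁ W) (c.le W)) y := rfl
  have h2 : res h (c.act U y) = (c.σ.appLE (f ⁻¹ᵁ U) (f ⁻¹ᵁ U) (c.le U) ≫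
    Y.presheaf.map (homOfLE h).op) y := rfl
  rw [h1, h2, Scheme.Hom.map_appLE, Scheme.Hom.appLE_map]

theorem doubleCover_retr {k : Type u} [Field k] (h2 : (2 : k) ≠ 0) (s : X ⟶ Spec (.of k))
    (c : DoubleCover f) : Nonempty (Retr f) := by
  have hun : ∀ U : X.Opens, ∃ t : Γ(X, U), 2 * t = 1 := by
    intro U
    let κ : k →+* Γ(X, U) := (s.appLE ⊤ U (by simp)).hom.comp (Scheme.ΓSpecIso (.of k)).inv.hom
    refine ⟨κ (2⁻¹), ?_⟩
    have : κ (2 * 2⁻¹) = 1 := by rw [mul_inv_cancel₀ h2, map_one]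
    rw [map_mul, map_ofNat] at this
    exact this
  have hex : ∀ (U : X.Opens) (y : Γ(Y, f ⁻¹ᵁ U)), ∃ x : Γ(X, U), f.app U (2 * x) = y + c.act U y := by
    intro U y
    obtain ⟨t, ht⟩ := hun U
    obtain ⟨x, hx⟩ := c.inv U (c.le U) (y + c.act U y) (by
      show c.act U (y + c.act U y) = _
      rw [map_add, c.act_act, add_comm])
    refine ⟨t * x, ?_⟩
    rw [← mul_assoc, ht, one_mul, hx]
  have hinj : ∀ (U : X.Opens) (x x' : Γ(X, U)), f.app U (2 * x) = f.app U (2 * x') → x = x' := by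
    intro U x x' hxx
    obtain ⟨t, ht⟩ := hun U
    have h1 := c.inj U hxx
    have h3 : t * (2 * x) = t * (2 * x') := by rw [h1]
    have h4 : ∀ z : Γ(X, U), t * (2 * z) = z := by
      intro z
      rw [← mul_assoc, mul_comm t 2, ht, one_mul]
    rwa [h4, h4] at h3
  choose r hr using hex
  refine ⟨⟨fun U => ⟨⟨r U, ?_⟩, ?_⟩, ?_, ?_, ?_⟩⟩
  · apply hinj
    rw [hr, map_zero, mul_zero, map_zero, add_zero]
  · intro y y'
    apply hinj
    rw [hr, mul_add, map_add, map_add, hr, hr]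
    ring
  · intro U x y
    apply hinj
    show f.app U (2 * r U (f.app U x * y)) = f.app U (2 * (x * r U y))
    rw [hr, map_mul, c.act_app, mul_left_comm, map_mul, hr]
    ring
  · intro U
    apply hinj
    show f.app U (2 * r U 1) = f.app U (2 * 1)
    rw [hr, map_one, mul_one, map_ofNat]
    norm_num
  · intro W U h h' y
    apply hinj
    show f.app W (2 * r W (res h' y)) = f.app W (2 * res h (r U y))
    rw [hr, c.act_res]
    have h5 : (2 : Γ(X, W)) * res h (r U y) = res h (2 * r U y) := by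
      rw [map_mul, map_ofNat]
    rw [h5, app_res, hr, map_add]

/-- the identity retraction -/
def idRetr (X : Scheme.{u}) : Retr (𝟙 X) where
  ρ := fun U => (RingHom.id Γ(X, U)).toAddMonoidHom
  lin := by
    intro U x y
    rw [Scheme.Hom.id_app]
    rfl
  one := fun U => rfl
  nat := by
    intro W U h h' y
    rfl

end Double

section Final

variable (p : ℕ) [Fact p.Prime] (k : Type u) [Field k] [CharP k p]

theorem wres_len2 [PerfectRing k p] : IsLen2 p (wres p k) := by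
  obtain ⟨q, hq, hq2⟩ := witt_len2 p k
  have : q = wres p k := by
    apply Ideal.Quotient.ringHom_ext
    ext x
    exact hq2 x
  rw [← this]
  exact hq

variable {p k}

theorem X_no_lift [PerfectRing k p] {N : ℕ} (hN : 4 ≤ N) {X : Scheme.{u}} {s : X ⟶ Spec (.of k)}
    (h : Represents p N k X s) : ¬ LiftsTo (WTwo p k) (wres p k) X s := by
  have := not_lift h hN (wres_len2 p k) (𝟙 X) (idRetr X)
  rwa [Category.id_comp] at this

theorem double_no_lift [PerfectRing k p] (hp : p ≠ 2) {N : ℕ} (hN : 4 ≤ N) {X Y : Scheme.{u}}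
    {s : X ⟶ Spec (.of k)} (h : Represents p N k X s) (f : Y ⟶ X) [IsAffineHom f]
    (c : DoubleCover f) : ¬ LiftsTo (WTwo p k) (wres p k) Y (f ≫ s) := by
  have h2 : (2 : k) ≠ 0 := by
    intro h0
    have h1 : ((2 : ℕ) : k) = 0 := by exact_mod_cast h0
    rw [CharP.cast_eq_zero_iff k p 2] at h1
    exact hp ((Nat.prime_dvd_prime_iff_eq Fact.out Nat.prime_two).1 h1)
  obtain ⟨R⟩ := doubleCover_retr h2 s c
  exact not_lift h hN (wres_len2 p k) f R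

end Final

end Totaro
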