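import Pool.Agent.Helper49.Tot.Defs
import Pool.Agent.Helper49.Tot.A12

open CategoryTheory AlgebraicGeometry

open scoped KaehlerDifferential

universe u

namespace Totaro

section

variable {k : Type u} [Field k] {X Y : Scheme.{u}} {s : X ⟶ Spec (.of k)} {f : Y ⟶ X}

theorem repFlags_represents {p N : ℕ} (h : RepFlags p N k X s) : Nonempty (Represents p N k X s) := by
  refine ⟨⟨fun R _ _ => h.pt R, ?_⟩⟩
  intro R R' _ _ _ _ φ x x' hx
  have h1 : x' = Pt.map φ x := Subtype.ext hx
  rw [h1]
  exact h.nat R R' φ x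

theorem dblCover_double (c : DblCover f) : Nonempty (DoubleCover f) :=
  ⟨⟨c.σ, c.overX, c.invol, c.inj, c.inv⟩⟩

theorem hTwo_cech (h : HTwoZero Y) : CechTwoZero Y := by
  intro ι _ U hU hcov ω hω
  obtain ⟨η, hη⟩ := h ι U hU hcov ω (by
    intro a b c d V h1 h2 h3 h4
    have hV : V ≤ U a ⊓ U b ⊓ U c ⊓ U d := fun z hz => ⟨h4 hz, (h1 hz).2⟩
    have h5 := congrArg (res hV) (hω a b c d)
    rw [map_sub, map_add, map_sub, map_zero, res_res, res_res, res_res, res_res] at h5
    exact h5)
  exact ⟨η, fun a b c => hη a b c _ _ _⟩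

theorem range_lift {A M : Type u} [CommRing A] [AddCommGroup M] [Module A M] {n : ℕ}
    (σ : M [⋀^Fin n]→ₗ[A] A) (x : A) :
    (∃ ω, exteriorPower.alternatingMapLinearEquiv σ ω = x) ↔ x ∈ Ideal.span (Set.range σ) := by
  have h1 : (exteriorPower.alternatingMapLinearEquiv σ).range = Ideal.span (Set.range σ) := by
    rw [LinearMap.range_eq_map, ← exteriorPower.ιMulti_span A n M, Submodule.map_span]
    show Submodule.span A _ = Submodule.span A _
    congr 1
    rw [← Set.range_comp]
    congr 1
    funext θ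
    exact exteriorPower.alternatingMapLinearEquiv_apply_ιMulti σ θ
  rw [← h1]
  rfl

theorem antiDiv_anti {n : ℕ} (h : AntiDiv n s f) : Nonempty (Anticanonical n s f) := by
  refine ⟨⟨fun U hU => ?_, ?_, ?_, ?_⟩⟩
  · exact (exteriorPower.alternatingMapLinearEquiv (h.σ U hU) :)
  · intro U hU t ht
    apply h.reg U hU t
    intro θ
    have h1 := ht (exteriorPower.ιMulti _ n θ)
    erw [exteriorPower.alternatingMapLinearEquiv_apply_ιMulti] at h1
    exact h1
  · intro U hU x
    exact (range_lift (h.σ U hU) x).trans (h.ideal U hU x)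
  · intro W U hW hU hWU x
    have h1 := h.nat W U hW hU hWU x
    have h2 : ∀ (V : X.Opens) (hV : IsAffineOpen V) (y : Fin n → SecK s V),
        exteriorPower.alternatingMapLinearEquiv (h.σ V hV) (exteriorPower.ιMulti _ n (fun i => dK (y i)))
          = h.σ V hV (fun i => dK (y i)) := fun V hV y =>
      exteriorPower.alternatingMapLinearEquiv_apply_ιMulti _ _
    have h3 := (h2 W hW _).trans (h1.trans (congrArg (rsK s hWU) (h2 U hU x).symm))
    exact h3

end

end Totaro
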